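import Mathlib
import Pool.Agent.H11.SC.Appr

/-!
# Degree two, conductors 5, 6, 7 (helper11): definitions

PROJECT.  Theorem: if `F` is an entire element of the Selberg class of degree `2` and conductor
`q ∈ {5, 6, 7}` then `∑_{p ≤ x} |a_F(p)|² / p = log log x + O(1)`.

PLAN.  `f z = ∑ a(n) n³ e(nz)`, `f* = ∑ conj a(n) n³ e(nz)`, `J z = (√q (-iz))^(-7)`.
1. `f z = ω J(z) f*(-1/(qz)) + O((Im z)^(-13/4))`, `ω = ωm` for `Re z ≤ 0`, `ω = ωp` for `Re z ≥ 0`.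
2. `f(w + 1/6) + f(w - 1/6) = ∑_{k,j} L(k,j) d³ f(d w)`, `d = 2^k 3^j` (Euler factors at 2 and 3).
   As `w → 0`, both sides are expanded in the variable `w' = -1/(qw)`; the points `± 1/6` are moved
   to `i∞` by the maps of 1.  Comparing the coefficients of `e(ν w')` gives identities between the
   numbers `a(2^k)`, `a(3^j)`, and these force the Euler factor at `2` to be
   `(1 - a(2) X + χ X²)⁻¹`, `|χ| = 1` (`q = 5, 7`) or `(1 - a(2) X)⁻¹`, `|a(2)|² = 1/2` (`q = 6`).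
3. Hence `Ψ = |f| + |f*|` (normalised) is approximately invariant under `u ↦ 1/2 - 1/(M(u - 1/2))`,
   `M = 4q` or `2q`, and together with `z ↦ -1/(qz)` every low point can be moved up.
4. As for `q ≤ 3`: `Ψ` is bounded, and it is large at many orbit points.
-/

set_option autoImplicit false

namespace Pool.Agent.H11.SC

open Complex

/-- `f(z) = ∑ a(n) n³ e(nz)` -/
noncomputable def ff (a : ℕ → ℂ) (z : ℂ) : ℂ := gs a 3 (-(I * z))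

/-- the automorphy factor `(√q (-iz))^(-7)` -/
noncomputable def JJ (q : ℝ) (z : ℂ) : ℂ := ((((Real.sqrt q : ℝ) : ℂ) * (-(I * z))) ^ 7)⁻¹

/-- one step, complex form: constants `ωm` on the left, `ωp` on the right (required only for
`Im z ≤ 100 |z|²`, so that functions with a pole are included) -/
structure CStep (q : ℝ) (a : ℕ → ℂ) (ωm ωp : ℂ) : Prop where
  hm : ‖ωm‖ = 1
  hp : ‖ωp‖ = 1
  bound : ∃ C : ℝ, ∀ z : ℂ, 0 < z.im → z.im ≤ 1 → ‖z‖ ≤ 2 → z.im ≤ 100 * ‖z‖ ^ 2 →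
    (z.re ≤ 0 →
      ‖ff a z - ωm * JJ q z * ff (cj a) (-1 / (q * z))‖ ≤ C * z.im ^ (-(13 / 4) : ℝ)) ∧
    (0 ≤ z.re →
      ‖ff a z - ωp * JJ q z * ff (cj a) (-1 / (q * z))‖ ≤ C * z.im ^ (-(13 / 4) : ℝ)) ∧
    (z.re ≤ 0 →
      ‖ff (cj a) z - (starRingEnd ℂ) ωp * JJ q z * ff a (-1 / (q * z))‖ ≤
        C * z.im ^ (-(13 / 4) : ℝ)) ∧
    (0 ≤ z.re →
      ‖ff (cj a) z - (starRingEnd ℂ) ωm * JJ q z * ff a (-1 / (q * z))‖ ≤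
        C * z.im ^ (-(13 / 4) : ℝ))

/-- `2^k 3^j` -/
def dd (p : ℕ × ℕ) : ℕ := 2 ^ p.1 * 3 ^ p.2

/-- local data at `2` and `3`: `c2`, `c3` are the coefficients of the inverses of the Euler
factors -/
structure Loc6 (a c2 c3 : ℕ → ℂ) : Prop where
  one : a 1 = 1
  mul : ∀ m n : ℕ, m * n ≠ 0 → Nat.Coprime m n → a (m * n) = a m * a n
  inv2 : ∀ k : ℕ, ∑ j ∈ Finset.range (k + 1), c2 j * a (2 ^ (k - j)) = if k = 0 then 1 else 0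
  inv3 : ∀ k : ℕ, ∑ j ∈ Finset.range (k + 1), c3 j * a (3 ^ (k - j)) = if k = 0 then 1 else 0
  bd2 : ∃ D R : ℝ, 1 ≤ R ∧ R ^ 2 < 2 ∧ ∀ k : ℕ, ‖c2 k‖ ≤ D * R ^ k
  bd3 : ∃ D R : ℝ, 1 ≤ R ∧ R ^ 2 < 3 ∧ ∀ k : ℕ, ‖c3 k‖ ≤ D * R ^ k

/-- coefficients of `(A - 2)/A = 1 - 2 c(X)` -/
noncomputable def l2 (c : ℕ → ℂ) (k : ℕ) : ℂ := (if k = 0 then 1 else 0) - 2 * c k

/-- coefficients of `(2 A - 3)/A = 2 - 3 c(X)` -/
noncomputable def l3 (c : ℕ → ℂ) (k : ℕ) : ℂ := (if k = 0 then 2 else 0) - 3 * c k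

/-- the coefficients of the operator at `6` -/
noncomputable def LL (c2 c3 : ℕ → ℂ) (p : ℕ × ℕ) : ℂ := l2 c2 p.1 * l3 c3 p.2

/-- `e(x) = exp(2πix)` -/
noncomputable def ee (x : ℂ) : ℂ := cexp (2 * (Real.pi : ℂ) * I * x)

/-- the horizontal path `w = u + iδ²` -/
noncomputable def pw (δ u : ℝ) : ℂ := (u : ℂ) + (δ ^ 2 : ℝ) * I

/-- `e(-ν w') dw'/du`, `w' = -1/(qw)` -/
noncomputable def KK (q ν δ u : ℝ) : ℂ :=
  ee (-(ν * (-1 / (q * pw δ u)))) / (q * pw δ u ^ 2)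

/-- the length of the path in the variable `w'` -/
noncomputable def Ld (q δ : ℝ) : ℂ := -1 / (q * pw δ (-δ)) - -1 / (q * pw δ (-2 * δ))

/-- the behaviour of `f` at `± 1/6`; `w' = -1/(qw)` -/
structure Asym (q : ℝ) (a b : ℕ → ℂ) (ωm : ℂ) (D0 : ℕ) (β1 β2 : ℂ) : Prop where
  bound : ∃ C : ℝ, ∀ w : ℂ, 0 < w.im → ‖w‖ ≤ 1 / 1000 → 100 * ‖w‖ ^ 2 ≤ -w.re →
    w.im ≤ ‖w‖ ^ 2 →
    ‖ff a (w + 1 / 6) + ff a (w - 1 / 6) - ωm * JJ q w *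
      (β1 * ff b (-1 / (q * w) / D0 - 1 / 6) + β2 * ff b (-1 / (q * w) / D0 + 1 / 6))‖ ≤
      C * w.im ^ (-(13 / 4) : ℝ)

theorem ff_per (a : ℕ → ℂ) (z : ℂ) : ff a (z + 1) = ff a z := by
  unfold ff gs
  apply tsum_congr
  intro n
  congr 1
  rw [Complex.exp_eq_exp_iff_exists_int]
  refine ⟨n, ?_⟩
  push_cast
  ring

theorem ff_per' (a : ℕ → ℂ) (z : ℂ) : ff a (z - 1) = ff a z := by
  rw [← ff_per a (z - 1)]
  congr 1
  ring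

theorem phi_eq_ff (a : ℕ → ℂ) (z : ℂ) : phi a z = z.im ^ (7 / 2 : ℝ) * ‖ff a z‖ := rfl

theorem CStep.conj {q : ℝ} {a : ℕ → ℂ} {ωm ωp : ℂ} (h : CStep q a ωm ωp) :
    CStep q (cj a) ((starRingEnd ℂ) ωp) ((starRingEnd ℂ) ωm) := by
  refine ⟨by rw [RCLike.norm_conj]; exact h.hp, by rw [RCLike.norm_conj]; exact h.hm, ?_⟩
  obtain ⟨C, hC⟩ := h.bound
  refine ⟨C, fun z h1 h2 h3 h4 => ?_⟩
  obtain ⟨e1, e2, e3, e4⟩ := hC z h1 h2 h3 h4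
  rw [cj_cj, Complex.conj_conj, Complex.conj_conj]
  exact ⟨e3, e4, e1, e2⟩

end Pool.Agent.H11.SC
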