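import Mathlib
import Pool.Agent.H11.SC5.Defs5
import Pool.Agent.H11.SC4.TwoC

/-!
# EUL: the local data at `2` and `3` exist in the Selberg class

Follow `two_rel_exists` (Pool/Agent/H11/SC4/TwoC.lean): `h.euler` gives `b, θ < 1/2, C`; `conv_rec`
gives the recursion `hrec`; `twoc_mul` gives `mul`.
`euler_rec` (a copy of `twoc_rec` with a prime `p` in place of `2`):
`k a(p^k) = ∑_{l ≤ k} l b(p^l) a(p^(k-l))`.  `twoc_inv` applied to `A k = a (p^k)`, `B l = l b(p^l)` gives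
`c` with `c 0 = 1`, the inverse relation, and the recursion for `c`.  `twoc_bound` with `r = p^θ` and
`R = max 1 (p^((θ + 1/2)/2))` (`r < R`: `θ < (θ+1/2)/2`) gives `‖c k‖ ≤ D R^k`, and `R^2 < p`, because
`p^(θ + 1/2) < p` and `1 < p`.
`Loc6.twist`: `a' n = a n n^w`, `w = -(δ i)`, `c2' k = c2 k (2^k)^w`, `c3' k = c3 k (3^k)^w` (see
`TwoRel.twist`): `(2^j)^w (2^(k-j))^w = (2^k)^w`, norms are unchanged, `(mn)^w = m^w n^w`.
-/

set_option autoImplicit false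

namespace Pool.Agent.H11.SC

open Complex Pool.Agent.H11.Selberg

/-- the recursion at a prime `p` -/
theorem euler_rec (a b : ℕ → ℂ) (p : ℕ) (hp : p.Prime)
    (hrec : ∀ n : ℕ, n ≠ 0 →
      (Real.log n : ℂ) * a n = ∑ q ∈ n.divisors, a (n / q) * ((Real.log q : ℂ) * bb b q))
    (k : ℕ) : (k : ℂ) * a (p ^ k) =
      ∑ l ∈ Finset.range (k + 1), (l : ℂ) * b (p ^ l) * a (p ^ (k - l)) := by
  have h1 := hrec (p ^ k) (pow_ne_zero _ hp.ne_zero)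
  rw [Nat.sum_divisors_prime_pow hp] at h1
  have h2 : (Real.log p : ℂ) ≠ 0 := by
    have := Real.log_pos (by exact_mod_cast hp.one_lt : (1 : ℝ) < p)
    exact_mod_cast this.ne'
  have h3 : ∀ j : ℕ, (Real.log ((p ^ j : ℕ) : ℝ) : ℂ) = (j : ℂ) * (Real.log p : ℂ) := by
    intro j
    push_cast
    rw [Real.log_pow]
    push_cast
    ring
  apply mul_left_cancel₀ h2
  rw [h3] at h1
  calc (Real.log p : ℂ) * ((k : ℂ) * a (p ^ k)) = (k : ℂ) * (Real.log p : ℂ) * a (p ^ k) := by ring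
    _ = _ := h1
    _ = _ := by
      rw [Finset.mul_sum]
      apply Finset.sum_congr rfl
      intro l hl
      have hl' : l ≤ k := Nat.lt_succ_iff.mp (Finset.mem_range.mp hl)
      rw [h3, Nat.pow_div hl' hp.pos]
      rcases Nat.eq_zero_or_pos l with rfl | hl0
      · simp
      · have : IsPrimePow (p ^ l) := hp.isPrimePow.pow hl0.ne'
        rw [bb, if_pos this]
        ring

/-- the data of the Euler product and the convolution recursion -/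
theorem euler_data (a : ℕ → ℂ) (F : ℂ → ℂ) (h : IsSelberg a F) :
    ∃ (b : ℕ → ℂ) (θ C : ℝ), θ < 1 / 2 ∧
      (∀ p : ℕ, p.Prime → ∀ l : ℕ, 1 ≤ l → ‖b (p ^ l)‖ ≤ C * (((p : ℕ) : ℝ) ^ l) ^ θ) ∧
      (∀ n : ℕ, n ≠ 0 →
        (Real.log n : ℂ) * a n = ∑ q ∈ n.divisors, a (n / q) * ((Real.log q : ℂ) * bb b q)) := by
  obtain ⟨b, θ, C, hθ, hb, hE⟩ := h.euler
  have hE' : ∀ s : ℂ, 1 < s.re → HasProd
      (fun p : Nat.Primes => Complex.exp (∑' l : ℕ, b ((p : ℕ) ^ (l + 1)) *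
        ((p : ℕ) : ℂ) ^ (-((l : ℂ) + 1) * s))) (LSeries a s) := fun s hs => by
    rw [← h.eq_LSeries s hs]; exact hE s hs
  exact ⟨b, θ, C, hθ, hb, conv_rec a h.summable b θ C hθ hb hE'⟩

theorem euler_local (a : ℕ → ℂ) (F : ℂ → ℂ) (h : IsSelberg a F) (p : ℕ) (hp : p.Prime) :
    ∃ c : ℕ → ℂ,
      (∀ k : ℕ, ∑ j ∈ Finset.range (k + 1), c j * a (p ^ (k - j)) = if k = 0 then 1 else 0) ∧
      ∃ D R : ℝ, 1 ≤ R ∧ R ^ 2 < p ∧ ∀ k : ℕ, ‖c k‖ ≤ D * R ^ k := by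
  obtain ⟨b, θ, C, hθ, hb, hrec⟩ := euler_data a F h
  obtain ⟨c, hc0, hc1, hc2⟩ := twoc_inv (fun k => a (p ^ k)) (fun l => (l : ℂ) * b (p ^ l))
    (by simpa using h.one) (euler_rec a b p hp hrec)
  have hp1 : (1 : ℝ) < p := by exact_mod_cast hp.one_lt
  have hp0 : (0 : ℝ) < p := by linarith
  set r : ℝ := (p : ℝ) ^ θ with hr
  set R₀ : ℝ := (p : ℝ) ^ ((θ + 1 / 2) / 2) with hR
  have hr0 : 0 < r := Real.rpow_pos_of_pos hp0 _
  have hR0 : 0 < R₀ := Real.rpow_pos_of_pos hp0 _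
  have hrR : r < R₀ := Real.rpow_lt_rpow_of_exponent_lt hp1 (by linarith)
  have hC0 : 0 ≤ C := by
    have h1 := (norm_nonneg _).trans (hb p hp 1 le_rfl)
    have h2 : (0 : ℝ) < (((p : ℕ) : ℝ) ^ 1) ^ θ := by positivity
    by_contra h3
    push Not at h3
    nlinarith
  have hB : ∀ l : ℕ, ‖(l : ℂ) * b (p ^ l)‖ ≤ C * l * r ^ l := by
    intro l
    rcases Nat.eq_zero_or_pos l with rfl | hl
    · simp
    · have h1 := hb p hp l hl
      have h2 : (((p : ℕ) : ℝ) ^ l) ^ θ = r ^ l := by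
        rw [hr, ← Real.rpow_natCast, ← Real.rpow_natCast, ← Real.rpow_mul hp0.le,
          ← Real.rpow_mul hp0.le, mul_comm]
      rw [h2] at h1
      rw [norm_mul, Complex.norm_natCast]
      calc (l : ℝ) * ‖b (p ^ l)‖ ≤ l * (C * r ^ l) :=
            mul_le_mul_of_nonneg_left h1 (Nat.cast_nonneg l)
        _ = C * l * r ^ l := by ring
  obtain ⟨D, hD⟩ := twoc_bound c _ C r (max 1 R₀) hC0 hr0 (lt_max_of_lt_right hrR) hB hc2
  refine ⟨c, hc1, D, max 1 R₀, le_max_left _ _, ?_, hD⟩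
  rcases le_total 1 R₀ with h1 | h1
  · rw [max_eq_right h1, hR, ← Real.rpow_natCast, ← Real.rpow_mul hp0.le]
    calc (p : ℝ) ^ ((θ + 1 / 2) / 2 * ((2 : ℕ) : ℝ)) < (p : ℝ) ^ (1 : ℝ) := by
          apply Real.rpow_lt_rpow_of_exponent_lt hp1
          push_cast
          linarith
      _ = p := Real.rpow_one _
  · rw [max_eq_left h1, one_pow]
    exact hp1

theorem loc6_exists (a : ℕ → ℂ) (F : ℂ → ℂ) (h : IsSelberg a F) : ∃ c2 c3 : ℕ → ℂ,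
    Loc6 a c2 c3 := by
  obtain ⟨b, θ, C, hθ, hb, hrec⟩ := euler_data a F h
  obtain ⟨c2, h2, D2, R2, hR2, hR2', hD2⟩ := euler_local a F h 2 Nat.prime_two
  obtain ⟨c3, h3, D3, R3, hR3, hR3', hD3⟩ := euler_local a F h 3 Nat.prime_three
  exact ⟨c2, c3, h.one, twoc_mul a F h b hrec, h2, h3,
    ⟨D2, R2, hR2, by exact_mod_cast hR2', hD2⟩, ⟨D3, R3, hR3, by exact_mod_cast hR3', hD3⟩⟩

/-- twisting the local relation -/
theorem loc_twist_inv (a c : ℕ → ℂ) (p : ℕ) (w : ℂ)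
    (h : ∀ k : ℕ, ∑ j ∈ Finset.range (k + 1), c j * a (p ^ (k - j)) = if k = 0 then 1 else 0)
    (k : ℕ) : ∑ j ∈ Finset.range (k + 1), (c j * ((p ^ j : ℕ) : ℂ) ^ w) *
      (a (p ^ (k - j)) * ((p ^ (k - j) : ℕ) : ℂ) ^ w) = if k = 0 then 1 else 0 := by
  have h1 : ∑ j ∈ Finset.range (k + 1), (c j * ((p ^ j : ℕ) : ℂ) ^ w) *
      (a (p ^ (k - j)) * ((p ^ (k - j) : ℕ) : ℂ) ^ w) =
      (∑ j ∈ Finset.range (k + 1), c j * a (p ^ (k - j))) * ((p ^ k : ℕ) : ℂ) ^ w := by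
    rw [Finset.sum_mul]
    apply Finset.sum_congr rfl
    intro j hj
    have hj' : j ≤ k := Nat.lt_succ_iff.mp (Finset.mem_range.mp hj)
    have h2 : ((p ^ k : ℕ) : ℂ) ^ w = ((p ^ j : ℕ) : ℂ) ^ w * ((p ^ (k - j) : ℕ) : ℂ) ^ w := by
      rw [← Complex.natCast_mul_natCast_cpow, ← Nat.cast_mul, ← pow_add, Nat.add_sub_cancel' hj']
    rw [h2]
    ring
  rw [h1, h k]
  split_ifs with hk
  · subst hk
    simp
  · simp

theorem loc_twist_bd (c : ℕ → ℂ) (p : ℕ) (hp : 0 < p) (δ : ℝ) {P : ℝ}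
    (h : ∃ D R : ℝ, 1 ≤ R ∧ R ^ 2 < P ∧ ∀ k : ℕ, ‖c k‖ ≤ D * R ^ k) :
    ∃ D R : ℝ, 1 ≤ R ∧ R ^ 2 < P ∧
      ∀ k : ℕ, ‖c k * ((p ^ k : ℕ) : ℂ) ^ (-(δ * I) : ℂ)‖ ≤ D * R ^ k := by
  obtain ⟨D, R, h1, h2, h3⟩ := h
  refine ⟨D, R, h1, h2, fun k => ?_⟩
  have h4 : ‖((p ^ k : ℕ) : ℂ) ^ (-(δ * I) : ℂ)‖ = 1 := by
    rw [Complex.norm_natCast_cpow_of_pos (by positivity)]
    simp
  rw [norm_mul, h4, mul_one]
  exact h3 k

theorem Loc6.twist {a c2 c3 : ℕ → ℂ} (h : Loc6 a c2 c3) (δ : ℝ) :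
    ∃ c2' c3' : ℕ → ℂ, Loc6 (fun n => a n * (n : ℂ) ^ (-(δ * I) : ℂ)) c2' c3' := by
  refine ⟨fun k => c2 k * ((2 ^ k : ℕ) : ℂ) ^ (-(δ * I) : ℂ),
    fun k => c3 k * ((3 ^ k : ℕ) : ℂ) ^ (-(δ * I) : ℂ), ?_, ?_, ?_, ?_, ?_, ?_⟩
  · simp [h.one]
  · intro m n h0 hmn
    rw [h.mul m n h0 hmn, Nat.cast_mul m n, Complex.natCast_mul_natCast_cpow]
    ring
  · exact loc_twist_inv a c2 2 _ h.inv2
  · exact loc_twist_inv a c3 3 _ h.inv3
  · exact loc_twist_bd c2 2 (by norm_num) δ h.bd2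
  · exact loc_twist_bd c3 3 (by norm_num) δ h.bd3

end Pool.Agent.H11.SC
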