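import Mathlib
import Pool.Agent.H11.SC5.Defs5

/-!
# Auxiliary lemmas for the modules ASYM6 and ASYM7 (composition of approximate functional equations)
-/

set_option autoImplicit false

namespace Pool.Agent.H11.SC

open Complex

theorem aa_norm_JJ (q : ℝ) (z : ℂ) : ‖JJ q z‖ = ((Real.sqrt q * ‖z‖) ^ 7)⁻¹ := by
  unfold JJ
  rw [norm_inv, norm_pow, norm_mul, norm_neg, norm_mul, norm_I, one_mul, Complex.norm_real,
    Real.norm_of_nonneg (Real.sqrt_nonneg q)]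

theorem aa_JJ_le (q r : ℝ) (hq : 0 < q) (hr : 0 < r) (z : ℂ) (h : r ^ 2 ≤ normSq z) :
    ‖JJ q z‖ ≤ ((Real.sqrt q * r) ^ 7)⁻¹ := by
  rw [aa_norm_JJ]
  have h0 : r ≤ ‖z‖ := by
    rw [Complex.normSq_eq_norm_sq] at h
    exact (sq_le_sq₀ hr.le (norm_nonneg z)).1 h
  have h1 : 0 < Real.sqrt q := Real.sqrt_pos.2 hq
  have h2 : Real.sqrt q * r ≤ Real.sqrt q * ‖z‖ := mul_le_mul_of_nonneg_left h0 h1.le
  have h3 : 0 < Real.sqrt q * r := mul_pos h1 hr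
  exact inv_anti₀ (pow_pos h3 7) (pow_le_pow_left₀ h3.le h2 7)

theorem aa_pow (x y : ℝ) (hy : 0 < y) (hxy : y ≤ x) :
    x ^ (-(13 / 4) : ℝ) ≤ y ^ (-(13 / 4) : ℝ) :=
  Real.rpow_le_rpow_of_nonpos hy hxy (by norm_num)

theorem aa_chain {A B D c J c' J' : ℂ} {e1 e2 j : ℝ} (hc : ‖c‖ = 1) (hJ : ‖J‖ ≤ j)
    (h1 : ‖A - c * J * B‖ ≤ e1) (h2 : ‖B - c' * J' * D‖ ≤ e2) :
    ‖A - (c * c') * (J * J') * D‖ ≤ e1 + j * e2 := by
  have e : A - (c * c') * (J * J') * D = (A - c * J * B) + c * J * (B - c' * J' * D) := by ring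
  rw [e]
  refine (norm_add_le _ _).trans (add_le_add h1 ?_)
  rw [norm_mul, norm_mul, hc, one_mul]
  exact mul_le_mul hJ h2 (norm_nonneg _) ((norm_nonneg _).trans hJ)

theorem aa_re (N D : ℂ) : (N / D).re = (N.re * D.re + N.im * D.im) / normSq D := by
  rw [Complex.div_re]; ring

theorem aa_im (N D : ℂ) : (N / D).im = (N.im * D.re - N.re * D.im) / normSq D := by
  rw [Complex.div_im]; ring

/-- geometry of `z = N / D` -/
theorem aa_im_ge {N D : ℂ} {y : ℝ} (hD : 0 < normSq D)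
    (h : y * normSq D ≤ N.im * D.re - N.re * D.im) : y ≤ (N / D).im := by
  rw [aa_im, le_div_iff₀ hD]; exact h

theorem aa_im_le {N D : ℂ} {y : ℝ} (hD : 0 < normSq D)
    (h : N.im * D.re - N.re * D.im ≤ y * normSq D) : (N / D).im ≤ y := by
  rw [aa_im, div_le_iff₀ hD]; exact h

theorem aa_re_le {N D : ℂ} (hD : 0 < normSq D)
    (h : N.re * D.re + N.im * D.im ≤ 0) : (N / D).re ≤ 0 := by
  rw [aa_re]; exact div_nonpos_of_nonpos_of_nonneg h hD.le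

theorem aa_re_ge {N D : ℂ} (hD : 0 < normSq D)
    (h : 0 ≤ N.re * D.re + N.im * D.im) : 0 ≤ (N / D).re := by
  rw [aa_re]; exact div_nonneg h hD.le

theorem aa_norm_le {z : ℂ} (h : normSq z ≤ 4) : ‖z‖ ≤ 2 := by
  rw [Complex.normSq_eq_norm_sq] at h
  nlinarith [norm_nonneg z]

theorem aa_nsq_le {N D : ℂ} {c : ℝ} (hD : 0 < normSq D) (h : normSq N ≤ c * normSq D) :
    normSq (N / D) ≤ c := by
  rw [map_div₀, div_le_iff₀ hD]; exact h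

theorem aa_nsq_ge {N D : ℂ} {c : ℝ} (hD : 0 < normSq D) (h : c * normSq D ≤ normSq N) :
    c ≤ normSq (N / D) := by
  rw [map_div₀, le_div_iff₀ hD]; exact h

/-- real form of the hypotheses on `w` -/
theorem aa_reg {N D : ℂ} (hD : 0 < normSq D)
    (h : N.im * D.re - N.re * D.im ≤ 100 * normSq N) : (N / D).im ≤ 100 * ‖N / D‖ ^ 2 := by
  rw [aa_im, Complex.sq_norm, Complex.normSq_div, ← mul_div_assoc]
  exact div_le_div_of_nonneg_right h hD.le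

theorem aa_reg1 {z : ℂ} {r : ℝ} (hr : 1 / 10 ≤ r) (h : r ^ 2 ≤ normSq z) (h1 : z.im ≤ 1) :
    z.im ≤ 100 * ‖z‖ ^ 2 := by
  rw [Complex.sq_norm]
  nlinarith

theorem aa_reg2 {w D : ℂ} (c s : ℝ) (hc : 1 ≤ c) (hDs : D = 1 + (s : ℂ) * w)
    (hD : 0 < normSq D) (h0 : 0 < w.im) (hw : w.im ≤ ‖w‖ ^ 2) :
    ((c : ℂ) * w / D).im ≤ 100 * ‖(c : ℂ) * w / D‖ ^ 2 := by
  apply aa_reg hD
  have e : ((c : ℂ) * w).im * D.re - ((c : ℂ) * w).re * D.im = c * w.im := by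
    rw [hDs]
    simp only [re_ofReal_mul, im_ofReal_mul, add_re, add_im, one_re, one_im]
    ring
  rw [e, normSq_mul, normSq_ofReal, ← Complex.sq_norm w]
  have h2 : 0 ≤ ‖w‖ ^ 2 := by positivity
  nlinarith [mul_le_mul_of_nonneg_left hw (by linarith : 0 ≤ c), mul_nonneg (by linarith : 0 ≤ c - 1) h2,
    mul_nonneg (mul_nonneg (by linarith : 0 ≤ c) (by linarith : 0 ≤ c - 1)) h2,
    mul_nonneg (by linarith : 0 ≤ c) h2]

theorem aa_hyp {w : ℂ} (h1 : 0 < w.im) (h2 : ‖w‖ ≤ 1 / 1000) (h3 : 100 * ‖w‖ ^ 2 ≤ -w.re) :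
    w.re ^ 2 + w.im ^ 2 ≤ 1 / 1000000 ∧ 100 * (w.re ^ 2 + w.im ^ 2) ≤ -w.re ∧
      w.im ≤ 1 / 1000 ∧ -(1 / 1000) ≤ w.re ∧ w.re ≤ 0 := by
  have e : ‖w‖ ^ 2 = w.re ^ 2 + w.im ^ 2 := by
    rw [← Complex.normSq_eq_norm_sq, Complex.normSq_apply]; ring
  have hn := norm_nonneg w
  have h4 : ‖w‖ ^ 2 ≤ 1 / 1000000 := by nlinarith
  rw [e] at h3 h4
  refine ⟨h4, h3, ?_, ?_, ?_⟩
  · nlinarith [sq_nonneg w.re]
  · nlinarith [sq_nonneg w.im, sq_nonneg (w.re - 1 / 1000)]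
  · nlinarith [sq_nonneg w.re, sq_nonneg w.im]

theorem aa_unit {ω : ℂ} (h : ‖ω‖ = 1) : ω * (starRingEnd ℂ) ω = 1 := by
  rw [Complex.mul_conj, Complex.normSq_eq_norm_sq, h]; norm_num

theorem aa_sqrt_sq {q : ℝ} (hq : 0 ≤ q) : (((Real.sqrt q : ℝ) : ℂ)) ^ 2 = (q : ℂ) := by
  rw [← ofReal_pow, Real.sq_sqrt hq]

end Pool.Agent.H11.SC
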