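import Mathlib
import Pool.Agent.H11.SC5.Defs5
import Pool.Agent.H11.SC5.AsymAux

/-!
# ASYM5: the behaviour at `± 1/6` for `q = 5`

`h = ff (cj a)`, `w' = -1/(5w)`, `y = Im w`, `‖w‖ ≤ 1/1000`, `100 ‖w‖² ≤ -Re w` (so `Re w < 0`).
All steps: `h.bound`; `ff_per` allows integer shifts of the argument of `ff`.
PLUS.  `z = w + 1/6` (`Re z > 0`, `0.165 ≤ ‖z‖ ≤ 0.168`), `z1 = -1/(5z) + 1 = (30w-1)/(30w+5)`
(`Re z1 < 0`, `0.19 ≤ ‖z1‖ ≤ 0.21`, `Im z1 = y/(5‖z‖²) ∈ [7y, 8y]`), `z2 = -1/(5 z1) - 1 = 36w/(1-30w)`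
(`Re z2 < 0` because `30‖w‖² ≤ -Re w`; `‖z2‖ ≤ 0.04`, `Im z2 = Im z1/(5‖z1‖²) ∈ [30y, 45y]`),
`-1/(5 z2) = w'/36 + 1/6`.
`ff a z ≈ ωp J(z) h(z1)`, `h(z1) ≈ conj ωp J(z1) ff a z2`, `ff a z2 ≈ ωm J(z2) h(w'/36 + 1/6)`.
`z z1 z2 = -6w/5`, `(√5)³ (-i)³ (-6w/5) = 6 (√5 (-iw))`, so `J(z) J(z1) J(z2) = (6^7)⁻¹ J(w)` and
`ff a (w + 1/6) ≈ ωm (6^7)⁻¹ J(w) h(w'/36 + 1/6)` (`ωp conj ωp = 1`).
ERRORS: `C y^(-13/4) + |J z| C (Im z1)^(-13/4) + |J z J z1| C (Im z2)^(-13/4) ≤ C' y^(-13/4)`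
(`Im z1, Im z2 ≥ y`; `|J|` is bounded since `‖z‖, ‖z1‖ ≥ 0.165`).
MINUS.  `z = w - 1/6` (`Re z < 0`), `z1 = -1/(5z) - 1 = (1+30w)/(5-30w)` (`Re z1 > 0`),
`z2 = -1/(5 z1) + 1 = 36w/(1+30w)` (`Re z2 < 0`), `-1/(5 z2) = w'/36 - 1/6`, constants
`ωm · conj ωm · ωm = ωm`, `z z1 z2 = -6w/5` again.
-/

set_option autoImplicit false

namespace Pool.Agent.H11.SC

open Complex

private theorem a5_chain {f0 f1 f2 f3 c0 c1 c2 : ℂ} {e0 e1 e2 K : ℝ} (hK : 0 ≤ K)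
    (h0 : ‖f0 - c0 * f1‖ ≤ e0) (h1 : ‖f1 - c1 * f2‖ ≤ e1) (h2 : ‖f2 - c2 * f3‖ ≤ e2)
    (k0 : ‖c0‖ ≤ K) (k1 : ‖c1‖ ≤ K) :
    ‖f0 - c0 * c1 * c2 * f3‖ ≤ e0 + K * e1 + K * K * e2 := by
  have e : f0 - c0 * c1 * c2 * f3 =
      (f0 - c0 * f1) + c0 * (f1 - c1 * f2) + c0 * c1 * (f2 - c2 * f3) := by ring
  rw [e]
  have n1 : ‖c0 * (f1 - c1 * f2)‖ ≤ K * e1 := by
    rw [norm_mul]
    exact mul_le_mul k0 h1 (norm_nonneg _) hK
  have n2 : ‖c0 * c1 * (f2 - c2 * f3)‖ ≤ K * K * e2 := by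
    rw [norm_mul, norm_mul]
    exact mul_le_mul (mul_le_mul k0 k1 (norm_nonneg _) hK) h2 (norm_nonneg _)
      (mul_nonneg hK hK)
  exact (norm_add_le _ _).trans (add_le_add ((norm_add_le _ _).trans (add_le_add h0 n1)) n2)

private theorem a5_im {z : ℂ} : (-1 / (((5 : ℝ) : ℂ) * z)).im = z.im / (5 * ‖z‖ ^ 2) := by
  rw [Complex.sq_norm, Complex.div_im]
  simp only [Complex.neg_im, Complex.one_im, Complex.neg_re, Complex.one_re, map_mul,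
    Complex.re_ofReal_mul, Complex.im_ofReal_mul, Complex.normSq_ofReal]
  rcases eq_or_ne (Complex.normSq z) 0 with h0 | h0
  · simp [h0]
  · field_simp
    ring

private theorem a5_JJ_norm {z : ℂ} (h : 1 / 8 ≤ ‖z‖) : ‖JJ 5 z‖ ≤ 4 ^ 7 := by
  unfold JJ
  rw [norm_inv, norm_pow, norm_mul, norm_neg, norm_mul, Complex.norm_I, one_mul,
    Complex.norm_real, Real.norm_eq_abs, abs_of_nonneg (Real.sqrt_nonneg 5)]
  have hs : (2 : ℝ) ≤ Real.sqrt 5 := by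
    apply Real.le_sqrt_of_sq_le
    norm_num
  have h1 : (1 / 4 : ℝ) ≤ Real.sqrt 5 * ‖z‖ := by
    calc (1 / 4 : ℝ) = 2 * (1 / 8) := by norm_num
      _ ≤ _ := mul_le_mul hs h (by norm_num) (by positivity)
  rw [inv_le_comm₀ (by positivity) (by positivity)]
  calc ((4 : ℝ) ^ 7)⁻¹ = (1 / 4) ^ 7 := by norm_num
    _ ≤ _ := pow_le_pow_left₀ (by norm_num) h1 7

private theorem a5_JJ_prod {z z1 z2 w : ℂ} (h : z * z1 * z2 = -(6 * w / 5)) :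
    JJ 5 z * JJ 5 z1 * JJ 5 z2 = JJ 5 w * ((6 : ℂ) ^ 7)⁻¹ := by
  unfold JJ
  rw [← mul_inv, ← mul_inv, ← mul_pow, ← mul_pow, ← mul_inv, ← mul_pow]
  congr 2
  have hs : (((Real.sqrt 5 : ℝ) : ℂ)) ^ 2 = 5 := by
    rw [← Complex.ofReal_pow, Real.sq_sqrt (by norm_num)]
    norm_num
  have hI : I ^ 2 = -1 := Complex.I_sq
  calc ((Real.sqrt 5 : ℝ) : ℂ) * -(I * z) * (((Real.sqrt 5 : ℝ) : ℂ) * -(I * z1)) *
      (((Real.sqrt 5 : ℝ) : ℂ) * -(I * z2))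
      = -((((Real.sqrt 5 : ℝ) : ℂ)) ^ 2) * ((Real.sqrt 5 : ℝ) : ℂ) * (I ^ 2) * I *
        (z * z1 * z2) := by ring
    _ = ((Real.sqrt 5 : ℝ) : ℂ) * -(I * w) * 6 := by
        rw [hs, hI, h]
        ring

/-- three steps -/
private theorem a5_three {a : ℕ → ℂ} {C : ℝ} {z z1 z2 z3 w : ℂ} {s0 s1 s2 : ℂ}
    (hs0 : ‖s0‖ = 1) (hs1 : ‖s1‖ = 1)
    (hw : 0 < w.im) (h1 : w.im ≤ z1.im) (h2 : w.im ≤ z2.im)
    (k0 : 1 / 8 ≤ ‖z‖) (k1 : 1 / 8 ≤ ‖z1‖)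
    (b0 : ‖ff a z - s0 * JJ 5 z * ff (cj a) z1‖ ≤ C * w.im ^ (-(13 / 4) : ℝ))
    (b1 : ‖ff (cj a) z1 - s1 * JJ 5 z1 * ff a z2‖ ≤ C * z1.im ^ (-(13 / 4) : ℝ))
    (b2 : ‖ff a z2 - s2 * JJ 5 z2 * ff (cj a) z3‖ ≤ C * z2.im ^ (-(13 / 4) : ℝ))
    (hp : z * z1 * z2 = -(6 * w / 5)) (hs : s0 * s1 = 1) (hC : 0 ≤ C) :
    ‖ff a z - s2 * JJ 5 w * (((6 : ℂ) ^ 7)⁻¹ * ff (cj a) z3)‖ ≤
      (C + 4 ^ 7 * C + 4 ^ 7 * 4 ^ 7 * C) * w.im ^ (-(13 / 4) : ℝ) := by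
  have m1 : z1.im ^ (-(13 / 4) : ℝ) ≤ w.im ^ (-(13 / 4) : ℝ) :=
    Real.rpow_le_rpow_of_nonpos hw h1 (by norm_num)
  have m2 : z2.im ^ (-(13 / 4) : ℝ) ≤ w.im ^ (-(13 / 4) : ℝ) :=
    Real.rpow_le_rpow_of_nonpos hw h2 (by norm_num)
  have n0 : ‖s0 * JJ 5 z‖ ≤ 4 ^ 7 := by
    rw [norm_mul, hs0, one_mul]; exact a5_JJ_norm k0
  have n1 : ‖s1 * JJ 5 z1‖ ≤ 4 ^ 7 := by
    rw [norm_mul, hs1, one_mul]; exact a5_JJ_norm k1
  have key := a5_chain (K := 4 ^ 7) (by norm_num) b0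
    (b1.trans (mul_le_mul_of_nonneg_left m1 hC)) (b2.trans (mul_le_mul_of_nonneg_left m2 hC))
    n0 n1
  have e : s0 * JJ 5 z * (s1 * JJ 5 z1) * (s2 * JJ 5 z2) * ff (cj a) z3 =
      s2 * JJ 5 w * (((6 : ℂ) ^ 7)⁻¹ * ff (cj a) z3) := by
    calc s0 * JJ 5 z * (s1 * JJ 5 z1) * (s2 * JJ 5 z2) * ff (cj a) z3
        = (s0 * s1) * s2 * (JJ 5 z * JJ 5 z1 * JJ 5 z2) * ff (cj a) z3 := by ring
      _ = _ := by rw [hs, a5_JJ_prod hp]; ring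
  rw [e] at key
  refine key.trans (le_of_eq ?_)
  ring

private theorem a5_reg {x : ℂ} (h : 1 / 8 ≤ ‖x‖) (h1 : ‖x‖ ≤ 1) : x.im ≤ 100 * ‖x‖ ^ 2 := by
  have := (le_abs_self _).trans (Complex.abs_im_le_norm x)
  nlinarith

private theorem a5_norm_lb {x y : ℂ} {b c : ℝ} (hy : ‖y‖ = b) (hx : ‖x‖ ≤ c) : b - c ≤ ‖y + x‖ := by
  have := norm_sub_norm_le y (-x)
  rw [norm_neg, sub_neg_eq_add] at this
  linarith

theorem asym5_plus {a : ℕ → ℂ} {ωm ωp : ℂ} (h : CStep 5 a ωm ωp) : ∃ C : ℝ, ∀ w : ℂ, 0 < w.im →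
    ‖w‖ ≤ 1 / 1000 → 100 * ‖w‖ ^ 2 ≤ -w.re → w.im ≤ ‖w‖ ^ 2 →
    ‖ff a (w + 1 / 6) - ωm * JJ 5 w * (((6 : ℂ) ^ 7)⁻¹ *
      ff (cj a) (-1 / (((5 : ℝ) : ℂ) * w) / 36 + 1 / 6))‖ ≤ C * w.im ^ (-(13 / 4) : ℝ) := by
  obtain ⟨C0, hC0⟩ := h.bound
  have hC : 0 ≤ |C0| := abs_nonneg C0
  refine ⟨|C0| + 4 ^ 7 * |C0| + 4 ^ 7 * 4 ^ 7 * |C0|, fun w hw hn hr hwim => ?_⟩
  have hw0 : w ≠ 0 := by
    rintro rfl
    simp at hw
  have hwn : 0 < ‖w‖ := norm_pos_iff.mpr hw0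
  have hure : w.re < 0 := by nlinarith
  have h30 : ‖30 * w‖ ≤ 3 / 100 := by
    rw [norm_mul]
    have : ‖(30 : ℂ)‖ = 30 := by norm_num
    rw [this]; linarith
  have h6 : ‖(1 / 6 : ℂ)‖ = 1 / 6 := by norm_num
  -- denominators
  have d1 : (30 * w + 5 : ℂ) ≠ 0 := by
    intro e
    have := a5_norm_lb (x := 30 * w) (y := 5) (b := 5) (by norm_num) h30
    rw [add_comm, e, norm_zero] at this
    norm_num at this
  have d2 : (30 * w - 1 : ℂ) ≠ 0 := by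
    intro e
    have := a5_norm_lb (x := 30 * w) (y := -1) (b := 1) (by norm_num) h30
    rw [add_comm, ← sub_eq_add_neg, e, norm_zero] at this
    norm_num at this
  have d3 : (w + 1 / 6 : ℂ) ≠ 0 := by
    intro e
    apply d1
    linear_combination 30 * e
  have hz1 : -1 / (((5 : ℝ) : ℂ) * (w + 1 / 6)) + 1 = (30 * w - 1) / (30 * w + 5) := by
    rw [eq_div_iff d1, add_mul, div_mul_eq_mul_div, ← eq_sub_iff_add_eq,
      div_eq_iff (mul_ne_zero (by norm_num) d3)]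
    push_cast
    ring
  have hz2 : -1 / (((5 : ℝ) : ℂ) * ((30 * w - 1) / (30 * w + 5))) - 1 = 36 * w / (1 - 30 * w) := by
    have d2' : (1 - 30 * w : ℂ) ≠ 0 := by
      intro e; apply d2; linear_combination -e
    push_cast
    field_simp
    ring
  have d2' : (1 - 30 * w : ℂ) ≠ 0 := by
    intro e; apply d2; linear_combination -e
  have hz3 : -1 / (((5 : ℝ) : ℂ) * (36 * w / (1 - 30 * w))) =
      -1 / (((5 : ℝ) : ℂ) * w) / 36 + 1 / 6 := by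
    push_cast
    field_simp
    ring
  set z : ℂ := w + 1 / 6 with hz
  set z1 : ℂ := (30 * w - 1) / (30 * w + 5) with hz1d
  set z2 : ℂ := 36 * w / (1 - 30 * w) with hz2d
  -- norms
  have nz_lb : 1 / 8 ≤ ‖z‖ := by
    have := a5_norm_lb (x := w) (y := 1 / 6) h6 hn
    rw [add_comm] at this
    linarith
  have nz_ub : ‖z‖ ≤ 1 / 5 := by
    have := norm_add_le w (1 / 6)
    rw [h6] at this
    linarith
  have n1a : ‖30 * w - 1‖ ≤ 103 / 100 := by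
    have := norm_sub_le (30 * w) 1
    rw [norm_one] at this; linarith
  have n1b : 97 / 100 ≤ ‖30 * w - 1‖ := by
    have := a5_norm_lb (x := 30 * w) (y := -1) (b := 1) (by norm_num) h30
    rw [add_comm, ← sub_eq_add_neg] at this
    linarith
  have n1c : ‖30 * w + 5‖ ≤ 503 / 100 := by
    have := norm_add_le (30 * w) 5
    have h5 : ‖(5 : ℂ)‖ = 5 := by norm_num
    rw [h5] at this; linarith
  have n1d : 497 / 100 ≤ ‖30 * w + 5‖ := by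
    have := a5_norm_lb (x := 30 * w) (y := 5) (b := 5) (by norm_num) h30
    rw [add_comm] at this
    linarith
  have nz1_lb : 1 / 8 ≤ ‖z1‖ := by
    rw [hz1d, norm_div, le_div_iff₀ (by linarith)]
    linarith
  have nz1_ub : ‖z1‖ ≤ 1 / 4 := by
    rw [hz1d, norm_div, div_le_iff₀ (by linarith)]
    linarith
  have nz2_ub : ‖z2‖ ≤ 1 := by
    have e1 : ‖36 * w‖ ≤ 36 / 1000 := by
      rw [norm_mul]
      have : ‖(36 : ℂ)‖ = 36 := by norm_num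
      rw [this]; linarith
    have e2 : ‖1 - 30 * w‖ = ‖30 * w - 1‖ := norm_sub_rev _ _
    rw [hz2d, norm_div, e2, div_le_iff₀ (by linarith)]
    linarith
  -- imaginary parts
  have iz : z.im = w.im := by
    rw [hz]; simp
  have iz1 : z1.im = z.im / (5 * ‖z‖ ^ 2) := by
    rw [← hz1, Complex.add_im, Complex.one_im, add_zero, a5_im]
  have iz2 : z2.im = z1.im / (5 * ‖z1‖ ^ 2) := by
    rw [← hz2, Complex.sub_im, Complex.one_im, sub_zero, a5_im]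
  have i1 : w.im ≤ z1.im := by
    rw [iz1, iz, le_div_iff₀ (by positivity)]
    have : 5 * ‖z‖ ^ 2 ≤ 1 := by nlinarith
    nlinarith
  have i2 : w.im ≤ z2.im := by
    rw [iz2, le_div_iff₀ (by positivity)]
    have : 5 * ‖z1‖ ^ 2 ≤ 1 := by nlinarith
    nlinarith
  -- real parts
  have nsq : ‖w‖ ^ 2 = w.re ^ 2 + w.im ^ 2 := by
    rw [Complex.sq_norm, Complex.normSq_apply]; ring
  have rz : 0 ≤ z.re := by
    have := Complex.abs_re_le_norm w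
    have h2 : -‖w‖ ≤ w.re := (abs_le.mp this).1
    rw [hz]
    simp only [Complex.add_re]
    norm_num
    linarith
  have rz1 : z1.re ≤ 0 := by
    rw [hz1d, Complex.div_re, ← add_div]
    apply div_nonpos_of_nonpos_of_nonneg _ (Complex.normSq_nonneg _)
    simp only [Complex.sub_re, Complex.sub_im, Complex.add_re, Complex.add_im, Complex.mul_re,
      Complex.mul_im, Complex.one_re, Complex.one_im]
    norm_num
    nlinarith
  have rz2 : z2.re ≤ 0 := by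
    rw [hz2d, Complex.div_re, ← add_div]
    apply div_nonpos_of_nonpos_of_nonneg _ (Complex.normSq_nonneg _)
    simp only [Complex.sub_re, Complex.sub_im, Complex.mul_re,
      Complex.mul_im, Complex.one_re, Complex.one_im]
    norm_num
    nlinarith
  have iz0 : 0 < z.im := by rw [iz]; exact hw
  have iz1p : 0 < z1.im := lt_of_lt_of_le hw i1
  have iz2p : 0 < z2.im := lt_of_lt_of_le hw i2
  have le1 : ∀ x : ℂ, ‖x‖ ≤ 1 → x.im ≤ 1 := fun x hx =>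
    ((le_abs_self _).trans (Complex.abs_im_le_norm x)).trans hx
  have pos : ∀ x : ℂ, 0 < x.im → C0 * x.im ^ (-(13 / 4) : ℝ) ≤ |C0| * x.im ^ (-(13 / 4) : ℝ) :=
    fun x hx => mul_le_mul_of_nonneg_right (le_abs_self _) (Real.rpow_nonneg hx.le _)
  have rg2 : z2.im ≤ 100 * ‖z2‖ ^ 2 := by
    have := aa_reg2 (w := w) (D := 1 - 30 * w) 36 (-30) (by norm_num) (by push_cast; ring)
      (Complex.normSq_pos.2 d2') hw hwim
    rw [hz2d]
    exact_mod_cast this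
  have b0 : ‖ff a z - ωp * JJ 5 z * ff (cj a) z1‖ ≤ |C0| * w.im ^ (-(13 / 4) : ℝ) := by
    have t := (hC0 z iz0 (le1 z (by linarith)) (by linarith) (a5_reg nz_lb (by linarith))).2.1 rz
    have e : ff (cj a) z1 = ff (cj a) (-1 / (((5 : ℝ) : ℂ) * z)) := by
      rw [← hz1, ff_per]
    rw [e, ← iz]
    exact t.trans (pos z iz0)
  have b1 : ‖ff (cj a) z1 - (starRingEnd ℂ) ωp * JJ 5 z1 * ff a z2‖ ≤
      |C0| * z1.im ^ (-(13 / 4) : ℝ) := by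
    have t := (hC0 z1 iz1p (le1 z1 (by linarith)) (by linarith) (a5_reg nz1_lb (by linarith))).2.2.1 rz1
    have e : ff a z2 = ff a (-1 / (((5 : ℝ) : ℂ) * z1)) := by
      rw [← hz2, ff_per']
    rw [e]
    exact t.trans (pos z1 iz1p)
  have b2 : ‖ff a z2 - ωm * JJ 5 z2 * ff (cj a) (-1 / (((5 : ℝ) : ℂ) * w) / 36 + 1 / 6)‖ ≤
      |C0| * z2.im ^ (-(13 / 4) : ℝ) := by
    have t := (hC0 z2 iz2p (le1 z2 (by linarith)) (by linarith) rg2).1 rz2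
    rw [← hz3]
    exact t.trans (pos z2 iz2p)
  have hp : z * z1 * z2 = -(6 * w / 5) := by
    rw [hz, hz1d, hz2d, ← mul_div_assoc (w + 1 / 6), div_mul_div_comm, div_eq_iff (mul_ne_zero d1 d2')]
    ring
  have hs : ωp * (starRingEnd ℂ) ωp = 1 := by
    rw [Complex.mul_conj, Complex.normSq_eq_norm_sq, h.hp]
    norm_num
  exact a5_three h.hp (by rw [RCLike.norm_conj]; exact h.hp) hw i1 i2 nz_lb nz1_lb b0 b1 b2 hp hs hC

theorem asym5_minus {a : ℕ → ℂ} {ωm ωp : ℂ} (h : CStep 5 a ωm ωp) : ∃ C : ℝ, ∀ w : ℂ, 0 < w.im →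
    ‖w‖ ≤ 1 / 1000 → 100 * ‖w‖ ^ 2 ≤ -w.re → w.im ≤ ‖w‖ ^ 2 →
    ‖ff a (w - 1 / 6) - ωm * JJ 5 w * (((6 : ℂ) ^ 7)⁻¹ *
      ff (cj a) (-1 / (((5 : ℝ) : ℂ) * w) / 36 - 1 / 6))‖ ≤ C * w.im ^ (-(13 / 4) : ℝ) := by
  obtain ⟨C0, hC0⟩ := h.bound
  have hC : 0 ≤ |C0| := abs_nonneg C0
  refine ⟨|C0| + 4 ^ 7 * |C0| + 4 ^ 7 * 4 ^ 7 * |C0|, fun w hw hn hr hwim => ?_⟩
  have hw0 : w ≠ 0 := by
    rintro rfl
    simp at hw
  have hwn : 0 < ‖w‖ := norm_pos_iff.mpr hw0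
  have hure : w.re < 0 := by nlinarith
  have h30 : ‖30 * w‖ ≤ 3 / 100 := by
    rw [norm_mul]
    have : ‖(30 : ℂ)‖ = 30 := by norm_num
    rw [this]; linarith
  have h6 : ‖(1 / 6 : ℂ)‖ = 1 / 6 := by norm_num
  -- denominators
  have n1b : 97 / 100 ≤ ‖1 + 30 * w‖ := by
    have := a5_norm_lb (x := 30 * w) (y := 1) (b := 1) (by norm_num) h30
    linarith
  have n1d : 497 / 100 ≤ ‖5 - 30 * w‖ := by
    have := a5_norm_lb (x := -(30 * w)) (y := 5) (b := 5) (c := 3 / 100) (by norm_num)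
      (by rw [norm_neg]; exact h30)
    rw [← sub_eq_add_neg] at this
    linarith
  have d1 : (5 - 30 * w : ℂ) ≠ 0 := by
    intro e
    rw [e, norm_zero] at n1d
    norm_num at n1d
  have d2 : (1 + 30 * w : ℂ) ≠ 0 := by
    intro e
    rw [e, norm_zero] at n1b
    norm_num at n1b
  have d3 : (w - 1 / 6 : ℂ) ≠ 0 := by
    intro e
    apply d1
    linear_combination (-30) * e
  have hz1 : -1 / (((5 : ℝ) : ℂ) * (w - 1 / 6)) - 1 = (1 + 30 * w) / (5 - 30 * w) := by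
    rw [eq_div_iff d1, sub_mul, div_mul_eq_mul_div, sub_eq_iff_eq_add,
      div_eq_iff (mul_ne_zero (by norm_num) d3)]
    push_cast
    ring
  have hz2 : -1 / (((5 : ℝ) : ℂ) * ((1 + 30 * w) / (5 - 30 * w))) + 1 = 36 * w / (1 + 30 * w) := by
    push_cast
    field_simp
    ring
  have hz3 : -1 / (((5 : ℝ) : ℂ) * (36 * w / (1 + 30 * w))) =
      -1 / (((5 : ℝ) : ℂ) * w) / 36 - 1 / 6 := by
    push_cast
    field_simp
    ring
  set z : ℂ := w - 1 / 6 with hz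
  set z1 : ℂ := (1 + 30 * w) / (5 - 30 * w) with hz1d
  set z2 : ℂ := 36 * w / (1 + 30 * w) with hz2d
  -- norms
  have nz_lb : 1 / 8 ≤ ‖z‖ := by
    have := a5_norm_lb (x := w) (y := -(1 / 6)) (b := 1 / 6) (by rw [norm_neg]; exact h6) hn
    rw [add_comm, ← sub_eq_add_neg] at this
    linarith
  have nz_ub : ‖z‖ ≤ 1 / 5 := by
    have := norm_sub_le w (1 / 6)
    rw [h6] at this
    linarith
  have n1a : ‖1 + 30 * w‖ ≤ 103 / 100 := by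
    have := norm_add_le 1 (30 * w)
    rw [norm_one] at this; linarith
  have n1c : ‖5 - 30 * w‖ ≤ 503 / 100 := by
    have := norm_sub_le 5 (30 * w)
    have h5 : ‖(5 : ℂ)‖ = 5 := by norm_num
    rw [h5] at this; linarith
  have nz1_lb : 1 / 8 ≤ ‖z1‖ := by
    rw [hz1d, norm_div, le_div_iff₀ (by linarith)]
    linarith
  have nz1_ub : ‖z1‖ ≤ 1 / 4 := by
    rw [hz1d, norm_div, div_le_iff₀ (by linarith)]
    linarith
  have nz2_ub : ‖z2‖ ≤ 1 := by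
    have e1 : ‖36 * w‖ ≤ 36 / 1000 := by
      rw [norm_mul]
      have : ‖(36 : ℂ)‖ = 36 := by norm_num
      rw [this]; linarith
    rw [hz2d, norm_div, div_le_iff₀ (by linarith)]
    linarith
  -- imaginary parts
  have iz : z.im = w.im := by
    rw [hz]; simp
  have iz1 : z1.im = z.im / (5 * ‖z‖ ^ 2) := by
    rw [← hz1, Complex.sub_im, Complex.one_im, sub_zero, a5_im]
  have iz2 : z2.im = z1.im / (5 * ‖z1‖ ^ 2) := by
    rw [← hz2, Complex.add_im, Complex.one_im, add_zero, a5_im]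
  have i1 : w.im ≤ z1.im := by
    rw [iz1, iz, le_div_iff₀ (by positivity)]
    have : 5 * ‖z‖ ^ 2 ≤ 1 := by nlinarith
    nlinarith
  have i2 : w.im ≤ z2.im := by
    rw [iz2, le_div_iff₀ (by positivity)]
    have : 5 * ‖z1‖ ^ 2 ≤ 1 := by nlinarith
    nlinarith
  -- real parts
  have nsq : ‖w‖ ^ 2 = w.re ^ 2 + w.im ^ 2 := by
    rw [Complex.sq_norm, Complex.normSq_apply]; ring
  have hre := Complex.abs_re_le_norm w
  have hre2 : -‖w‖ ≤ w.re := (abs_le.mp hre).1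
  have rz : z.re ≤ 0 := by
    rw [hz]
    simp only [Complex.sub_re]
    norm_num
    linarith
  have rz1 : 0 ≤ z1.re := by
    rw [hz1d, Complex.div_re, ← add_div]
    apply div_nonneg _ (Complex.normSq_nonneg _)
    simp only [Complex.sub_re, Complex.sub_im, Complex.add_re, Complex.add_im, Complex.mul_re,
      Complex.mul_im, Complex.one_re, Complex.one_im]
    norm_num
    nlinarith
  have rz2 : z2.re ≤ 0 := by
    rw [hz2d, Complex.div_re, ← add_div]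
    apply div_nonpos_of_nonpos_of_nonneg _ (Complex.normSq_nonneg _)
    simp only [Complex.add_re, Complex.add_im, Complex.mul_re,
      Complex.mul_im, Complex.one_re, Complex.one_im]
    norm_num
    nlinarith
  have iz0 : 0 < z.im := by rw [iz]; exact hw
  have iz1p : 0 < z1.im := lt_of_lt_of_le hw i1
  have iz2p : 0 < z2.im := lt_of_lt_of_le hw i2
  have le1 : ∀ x : ℂ, ‖x‖ ≤ 1 → x.im ≤ 1 := fun x hx =>
    ((le_abs_self _).trans (Complex.abs_im_le_norm x)).trans hx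
  have pos : ∀ x : ℂ, 0 < x.im → C0 * x.im ^ (-(13 / 4) : ℝ) ≤ |C0| * x.im ^ (-(13 / 4) : ℝ) :=
    fun x hx => mul_le_mul_of_nonneg_right (le_abs_self _) (Real.rpow_nonneg hx.le _)
  have rg2 : z2.im ≤ 100 * ‖z2‖ ^ 2 := by
    have := aa_reg2 (w := w) (D := 1 + 30 * w) 36 30 (by norm_num) (by push_cast; ring)
      (Complex.normSq_pos.2 d2) hw hwim
    rw [hz2d]
    exact_mod_cast this
  have b0 : ‖ff a z - ωm * JJ 5 z * ff (cj a) z1‖ ≤ |C0| * w.im ^ (-(13 / 4) : ℝ) := by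
    have t := (hC0 z iz0 (le1 z (by linarith)) (by linarith) (a5_reg nz_lb (by linarith))).1 rz
    have e : ff (cj a) z1 = ff (cj a) (-1 / (((5 : ℝ) : ℂ) * z)) := by
      rw [← hz1, ff_per']
    rw [e, ← iz]
    exact t.trans (pos z iz0)
  have b1 : ‖ff (cj a) z1 - (starRingEnd ℂ) ωm * JJ 5 z1 * ff a z2‖ ≤
      |C0| * z1.im ^ (-(13 / 4) : ℝ) := by
    have t := (hC0 z1 iz1p (le1 z1 (by linarith)) (by linarith) (a5_reg nz1_lb (by linarith))).2.2.2 rz1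
    have e : ff a z2 = ff a (-1 / (((5 : ℝ) : ℂ) * z1)) := by
      rw [← hz2, ff_per]
    rw [e]
    exact t.trans (pos z1 iz1p)
  have b2 : ‖ff a z2 - ωm * JJ 5 z2 * ff (cj a) (-1 / (((5 : ℝ) : ℂ) * w) / 36 - 1 / 6)‖ ≤
      |C0| * z2.im ^ (-(13 / 4) : ℝ) := by
    have t := (hC0 z2 iz2p (le1 z2 (by linarith)) (by linarith) rg2).1 rz2
    rw [← hz3]
    exact t.trans (pos z2 iz2p)
  have hp : z * z1 * z2 = -(6 * w / 5) := by
    rw [hz, hz1d, hz2d, ← mul_div_assoc (w - 1 / 6), div_mul_div_comm, div_eq_iff (mul_ne_zero d1 d2)]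
    ring
  have hs : ωm * (starRingEnd ℂ) ωm = 1 := by
    rw [Complex.mul_conj, Complex.normSq_eq_norm_sq, h.hm]
    norm_num
  exact a5_three h.hm (by rw [RCLike.norm_conj]; exact h.hm) hw i1 i2 nz_lb nz1_lb b0 b1 b2 hp hs hC

theorem asym5 {a : ℕ → ℂ} {ωm ωp : ℂ} (h : CStep 5 a ωm ωp) :
    Asym 5 a (cj a) ωm 36 ((6 : ℂ) ^ 7)⁻¹ ((6 : ℂ) ^ 7)⁻¹ := by
  obtain ⟨C1, h1⟩ := asym5_plus h
  obtain ⟨C2, h2⟩ := asym5_minus h
  refine ⟨C1 + C2, fun w e1 e2 e3 e4 => ?_⟩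
  have k1 := h1 w e1 e2 e3 e4
  have k2 := h2 w e1 e2 e3 e4
  rw [add_mul]
  refine le_trans (le_of_eq ?_) ((norm_add_le _ _).trans (add_le_add k1 k2))
  congr 1
  push_cast
  ring

end Pool.Agent.H11.SC
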