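import Mathlib
import Pool.Agent.H11.SC5.Defs5
import Pool.Agent.H11.SC5.AsymAux

/-!
# ASYM6: the behaviour at `± 1/6` for `q = 6`

`h = ff (cj a)`, `w' = -1/(6w)`, `y = Im w`, `‖w‖ ≤ 1/1000`, `100 ‖w‖² ≤ -Re w` (so `Re w < 0`).
All steps: `h.bound`; `ff_per` allows integer shifts of the argument of `ff`.
PLUS.  `z = w + 1/6` (`Re z > 0`, `0.165 ≤ ‖z‖ ≤ 0.168`), `z1 = -1/(6z) + 1 = 6w/(6w+1)` (`Re z1 < 0`
because `6‖w‖² ≤ -Re w`, `‖z1‖ ≤ 0.01`, `Im z1 = y/(6‖z‖²) ∈ [5y, 7y]`), `-1/(6 z1) = w'/6 - 1/6`.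
`ff a z ≈ ωp J(z) h(z1)`, `h(z1) ≈ conj ωp J(z1) ff a (w'/6 - 1/6)`.  `z z1 = w`,
`J(z) J(z1) = ((√6)² (-i)² w)^(-7) = (-6w)^(-7)`.
With `JJ 6 w = (216 √6)⁻¹ (-i) w^(-7)` (`(√6)^7 = 216 √6`, `((-i)^7)⁻¹ = -i`) and `(216 √6)² = 6^7`:
`(-6w)^(-7) = -(6^7)⁻¹ w^(-7) = JJ 6 w * (-i/(216 √6))`; `ωp conj ωp = ωm conj ωm = 1`.
ERRORS: `C y^(-13/4) + |J z| C (Im z1)^(-13/4) ≤ C' y^(-13/4)`.
MINUS.  `z = w - 1/6` (`Re z < 0`), `z1 = -1/(6z) - 1 = 6w/(1-6w)` (`Re z1 < 0`),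
`-1/(6 z1) = w'/6 + 1/6`, constants `ωm · conj ωp`, `z z1 = -w`, `J(z) J(z1) = (6w)^(-7)
= JJ 6 w * (i/(216 √6))`.
-/

set_option autoImplicit false

namespace Pool.Agent.H11.SC

open Complex

/-- `JJ 6` through `w⁻⁷` -/
theorem asym6_JJ {w : ℂ} (hw : w ≠ 0) :
    JJ 6 w * (-I / (216 * (Real.sqrt 6 : ℝ))) = ((-6 * w) ^ 7)⁻¹ := by
  have hs : ((Real.sqrt 6 : ℝ) : ℂ) ^ 2 = 6 := by
    rw [aa_sqrt_sq (by norm_num)]
    norm_num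
  have hs0 : ((Real.sqrt 6 : ℝ) : ℂ) ≠ 0 := by
    intro h0
    rw [h0] at hs
    norm_num at hs
  unfold JJ
  have e : (((Real.sqrt 6 : ℝ) : ℂ) * (-(I * w))) ^ 7 =
      216 * ((Real.sqrt 6 : ℝ) : ℂ) * (I * w ^ 7) := by
    have e1 : (((Real.sqrt 6 : ℝ) : ℂ) * (-(I * w))) ^ 7 =
        ((((Real.sqrt 6 : ℝ) : ℂ) ^ 2) ^ 3 * ((Real.sqrt 6 : ℝ) : ℂ)) * (-((I ^ 2) ^ 3 * I * w ^ 7)) := by
      ring
    rw [e1, hs, I_sq]
    ring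
  rw [e]
  have hI : I ≠ 0 := I_ne_zero
  field_simp
  linear_combination (46656 : ℂ) * hs

theorem asym6_JJ2 {z z1 w : ℂ} (h : z * z1 = w) :
    JJ 6 z * JJ 6 z1 = ((-6 * w) ^ 7)⁻¹ := by
  have hs : ((Real.sqrt 6 : ℝ) : ℂ) ^ 2 = 6 := by
    rw [aa_sqrt_sq (by norm_num)]
    norm_num
  unfold JJ
  rw [← mul_inv, ← mul_pow]
  congr 2
  rw [← h]
  have e1 : ((Real.sqrt 6 : ℝ) : ℂ) * (-(I * z)) * (((Real.sqrt 6 : ℝ) : ℂ) * (-(I * z1))) =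
      ((Real.sqrt 6 : ℝ) : ℂ) ^ 2 * (I ^ 2) * (z * z1) := by ring
  rw [e1, hs, I_sq]
  ring

theorem asym6_plus {a : ℕ → ℂ} {ωm ωp : ℂ} (h : CStep 6 a ωm ωp) : ∃ C : ℝ, ∀ w : ℂ, 0 < w.im →
    ‖w‖ ≤ 1 / 1000 → 100 * ‖w‖ ^ 2 ≤ -w.re → w.im ≤ ‖w‖ ^ 2 →
    ‖ff a (w + 1 / 6) - ωm * JJ 6 w * (-I * (starRingEnd ℂ) ωm / (216 * (Real.sqrt 6 : ℝ)) *
      ff a (-1 / (((6 : ℝ) : ℂ) * w) / 6 - 1 / 6))‖ ≤ C * w.im ^ (-(13 / 4) : ℝ) := by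
  obtain ⟨C, hC⟩ := h.bound
  refine ⟨|C| + ((Real.sqrt 6 * (1 / 10)) ^ 7)⁻¹ * |C|, fun w e1 e2 e3 e0 => ?_⟩
  obtain ⟨g1, g2, g3, g4, g5⟩ := aa_hyp e1 e2 e3
  obtain ⟨u, hu⟩ : ∃ u, u = w.re := ⟨_, rfl⟩
  obtain ⟨y, hy⟩ : ∃ y, y = w.im := ⟨_, rfl⟩
  have hw0 : w ≠ 0 := by
    rintro rfl
    simp at e1
  -- the first point
  have zre : (w + 1 / 6).re = u + 1 / 6 := by rw [hu]; simp
  have zim : (w + 1 / 6).im = y := by rw [hy]; simp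
  have zn : normSq (w + 1 / 6) = (u + 1 / 6) ^ 2 + y ^ 2 := by
    rw [Complex.normSq_apply, zre, zim]; ring
  -- the second point
  have Nre : (6 * w).re = 6 * u := by rw [hu]; simp
  have Nim : (6 * w).im = 6 * y := by rw [hy]; simp
  have Dre : (6 * w + 1).re = 6 * u + 1 := by rw [hu]; simp
  have Dim : (6 * w + 1).im = 6 * y := by rw [hy]; simp
  rw [← hu, ← hy] at g1 g2
  rw [← hy] at e1 g3
  rw [← hu] at g4 g5
  have Dn : normSq (6 * w + 1) = (6 * u + 1) ^ 2 + (6 * y) ^ 2 := by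
    rw [Complex.normSq_apply, Dre, Dim]; ring
  have Nn : normSq (6 * w) = (6 * u) ^ 2 + (6 * y) ^ 2 := by
    rw [Complex.normSq_apply, Nre, Nim]; ring
  have hD : 0 < normSq (6 * w + 1) := by rw [Dn]; nlinarith [sq_nonneg y]
  have hDne : 6 * w + 1 ≠ 0 := Complex.normSq_pos.1 hD
  have hzne : w + 1 / 6 ≠ 0 := by
    intro h0
    apply hDne
    linear_combination 6 * h0
  have q1 := (hC (w + 1 / 6) (by rw [zim]; exact e1) (by rw [zim]; linarith)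
    (aa_norm_le (by rw [zn]; nlinarith [sq_nonneg y, sq_nonneg u]))
    (aa_reg1 (r := 1 / 10) le_rfl (by rw [zn]; nlinarith [sq_nonneg y, sq_nonneg u])
      (by rw [zim]; linarith))).2.1 (by rw [zre]; linarith)
  have E1 : -1 / (((6 : ℝ) : ℂ) * (w + 1 / 6)) = 6 * w / (6 * w + 1) - 1 := by
    push_cast
    field_simp
    ring
  rw [E1, ff_per'] at q1
  have im1 : y ≤ (6 * w / (6 * w + 1)).im := by
    apply aa_im_ge hD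
    rw [Dn, Nre, Nim, Dre, Dim]
    nlinarith [sq_nonneg y, sq_nonneg u]
  have q2 := (hC (6 * w / (6 * w + 1)) (lt_of_lt_of_le e1 im1) (by
    apply aa_im_le hD
    rw [Dn, Nre, Nim, Dre, Dim]
    nlinarith [sq_nonneg y, sq_nonneg u])
    (aa_norm_le (by
      apply aa_nsq_le hD
      rw [Dn, Nn]
      nlinarith [sq_nonneg y, sq_nonneg u]))
    (by
      have t := aa_reg2 (w := w) (D := 6 * w + 1) 6 6 (by norm_num) (by push_cast; ring) hD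
        (by rw [← hy]; exact e1) e0
      exact_mod_cast t)).2.2.1 (by
      apply aa_re_le hD
      rw [Nre, Nim, Dre, Dim]
      nlinarith [sq_nonneg y, sq_nonneg u])
  have E2 : -1 / (((6 : ℝ) : ℂ) * (6 * w / (6 * w + 1))) =
      -1 / (((6 : ℝ) : ℂ) * w) / 6 - 1 / 6 := by
    push_cast
    field_simp
    ring
  rw [E2] at q2
  have hJ : ‖JJ 6 (w + 1 / 6)‖ ≤ ((Real.sqrt 6 * (1 / 10)) ^ 7)⁻¹ :=
    aa_JJ_le 6 (1 / 10) (by norm_num) (by norm_num) _ (by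
      rw [zn]
      nlinarith [sq_nonneg y, sq_nonneg u])
  have q3 := aa_chain h.hp hJ q1 q2
  rw [aa_unit h.hp] at q3
  have E3 : JJ 6 (w + 1 / 6) * JJ 6 (6 * w / (6 * w + 1)) =
      JJ 6 w * (-I / (216 * (Real.sqrt 6 : ℝ))) := by
    rw [asym6_JJ hw0]
    exact asym6_JJ2 (by
      rw [← mul_div_assoc, div_eq_iff hDne]
      ring)
  rw [E3] at q3
  have E4 : ωm * JJ 6 w * (-I * (starRingEnd ℂ) ωm / (216 * (Real.sqrt 6 : ℝ)) *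
      ff a (-1 / (((6 : ℝ) : ℂ) * w) / 6 - 1 / 6)) =
      1 * (JJ 6 w * (-I / (216 * (Real.sqrt 6 : ℝ)))) *
        ff a (-1 / (((6 : ℝ) : ℂ) * w) / 6 - 1 / 6) := by
    rw [← aa_unit h.hm]
    ring
  rw [E4]
  refine q3.trans ?_
  rw [zim, ← hy]
  have hp := aa_pow _ _ e1 im1
  have hy0 : 0 ≤ y ^ (-(13 / 4) : ℝ) := Real.rpow_nonneg e1.le _
  have hp0 : 0 ≤ (6 * w / (6 * w + 1)).im ^ (-(13 / 4) : ℝ) :=
    Real.rpow_nonneg (e1.le.trans im1) _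
  have k1 : C * y ^ (-(13 / 4) : ℝ) ≤ |C| * y ^ (-(13 / 4) : ℝ) :=
    mul_le_mul_of_nonneg_right (le_abs_self C) hy0
  have k2 : C * (6 * w / (6 * w + 1)).im ^ (-(13 / 4) : ℝ) ≤ |C| * y ^ (-(13 / 4) : ℝ) :=
    (mul_le_mul_of_nonneg_right (le_abs_self C) hp0).trans
      (mul_le_mul_of_nonneg_left hp (abs_nonneg C))
  have k3 : 0 ≤ ((Real.sqrt 6 * (1 / 10)) ^ 7)⁻¹ := by positivity
  rw [add_mul, mul_assoc]
  exact add_le_add k1 (mul_le_mul_of_nonneg_left k2 k3)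

theorem asym6_JJn {w : ℂ} (hw : w ≠ 0) :
    JJ 6 w * (I / (216 * (Real.sqrt 6 : ℝ))) = ((-6 * (-w)) ^ 7)⁻¹ := by
  have h1 := asym6_JJ hw
  have h2 : JJ 6 w * (I / (216 * (Real.sqrt 6 : ℝ))) =
      -(JJ 6 w * (-I / (216 * (Real.sqrt 6 : ℝ)))) := by ring
  rw [h2, h1, ← inv_neg]
  congr 1
  ring

theorem asym6_minus {a : ℕ → ℂ} {ωm ωp : ℂ} (h : CStep 6 a ωm ωp) : ∃ C : ℝ, ∀ w : ℂ, 0 < w.im →
    ‖w‖ ≤ 1 / 1000 → 100 * ‖w‖ ^ 2 ≤ -w.re → w.im ≤ ‖w‖ ^ 2 →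
    ‖ff a (w - 1 / 6) - ωm * JJ 6 w * (I * (starRingEnd ℂ) ωp / (216 * (Real.sqrt 6 : ℝ)) *
      ff a (-1 / (((6 : ℝ) : ℂ) * w) / 6 + 1 / 6))‖ ≤ C * w.im ^ (-(13 / 4) : ℝ) := by
  obtain ⟨C, hC⟩ := h.bound
  refine ⟨|C| + ((Real.sqrt 6 * (1 / 10)) ^ 7)⁻¹ * |C|, fun w e1 e2 e3 e0 => ?_⟩
  obtain ⟨g1, g2, g3, g4, g5⟩ := aa_hyp e1 e2 e3
  obtain ⟨u, hu⟩ : ∃ u, u = w.re := ⟨_, rfl⟩
  obtain ⟨y, hy⟩ : ∃ y, y = w.im := ⟨_, rfl⟩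
  have hw0 : w ≠ 0 := by
    rintro rfl
    simp at e1
  -- the first point
  have zre : (w - 1 / 6).re = u - 1 / 6 := by rw [hu]; simp
  have zim : (w - 1 / 6).im = y := by rw [hy]; simp
  have zn : normSq (w - 1 / 6) = (u - 1 / 6) ^ 2 + y ^ 2 := by
    rw [Complex.normSq_apply, zre, zim]; ring
  -- the second point
  have Nre : (6 * w).re = 6 * u := by rw [hu]; simp
  have Nim : (6 * w).im = 6 * y := by rw [hy]; simp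
  have Dre : (1 - 6 * w).re = 1 - 6 * u := by rw [hu]; simp
  have Dim : (1 - 6 * w).im = -(6 * y) := by rw [hy]; simp
  rw [← hu, ← hy] at g1 g2
  rw [← hy] at e1 g3
  rw [← hu] at g4 g5
  have Dn : normSq (1 - 6 * w) = (1 - 6 * u) ^ 2 + (6 * y) ^ 2 := by
    rw [Complex.normSq_apply, Dre, Dim]; ring
  have Nn : normSq (6 * w) = (6 * u) ^ 2 + (6 * y) ^ 2 := by
    rw [Complex.normSq_apply, Nre, Nim]; ring
  have hD : 0 < normSq (1 - 6 * w) := by rw [Dn]; nlinarith [sq_nonneg y]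
  have hDne : 1 - 6 * w ≠ 0 := Complex.normSq_pos.1 hD
  have hzne : w - 1 / 6 ≠ 0 := by
    intro h0
    apply hDne
    linear_combination (-6) * h0
  have q1 := (hC (w - 1 / 6) (by rw [zim]; exact e1) (by rw [zim]; linarith)
    (aa_norm_le (by rw [zn]; nlinarith [sq_nonneg y, sq_nonneg u]))
    (aa_reg1 (r := 1 / 10) le_rfl (by rw [zn]; nlinarith [sq_nonneg y, sq_nonneg u])
      (by rw [zim]; linarith))).1 (by rw [zre]; linarith)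
  have E1 : -1 / (((6 : ℝ) : ℂ) * (w - 1 / 6)) = 6 * w / (1 - 6 * w) + 1 := by
    rw [div_add_one hDne, div_eq_div_iff (mul_ne_zero (by norm_num) hzne) hDne]
    push_cast
    ring
  rw [E1, ff_per] at q1
  have im1 : y ≤ (6 * w / (1 - 6 * w)).im := by
    apply aa_im_ge hD
    rw [Dn, Nre, Nim, Dre, Dim]
    nlinarith [sq_nonneg y, sq_nonneg u]
  have q2 := (hC (6 * w / (1 - 6 * w)) (lt_of_lt_of_le e1 im1) (by
    apply aa_im_le hD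
    rw [Dn, Nre, Nim, Dre, Dim]
    nlinarith [sq_nonneg y, sq_nonneg u])
    (aa_norm_le (by
      apply aa_nsq_le hD
      rw [Dn, Nn]
      nlinarith [sq_nonneg y, sq_nonneg u]))
    (by
      have t := aa_reg2 (w := w) (D := 1 - 6 * w) 6 (-6) (by norm_num) (by push_cast; ring) hD
        (by rw [← hy]; exact e1) e0
      exact_mod_cast t)).2.2.1 (by
      apply aa_re_le hD
      rw [Nre, Nim, Dre, Dim]
      nlinarith [sq_nonneg y, sq_nonneg u])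
  have E2 : -1 / (((6 : ℝ) : ℂ) * (6 * w / (1 - 6 * w))) =
      -1 / (((6 : ℝ) : ℂ) * w) / 6 + 1 / 6 := by
    push_cast
    field_simp
    ring
  rw [E2] at q2
  have hJ : ‖JJ 6 (w - 1 / 6)‖ ≤ ((Real.sqrt 6 * (1 / 10)) ^ 7)⁻¹ :=
    aa_JJ_le 6 (1 / 10) (by norm_num) (by norm_num) _ (by
      rw [zn]
      nlinarith [sq_nonneg y, sq_nonneg u])
  have q3 := aa_chain h.hm hJ q1 q2
  have E3 : JJ 6 (w - 1 / 6) * JJ 6 (6 * w / (1 - 6 * w)) =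
      JJ 6 w * (I / (216 * (Real.sqrt 6 : ℝ))) := by
    rw [asym6_JJn hw0]
    exact asym6_JJ2 (by
      rw [← mul_div_assoc, div_eq_iff hDne]
      ring)
  rw [E3] at q3
  have E4 : ωm * JJ 6 w * (I * (starRingEnd ℂ) ωp / (216 * (Real.sqrt 6 : ℝ)) *
      ff a (-1 / (((6 : ℝ) : ℂ) * w) / 6 + 1 / 6)) =
      (ωm * (starRingEnd ℂ) ωp) * (JJ 6 w * (I / (216 * (Real.sqrt 6 : ℝ)))) *
        ff a (-1 / (((6 : ℝ) : ℂ) * w) / 6 + 1 / 6) := by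
    ring
  rw [E4]
  refine q3.trans ?_
  rw [zim, ← hy]
  have hp := aa_pow _ _ e1 im1
  have hy0 : 0 ≤ y ^ (-(13 / 4) : ℝ) := Real.rpow_nonneg e1.le _
  have hp0 : 0 ≤ (6 * w / (1 - 6 * w)).im ^ (-(13 / 4) : ℝ) :=
    Real.rpow_nonneg (e1.le.trans im1) _
  have k1 : C * y ^ (-(13 / 4) : ℝ) ≤ |C| * y ^ (-(13 / 4) : ℝ) :=
    mul_le_mul_of_nonneg_right (le_abs_self C) hy0
  have k2 : C * (6 * w / (1 - 6 * w)).im ^ (-(13 / 4) : ℝ) ≤ |C| * y ^ (-(13 / 4) : ℝ) :=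
    (mul_le_mul_of_nonneg_right (le_abs_self C) hp0).trans
      (mul_le_mul_of_nonneg_left hp (abs_nonneg C))
  have k3 : 0 ≤ ((Real.sqrt 6 * (1 / 10)) ^ 7)⁻¹ := by positivity
  rw [add_mul, mul_assoc]
  exact add_le_add k1 (mul_le_mul_of_nonneg_left k2 k3)

theorem asym6 {a : ℕ → ℂ} {ωm ωp : ℂ} (h : CStep 6 a ωm ωp) :
    Asym 6 a a ωm 6 (-I * (starRingEnd ℂ) ωm / (216 * (Real.sqrt 6 : ℝ)))
      (I * (starRingEnd ℂ) ωp / (216 * (Real.sqrt 6 : ℝ))) := by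
  obtain ⟨C1, h1⟩ := asym6_plus h
  obtain ⟨C2, h2⟩ := asym6_minus h
  refine ⟨C1 + C2, fun w e1 e2 e3 e4 => ?_⟩
  have k1 := h1 w e1 e2 e3 e4
  have k2 := h2 w e1 e2 e3 e4
  rw [add_mul]
  refine le_trans (le_of_eq ?_) ((norm_add_le _ _).trans (add_le_add k1 k2))
  congr 1
  push_cast
  ring

end Pool.Agent.H11.SC
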