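import Mathlib
import Pool.Agent.H11.SC5.Defs5
import Pool.Agent.H11.SC5.AsymAux

/-!
# ASYM7: the behaviour at `± 1/6` for `q = 7`

`h = ff (cj a)`, `w' = -1/(7w)`, `y = Im w`, `‖w‖ ≤ 1/1000`, `100 ‖w‖² ≤ -Re w` (so `Re w < 0`).
All steps: `h.bound`; `ff_per` allows integer shifts of the argument of `ff`.
PLUS.  `z = w + 1/6` (`Re z > 0`, `0.165 ≤ ‖z‖ ≤ 0.168`), `z1 = -1/(7z) + 1 = (42w+1)/(42w+7)`
(`Re z1 > 0`, `0.13 ≤ ‖z1‖ ≤ 0.16`, `Im z1 = y/(7‖z‖²) ≥ 5y`), `z2 = -1/(7 z1) + 1 = 36w/(1+42w)`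
(`Re z2 < 0` because `42‖w‖² ≤ -Re w`; `‖z2‖ ≤ 0.04`, `Im z2 = Im z1/(7‖z1‖²) ≥ 25y`, `≤ 50y`),
`-1/(7 z2) = w'/36 - 1/6`.
`ff a z ≈ ωp J(z) h(z1)`, `h(z1) ≈ conj ωm J(z1) ff a z2`, `ff a z2 ≈ ωm J(z2) h(w'/36 - 1/6)`.
`z z1 z2 = 6w/7`, `(√7)³ (-i)³ (6w/7) = -6 (√7 (-iw))`, so `J(z) J(z1) J(z2) = -(6^7)⁻¹ J(w)` and
`ff a (w + 1/6) ≈ -ωp (6^7)⁻¹ J(w) h(w'/36 - 1/6)` (`conj ωm ωm = 1`), and
`-ωp = ωm (-ωp conj ωm)`.
ERRORS: `C y^(-13/4) + |J z| C (Im z1)^(-13/4) + |J z J z1| C (Im z2)^(-13/4) ≤ C' y^(-13/4)`.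
MINUS.  `z = w - 1/6` (`Re z < 0`), `z1 = -1/(7z) - 1 = (42w-1)/(7-42w)` (`Re z1 < 0`),
`z2 = -1/(7 z1) - 1 = 36w/(1-42w)` (`Re z2 < 0`), `-1/(7 z2) = w'/36 + 1/6`, constants
`ωm · conj ωp · ωm`, `z z1 z2 = 6w/7` again: `ff a (w - 1/6) ≈ -ωm conj ωp ωm (6^7)⁻¹ J(w) h(w'/36+1/6)`.
-/

set_option autoImplicit false

namespace Pool.Agent.H11.SC

open Complex

/-- product of three automorphy factors -/
theorem asym7_JJ3 {z z1 z2 w : ℂ} (h : z * z1 * z2 = 6 * w / 7) :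
    JJ 7 z * JJ 7 z1 * JJ 7 z2 = -(((6 : ℂ) ^ 7)⁻¹) * JJ 7 w := by
  have hs : ((Real.sqrt 7 : ℝ) : ℂ) ^ 2 = 7 := by
    rw [aa_sqrt_sq (by norm_num)]
    norm_num
  unfold JJ
  rw [← mul_inv, ← mul_inv, ← mul_pow, ← mul_pow, neg_mul, ← mul_inv, ← mul_pow, ← inv_neg]
  congr 1
  have e1 : ((Real.sqrt 7 : ℝ) : ℂ) * (-(I * z)) * (((Real.sqrt 7 : ℝ) : ℂ) * (-(I * z1))) *
      (((Real.sqrt 7 : ℝ) : ℂ) * (-(I * z2))) =
      -(((Real.sqrt 7 : ℝ) : ℂ) ^ 2 * ((Real.sqrt 7 : ℝ) : ℂ) * (I ^ 2 * I) * (z * z1 * z2)) := by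
    ring
  rw [e1, hs, I_sq, h]
  ring

theorem asym7_plus {a : ℕ → ℂ} {ωm ωp : ℂ} (h : CStep 7 a ωm ωp) : ∃ C : ℝ, ∀ w : ℂ, 0 < w.im →
    ‖w‖ ≤ 1 / 1000 → 100 * ‖w‖ ^ 2 ≤ -w.re → w.im ≤ ‖w‖ ^ 2 →
    ‖ff a (w + 1 / 6) - ωm * JJ 7 w * (((6 : ℂ) ^ 7)⁻¹ * (-ωp * (starRingEnd ℂ) ωm) *
      ff (cj a) (-1 / (((7 : ℝ) : ℂ) * w) / 36 - 1 / 6))‖ ≤ C * w.im ^ (-(13 / 4) : ℝ) := by
  obtain ⟨C, hC⟩ := h.bound
  refine ⟨|C| + ((Real.sqrt 7 * (1 / 10)) ^ 7)⁻¹ * |C| +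
    ((Real.sqrt 7 * (1 / 10)) ^ 7)⁻¹ * ((Real.sqrt 7 * (1 / 10)) ^ 7)⁻¹ * |C|,
    fun w e1 e2 e3 e0 => ?_⟩
  obtain ⟨g1, g2, g3, g4, g5⟩ := aa_hyp e1 e2 e3
  obtain ⟨u, hu⟩ : ∃ u, u = w.re := ⟨_, rfl⟩
  obtain ⟨y, hy⟩ : ∃ y, y = w.im := ⟨_, rfl⟩
  have hw0 : w ≠ 0 := by
    rintro rfl
    simp at e1
  -- the first point
  have zre : (w + 1 / 6).re = u + 1 / 6 := by rw [hu]; simp
  have zim : (w + 1 / 6).im = y := by rw [hy]; simp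
  have zn : normSq (w + 1 / 6) = (u + 1 / 6) ^ 2 + y ^ 2 := by
    rw [Complex.normSq_apply, zre, zim]; ring
  -- the second point
  have Nre : (42 * w + 1).re = 42 * u + 1 := by rw [hu]; simp
  have Nim : (42 * w + 1).im = 42 * y := by rw [hy]; simp
  have Dre : (42 * w + 7).re = 42 * u + 7 := by rw [hu]; simp
  have Dim : (42 * w + 7).im = 42 * y := by rw [hy]; simp
  have Mre : (36 * w).re = 36 * u := by rw [hu]; simp
  have Mim : (36 * w).im = 36 * y := by rw [hy]; simp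
  rw [← hu, ← hy] at g1 g2
  rw [← hy] at e1 g3
  rw [← hu] at g4 g5
  have Dn : normSq (42 * w + 7) = (42 * u + 7) ^ 2 + (42 * y) ^ 2 := by
    rw [Complex.normSq_apply, Dre, Dim]; ring
  have Nn : normSq (42 * w + 1) = (42 * u + 1) ^ 2 + (42 * y) ^ 2 := by
    rw [Complex.normSq_apply, Nre, Nim]; ring
  have Mn : normSq (36 * w) = (36 * u) ^ 2 + (36 * y) ^ 2 := by
    rw [Complex.normSq_apply, Mre, Mim]; ring
  have hD : 0 < normSq (42 * w + 7) := by rw [Dn]; nlinarith [sq_nonneg y]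
  have hN : 0 < normSq (42 * w + 1) := by rw [Nn]; nlinarith [sq_nonneg y]
  have hDne : 42 * w + 7 ≠ 0 := Complex.normSq_pos.1 hD
  have hNne : 42 * w + 1 ≠ 0 := Complex.normSq_pos.1 hN
  have hzne : w + 1 / 6 ≠ 0 := by
    intro h0
    apply hDne
    linear_combination 42 * h0
  have q1 := (hC (w + 1 / 6) (by rw [zim]; exact e1) (by rw [zim]; linarith)
    (aa_norm_le (by rw [zn]; nlinarith [sq_nonneg y, sq_nonneg u]))
    (aa_reg1 (r := 1 / 10) le_rfl (by rw [zn]; nlinarith [sq_nonneg y, sq_nonneg u])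
      (by rw [zim]; linarith))).2.1 (by rw [zre]; linarith)
  have E1 : -1 / (((7 : ℝ) : ℂ) * (w + 1 / 6)) = (42 * w + 1) / (42 * w + 7) - 1 := by
    rw [div_sub_one hDne, div_eq_div_iff (mul_ne_zero (by norm_num) hzne) hDne]
    push_cast
    ring
  rw [E1, ff_per'] at q1
  have im1 : y ≤ ((42 * w + 1) / (42 * w + 7)).im := by
    apply aa_im_ge hD
    rw [Dn, Nre, Nim, Dre, Dim]
    nlinarith [sq_nonneg y, sq_nonneg u]
  have q2 := (hC ((42 * w + 1) / (42 * w + 7)) (lt_of_lt_of_le e1 im1) (by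
    apply aa_im_le hD
    rw [Dn, Nre, Nim, Dre, Dim]
    nlinarith [sq_nonneg y, sq_nonneg u])
    (aa_norm_le (by
      apply aa_nsq_le hD
      rw [Dn, Nn]
      nlinarith [sq_nonneg y, sq_nonneg u]))
    (aa_reg1 (r := 1 / 10) le_rfl (by
      apply aa_nsq_ge hD
      rw [Dn, Nn]
      nlinarith [sq_nonneg y, sq_nonneg u]) (by
      apply aa_im_le hD
      rw [Dn, Nre, Nim, Dre, Dim]
      nlinarith [sq_nonneg y, sq_nonneg u]))).2.2.2 (by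
      apply aa_re_ge hD
      rw [Nre, Nim, Dre, Dim]
      nlinarith [sq_nonneg y, sq_nonneg u])
  have E2 : -1 / (((7 : ℝ) : ℂ) * ((42 * w + 1) / (42 * w + 7))) =
      36 * w / (42 * w + 1) - 1 := by
    rw [div_sub_one hNne, ← mul_div_assoc, div_div_eq_mul_div,
      div_eq_div_iff (mul_ne_zero (by norm_num) hNne) hNne]
    push_cast
    ring
  rw [E2, ff_per'] at q2
  have im2 : y ≤ (36 * w / (42 * w + 1)).im := by
    apply aa_im_ge hN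
    rw [Nn, Mre, Mim, Nre, Nim]
    nlinarith [sq_nonneg y, sq_nonneg u]
  have q3 := (hC (36 * w / (42 * w + 1)) (lt_of_lt_of_le e1 im2) (by
    apply aa_im_le hN
    rw [Nn, Mre, Mim, Nre, Nim]
    nlinarith [sq_nonneg y, sq_nonneg u])
    (aa_norm_le (by
      apply aa_nsq_le hN
      rw [Nn, Mn]
      nlinarith [sq_nonneg y, sq_nonneg u]))
    (by
      have t := aa_reg2 (w := w) (D := 42 * w + 1) 36 42 (by norm_num) (by push_cast; ring) hN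
        (by rw [← hy]; exact e1) e0
      exact_mod_cast t)).1 (by
      apply aa_re_le hN
      rw [Mre, Mim, Nre, Nim]
      nlinarith [sq_nonneg y, sq_nonneg u])
  have E3 : -1 / (((7 : ℝ) : ℂ) * (36 * w / (42 * w + 1))) =
      -1 / (((7 : ℝ) : ℂ) * w) / 36 - 1 / 6 := by
    push_cast
    field_simp
    ring
  rw [E3] at q3
  have hJ : ‖JJ 7 (w + 1 / 6)‖ ≤ ((Real.sqrt 7 * (1 / 10)) ^ 7)⁻¹ :=
    aa_JJ_le 7 (1 / 10) (by norm_num) (by norm_num) _ (by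
      rw [zn]
      nlinarith [sq_nonneg y, sq_nonneg u])
  have hJ1 : ‖JJ 7 ((42 * w + 1) / (42 * w + 7))‖ ≤ ((Real.sqrt 7 * (1 / 10)) ^ 7)⁻¹ :=
    aa_JJ_le 7 (1 / 10) (by norm_num) (by norm_num) _ (by
      apply aa_nsq_ge hD
      rw [Dn, Nn]
      nlinarith [sq_nonneg y, sq_nonneg u])
  have q4 := aa_chain h.hp hJ q1 q2
  have hcc : ‖ωp * (starRingEnd ℂ) ωm‖ = 1 := by
    rw [norm_mul, RCLike.norm_conj, h.hp, h.hm, one_mul]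
  have hJJ : ‖JJ 7 (w + 1 / 6) * JJ 7 ((42 * w + 1) / (42 * w + 7))‖ ≤
      ((Real.sqrt 7 * (1 / 10)) ^ 7)⁻¹ * ((Real.sqrt 7 * (1 / 10)) ^ 7)⁻¹ := by
    rw [norm_mul]
    exact mul_le_mul hJ hJ1 (norm_nonneg _) ((norm_nonneg _).trans hJ)
  have q5 := aa_chain hcc hJJ q4 q3
  have E4 : JJ 7 (w + 1 / 6) * JJ 7 ((42 * w + 1) / (42 * w + 7)) *
      JJ 7 (36 * w / (42 * w + 1)) = -(((6 : ℂ) ^ 7)⁻¹) * JJ 7 w := by
    apply asym7_JJ3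
    rw [mul_assoc, div_mul_div_comm, ← mul_div_assoc,
      div_eq_div_iff (mul_ne_zero hDne hNne) (by norm_num)]
    ring
  rw [E4] at q5
  have E5 : ωm * JJ 7 w * (((6 : ℂ) ^ 7)⁻¹ * (-ωp * (starRingEnd ℂ) ωm) *
      ff (cj a) (-1 / (((7 : ℝ) : ℂ) * w) / 36 - 1 / 6)) =
      (ωp * (starRingEnd ℂ) ωm * ωm) * (-(((6 : ℂ) ^ 7)⁻¹) * JJ 7 w) *
        ff (cj a) (-1 / (((7 : ℝ) : ℂ) * w) / 36 - 1 / 6) := by
    ring
  rw [E5]
  refine q5.trans ?_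
  rw [zim, ← hy]
  have hp1 := aa_pow _ _ e1 im1
  have hp2 := aa_pow _ _ e1 im2
  have hy0 : 0 ≤ y ^ (-(13 / 4) : ℝ) := Real.rpow_nonneg e1.le _
  have k1 : C * y ^ (-(13 / 4) : ℝ) ≤ |C| * y ^ (-(13 / 4) : ℝ) :=
    mul_le_mul_of_nonneg_right (le_abs_self C) hy0
  have k2 : C * ((42 * w + 1) / (42 * w + 7)).im ^ (-(13 / 4) : ℝ) ≤
      |C| * y ^ (-(13 / 4) : ℝ) :=
    (mul_le_mul_of_nonneg_right (le_abs_self C) (Real.rpow_nonneg (e1.le.trans im1) _)).trans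
      (mul_le_mul_of_nonneg_left hp1 (abs_nonneg C))
  have k3 : C * (36 * w / (42 * w + 1)).im ^ (-(13 / 4) : ℝ) ≤ |C| * y ^ (-(13 / 4) : ℝ) :=
    (mul_le_mul_of_nonneg_right (le_abs_self C) (Real.rpow_nonneg (e1.le.trans im2) _)).trans
      (mul_le_mul_of_nonneg_left hp2 (abs_nonneg C))
  have k4 : 0 ≤ ((Real.sqrt 7 * (1 / 10)) ^ 7)⁻¹ := by positivity
  rw [add_mul, add_mul, mul_assoc _ |C|, mul_assoc _ |C|]
  exact add_le_add (add_le_add k1 (mul_le_mul_of_nonneg_left k2 k4))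
    (mul_le_mul_of_nonneg_left k3 (mul_nonneg k4 k4))

theorem asym7_minus {a : ℕ → ℂ} {ωm ωp : ℂ} (h : CStep 7 a ωm ωp) : ∃ C : ℝ, ∀ w : ℂ, 0 < w.im →
    ‖w‖ ≤ 1 / 1000 → 100 * ‖w‖ ^ 2 ≤ -w.re → w.im ≤ ‖w‖ ^ 2 →
    ‖ff a (w - 1 / 6) - ωm * JJ 7 w * (((6 : ℂ) ^ 7)⁻¹ * (-(starRingEnd ℂ) ωp * ωm) *
      ff (cj a) (-1 / (((7 : ℝ) : ℂ) * w) / 36 + 1 / 6))‖ ≤ C * w.im ^ (-(13 / 4) : ℝ) := by
  obtain ⟨C, hC⟩ := h.bound
  refine ⟨|C| + ((Real.sqrt 7 * (1 / 10)) ^ 7)⁻¹ * |C| +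
    ((Real.sqrt 7 * (1 / 10)) ^ 7)⁻¹ * ((Real.sqrt 7 * (1 / 10)) ^ 7)⁻¹ * |C|,
    fun w e1 e2 e3 e0 => ?_⟩
  obtain ⟨g1, g2, g3, g4, g5⟩ := aa_hyp e1 e2 e3
  obtain ⟨u, hu⟩ : ∃ u, u = w.re := ⟨_, rfl⟩
  obtain ⟨y, hy⟩ : ∃ y, y = w.im := ⟨_, rfl⟩
  have hw0 : w ≠ 0 := by
    rintro rfl
    simp at e1
  -- the first point
  have zre : (w - 1 / 6).re = u - 1 / 6 := by rw [hu]; simp
  have zim : (w - 1 / 6).im = y := by rw [hy]; simp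
  have zn : normSq (w - 1 / 6) = (u - 1 / 6) ^ 2 + y ^ 2 := by
    rw [Complex.normSq_apply, zre, zim]; ring
  -- the second point
  have Nre : (42 * w - 1).re = 42 * u - 1 := by rw [hu]; simp
  have Nim : (42 * w - 1).im = 42 * y := by rw [hy]; simp
  have Dre : (7 - 42 * w).re = 7 - 42 * u := by rw [hu]; simp
  have Dim : (7 - 42 * w).im = -(42 * y) := by rw [hy]; simp
  have Pre : (1 - 42 * w).re = 1 - 42 * u := by rw [hu]; simp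
  have Pim : (1 - 42 * w).im = -(42 * y) := by rw [hy]; simp
  have Mre : (36 * w).re = 36 * u := by rw [hu]; simp
  have Mim : (36 * w).im = 36 * y := by rw [hy]; simp
  rw [← hu, ← hy] at g1 g2
  rw [← hy] at e1 g3
  rw [← hu] at g4 g5
  have Dn : normSq (7 - 42 * w) = (7 - 42 * u) ^ 2 + (42 * y) ^ 2 := by
    rw [Complex.normSq_apply, Dre, Dim]; ring
  have Nn : normSq (42 * w - 1) = (42 * u - 1) ^ 2 + (42 * y) ^ 2 := by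
    rw [Complex.normSq_apply, Nre, Nim]; ring
  have Pn : normSq (1 - 42 * w) = (1 - 42 * u) ^ 2 + (42 * y) ^ 2 := by
    rw [Complex.normSq_apply, Pre, Pim]; ring
  have Mn : normSq (36 * w) = (36 * u) ^ 2 + (36 * y) ^ 2 := by
    rw [Complex.normSq_apply, Mre, Mim]; ring
  have hD : 0 < normSq (7 - 42 * w) := by rw [Dn]; nlinarith [sq_nonneg y]
  have hN : 0 < normSq (42 * w - 1) := by rw [Nn]; nlinarith [sq_nonneg y]
  have hP : 0 < normSq (1 - 42 * w) := by rw [Pn]; nlinarith [sq_nonneg y]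
  have hDne : 7 - 42 * w ≠ 0 := Complex.normSq_pos.1 hD
  have hNne : 42 * w - 1 ≠ 0 := Complex.normSq_pos.1 hN
  have hPne : 1 - 42 * w ≠ 0 := Complex.normSq_pos.1 hP
  have hzne : w - 1 / 6 ≠ 0 := by
    intro h0
    apply hDne
    linear_combination (-42) * h0
  have q1 := (hC (w - 1 / 6) (by rw [zim]; exact e1) (by rw [zim]; linarith)
    (aa_norm_le (by rw [zn]; nlinarith [sq_nonneg y, sq_nonneg u]))
    (aa_reg1 (r := 1 / 10) le_rfl (by rw [zn]; nlinarith [sq_nonneg y, sq_nonneg u])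
      (by rw [zim]; linarith))).1 (by rw [zre]; linarith)
  have E1 : -1 / (((7 : ℝ) : ℂ) * (w - 1 / 6)) = (42 * w - 1) / (7 - 42 * w) + 1 := by
    rw [div_add_one hDne, div_eq_div_iff (mul_ne_zero (by norm_num) hzne) hDne]
    push_cast
    ring
  rw [E1, ff_per] at q1
  have im1 : y ≤ ((42 * w - 1) / (7 - 42 * w)).im := by
    apply aa_im_ge hD
    rw [Dn, Nre, Nim, Dre, Dim]
    nlinarith [sq_nonneg y, sq_nonneg u]
  have q2 := (hC ((42 * w - 1) / (7 - 42 * w)) (lt_of_lt_of_le e1 im1) (by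
    apply aa_im_le hD
    rw [Dn, Nre, Nim, Dre, Dim]
    nlinarith [sq_nonneg y, sq_nonneg u])
    (aa_norm_le (by
      apply aa_nsq_le hD
      rw [Dn, Nn]
      nlinarith [sq_nonneg y, sq_nonneg u]))
    (aa_reg1 (r := 1 / 10) le_rfl (by
      apply aa_nsq_ge hD
      rw [Dn, Nn]
      nlinarith [sq_nonneg y, sq_nonneg u]) (by
      apply aa_im_le hD
      rw [Dn, Nre, Nim, Dre, Dim]
      nlinarith [sq_nonneg y, sq_nonneg u]))).2.2.1 (by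
      apply aa_re_le hD
      rw [Nre, Nim, Dre, Dim]
      nlinarith [sq_nonneg y, sq_nonneg u])
  have E2 : -1 / (((7 : ℝ) : ℂ) * ((42 * w - 1) / (7 - 42 * w))) =
      36 * w / (1 - 42 * w) + 1 := by
    rw [div_add_one hPne, ← mul_div_assoc, div_div_eq_mul_div,
      div_eq_div_iff (mul_ne_zero (by norm_num) hNne) hPne]
    push_cast
    ring
  rw [E2, ff_per] at q2
  have im2 : y ≤ (36 * w / (1 - 42 * w)).im := by
    apply aa_im_ge hP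
    rw [Pn, Mre, Mim, Pre, Pim]
    nlinarith [sq_nonneg y, sq_nonneg u]
  have q3 := (hC (36 * w / (1 - 42 * w)) (lt_of_lt_of_le e1 im2) (by
    apply aa_im_le hP
    rw [Pn, Mre, Mim, Pre, Pim]
    nlinarith [sq_nonneg y, sq_nonneg u])
    (aa_norm_le (by
      apply aa_nsq_le hP
      rw [Pn, Mn]
      nlinarith [sq_nonneg y, sq_nonneg u]))
    (by
      have t := aa_reg2 (w := w) (D := 1 - 42 * w) 36 (-42) (by norm_num) (by push_cast; ring) hP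
        (by rw [← hy]; exact e1) e0
      exact_mod_cast t)).1 (by
      apply aa_re_le hP
      rw [Mre, Mim, Pre, Pim]
      nlinarith [sq_nonneg y, sq_nonneg u])
  have E3 : -1 / (((7 : ℝ) : ℂ) * (36 * w / (1 - 42 * w))) =
      -1 / (((7 : ℝ) : ℂ) * w) / 36 + 1 / 6 := by
    push_cast
    field_simp
    ring
  rw [E3] at q3
  have hJ : ‖JJ 7 (w - 1 / 6)‖ ≤ ((Real.sqrt 7 * (1 / 10)) ^ 7)⁻¹ :=
    aa_JJ_le 7 (1 / 10) (by norm_num) (by norm_num) _ (by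
      rw [zn]
      nlinarith [sq_nonneg y, sq_nonneg u])
  have hJ1 : ‖JJ 7 ((42 * w - 1) / (7 - 42 * w))‖ ≤ ((Real.sqrt 7 * (1 / 10)) ^ 7)⁻¹ :=
    aa_JJ_le 7 (1 / 10) (by norm_num) (by norm_num) _ (by
      apply aa_nsq_ge hD
      rw [Dn, Nn]
      nlinarith [sq_nonneg y, sq_nonneg u])
  have q4 := aa_chain h.hm hJ q1 q2
  have hcc : ‖ωm * (starRingEnd ℂ) ωp‖ = 1 := by
    rw [norm_mul, RCLike.norm_conj, h.hp, h.hm, one_mul]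
  have hJJ : ‖JJ 7 (w - 1 / 6) * JJ 7 ((42 * w - 1) / (7 - 42 * w))‖ ≤
      ((Real.sqrt 7 * (1 / 10)) ^ 7)⁻¹ * ((Real.sqrt 7 * (1 / 10)) ^ 7)⁻¹ := by
    rw [norm_mul]
    exact mul_le_mul hJ hJ1 (norm_nonneg _) ((norm_nonneg _).trans hJ)
  have q5 := aa_chain hcc hJJ q4 q3
  have E4 : JJ 7 (w - 1 / 6) * JJ 7 ((42 * w - 1) / (7 - 42 * w)) *
      JJ 7 (36 * w / (1 - 42 * w)) = -(((6 : ℂ) ^ 7)⁻¹) * JJ 7 w := by
    apply asym7_JJ3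
    rw [mul_assoc, div_mul_div_comm, ← mul_div_assoc,
      div_eq_div_iff (mul_ne_zero hDne hPne) (by norm_num)]
    ring
  rw [E4] at q5
  have E5 : ωm * JJ 7 w * (((6 : ℂ) ^ 7)⁻¹ * (-(starRingEnd ℂ) ωp * ωm) *
      ff (cj a) (-1 / (((7 : ℝ) : ℂ) * w) / 36 + 1 / 6)) =
      (ωm * (starRingEnd ℂ) ωp * ωm) * (-(((6 : ℂ) ^ 7)⁻¹) * JJ 7 w) *
        ff (cj a) (-1 / (((7 : ℝ) : ℂ) * w) / 36 + 1 / 6) := by
    ring
  rw [E5]
  refine q5.trans ?_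
  rw [zim, ← hy]
  have hp1 := aa_pow _ _ e1 im1
  have hp2 := aa_pow _ _ e1 im2
  have hy0 : 0 ≤ y ^ (-(13 / 4) : ℝ) := Real.rpow_nonneg e1.le _
  have k1 : C * y ^ (-(13 / 4) : ℝ) ≤ |C| * y ^ (-(13 / 4) : ℝ) :=
    mul_le_mul_of_nonneg_right (le_abs_self C) hy0
  have k2 : C * ((42 * w - 1) / (7 - 42 * w)).im ^ (-(13 / 4) : ℝ) ≤
      |C| * y ^ (-(13 / 4) : ℝ) :=
    (mul_le_mul_of_nonneg_right (le_abs_self C) (Real.rpow_nonneg (e1.le.trans im1) _)).trans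
      (mul_le_mul_of_nonneg_left hp1 (abs_nonneg C))
  have k3 : C * (36 * w / (1 - 42 * w)).im ^ (-(13 / 4) : ℝ) ≤ |C| * y ^ (-(13 / 4) : ℝ) :=
    (mul_le_mul_of_nonneg_right (le_abs_self C) (Real.rpow_nonneg (e1.le.trans im2) _)).trans
      (mul_le_mul_of_nonneg_left hp2 (abs_nonneg C))
  have k4 : 0 ≤ ((Real.sqrt 7 * (1 / 10)) ^ 7)⁻¹ := by positivity
  rw [add_mul, add_mul, mul_assoc _ |C|, mul_assoc _ |C|]
  exact add_le_add (add_le_add k1 (mul_le_mul_of_nonneg_left k2 k4))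
    (mul_le_mul_of_nonneg_left k3 (mul_nonneg k4 k4))

theorem asym7 {a : ℕ → ℂ} {ωm ωp : ℂ} (h : CStep 7 a ωm ωp) :
    Asym 7 a (cj a) ωm 36 (((6 : ℂ) ^ 7)⁻¹ * (-ωp * (starRingEnd ℂ) ωm))
      (((6 : ℂ) ^ 7)⁻¹ * (-(starRingEnd ℂ) ωp * ωm)) := by
  obtain ⟨C1, h1⟩ := asym7_plus h
  obtain ⟨C2, h2⟩ := asym7_minus h
  refine ⟨C1 + C2, fun w e1 e2 e3 e4 => ?_⟩
  have k1 := h1 w e1 e2 e3 e4
  have k2 := h2 w e1 e2 e3 e4
  rw [add_mul]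
  refine le_trans (le_of_eq ?_) ((norm_add_le _ _).trans (add_le_add k1 k2))
  congr 1
  push_cast
  ring

end Pool.Agent.H11.SC
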