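import Mathlib
import Pool.Agent.H11.SC5.Defs5

/-!
# LLSUM: the coefficients `LL` are small

`‖l2 c2 k‖ ≤ 1 + 2 D R^k ≤ D' R^k` (`R ≥ 1`), `R^2 < 2`; `‖l3 c3 j‖ ≤ D'' S^j`, `S^2 < 3`.
`R < 2^(1/2)`, `S < 3^(1/2)`, so there is `σ < 1/2`, `σ > 0`, with `R < 2^σ`, `S < 3^σ` (continuity of
`x ↦ 2^x` at `1/2`; or `σ = (max (log R/log 2) (log S/log 3) + 1/2)/2`).  Then
`‖LL p‖ (dd p)^(-σ) ≤ D' D'' (R/2^σ)^k (S/3^σ)^j`, a product of two geometric series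
(`Summable.mul_of_nonneg`).
`LL_bound`: `‖LL p‖ ≤ D (dd p)^σ` (terms of a summable family of nonnegative numbers are bounded).
-/

set_option autoImplicit false

namespace Pool.Agent.H11.SC

open Complex

private theorem LLsum_log_lt {R b : ℝ} (hR : 1 ≤ R) (hb : 1 < b) (h : R ^ 2 < b) :
    0 ≤ Real.log R / Real.log b ∧ Real.log R / Real.log b < 1 / 2 := by
  have hlb : 0 < Real.log b := Real.log_pos hb
  have hR0 : 0 < R := by linarith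
  refine ⟨div_nonneg (Real.log_nonneg hR) hlb.le, ?_⟩
  rw [div_lt_iff₀ hlb]
  have h1 : Real.log (R ^ 2) < Real.log b := Real.log_lt_log (by positivity) h
  rw [Real.log_pow] at h1
  push_cast at h1
  linarith

private theorem LLsum_lt {R b σ : ℝ} (hR : 1 ≤ R) (hb : 1 < b)
    (h : Real.log R / Real.log b < σ) : R * b ^ (-σ) < 1 := by
  have hlb : 0 < Real.log b := Real.log_pos hb
  have hR0 : 0 < R := by linarith
  have hb0 : 0 < b := by linarith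
  rw [div_lt_iff₀ hlb] at h
  have h1 : R < b ^ σ := (Real.lt_rpow_iff_log_lt hR0 hb0).mpr h
  have h2 : 0 < b ^ σ := Real.rpow_pos_of_pos hb0 _
  rw [Real.rpow_neg hb0.le, ← div_eq_mul_inv, div_lt_one h2]
  exact h1

private theorem LLsum_geom {l : ℕ → ℂ} {D R σ : ℝ} {b : ℕ} (hb : 1 < b) (hR : 1 ≤ R)
    (hl : ∀ k, ‖l k‖ ≤ D * R ^ k) (h : R * (b : ℝ) ^ (-σ) < 1) :
    Summable (fun k : ℕ => ‖l k‖ * ((b ^ k : ℕ) : ℝ) ^ (-σ)) := by
  have hb0 : (0 : ℝ) < b := by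
    have : 0 < b := by omega
    exact_mod_cast this
  have hr : 0 ≤ R * (b : ℝ) ^ (-σ) := mul_nonneg (by linarith) (Real.rpow_nonneg hb0.le _)
  refine Summable.of_nonneg_of_le (fun k => ?_) (fun k => ?_)
    ((summable_geometric_of_lt_one hr h).mul_left D)
  · exact mul_nonneg (norm_nonneg _) (Real.rpow_nonneg (Nat.cast_nonneg _) _)
  · have h1 : ((b ^ k : ℕ) : ℝ) ^ (-σ) = ((b : ℝ) ^ (-σ)) ^ k := by
      rw [Nat.cast_pow, ← Real.rpow_natCast, ← Real.rpow_mul hb0.le, mul_comm (k : ℝ) (-σ),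
        Real.rpow_mul hb0.le, Real.rpow_natCast]
    rw [h1, mul_pow, ← mul_assoc]
    exact mul_le_mul_of_nonneg_right (hl k) (pow_nonneg (Real.rpow_nonneg hb0.le _) k)

theorem LL_sum (a c2 c3 : ℕ → ℂ) (h : Loc6 a c2 c3) : ∃ σ : ℝ, 0 < σ ∧ σ < 1 / 2 ∧
    Summable (fun p : ℕ × ℕ => ‖LL c2 c3 p‖ * (dd p : ℝ) ^ (-σ)) := by
  obtain ⟨D, R, hR1, hR2, hD⟩ := h.bd2
  obtain ⟨E, S, hS1, hS2, hE⟩ := h.bd3
  obtain ⟨a1, a2⟩ := LLsum_log_lt hR1 (by norm_num) hR2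
  obtain ⟨b1, b2⟩ := LLsum_log_lt hS1 (by norm_num) hS2
  set m := max (Real.log R / Real.log 2) (Real.log S / Real.log 3) with hm
  have hm0 : 0 ≤ m := a1.trans (le_max_left _ _)
  have hm1 : m < 1 / 2 := max_lt a2 b2
  have hms : m < (m + 1 / 2) / 2 := by linarith
  refine ⟨(m + 1 / 2) / 2, by linarith, by linarith, ?_⟩
  set σ := (m + 1 / 2) / 2 with hσ
  have hl2 : ∀ k, ‖l2 c2 k‖ ≤ (1 + 2 * D) * R ^ k := by
    intro k
    have hRk : 1 ≤ R ^ k := one_le_pow₀ hR1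
    unfold l2
    refine (norm_sub_le _ _).trans ?_
    have e1 : ‖(if k = 0 then (1 : ℂ) else 0)‖ ≤ 1 := by
      split_ifs <;> simp
    have e2 : ‖2 * c2 k‖ ≤ 2 * (D * R ^ k) := by
      rw [norm_mul]
      have : ‖(2 : ℂ)‖ = 2 := by norm_num
      rw [this]
      exact mul_le_mul_of_nonneg_left (hD k) (by norm_num)
    calc ‖(if k = 0 then (1 : ℂ) else 0)‖ + ‖2 * c2 k‖ ≤ 1 + 2 * (D * R ^ k) := add_le_add e1 e2
      _ ≤ R ^ k + 2 * (D * R ^ k) := by linarith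
      _ = (1 + 2 * D) * R ^ k := by ring
  have hl3 : ∀ k, ‖l3 c3 k‖ ≤ (2 + 3 * E) * S ^ k := by
    intro k
    have hSk : 1 ≤ S ^ k := one_le_pow₀ hS1
    unfold l3
    refine (norm_sub_le _ _).trans ?_
    have e1 : ‖(if k = 0 then (2 : ℂ) else 0)‖ ≤ 2 := by
      split_ifs <;> simp
    have e2 : ‖3 * c3 k‖ ≤ 3 * (E * S ^ k) := by
      rw [norm_mul]
      have : ‖(3 : ℂ)‖ = 3 := by norm_num
      rw [this]
      exact mul_le_mul_of_nonneg_left (hE k) (by norm_num)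
    calc ‖(if k = 0 then (2 : ℂ) else 0)‖ + ‖3 * c3 k‖ ≤ 2 + 3 * (E * S ^ k) := add_le_add e1 e2
      _ ≤ 2 * S ^ k + 3 * (E * S ^ k) := by linarith
      _ = (2 + 3 * E) * S ^ k := by ring
  have g2 := LLsum_geom (b := 2) (σ := σ) (by norm_num) hR1 hl2 (by
    push_cast
    exact LLsum_lt hR1 (by norm_num) ((le_max_left _ _).trans_lt hms))
  have g3 := LLsum_geom (b := 3) (σ := σ) (by norm_num) hS1 hl3 (by
    push_cast
    exact LLsum_lt hS1 (by norm_num) ((le_max_right _ _).trans_lt hms))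
  have h5 := Summable.mul_of_nonneg g2 g3
    (fun k => mul_nonneg (norm_nonneg _) (Real.rpow_nonneg (Nat.cast_nonneg _) _))
    (fun k => mul_nonneg (norm_nonneg _) (Real.rpow_nonneg (Nat.cast_nonneg _) _))
  refine h5.congr fun p => ?_
  unfold LL dd
  rw [norm_mul, Nat.cast_mul, Real.mul_rpow (Nat.cast_nonneg _) (Nat.cast_nonneg _)]
  ring

theorem LL_bound (a c2 c3 : ℕ → ℂ) (h : Loc6 a c2 c3) : ∃ D σ : ℝ, 0 ≤ D ∧ 0 < σ ∧ σ < 1 / 2 ∧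
    ∀ p : ℕ × ℕ, ‖LL c2 c3 p‖ ≤ D * (dd p : ℝ) ^ σ := by
  obtain ⟨σ, h0, h1, hs⟩ := LL_sum a c2 c3 h
  have hnn : ∀ p : ℕ × ℕ, 0 ≤ ‖LL c2 c3 p‖ * (dd p : ℝ) ^ (-σ) := fun p =>
    mul_nonneg (norm_nonneg _) (Real.rpow_nonneg (Nat.cast_nonneg _) _)
  refine ⟨∑' p : ℕ × ℕ, ‖LL c2 c3 p‖ * (dd p : ℝ) ^ (-σ), σ, tsum_nonneg hnn, h0, h1,
    fun p => ?_⟩
  have h2 := hs.le_tsum p (fun j _ => hnn j)
  have hd : (0 : ℝ) < (dd p : ℝ) := by
    have : 0 < dd p := by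
      unfold dd
      positivity
    exact_mod_cast this
  have h3 : (0 : ℝ) < (dd p : ℝ) ^ σ := Real.rpow_pos_of_pos hd _
  rw [Real.rpow_neg hd.le, ← div_eq_mul_inv, div_le_iff₀ h3] at h2
  exact h2

end Pool.Agent.H11.SC
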