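import Mathlib
import Pool.Agent.H11.SC5.Defs5
import Pool.Agent.H11.SC4.TwoC

/-!
# SIXC: the operator at `6`

`six_coeff`: write `n = 2^K 3^J m`, `gcd(m, 6) = 1`.  `dd (k, j) ∣ n` iff `k ≤ K`, `j ≤ J`, and then
`a (n/dd (k,j)) = a(2^(K-k)) a(3^(J-j)) a(m)` (`h.mul` twice).  `K, J ≤ n`.  So the sum is
`a(m) (∑_{k≤K} l2 k a(2^(K-k))) (∑_{j≤J} l3 j a(3^(J-j)))`, and with `inv2`, `inv3`:
`∑_{k≤K} l2 k a(2^(K-k)) = a(2^K) - 2 [K = 0]`, `∑_{j≤J} l3 j a(3^(J-j)) = 2 a(3^J) - 3 [J = 0]`.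
On the other side `a n = a(2^K) a(3^J) a(m)` and `ee (n/6) + ee (-n/6) = 2 cos (π n/3)`, which is
`1, -1, -2, 2` for `gcd(n, 6) = 1, 2, 3, 6` (it depends only on `n mod 6`); `a(1) = 1`.
-/

set_option autoImplicit false

namespace Pool.Agent.H11.SC

open Complex

theorem dd_pos (p : ℕ × ℕ) : 0 < dd p := by
  unfold dd
  positivity

private theorem sixc_ee (n : ℕ) :
    ee (n / 6) + ee (-(n / 6)) = ((2 * Real.cos (Real.pi * n / 3) : ℝ) : ℂ) := by
  unfold ee
  push_cast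
  rw [Complex.cos]
  have e1 : 2 * (Real.pi : ℂ) * I * (n / 6) = (Real.pi : ℂ) * n / 3 * I := by ring
  have e2 : 2 * (Real.pi : ℂ) * I * (-(n / 6)) = -((Real.pi : ℂ) * n / 3) * I := by ring
  rw [e1, e2]
  ring

private theorem sixc_cos (n : ℕ) : Real.cos (Real.pi * n / 3) =
    Real.cos (Real.pi * (n % 6 : ℕ) / 3) := by
  have h : (n : ℝ) = 6 * (n / 6 : ℕ) + (n % 6 : ℕ) := by
    exact_mod_cast (Nat.div_add_mod n 6).symm
  have e : Real.pi * n / 3 = Real.pi * (n % 6 : ℕ) / 3 + (n / 6 : ℕ) * (2 * Real.pi) := by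
    rw [h]
    ring
  rw [e, Real.cos_add_nat_mul_two_pi]

private theorem sixc_c2 : Real.cos (Real.pi * 2 / 3) = -(1 / 2) := by
  have : Real.pi * 2 / 3 = Real.pi - Real.pi / 3 := by ring
  rw [this, Real.cos_pi_sub, Real.cos_pi_div_three]

private theorem sixc_c4 : Real.cos (Real.pi * 4 / 3) = -(1 / 2) := by
  have : Real.pi * 4 / 3 = Real.pi / 3 + Real.pi := by ring
  rw [this, Real.cos_add_pi, Real.cos_pi_div_three]

private theorem sixc_c5 : Real.cos (Real.pi * 5 / 3) = 1 / 2 := by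
  have : Real.pi * 5 / 3 = 2 * Real.pi - Real.pi / 3 := by ring
  rw [this, Real.cos_two_pi_sub, Real.cos_pi_div_three]

private theorem sixc_Xr (r : ℕ) (h6 : r < 6) : 2 * Real.cos (Real.pi * (r : ℕ) / 3) =
    (if r % 2 = 0 then 1 else -1) * (if r % 3 = 0 then 2 else -1) := by
  interval_cases r
  · simp
  · have h := Real.cos_pi_div_three
    norm_num [h]
  · have h := sixc_c2
    norm_num [h]
  · have h : Real.pi * ((3 : ℕ) : ℝ) / 3 = Real.pi := by
      push_cast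
      ring
    rw [h, Real.cos_pi]
    norm_num
  · have h := sixc_c4
    norm_num [h]
  · have h := sixc_c5
    norm_num [h]

private theorem sixc_X (n : ℕ) : ee (n / 6) + ee (-(n / 6)) =
    (if 2 ∣ n then 1 else -1) * (if 3 ∣ n then 2 else -1) := by
  rw [sixc_ee, sixc_cos, sixc_Xr _ (Nat.mod_lt _ (by norm_num))]
  have h2 : (2 ∣ n) ↔ (n % 6) % 2 = 0 := by omega
  have h3 : (3 ∣ n) ↔ (n % 6) % 3 = 0 := by omega
  rw [if_congr h2 rfl rfl, if_congr h3 rfl rfl]
  push_cast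
  split_ifs <;> norm_num

private theorem sixc_l2 (a c2 c3 : ℕ → ℂ) (h : Loc6 a c2 c3) (K : ℕ) :
    ∑ k ∈ Finset.range (K + 1), l2 c2 k * a (2 ^ (K - k)) =
      a (2 ^ K) - 2 * (if K = 0 then 1 else 0) := by
  unfold l2
  simp only [sub_mul, Finset.sum_sub_distrib]
  have e1 : ∑ k ∈ Finset.range (K + 1), (if k = 0 then (1 : ℂ) else 0) * a (2 ^ (K - k)) =
      a (2 ^ K) := by
    rw [Finset.sum_eq_single 0]
    · simp
    · intro b _ hb
      simp [hb]
    · intro hb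
      simp at hb
  have e2 : ∑ k ∈ Finset.range (K + 1), 2 * c2 k * a (2 ^ (K - k)) =
      2 * (if K = 0 then 1 else 0) := by
    rw [← h.inv2 K, Finset.mul_sum]
    exact Finset.sum_congr rfl fun k _ => by ring
  rw [e1, e2]

private theorem sixc_l3 (a c2 c3 : ℕ → ℂ) (h : Loc6 a c2 c3) (J : ℕ) :
    ∑ j ∈ Finset.range (J + 1), l3 c3 j * a (3 ^ (J - j)) =
      2 * a (3 ^ J) - 3 * (if J = 0 then 1 else 0) := by
  unfold l3
  simp only [sub_mul, Finset.sum_sub_distrib]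
  have e1 : ∑ k ∈ Finset.range (J + 1), (if k = 0 then (2 : ℂ) else 0) * a (3 ^ (J - k)) =
      2 * a (3 ^ J) := by
    rw [Finset.sum_eq_single 0]
    · simp
    · intro b _ hb
      simp [hb]
    · intro hb
      simp at hb
  have e2 : ∑ k ∈ Finset.range (J + 1), 3 * c3 k * a (3 ^ (J - k)) =
      3 * (if J = 0 then 1 else 0) := by
    rw [← h.inv3 J, Finset.mul_sum]
    exact Finset.sum_congr rfl fun k _ => by ring
  rw [e1, e2]

theorem six_coeff (a c2 c3 : ℕ → ℂ) (h : Loc6 a c2 c3) (n : ℕ) (hn : 1 ≤ n) :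
    ∑ p ∈ Finset.range (n + 1) ×ˢ Finset.range (n + 1),
      (if dd p ∣ n then LL c2 c3 p * a (n / dd p) else 0) =
    a n * (ee (n / 6) + ee (-(n / 6))) := by
  obtain ⟨K, n1, h21, hn1⟩ := Nat.exists_eq_pow_mul_and_not_dvd (by omega : n ≠ 0) 2 (by norm_num)
  have hn10 : n1 ≠ 0 := by
    rintro rfl
    exact h21 (dvd_zero 2)
  obtain ⟨J, m, h3m, hnm⟩ := Nat.exists_eq_pow_mul_and_not_dvd hn10 3 (by norm_num)
  have h2m : ¬ 2 ∣ m := by
    intro h2
    exact h21 (hnm ▸ h2.mul_left _)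
  have hm0 : 0 < m := Nat.pos_of_ne_zero (by
    rintro rfl
    exact h3m (dvd_zero 3))
  have hne : n = 2 ^ K * (3 ^ J * m) := by rw [hn1, hnm]
  have hKn : K < n + 1 := by
    have h1 : K < 2 ^ K := Nat.lt_two_pow_self
    have h2 : 2 ^ K ≤ n := Nat.le_of_dvd (by omega) (hne ▸ Dvd.intro _ rfl)
    omega
  have hJn : J < n + 1 := by
    have h1 : J < 3 ^ J := Nat.lt_pow_self (by norm_num)
    have h2 : 3 ^ J ≤ n := Nat.le_of_dvd (by omega)
      (hne ▸ Dvd.intro (2 ^ K * m) (by ring))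
    omega
  have c2m : Nat.Coprime 2 m := Nat.prime_two.coprime_iff_not_dvd.2 h2m
  have c3m : Nat.Coprime 3 m := Nat.prime_three.coprime_iff_not_dvd.2 h3m
  have c23 : Nat.Coprime 2 3 := by norm_num
  have hdiv : ∀ k j : ℕ, dd (k, j) ∣ n ↔ k ≤ K ∧ j ≤ J := by
    intro k j
    unfold dd
    constructor
    · intro hd
      constructor
      · have h1 : 2 ^ k ∣ 2 ^ K * (3 ^ J * m) := hne ▸ (Dvd.intro _ rfl).trans hd
        have h2 : Nat.Coprime (2 ^ k) (3 ^ J * m) :=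
          Nat.Coprime.pow_left k (Nat.Coprime.mul_right (Nat.Coprime.pow_right J c23) c2m)
        exact (Nat.pow_dvd_pow_iff_le_right (by norm_num)).mp (h2.dvd_of_dvd_mul_right h1)
      · have h1 : 3 ^ j ∣ 3 ^ J * (2 ^ K * m) := by
          have e : 3 ^ J * (2 ^ K * m) = n := by rw [hne]; ring
          rw [e]
          exact (Dvd.intro_left _ rfl).trans hd
        have h2 : Nat.Coprime (3 ^ j) (2 ^ K * m) :=
          Nat.Coprime.pow_left j (Nat.Coprime.mul_right (Nat.Coprime.pow_right K c23.symm) c3m)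
        exact (Nat.pow_dvd_pow_iff_le_right (by norm_num)).mp (h2.dvd_of_dvd_mul_right h1)
    · rintro ⟨hk, hj⟩
      rw [hne]
      exact mul_dvd_mul (pow_dvd_pow 2 hk) ((pow_dvd_pow 3 hj).mul_right m)
  have hval : ∀ k ≤ K, ∀ j ≤ J, a (n / dd (k, j)) = a (2 ^ (K - k)) * (a (3 ^ (J - j)) * a m) := by
    intro k hk j hj
    have e1 : n = dd (k, j) * (2 ^ (K - k) * (3 ^ (J - j) * m)) := by
      unfold dd
      rw [hne]
      have e2 : 2 ^ K = 2 ^ k * 2 ^ (K - k) := by rw [← pow_add, Nat.add_sub_cancel' hk]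
      have e3 : 3 ^ J = 3 ^ j * 3 ^ (J - j) := by rw [← pow_add, Nat.add_sub_cancel' hj]
      rw [e2, e3]
      ring
    have e4 : n / dd (k, j) = 2 ^ (K - k) * (3 ^ (J - j) * m) := by
      conv_lhs => rw [e1]
      exact Nat.mul_div_cancel_left _ (dd_pos _)
    rw [e4, h.mul _ _ (by positivity) (Nat.Coprime.pow_left _
      (Nat.Coprime.mul_right (Nat.Coprime.pow_right _ c23) c2m)),
      h.mul _ _ (by positivity) (Nat.Coprime.pow_left _ c3m)]
  have han : a n = a (2 ^ K) * (a (3 ^ J) * a m) := by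
    have := hval 0 (Nat.zero_le _) 0 (Nat.zero_le _)
    simpa [dd] using this
  have hsum : ∑ p ∈ Finset.range (n + 1) ×ˢ Finset.range (n + 1),
      (if dd p ∣ n then LL c2 c3 p * a (n / dd p) else 0) =
      ∑ p ∈ Finset.range (K + 1) ×ˢ Finset.range (J + 1),
        (l2 c2 p.1 * a (2 ^ (K - p.1))) * (l3 c3 p.2 * a (3 ^ (J - p.2))) * a m := by
    symm
    rw [← Finset.sum_subset (s₁ := Finset.range (K + 1) ×ˢ Finset.range (J + 1))
      (s₂ := Finset.range (n + 1) ×ˢ Finset.range (n + 1))]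
    · refine Finset.sum_congr rfl ?_
      rintro ⟨k, j⟩ hp
      rw [Finset.mem_product, Finset.mem_range, Finset.mem_range] at hp
      have hk : k ≤ K := Nat.lt_succ_iff.1 hp.1
      have hj : j ≤ J := Nat.lt_succ_iff.1 hp.2
      rw [if_pos ((hdiv k j).2 ⟨hk, hj⟩), hval k hk j hj]
      unfold LL
      ring
    · rintro ⟨k, j⟩ hp
      rw [Finset.mem_product, Finset.mem_range, Finset.mem_range] at hp ⊢
      exact ⟨by omega, by omega⟩
    · rintro ⟨k, j⟩ _ hp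
      rw [if_neg]
      rw [hdiv]
      intro hkj
      apply hp
      rw [Finset.mem_product, Finset.mem_range, Finset.mem_range]
      exact ⟨Nat.lt_succ_iff.2 hkj.1, Nat.lt_succ_iff.2 hkj.2⟩
  have hprod : ∑ p ∈ Finset.range (K + 1) ×ˢ Finset.range (J + 1),
      (l2 c2 p.1 * a (2 ^ (K - p.1))) * (l3 c3 p.2 * a (3 ^ (J - p.2))) =
      (a (2 ^ K) - 2 * (if K = 0 then 1 else 0)) * (2 * a (3 ^ J) - 3 * (if J = 0 then 1 else 0)) := by
    rw [← sixc_l2 a c2 c3 h K, ← sixc_l3 a c2 c3 h J, Finset.sum_mul_sum, Finset.sum_product]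
  rw [hsum, ← Finset.sum_mul, hprod, sixc_X n, han]
  have hd2 : 2 ∣ n ↔ ¬ K = 0 := by
    have := hdiv 1 0
    simp only [dd, pow_one, pow_zero, mul_one, Nat.zero_le, and_true] at this
    rw [this]
    omega
  have hd3 : 3 ∣ n ↔ ¬ J = 0 := by
    have := hdiv 0 1
    simp only [dd, pow_one, pow_zero, one_mul, Nat.zero_le, true_and] at this
    rw [this]
    omega
  rw [if_congr hd2 rfl rfl, if_congr hd3 rfl rfl]
  by_cases hK : K = 0 <;> by_cases hJ : J = 0 <;> simp only [hK, hJ, if_true, if_false, not_true,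
    not_false_iff, pow_zero, h.one] <;> ring

end Pool.Agent.H11.SC
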