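import Mathlib
import Pool.Agent.H11.SC5.Defs5
import Pool.Agent.H11.SC5.SixC
import Pool.Agent.H11.SC5.LLsum
import Pool.Agent.H11.SC4.Two

/-!
# SIX: `f(z + 1/6) + f(z - 1/6)` as a sum over `d = 2^k 3^j`

`ff a z = ∑_n a n n³ e(nz)`; `twoE z n = e(nz)` and `‖twoE z n‖ = exp(-2πn Im z)` (Two.lean).
`G p n = if dd p ∣ n then LL p * a (n/dd p) * n³ * e(nz) else 0`.
(1) for fixed `p`: `∑_n G p n = LL p * (dd p)³ * ff a (dd p * z)` (see `twoG_fiber`: the support is the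
image of `m ↦ dd p * m`).
(2) for fixed `n ≥ 1`: `∑_p G p n` is the finite sum of `six_coeff` (`dd p ∣ n` implies
`p.1, p.2 ≤ n`, as `2^k ≤ n`), times `n³ e(nz)`, that is
`a n n³ (ee (n/6) + ee (-n/6)) e(nz) = a n n³ (e(n(z+1/6)) + e(n(z-1/6)))`.  For `n = 0` all is `0`.
(3) absolute convergence of the double series: `‖LL p‖ ≤ D (dd p)^σ`, `σ < 1/2`,
`‖a (n/dd p)‖ ≤ C n/dd p`, so `‖G p n‖ ≤ C D (dd p)^(σ-1) n⁴ e^(-2πn Im z)`, and
`∑_p (dd p)^(σ-1) = ∑_k 2^((σ-1)k) ∑_j 3^((σ-1)j) < ∞`; `∑_n n⁴ e^(-2πny) < ∞`.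
Exchange the sums (`Summable.tsum_comm`, or `HasSum.prod_fiberwise` as in Two.lean).
-/

set_option autoImplicit false

namespace Pool.Agent.H11.SC

open Complex

/-- the terms of the double series -/
noncomputable def sixG (a c2 c3 : ℕ → ℂ) (z : ℂ) (p : ℕ × ℕ) (n : ℕ) : ℂ :=
  if dd p ∣ n then LL c2 c3 p * a (n / dd p) * (n : ℂ) ^ 3 * twoE z n else 0

theorem sixE_mul (z : ℂ) (d m : ℕ) : twoE z (d * m) = twoE (d * z) m := by
  unfold twoE
  congr 1
  push_cast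
  ring

theorem sixG_fiber (a c2 c3 : ℕ → ℂ) (z : ℂ) (p : ℕ × ℕ) :
    ∑' n : ℕ, sixG a c2 c3 z p n = LL c2 c3 p * ((dd p : ℂ) ^ 3 * ff a (dd p * z)) := by
  have hd := dd_pos p
  have hinj : Function.Injective (fun m : ℕ => dd p * m) := by
    intro m1 m2 h
    exact Nat.eq_of_mul_eq_mul_left hd h
  have hsupp : Function.support (sixG a c2 c3 z p) ⊆ Set.range (fun m : ℕ => dd p * m) := by
    intro n hn
    by_contra hcon
    apply hn
    unfold sixG
    rw [if_neg]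
    intro hd
    obtain ⟨m, hm⟩ := hd
    exact hcon ⟨m, hm.symm⟩
  rw [← hinj.tsum_eq hsupp]
  unfold ff gs
  rw [← tsum_mul_left, ← tsum_mul_left]
  apply tsum_congr
  intro m
  unfold sixG
  rw [if_pos (Dvd.intro m rfl), Nat.mul_div_cancel_left m hd, sixE_mul]
  unfold twoE
  push_cast
  ring

theorem sixG_bound (a c2 c3 : ℕ → ℂ) (C : ℝ) (hC0 : 0 ≤ C)
    (hC : ∀ n : ℕ, 1 ≤ n → ‖a n‖ ≤ C * (n : ℝ)) (σ : ℝ) (hσ : σ ≤ 1)
    (z : ℂ) (p : ℕ × ℕ) (n : ℕ) :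
    ‖sixG a c2 c3 z p n‖ ≤ (‖LL c2 c3 p‖ * (dd p : ℝ) ^ (-σ)) *
      (C * ((n : ℝ) ^ 4 * Real.exp (-(2 * Real.pi * n * z.im)))) := by
  have hd := dd_pos p
  have hdR : (1 : ℝ) ≤ dd p := by exact_mod_cast hd
  have hdR0 : (0 : ℝ) < dd p := by linarith
  have hnn : 0 ≤ (‖LL c2 c3 p‖ * (dd p : ℝ) ^ (-σ)) *
      (C * ((n : ℝ) ^ 4 * Real.exp (-(2 * Real.pi * n * z.im)))) := by positivity
  unfold sixG
  split_ifs with hdn
  · rcases Nat.eq_zero_or_pos n with h0 | hn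
    · subst h0
      simp
    · obtain ⟨m, hm⟩ := hdn
      have hm1 : 1 ≤ m := by
        rcases Nat.eq_zero_or_pos m with h | h
        · subst h
          omega
        · exact h
      have hdiv : n / dd p = m := by
        rw [hm]
        exact Nat.mul_div_cancel_left m hd
      rw [hdiv, norm_mul, norm_mul, norm_mul, norm_pow, Complex.norm_natCast, twoE_norm]
      have hnm : (n : ℝ) = dd p * m := by
        rw [hm]
        push_cast
        ring
      have ham : ‖a m‖ ≤ C * ((n : ℝ) * (dd p : ℝ) ^ (-σ)) := by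
        refine (hC m hm1).trans (mul_le_mul_of_nonneg_left ?_ hC0)
        have hpow : (1 : ℝ) ≤ dd p * (dd p : ℝ) ^ (-σ) := by
          have e1 : (dd p : ℝ) * (dd p : ℝ) ^ (-σ) = (dd p : ℝ) ^ (1 + -σ) := by
            rw [Real.rpow_add hdR0, Real.rpow_one]
          rw [e1]
          apply Real.one_le_rpow hdR
          linarith
        rw [hnm]
        have hm0 : (0 : ℝ) ≤ m := Nat.cast_nonneg m
        calc (m : ℝ) = m * 1 := by ring
          _ ≤ m * (dd p * (dd p : ℝ) ^ (-σ)) := mul_le_mul_of_nonneg_left hpow hm0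
          _ = _ := by ring
      calc ‖LL c2 c3 p‖ * ‖a m‖ * (n : ℝ) ^ 3 * Real.exp (-(2 * Real.pi * n * z.im))
          ≤ ‖LL c2 c3 p‖ * (C * ((n : ℝ) * (dd p : ℝ) ^ (-σ))) * (n : ℝ) ^ 3 *
            Real.exp (-(2 * Real.pi * n * z.im)) := by
            gcongr
        _ = _ := by ring
  · simpa using hnn

theorem six_expsum (C : ℝ) (y : ℝ) (hy : 0 < y) :
    Summable (fun n : ℕ => C * ((n : ℝ) ^ 4 * Real.exp (-(2 * Real.pi * n * y)))) := by
  have hpi := Real.pi_pos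
  have h0 := Real.summable_pow_mul_exp_neg_nat_mul 4 (show 0 < 2 * Real.pi * y by positivity)
  refine (h0.mul_left C).congr (fun n => ?_)
  congr 3
  ring

theorem six_ffsum (a : ℕ → ℂ) (C : ℝ)
    (hC : ∀ n : ℕ, 1 ≤ n → ‖a n‖ ≤ C * (n : ℝ)) (z : ℂ) (hz : 0 < z.im) :
    Summable (fun n : ℕ => a n * (n : ℂ) ^ 3 * twoE z n) := by
  refine Summable.of_norm_bounded (six_expsum C z.im hz) (fun n => ?_)
  rcases Nat.eq_zero_or_pos n with h0 | hn
  · subst h0
    simp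
  · rw [norm_mul, norm_mul, norm_pow, Complex.norm_natCast, twoE_norm]
    have := hC n hn
    calc ‖a n‖ * (n : ℝ) ^ 3 * Real.exp (-(2 * Real.pi * n * z.im)) ≤
          (C * n) * (n : ℝ) ^ 3 * Real.exp (-(2 * Real.pi * n * z.im)) := by gcongr
      _ = _ := by ring

theorem sixG_inner (a c2 c3 : ℕ → ℂ) (h : Loc6 a c2 c3) (z : ℂ) (n : ℕ) :
    ∑' p : ℕ × ℕ, sixG a c2 c3 z p n =
      a n * (ee (n / 6) + ee (-(n / 6))) * (n : ℂ) ^ 3 * twoE z n := by
  rcases Nat.eq_zero_or_pos n with h0 | hn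
  · subst h0
    have : ∀ p : ℕ × ℕ, sixG a c2 c3 z p 0 = 0 := by
      intro p
      unfold sixG
      simp
    simp [this]
  · rw [tsum_eq_sum (s := Finset.range (n + 1) ×ˢ Finset.range (n + 1))]
    · rw [← six_coeff a c2 c3 h n hn, Finset.sum_mul, Finset.sum_mul]
      refine Finset.sum_congr rfl (fun k _ => ?_)
      unfold sixG
      split_ifs
      · rfl
      · ring
    · intro p hp
      unfold sixG
      rw [if_neg]
      intro hd
      apply hp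
      rw [Finset.mem_product, Finset.mem_range, Finset.mem_range]
      have hd2 : 2 ^ p.1 ∣ n := (Dvd.intro _ rfl : 2 ^ p.1 ∣ dd p).trans hd
      have hd3 : 3 ^ p.2 ∣ n := (Dvd.intro_left _ rfl : 3 ^ p.2 ∣ dd p).trans hd
      have h1 := Nat.le_of_dvd hn hd2
      have h2 := Nat.le_of_dvd hn hd3
      have h3 : p.1 < 2 ^ p.1 := Nat.lt_two_pow_self
      have h4 : p.2 < 3 ^ p.2 := Nat.lt_pow_self (by norm_num)
      omega

theorem sixE_shift (z : ℂ) (n : ℕ) :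
    (ee (n / 6) + ee (-(n / 6))) * twoE z n = twoE (z + 1 / 6) n + twoE (z - 1 / 6) n := by
  unfold ee twoE
  rw [add_mul, ← Complex.exp_add, ← Complex.exp_add]
  congr 2
  · have h := Complex.I_sq
    linear_combination (-(2 * (Real.pi : ℂ) * n / 6) * 0) * h
  · have h := Complex.I_sq
    linear_combination (-(2 * (Real.pi : ℂ) * n / 6) * 0) * h

theorem six (a c2 c3 : ℕ → ℂ) (h : Loc6 a c2 c3)
    (ha : ∃ C : ℝ, ∀ n : ℕ, 1 ≤ n → ‖a n‖ ≤ C * (n : ℝ) ^ (1 : ℝ)) (z : ℂ) (hz : 0 < z.im) :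
    HasSum (fun p : ℕ × ℕ => LL c2 c3 p * ((dd p : ℂ) ^ 3 * ff a (dd p * z)))
      (ff a (z + 1 / 6) + ff a (z - 1 / 6)) := by
  obtain ⟨C, hC⟩ := ha
  have hC0 : 0 ≤ C := by
    have := hC 1 le_rfl
    simp only [Nat.cast_one, Real.one_rpow, mul_one] at this
    exact (norm_nonneg _).trans this
  have hC' : ∀ n : ℕ, 1 ≤ n → ‖a n‖ ≤ C * (n : ℝ) := by
    intro n hn
    have := hC n hn
    rwa [Real.rpow_one] at this
  obtain ⟨σ, hσ0, hσ1, hσs⟩ := LL_sum a c2 c3 h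
  have hs : Summable (Function.uncurry (sixG a c2 c3 z)) := by
    have h2 := hσs.mul_of_nonneg (six_expsum C z.im hz) (fun p => by positivity)
      (fun n => by positivity)
    refine Summable.of_norm_bounded h2 (fun p => ?_)
    exact sixG_bound a c2 c3 C hC0 hC' σ (by linarith) z p.1 p.2
  have him1 : 0 < (z + 1 / 6).im := by
    have : (z + 1 / 6 : ℂ).im = z.im := by simp
    rw [this]
    exact hz
  have him2 : 0 < (z - 1 / 6).im := by
    have : (z - 1 / 6 : ℂ).im = z.im := by simp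
    rw [this]
    exact hz
  have e1 : HasSum (fun p : ℕ × ℕ => ∑' n : ℕ, sixG a c2 c3 z p n)
      (∑' p : ℕ × ℕ, ∑' n : ℕ, sixG a c2 c3 z p n) := hs.prod.hasSum
  have e2 : ∑' p : ℕ × ℕ, ∑' n : ℕ, sixG a c2 c3 z p n =
      ff a (z + 1 / 6) + ff a (z - 1 / 6) := by
    calc ∑' p : ℕ × ℕ, ∑' n : ℕ, sixG a c2 c3 z p n
        = ∑' n : ℕ, ∑' p : ℕ × ℕ, sixG a c2 c3 z p n := (hs.tsum_comm).symm
      _ = ∑' n : ℕ, (a n * (n : ℂ) ^ 3 * twoE (z + 1 / 6) n +
            a n * (n : ℂ) ^ 3 * twoE (z - 1 / 6) n) := by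
          refine tsum_congr (fun n => ?_)
          rw [sixG_inner a c2 c3 h z n]
          have := sixE_shift z n
          linear_combination (a n * (n : ℂ) ^ 3) * this
      _ = ∑' n : ℕ, a n * (n : ℂ) ^ 3 * twoE (z + 1 / 6) n +
            ∑' n : ℕ, a n * (n : ℂ) ^ 3 * twoE (z - 1 / 6) n :=
          (six_ffsum a C hC' _ him1).tsum_add (six_ffsum a C hC' _ him2)
      _ = _ := rfl
  rw [e2] at e1
  refine e1.congr_fun ?_
  intro p
  exact (sixG_fiber a c2 c3 z p).symm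

end Pool.Agent.H11.SC
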