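import Mathlib
import Pool.Agent.H11.SC5.Defs5

/-!
# KBD: bounds on the path

`w = pw δ u = u + iδ²`, `-2δ ≤ u ≤ -δ`, `0 < δ ≤ 1/10`: `‖w‖² = u² + δ⁴ ∈ [δ², 4δ² + δ⁴]`,
`4δ² + δ⁴ ≤ 4.01 δ² ≤ (2.1 δ)²`.
`KK_bound`: `Im(-1/(qw)) = δ²/(q‖w‖²) ≤ 1/q`, `‖ee(-(ν w'))‖ = exp(2πν Im w') ≤ exp(2πν/q)`,
`‖q w²‖ ≥ q δ²`.
`JJ_inv`: `(JJ q w)⁻¹ = (√q (-iw))^7`.
`Ld_bounds`: `Ld q δ = (pw(-δ) - pw(-2δ))/(q pw(-δ) pw(-2δ))`, norm `δ/(q ‖pw(-δ)‖ ‖pw(-2δ)‖)`;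
`δ ≤ ‖pw(-δ)‖ ≤ 1.01 δ`, `δ ≤ ‖pw(-2δ)‖ ≤ 2.1 δ`.
`KK_cont`: `pw δ u ≠ 0` because its imaginary part is `δ² > 0`.
-/

set_option autoImplicit false

namespace Pool.Agent.H11.SC

open Complex

theorem pw_re (δ u : ℝ) : (pw δ u).re = u := by simp [pw, -ofReal_pow]

theorem pw_im (δ u : ℝ) : (pw δ u).im = δ ^ 2 := by simp [pw, -ofReal_pow]

private theorem le_of_sq_le_sq' {x y : ℝ} (h : x ^ 2 ≤ y ^ 2) (hy : 0 ≤ y) : x ≤ y :=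
  abs_le_of_sq_le_sq' h hy |>.2

private theorem pw_norm_sq (δ u : ℝ) : ‖pw δ u‖ ^ 2 = u ^ 2 + δ ^ 4 := by
  rw [← Complex.normSq_eq_norm_sq, Complex.normSq_apply, pw_re, pw_im]
  ring

theorem pw_norm (δ u : ℝ) (h0 : 0 < δ) (h1 : δ ≤ 1 / 10) (hu : u ∈ Set.Icc (-2 * δ) (-δ)) :
    δ ≤ ‖pw δ u‖ ∧ ‖pw δ u‖ ≤ 21 / 10 * δ := by
  have hn : ‖pw δ u‖ ^ 2 = u ^ 2 + δ ^ 4 := by
    rw [← Complex.normSq_eq_norm_sq, Complex.normSq_apply, pw_re, pw_im]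
    ring
  have h2 : 0 ≤ ‖pw δ u‖ := norm_nonneg _
  have hd2 : δ ^ 2 ≤ 1 / 100 := by nlinarith
  have hd4 : δ ^ 4 ≤ 1 / 100 * δ ^ 2 := by
    have : δ ^ 4 = δ ^ 2 * δ ^ 2 := by ring
    rw [this]
    exact mul_le_mul_of_nonneg_right hd2 (sq_nonneg _)
  have hd4' : 0 ≤ δ ^ 4 := by positivity
  obtain ⟨hu1, hu2⟩ := hu
  have hu3 : δ ^ 2 ≤ u ^ 2 := by nlinarith
  have hu4 : u ^ 2 ≤ 4 * δ ^ 2 := by nlinarith
  constructor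
  · apply le_of_sq_le_sq' _ h2
    rw [hn]
    linarith
  · apply le_of_sq_le_sq' _ (by positivity)
    rw [hn]
    nlinarith

theorem KK_bound (q ν δ u : ℝ) (hq : 0 < q) (hν : 0 ≤ ν) (h0 : 0 < δ) (h1 : δ ≤ 1 / 10)
    (hu : u ∈ Set.Icc (-2 * δ) (-δ)) :
    ‖KK q ν δ u‖ ≤ Real.exp (2 * Real.pi * ν / q) / (q * δ ^ 2) := by
  obtain ⟨hl, -⟩ := pw_norm δ u h0 h1 hu
  have hwp : 0 < ‖pw δ u‖ := lt_of_lt_of_le h0 hl
  have hsq : δ ^ 2 ≤ ‖pw δ u‖ ^ 2 := by gcongr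
  have hnS : Complex.normSq (pw δ u) = ‖pw δ u‖ ^ 2 := Complex.normSq_eq_norm_sq _
  have him : (2 * (Real.pi : ℂ) * I * (-((ν : ℂ) * (-1 / ((q : ℂ) * pw δ u))))).re =
      2 * Real.pi * ν / q * (δ ^ 2 / ‖pw δ u‖ ^ 2) := by
    have e1 : 2 * (Real.pi : ℂ) * I * (-((ν : ℂ) * (-1 / ((q : ℂ) * pw δ u)))) =
        ((2 * Real.pi * ν / q : ℝ) : ℂ) * (I * (pw δ u)⁻¹) := by
      push_cast
      rw [neg_div, one_div, mul_inv]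
      ring
    rw [e1, Complex.re_ofReal_mul, Complex.I_mul_re, Complex.inv_im, pw_im, hnS]
    ring
  unfold KK ee
  rw [norm_div, Complex.norm_exp, him, norm_mul, norm_pow, Complex.norm_real, Real.norm_eq_abs,
    abs_of_pos hq]
  have h3 : 0 ≤ 2 * Real.pi * ν / q := by positivity
  have h4 : δ ^ 2 / ‖pw δ u‖ ^ 2 ≤ 1 := by
    rw [div_le_one (by positivity)]
    exact hsq
  have h5 : 2 * Real.pi * ν / q * (δ ^ 2 / ‖pw δ u‖ ^ 2) ≤ 2 * Real.pi * ν / q := by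
    calc _ ≤ 2 * Real.pi * ν / q * 1 := mul_le_mul_of_nonneg_left h4 h3
      _ = _ := mul_one _
  have h6 : Real.exp (2 * Real.pi * ν / q * (δ ^ 2 / ‖pw δ u‖ ^ 2)) ≤
      Real.exp (2 * Real.pi * ν / q) := Real.exp_le_exp.2 h5
  exact div_le_div₀ (Real.exp_pos _).le h6 (by positivity)
    (mul_le_mul_of_nonneg_left hsq hq.le)

theorem KK_cont (q ν δ : ℝ) (hq : 0 < q) (h0 : 0 < δ) : Continuous (fun u : ℝ => KK q ν δ u) := by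
  have hc : Continuous (fun u : ℝ => pw δ u) := by
    unfold pw
    fun_prop
  have hne : ∀ u : ℝ, pw δ u ≠ 0 := by
    intro u h
    have := congrArg Complex.im h
    rw [pw_im, Complex.zero_im] at this
    exact (pow_pos h0 2).ne' this
  have hq' : (q : ℂ) ≠ 0 := by exact_mod_cast hq.ne'
  unfold KK ee
  refine Continuous.div ?_ ?_ ?_
  · refine Complex.continuous_exp.comp ?_
    refine continuous_const.mul ?_
    refine (continuous_const.mul ?_).neg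
    exact continuous_const.div (continuous_const.mul hc) (fun u => mul_ne_zero hq' (hne u))
  · exact continuous_const.mul (hc.pow 2)
  · exact fun u => mul_ne_zero hq' (pow_ne_zero _ (hne u))

theorem JJ_inv (q δ u : ℝ) (h0 : 0 < δ) (h1 : δ ≤ 1 / 10) (hu : u ∈ Set.Icc (-2 * δ) (-δ)) :
    ‖(JJ q (pw δ u))⁻¹‖ ≤ (Real.sqrt q * (21 / 10)) ^ 7 * δ ^ 7 := by
  obtain ⟨-, hl⟩ := pw_norm δ u h0 h1 hu
  unfold JJ
  rw [inv_inv, norm_pow, norm_mul, norm_neg, norm_mul, Complex.norm_I, one_mul,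
    Complex.norm_real, Real.norm_eq_abs, abs_of_nonneg (Real.sqrt_nonneg q), ← mul_pow]
  apply pow_le_pow_left₀ (by positivity)
  calc Real.sqrt q * ‖pw δ u‖ ≤ Real.sqrt q * (21 / 10 * δ) :=
        mul_le_mul_of_nonneg_left hl (Real.sqrt_nonneg q)
    _ = _ := by ring

theorem JJ_scale (q : ℝ) (d : ℕ) (z : ℂ) : JJ q (d * z) = ((d : ℂ) ^ 7)⁻¹ * JJ q z := by
  unfold JJ
  rw [← mul_inv, ← mul_pow]
  congr 2
  ring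

theorem JJ_ne (q : ℝ) (hq : 0 < q) (z : ℂ) (hz : z ≠ 0) : JJ q z ≠ 0 := by
  unfold JJ
  have h1 : ((Real.sqrt q : ℝ) : ℂ) ≠ 0 := by
    have := Real.sqrt_pos.2 hq
    exact_mod_cast this.ne'
  exact inv_ne_zero (pow_ne_zero _ (mul_ne_zero h1 (neg_ne_zero.2 (mul_ne_zero I_ne_zero hz))))

theorem Ld_bounds (q δ : ℝ) (hq : 0 < q) (h0 : 0 < δ) (h1 : δ ≤ 1 / 10) :
    1 / (3 * q * δ) ≤ ‖Ld q δ‖ ∧ ‖Ld q δ‖ ≤ 1 / (q * δ) := by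
  have m1 : -δ ∈ Set.Icc (-2 * δ) (-δ) := ⟨by linarith, le_refl _⟩
  have m2 : -2 * δ ∈ Set.Icc (-2 * δ) (-δ) := ⟨le_refl _, by linarith⟩
  obtain ⟨a1, -⟩ := pw_norm δ (-δ) h0 h1 m1
  obtain ⟨b1, b2⟩ := pw_norm δ (-2 * δ) h0 h1 m2
  have a2 : ‖pw δ (-δ)‖ ≤ 11 / 10 * δ := by
    apply le_of_sq_le_sq' _ (by positivity)
    rw [pw_norm_sq]
    have hd2 : δ ^ 2 ≤ 1 / 100 := by nlinarith
    have hd4 : δ ^ 4 ≤ 1 / 100 * δ ^ 2 := by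
      have : δ ^ 4 = δ ^ 2 * δ ^ 2 := by ring
      rw [this]
      exact mul_le_mul_of_nonneg_right hd2 (sq_nonneg _)
    nlinarith [sq_nonneg δ]
  have ap : 0 < ‖pw δ (-δ)‖ := lt_of_lt_of_le h0 a1
  have bp : 0 < ‖pw δ (-2 * δ)‖ := lt_of_lt_of_le h0 b1
  have hq' : (q : ℂ) ≠ 0 := by exact_mod_cast hq.ne'
  have e1 : Ld q δ = (δ : ℂ) / ((q : ℂ) * pw δ (-δ) * pw δ (-2 * δ)) := by
    have n1 : pw δ (-δ) ≠ 0 := norm_pos_iff.1 ap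
    have n2 : pw δ (-2 * δ) ≠ 0 := norm_pos_iff.1 bp
    have e2 : pw δ (-δ) - pw δ (-2 * δ) = (δ : ℂ) := by
      unfold pw
      push_cast
      ring
    unfold Ld
    rw [← e2]
    generalize pw δ (-δ) = A at *
    generalize pw δ (-2 * δ) = B at *
    field_simp
    ring
  have e3 : ‖Ld q δ‖ = δ / (q * ‖pw δ (-δ)‖ * ‖pw δ (-2 * δ)‖) := by
    rw [e1, norm_div, norm_mul, norm_mul, Complex.norm_real, Complex.norm_real, Real.norm_eq_abs,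
      Real.norm_eq_abs, abs_of_pos hq, abs_of_pos h0]
  rw [e3]
  constructor
  · rw [div_le_div_iff₀ (by positivity) (by positivity)]
    have h7 : ‖pw δ (-δ)‖ * ‖pw δ (-2 * δ)‖ ≤ 11 / 10 * δ * (21 / 10 * δ) :=
      mul_le_mul a2 b2 bp.le (by positivity)
    have h8 : q * (‖pw δ (-δ)‖ * ‖pw δ (-2 * δ)‖) ≤ q * (11 / 10 * δ * (21 / 10 * δ)) :=
      mul_le_mul_of_nonneg_left h7 hq.le
    have h9 : 0 ≤ q * δ ^ 2 := by positivity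
    nlinarith
  · rw [div_le_div_iff₀ (by positivity) (by positivity)]
    have h7 : δ * δ ≤ ‖pw δ (-δ)‖ * ‖pw δ (-2 * δ)‖ := mul_le_mul a1 b1 h0.le ap.le
    have h8 : q * (δ * δ) ≤ q * (‖pw δ (-δ)‖ * ‖pw δ (-2 * δ)‖) :=
      mul_le_mul_of_nonneg_left h7 hq.le
    nlinarith

end Pool.Agent.H11.SC
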