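import Mathlib
import Pool.Agent.H11.SC5.Defs5
import Pool.Agent.H11.SC5.Kbd

/-!
# FOUR1: one frequency

`w' = w'(u) = -1/(q pw δ u)`, `dw'/du = 1/(q pw²)`.
`one_freq_zero`: `∫ 1/(q pw²) du = w'(-δ) - w'(-2δ) = Ld q δ`.
`one_freq`: for real `t ≠ 0`, `d/du ee(t w'(u)) = 2πi t ee(t w') /(q pw²)`, so the integral is
`(ee(t w'(-δ)) - ee(t w'(-2δ)))/(2πi t)`, and `‖ee(t w')‖ = exp(-2π t Im w')`.  With `t = s - ν`,
`s, ν ≥ 0`, `1/(5q) ≤ Im w' = δ²/(q‖w‖²) ≤ 1/q` (`‖w‖² ≤ 5δ²`) this is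
`≤ exp(2πν/q) exp(-2πs/(5q))`.  So the integral is at most `exp(2πν/q) exp(-2πs/(5q))/(π |t|)`.
-/

set_option autoImplicit false

namespace Pool.Agent.H11.SC

open Complex

theorem four1_pw_ne (δ u : ℝ) (h0 : 0 < δ) : pw δ u ≠ 0 := by
  intro h
  have h1 := congrArg Complex.im h
  rw [pw_im] at h1
  have : 0 < δ ^ 2 := by positivity
  simp at h1
  exact h0.ne' h1

theorem four1_pw_deriv (δ u : ℝ) : HasDerivAt (fun v : ℝ => pw δ v) 1 u := by
  unfold pw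
  have h : HasDerivAt (fun v : ℝ => (v : ℂ)) 1 u := Complex.ofRealCLM.hasDerivAt
  exact h.add_const _

theorem four1_wp_deriv (q δ u : ℝ) (hq : 0 < q) (h0 : 0 < δ) :
    HasDerivAt (fun v : ℝ => -1 / ((q : ℂ) * pw δ v)) (1 / ((q : ℂ) * pw δ u ^ 2)) u := by
  have hq' : (q : ℂ) ≠ 0 := by exact_mod_cast hq.ne'
  have hp := four1_pw_ne δ u h0
  have h1 : HasDerivAt (fun v : ℝ => (q : ℂ) * pw δ v) ((q : ℂ) * 1) u :=
    (four1_pw_deriv δ u).const_mul (q : ℂ)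
  have h2 := (h1.fun_inv (mul_ne_zero hq' hp)).const_mul (-1 : ℂ)
  have e1 : (fun v : ℝ => -1 / ((q : ℂ) * pw δ v)) =
      fun v : ℝ => (-1 : ℂ) * ((q : ℂ) * pw δ v)⁻¹ := by
    funext v
    rw [div_eq_mul_inv]
  rw [e1]
  refine h2.congr_deriv ?_
  field_simp

theorem four1_pw_cont (δ : ℝ) : Continuous (fun u : ℝ => pw δ u) := by
  unfold pw
  fun_prop

theorem four1_wp_im (q δ u : ℝ) (hq : 0 < q) (h0 : 0 < δ) :
    (-1 / ((q : ℂ) * pw δ u)).im = δ ^ 2 / (q * (u ^ 2 + δ ^ 4)) := by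
  have h1 : Complex.normSq (pw δ u) = u ^ 2 + δ ^ 4 := by
    rw [Complex.normSq_apply, pw_re, pw_im]
    ring
  have hpos : 0 < u ^ 2 + δ ^ 4 := by positivity
  have e : (-1 / ((q : ℂ) * pw δ u)) = ((-q⁻¹ : ℝ) : ℂ) * (pw δ u)⁻¹ := by
    rw [div_eq_mul_inv, mul_inv]
    push_cast
    ring
  rw [e, Complex.im_ofReal_mul, Complex.inv_im, h1, pw_im]
  field_simp

theorem four1_freq (q δ t : ℝ) (hq : 0 < q) (h0 : 0 < δ) (ht : t ≠ 0) :
    ∫ u in (-2 * δ)..(-δ), ee (t * (-1 / (q * pw δ u))) / (q * pw δ u ^ 2) =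
      (ee (t * (-1 / (q * pw δ (-δ)))) - ee (t * (-1 / (q * pw δ (-2 * δ))))) /
        (2 * Real.pi * I * t) := by
  have hq' : (q : ℂ) ≠ 0 := by exact_mod_cast hq.ne'
  have ht' : (t : ℂ) ≠ 0 := by exact_mod_cast ht
  have hpi : (Real.pi : ℂ) ≠ 0 := by exact_mod_cast Real.pi_ne_zero
  have hc0 : 2 * (Real.pi : ℂ) * I * t ≠ 0 := by
    refine mul_ne_zero (mul_ne_zero (mul_ne_zero two_ne_zero hpi) I_ne_zero) ht'
  have hc := four1_pw_cont δ
  have hne : ∀ u : ℝ, (q : ℂ) * pw δ u ≠ 0 := fun u => mul_ne_zero hq' (four1_pw_ne δ u h0)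
  have hne2 : ∀ u : ℝ, (q : ℂ) * pw δ u ^ 2 ≠ 0 :=
    fun u => mul_ne_zero hq' (pow_ne_zero _ (four1_pw_ne δ u h0))
  rw [sub_div]
  rw [intervalIntegral.integral_eq_sub_of_hasDerivAt
    (f := fun v : ℝ => ee (t * (-1 / (q * pw δ v))) / (2 * Real.pi * I * t))]
  · intro u _
    have h2 := ((four1_wp_deriv q δ u hq h0).const_mul (t : ℂ)).const_mul
      (2 * (Real.pi : ℂ) * I)
    have h3 := h2.cexp.div_const (2 * (Real.pi : ℂ) * I * t)
    unfold ee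
    refine h3.congr_deriv ?_
    field_simp
  · apply Continuous.intervalIntegrable
    unfold ee
    refine Continuous.div ?_ (by fun_prop) hne2
    refine Complex.continuous_exp.comp ?_
    refine continuous_const.mul (continuous_const.mul ?_)
    exact Continuous.div continuous_const (by fun_prop) hne

theorem one_freq_zero (q δ : ℝ) (hq : 0 < q) (h0 : 0 < δ) :
    ∫ u in (-2 * δ)..(-δ), 1 / (q * pw δ u ^ 2) = Ld q δ := by
  have hq' : (q : ℂ) ≠ 0 := by exact_mod_cast hq.ne'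
  rw [intervalIntegral.integral_eq_sub_of_hasDerivAt
    (f := fun v : ℝ => -1 / ((q : ℂ) * pw δ v))]
  · rfl
  · intro u _
    exact four1_wp_deriv q δ u hq h0
  · apply Continuous.intervalIntegrable
    have hc := four1_pw_cont δ
    refine Continuous.div continuous_const (by fun_prop) ?_
    intro u
    exact mul_ne_zero hq' (pow_ne_zero _ (four1_pw_ne δ u h0))

theorem one_freq (q δ s ν : ℝ) (hq : 0 < q) (h0 : 0 < δ) (h1 : δ ≤ 1 / 10) (hs : 0 ≤ s)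
    (hν : 0 ≤ ν) (hsν : s ≠ ν) :
    ‖∫ u in (-2 * δ)..(-δ), ee (s * (-1 / (q * pw δ u))) * KK q ν δ u‖ ≤
      Real.exp (2 * Real.pi * ν / q) * Real.exp (-(2 * Real.pi * s / (5 * q))) /
        (Real.pi * |s - ν|) := by
  have hpi := Real.pi_pos
  have ht : s - ν ≠ 0 := sub_ne_zero.2 hsν
  have e1 : (∫ u in (-2 * δ)..(-δ), ee (s * (-1 / (q * pw δ u))) * KK q ν δ u) =
      ∫ u in (-2 * δ)..(-δ), ee (((s - ν : ℝ) : ℂ) * (-1 / (q * pw δ u))) /
        (q * pw δ u ^ 2) := by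
    apply intervalIntegral.integral_congr
    intro u _
    simp only [KK]
    rw [← mul_div_assoc]
    congr 1
    unfold ee
    rw [← Complex.exp_add]
    congr 1
    push_cast
    ring
  rw [e1, four1_freq q δ (s - ν) hq h0 ht]
  have key : ∀ u : ℝ, δ ≤ |u| → |u| ≤ 2 * δ →
      ‖ee (((s - ν : ℝ) : ℂ) * (-1 / (q * pw δ u)))‖ ≤
      Real.exp (2 * Real.pi * ν / q) * Real.exp (-(2 * Real.pi * s / (5 * q))) := by
    intro u hu1 hu2
    unfold ee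
    rw [Complex.norm_exp, ← Real.exp_add]
    apply Real.exp_le_exp.2
    have e2 : (2 * (Real.pi : ℂ) * I * (((s - ν : ℝ) : ℂ) * (-1 / (q * pw δ u)))).re =
        -(2 * Real.pi * (s - ν)) * (-1 / ((q : ℂ) * pw δ u)).im := by
      rw [show 2 * (Real.pi : ℂ) * I * (((s - ν : ℝ) : ℂ) * (-1 / (q * pw δ u))) =
        ((2 * Real.pi * (s - ν) : ℝ) : ℂ) * (I * (-1 / (q * pw δ u))) by push_cast; ring]
      rw [Complex.re_ofReal_mul, Complex.I_mul_re]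
      ring
    rw [e2, four1_wp_im q δ u hq h0]
    have hu3 : u ^ 2 = |u| ^ 2 := (sq_abs u).symm
    have hu4 : δ ^ 2 ≤ u ^ 2 := by
      rw [hu3]; exact pow_le_pow_left₀ h0.le hu1 2
    have hu5 : u ^ 2 ≤ 4 * δ ^ 2 := by
      rw [hu3]
      calc |u| ^ 2 ≤ (2 * δ) ^ 2 := pow_le_pow_left₀ (abs_nonneg u) hu2 2
        _ = 4 * δ ^ 2 := by ring
    have hd2 : 0 < δ ^ 2 := by positivity
    have hd4 : δ ^ 4 ≤ δ ^ 2 := by
      have : δ ^ 4 = δ ^ 2 * δ ^ 2 := by ring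
      rw [this]
      have h3 : δ ^ 2 ≤ 1 := by nlinarith
      nlinarith
    have hd4' : 0 < δ ^ 4 := by positivity
    have hb1 : δ ^ 2 / (q * (u ^ 2 + δ ^ 4)) ≤ 1 / q := by
      rw [div_le_div_iff₀ (by positivity) hq]
      nlinarith [mul_pos hq hd4']
    have hb2 : 1 / (5 * q) ≤ δ ^ 2 / (q * (u ^ 2 + δ ^ 4)) := by
      rw [div_le_div_iff₀ (by positivity) (by positivity)]
      nlinarith
    set y := δ ^ 2 / (q * (u ^ 2 + δ ^ 4)) with hy
    have g1 : 2 * Real.pi * s * (1 / (5 * q)) ≤ 2 * Real.pi * s * y :=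
      mul_le_mul_of_nonneg_left hb2 (by positivity)
    have g2 : 2 * Real.pi * ν * y ≤ 2 * Real.pi * ν * (1 / q) :=
      mul_le_mul_of_nonneg_left hb1 (by positivity)
    have g3 : 2 * Real.pi * s * (1 / (5 * q)) = 2 * Real.pi * s / (5 * q) := by ring
    have g4 : 2 * Real.pi * ν * (1 / q) = 2 * Real.pi * ν / q := by ring
    nlinarith
  have k1 := key (-δ) (by rw [abs_neg, abs_of_pos h0]) (by rw [abs_neg, abs_of_pos h0]; linarith)
  have k2 := key (-2 * δ) (by rw [abs_mul, abs_neg, abs_of_pos h0]; norm_num; linarith)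
    (by rw [abs_mul, abs_neg, abs_of_pos h0]; norm_num)
  rw [norm_div]
  have hn : ‖2 * (Real.pi : ℂ) * I * ((s - ν : ℝ) : ℂ)‖ = 2 * Real.pi * |s - ν| := by
    rw [norm_mul, norm_mul, norm_mul, Complex.norm_I, Complex.norm_real, Complex.norm_real]
    simp [abs_of_pos hpi]
  rw [hn]
  set B := Real.exp (2 * Real.pi * ν / q) * Real.exp (-(2 * Real.pi * s / (5 * q))) with hB
  have habs : 0 < |s - ν| := abs_pos.2 ht
  rw [div_le_div_iff₀ (by positivity) (by positivity)]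
  have k3 := norm_sub_le (ee (((s - ν : ℝ) : ℂ) * (-1 / (q * pw δ (-δ)))))
    (ee (((s - ν : ℝ) : ℂ) * (-1 / (q * pw δ (-2 * δ)))))
  have k4 : ‖ee (((s - ν : ℝ) : ℂ) * (-1 / (q * pw δ (-δ)))) -
    ee (((s - ν : ℝ) : ℂ) * (-1 / (q * pw δ (-2 * δ))))‖ ≤ 2 * B := by linarith
  calc _ ≤ 2 * B * (Real.pi * |s - ν|) := mul_le_mul_of_nonneg_right k4 (by positivity)
    _ = B * (2 * Real.pi * |s - ν|) := by ring

theorem one_freq_eq (q δ ν : ℝ) (hq : 0 < q) (h0 : 0 < δ) :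
    ∫ u in (-2 * δ)..(-δ), ee (ν * (-1 / (q * pw δ u))) * KK q ν δ u = Ld q δ := by
  rw [← one_freq_zero q δ hq h0]
  apply intervalIntegral.integral_congr
  intro u _
  simp only [KK]
  rw [← mul_div_assoc]
  congr 1
  unfold ee
  rw [← Complex.exp_add]
  rw [show 2 * (Real.pi : ℂ) * I * ((ν : ℂ) * (-1 / (q * pw δ u))) +
    2 * (Real.pi : ℂ) * I * (-((ν : ℂ) * (-1 / (q * pw δ u)))) = 0 by ring, Complex.exp_zero]

end Pool.Agent.H11.SC
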