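import Mathlib
import Pool.Agent.H11.SC.GB

/-!
# POWEXP: `∑ n^s e^(-Yn) ≤ K Y^(-(s+1))`

`rpow_le_exp` (GB.lean) with `p = s` gives `u^s ≤ K e^(πu)`; use it with `u = nY/(2π)`:
`n^s ≤ K (2π)^s Y^(-s) e^(nY/2)`.  So the `n`-th term is at most `K (2π)^s Y^(-s) e^(-nY/2)` for `n ≥ 1`
(the term `n = 0` vanishes, `s > 0`), and `∑_{n ≥ 1} e^(-nY/2) = r/(1-r) ≤ 2/Y`, `r = e^(-Y/2)`
(`e^(Y/2) - 1 ≥ Y/2`).
-/

set_option autoImplicit false

namespace Pool.Agent.H11.SC

theorem pow_exp_sum (s : ℝ) (hs : 0 < s) : ∃ K : ℝ, 0 < K ∧ ∀ Y : ℝ, 0 < Y →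
    Summable (fun n : ℕ => (n : ℝ) ^ s * Real.exp (-(Y * n))) ∧
    ∑' n : ℕ, (n : ℝ) ^ s * Real.exp (-(Y * n)) ≤ K * Y ^ (-(s + 1)) := by
  obtain ⟨K0, hK0, hK⟩ := rpow_le_exp s hs.le
  have hpi := Real.pi_pos
  refine ⟨2 * K0 * (2 * Real.pi) ^ s, by positivity, fun Y hY => ?_⟩
  set r := Real.exp (-(Y / 2)) with hr
  have hr0 : 0 < r := Real.exp_pos _
  have hr1 : r < 1 := by
    rw [hr, Real.exp_lt_one_iff]
    linarith
  set A : ℝ := K0 * ((2 * Real.pi) ^ s * Y ^ (-s)) with hA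
  have hA0 : 0 ≤ A := by positivity
  have hg : HasSum (fun n : ℕ => A * (r ^ n - (if n = 0 then 1 else 0)))
      (A * ((1 - r)⁻¹ - 1)) :=
    ((hasSum_geometric_of_lt_one hr0.le hr1).sub (hasSum_ite_eq 0 1)).mul_left _
  have hle : ∀ n : ℕ, (n : ℝ) ^ s * Real.exp (-(Y * n)) ≤
      A * (r ^ n - (if n = 0 then 1 else 0)) := by
    intro n
    rcases Nat.eq_zero_or_pos n with rfl | hn
    · simp [Real.zero_rpow hs.ne']
    · have hn0 : (0 : ℝ) < n := by exact_mod_cast hn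
      rw [if_neg (by omega), sub_zero]
      have h1 := hK (n * Y / (2 * Real.pi)) (by positivity)
      have h2 : (n : ℝ) ^ s =
          ((n * Y / (2 * Real.pi)) ^ s) * ((2 * Real.pi) ^ s * Y ^ (-s)) := by
        rw [Real.div_rpow (by positivity) (by positivity), Real.mul_rpow hn0.le hY.le,
          Real.rpow_neg hY.le]
        have e1 : (0 : ℝ) < (2 * Real.pi) ^ s := by positivity
        have e2 : (0 : ℝ) < Y ^ s := by positivity
        field_simp
      have h3 : Real.exp (Real.pi * (n * Y / (2 * Real.pi))) * Real.exp (-(Y * n)) = r ^ n := by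
        rw [hr, ← Real.exp_nat_mul, ← Real.exp_add]
        congr 1
        field_simp
        ring
      calc (n : ℝ) ^ s * Real.exp (-(Y * n))
          = ((n * Y / (2 * Real.pi)) ^ s) * (((2 * Real.pi) ^ s * Y ^ (-s)) *
            Real.exp (-(Y * n))) := by
            rw [h2]
            ring
        _ ≤ (K0 * Real.exp (Real.pi * (n * Y / (2 * Real.pi)))) *
            (((2 * Real.pi) ^ s * Y ^ (-s)) * Real.exp (-(Y * n))) :=
            mul_le_mul_of_nonneg_right h1 (by positivity)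
        _ = A * (Real.exp (Real.pi * (n * Y / (2 * Real.pi))) * Real.exp (-(Y * n))) := by
            rw [hA]
            ring
        _ = A * r ^ n := by rw [h3]
  have hs1 : Summable (fun n : ℕ => (n : ℝ) ^ s * Real.exp (-(Y * n))) :=
    Summable.of_nonneg_of_le (fun n => by positivity) hle hg.summable
  refine ⟨hs1, ?_⟩
  refine (hasSum_le hle hs1.hasSum hg).trans ?_
  have h4 : (1 - r)⁻¹ - 1 ≤ 2 / Y := by
    have h5 : 0 < 1 - r := by linarith
    have h6 : (1 - r)⁻¹ - 1 = r / (1 - r) := by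
      field_simp
      ring
    rw [h6, div_le_div_iff₀ h5 hY]
    have h7 : r * (Y / 2 + 1) ≤ 1 := by
      have h8 : Y / 2 + 1 ≤ Real.exp (Y / 2) := Real.add_one_le_exp _
      calc r * (Y / 2 + 1) ≤ r * Real.exp (Y / 2) := mul_le_mul_of_nonneg_left h8 hr0.le
        _ = 1 := by
          rw [hr, ← Real.exp_add]
          simp
    nlinarith
  calc A * ((1 - r)⁻¹ - 1) ≤ A * (2 / Y) := mul_le_mul_of_nonneg_left h4 hA0
    _ = 2 * K0 * (2 * Real.pi) ^ s * Y ^ (-(s + 1)) := by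
      rw [hA, neg_add, Real.rpow_add hY, Real.rpow_neg_one]
      ring

end Pool.Agent.H11.SC
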