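import Mathlib
import Pool.Agent.H11.SC5.Defs5
import Pool.Agent.H11.SC5.Kbd
import Pool.Agent.H11.SC5.Four1
import Pool.Agent.H11.SC5.PowExp

/-!
# FOUR: the Fourier coefficient of `ff b (w'/d + θ)`

`w' = -1/(q pw δ u)`, `ν = m/N`.  `ff b (w'/d + θ) = ∑_n b n n³ ee(nθ) ee((n/d) w')`, absolutely and
uniformly convergent on the path: `‖ee((n/d) w')‖ ≤ exp(-2πn/(5qd))` (`Im w' ≥ 1/(5q)`, as in FOUR1)
and `KK` is bounded.  So the integral is `∑_n b n n³ ee(nθ) ∫ ee((n/d) w') KK du`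
(`intervalIntegral.hasSum_integral_of_summable_norm`, or `MeasureTheory` versions).
* `n/d = ν` (`nN = md`; possible only if `N ∣ md`, `n = md/N`): `one_freq_eq` gives the main term.
* `n/d ≠ ν`, `n ≥ 1`: `one_freq` with `s = n/d`: `|s - ν| = |nN - md|/(dN)`, so the term is at most
  `(d N C0 e^(2πν/q)/π) n^(3+η) e^(-2πn/(5qd))/|nN - md|`.
  Cauchy–Schwarz: `∑ n^(3+η) e^(-cn/d)/|nN - md| ≤ (∑ n^(6+2η) e^(-2cn/d))^(1/2) (∑ 1/(nN - md)²)^(1/2)`,
  `c = 2π/(5q)`; the first sum is `≤ K (d/(2c))^(7+2η)` (`pow_exp_sum`), the second is at most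
  `2 ∑_{j≥1} 1/j²` (the numbers `nN - md` are distinct nonzero integers; e.g. inject into `ℤ`).
  Total `≤ K' d · d^(7/2+η) = K' d^(9/2+η)`.  (The term `n = 0` vanishes.)
-/

set_option autoImplicit false

namespace Pool.Agent.H11.SC

open Complex

private theorem four_im (q δ u : ℝ) (hq : 0 < q) (h0 : 0 < δ) (h1 : δ ≤ 1 / 10)
    (hu : u ∈ Set.Icc (-2 * δ) (-δ)) : 1 / (5 * q) ≤ (-1 / (q * pw δ u)).im := by
  obtain ⟨hw1, hw2⟩ := pw_norm δ u h0 h1 hu
  have hn : 0 < ‖pw δ u‖ := h0.trans_le hw1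
  have him : (-1 / (q * pw δ u)).im = δ ^ 2 / (q * ‖pw δ u‖ ^ 2) := by
    rw [Complex.div_im]
    simp only [Complex.neg_im, Complex.one_im, Complex.neg_re, Complex.one_re, Complex.mul_re,
      Complex.mul_im, Complex.ofReal_re, Complex.ofReal_im, pw_re, pw_im,
      Complex.normSq_eq_norm_sq, norm_mul, Complex.norm_real, Real.norm_eq_abs, abs_of_pos hq,
      zero_mul, sub_zero, add_zero]
    field_simp
    ring
  rw [him, div_le_div_iff₀ (by positivity) (by positivity)]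
  have h2 : ‖pw δ u‖ ^ 2 ≤ (21 / 10 * δ) ^ 2 := pow_le_pow_left₀ hn.le hw2 2
  nlinarith [sq_nonneg δ, mul_nonneg hq.le (sq_nonneg δ)]

private theorem four_ee_norm (x : ℂ) : ‖ee x‖ = Real.exp (-(2 * Real.pi * x.im)) := by
  unfold ee
  rw [Complex.norm_exp]
  congr 1
  simp

private theorem four_ee_add (x y : ℂ) : ee (x + y) = ee x * ee y := by
  unfold ee
  rw [← Complex.exp_add]
  congr 1
  ring

private theorem four_cont (q δ : ℝ) (hq : 0 < q) (h0 : 0 < δ) :
    Continuous (fun u : ℝ => -1 / ((q : ℂ) * pw δ u)) := by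
  apply Continuous.div continuous_const
  · unfold pw
    fun_prop
  · intro u
    apply mul_ne_zero (by exact_mod_cast hq.ne')
    intro h
    have := congrArg Complex.im h
    rw [pw_im] at this
    simp at this
    exact h0.ne' this

theorem four (b : ℕ → ℂ) (η C0 : ℝ) (hη : 0 < η) (hη1 : η ≤ 1)
    (hb : ∀ n : ℕ, 1 ≤ n → ‖b n‖ ≤ C0 * (n : ℝ) ^ η) (q : ℝ) (hq : 0 < q) (m N : ℕ)
    (hm : 1 ≤ m) (hN : 1 ≤ N) (θ : ℝ) : ∃ K : ℝ, 0 ≤ K ∧ ∀ δ : ℝ, 0 < δ → δ ≤ 1 / 10 →
    ∀ d : ℕ, 1 ≤ d →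
    ‖(∫ u in (-2 * δ)..(-δ), ff b (-1 / (q * pw δ u) / d + θ) * KK q ((m : ℝ) / N) δ u) -
      (if N ∣ m * d then b (m * d / N) * ((m * d / N : ℕ) : ℂ) ^ 3 *
        ee (((m * d / N : ℕ) : ℂ) * θ) else 0) * Ld q δ‖ ≤ K * (d : ℝ) ^ (9 / 2 + η) := by
  have hpi := Real.pi_pos
  have hC0 : 0 ≤ C0 := by
    have := (norm_nonneg _).trans (hb 1 le_rfl)
    simpa using this
  set ν : ℝ := (m : ℝ) / N with hν
  have hN0 : (0 : ℝ) < N := by exact_mod_cast hN
  have hν0 : 0 ≤ ν := by positivity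
  set c : ℝ := 2 * Real.pi / (5 * q) with hc
  have hc0 : 0 < c := by positivity
  obtain ⟨K1, hK1, hsum1⟩ := pow_exp_sum (3 + η) (by linarith)
  obtain ⟨K2, hK2, hsum2⟩ := pow_exp_sum (6 + 2 * η) (by linarith)
  set S : ℝ := ∑' k : ℤ, 1 / (k : ℝ) ^ 2 with hS
  have hSs : Summable (fun k : ℤ => 1 / (k : ℝ) ^ 2) := Real.summable_one_div_int_pow.2 one_lt_two
  have hS0 : 0 ≤ S := tsum_nonneg fun k => by positivity
  set D : ℝ := C0 * (N * (Real.exp (2 * Real.pi * ν / q) / Real.pi)) with hD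
  have hD0 : 0 ≤ D := by positivity
  refine ⟨D * ((K2 * (2 * c) ^ (-(7 + 2 * η))) ^ (1 / 2 : ℝ) * S ^ (1 / 2 : ℝ)), by positivity, ?_⟩
  intro δ h0 h1 d hd
  have hd0 : (0 : ℝ) < d := by exact_mod_cast hd
  have hbn : ∀ n : ℕ, ‖b n * (n : ℂ) ^ 3‖ ≤ C0 * (n : ℝ) ^ (3 + η) := by
    intro n
    rcases Nat.eq_zero_or_pos n with hn | hn
    · subst hn
      have : (0 : ℝ) ^ (3 + η) = 0 := Real.zero_rpow (by linarith)
      simp [this]
    · have hn0 : (0 : ℝ) < n := by exact_mod_cast hn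
      rw [norm_mul, norm_pow, Complex.norm_natCast, Real.rpow_add hn0]
      have h3 : (n : ℝ) ^ (3 : ℝ) = (n : ℝ) ^ 3 := by
        rw [← Real.rpow_natCast]; norm_num
      rw [h3]
      have := mul_le_mul_of_nonneg_right (hb n hn) (pow_nonneg hn0.le 3)
      linarith [this]
  -- the functions
  set W : ℝ → ℂ := fun u => -1 / ((q : ℂ) * pw δ u) with hW
  have hWc : Continuous W := four_cont q δ hq h0
  set F : ℕ → ℝ → ℂ := fun n u => b n * (n : ℂ) ^ 3 * ee (n * θ) *
    (ee (((n : ℝ) / d : ℝ) * W u) * KK q ν δ u) with hF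
  have hKc : Continuous (fun u : ℝ => KK q ν δ u) := KK_cont q ν δ hq h0
  have hFc : ∀ n, Continuous (F n) := by
    intro n
    rw [hF]
    dsimp only
    refine continuous_const.mul (Continuous.mul ?_ hKc)
    unfold ee
    fun_prop
  have heeθ : ∀ n : ℕ, ‖ee (n * θ)‖ = 1 := by
    intro n
    rw [four_ee_norm]
    simp
  have hWim : ∀ u ∈ Set.Icc (-2 * δ) (-δ), 1 / (5 * q) ≤ (W u).im := fun u hu =>
    four_im q δ u hq h0 h1 hu
  have heeW : ∀ (n : ℕ), ∀ u ∈ Set.Icc (-2 * δ) (-δ),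
      ‖ee (((n : ℝ) / d : ℝ) * W u)‖ ≤ Real.exp (-(c / d * n)) := by
    intro n u hu
    rw [four_ee_norm]
    apply Real.exp_le_exp.2
    rw [Complex.im_ofReal_mul]
    have h3 := mul_le_mul_of_nonneg_left (hWim u hu)
      (show 0 ≤ 2 * Real.pi * ((n : ℝ) / d) by positivity)
    have h4 : 2 * Real.pi * ((n : ℝ) / d) * (1 / (5 * q)) = c / d * n := by
      rw [hc]; field_simp
    linarith
  set M0 : ℝ := Real.exp (2 * Real.pi * ν / q) / (q * δ ^ 2) with hM0
  have hM00 : 0 ≤ M0 := by positivity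
  have hFb : ∀ n : ℕ, ∀ u ∈ Set.Icc (-2 * δ) (-δ),
      ‖F n u‖ ≤ C0 * M0 * ((n : ℝ) ^ (3 + η) * Real.exp (-(c / d * n))) := by
    intro n u hu
    rw [hF]
    dsimp only
    rw [norm_mul, norm_mul (b n * (n : ℂ) ^ 3), heeθ, mul_one,
      norm_mul (ee (((n : ℝ) / d : ℝ) * W u))]
    calc ‖b n * (n : ℂ) ^ 3‖ * (‖ee (((n : ℝ) / d : ℝ) * W u)‖ * ‖KK q ν δ u‖)
        ≤ (C0 * (n : ℝ) ^ (3 + η)) * (Real.exp (-(c / d * n)) * M0) := by
          apply mul_le_mul (hbn n)
          · exact mul_le_mul (heeW n u hu) (KK_bound q ν δ u hq hν0 h0 h1 hu)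
              (norm_nonneg _) (Real.exp_pos _).le
          · positivity
          · positivity
      _ = _ := by ring
  have hcd : 0 < c / d := by positivity
  have hbs : Summable (fun n : ℕ => C0 * M0 * ((n : ℝ) ^ (3 + η) * Real.exp (-(c / d * n)))) :=
    (hsum1 (c / d) hcd).1.mul_left _
  have hδ : -2 * δ ≤ -δ := by linarith
  have hmem : ∀ u ∈ Set.uIoc (-2 * δ) (-δ), u ∈ Set.Icc (-2 * δ) (-δ) := by
    intro u hu
    rw [Set.uIoc_of_le hδ] at hu
    exact ⟨hu.1.le, hu.2⟩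
  have hlim : ∀ u ∈ Set.Icc (-2 * δ) (-δ), HasSum (fun n => F n u)
      (ff b (-1 / (q * pw δ u) / d + θ) * KK q ν δ u) := by
    intro u hu
    have hs : Summable (fun n => F n u) := by
      refine Summable.of_norm_bounded hbs (fun n => hFb n u hu)
    have he : ∀ n : ℕ, F n u = (b n * (n : ℂ) ^ 3 *
        cexp (-(2 * (Real.pi : ℂ) * n * (-(I * (-1 / (q * pw δ u) / d + θ)))))) * KK q ν δ u := by
      intro n
      rw [hF, hW]
      dsimp only
      have h5 : cexp (-(2 * (Real.pi : ℂ) * n * (-(I * (-1 / (q * pw δ u) / d + θ))))) =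
          ee (n * θ) * ee (((n : ℝ) / d : ℝ) * (-1 / (q * pw δ u))) := by
        rw [← four_ee_add]
        unfold ee
        congr 1
        push_cast
        ring
      rw [h5]
      ring
    have h6 : ff b (-1 / (q * pw δ u) / d + θ) * KK q ν δ u = ∑' n, F n u := by
      unfold ff gs
      rw [← tsum_mul_right]
      exact tsum_congr fun n => (he n).symm
    rw [h6]
    exact hs.hasSum
  have hI : HasSum (fun n => ∫ u in (-2 * δ)..(-δ), F n u)
      (∫ u in (-2 * δ)..(-δ), ff b (-1 / (q * pw δ u) / d + θ) * KK q ν δ u) := by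
    apply intervalIntegral.hasSum_integral_of_dominated_convergence
      (fun (n : ℕ) (_ : ℝ) => C0 * M0 * ((n : ℝ) ^ (3 + η) * Real.exp (-(c / d * n))))
    · intro n
      exact (hFc n).aestronglyMeasurable
    · intro n
      exact Filter.Eventually.of_forall fun u hu => hFb n u (hmem u hu)
    · exact Filter.Eventually.of_forall fun u _ => hbs
    · exact intervalIntegrable_const
    · exact Filter.Eventually.of_forall fun u hu => hlim u (hmem u hu)
  -- the integrals of the terms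
  have hA : ∀ n : ℕ, ∫ u in (-2 * δ)..(-δ), F n u = b n * (n : ℂ) ^ 3 * ee (n * θ) *
      ∫ u in (-2 * δ)..(-δ), ee (((n : ℝ) / d : ℝ) * (-1 / (q * pw δ u))) * KK q ν δ u := by
    intro n
    rw [hF, hW]
    dsimp only
    rw [intervalIntegral.integral_const_mul]
  -- the terms with `n N ≠ m d`
  set k : ℕ → ℤ := fun n => (n : ℤ) * N - m * d with hk
  have hkinj : Function.Injective k := by
    intro n n' h
    rw [hk] at h
    dsimp only at h
    have h7 : (n : ℤ) * N = n' * N := by linarith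
    have h8 : (N : ℤ) ≠ 0 := by exact_mod_cast (by omega : N ≠ 0)
    exact_mod_cast mul_right_cancel₀ h8 h7
  set x : ℕ → ℝ := fun n => (n : ℝ) ^ (3 + η) * Real.exp (-(c / d * n)) with hx
  set y : ℕ → ℝ := fun n => 1 / |((k n : ℤ) : ℝ)| with hy
  have hx0 : ∀ n, 0 ≤ x n := fun n => by rw [hx]; positivity
  have hy0 : ∀ n, 0 ≤ y n := fun n => by rw [hy]; positivity
  have hgb : ∀ n : ℕ, k n ≠ 0 → ‖∫ u in (-2 * δ)..(-δ), F n u‖ ≤ D * d * (x n * y n) := by
    intro n hkn
    rw [hA n, norm_mul, norm_mul, heeθ, mul_one]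
    have hs0 : (0 : ℝ) ≤ (n : ℝ) / d := by positivity
    have hkn' : ((k n : ℤ) : ℝ) ≠ 0 := by exact_mod_cast hkn
    have hdiff : (n : ℝ) / d - ν = ((k n : ℤ) : ℝ) / (d * N) := by
      rw [hν, hk]
      push_cast
      field_simp
    have hsν : (n : ℝ) / d ≠ ν := by
      intro h
      rw [h, sub_self] at hdiff
      have : ((k n : ℤ) : ℝ) / (d * N) ≠ 0 := by positivity
      exact this hdiff.symm
    have h9 := one_freq q δ ((n : ℝ) / d) ν hq h0 h1 hs0 hν0 hsν
    rw [hdiff, abs_div, abs_of_pos (show (0 : ℝ) < d * N by positivity)] at h9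
    have h10 : Real.exp (-(2 * Real.pi * ((n : ℝ) / d) / (5 * q))) =
        Real.exp (-(c / d * n)) := by
      congr 1
      rw [hc]
      field_simp
    rw [h10] at h9
    calc ‖b n * (n : ℂ) ^ 3‖ * ‖∫ u in (-2 * δ)..(-δ),
          ee (((n : ℝ) / d : ℝ) * (-1 / (q * pw δ u))) * KK q ν δ u‖
        ≤ (C0 * (n : ℝ) ^ (3 + η)) * (Real.exp (2 * Real.pi * ν / q) * Real.exp (-(c / d * n)) /
            (Real.pi * (|((k n : ℤ) : ℝ)| / (d * N)))) := by
          apply mul_le_mul (hbn n) h9 (norm_nonneg _)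
          positivity
      _ = D * d * (x n * y n) := by
          rw [hD, hx, hy]
          have := abs_pos.2 hkn'
          field_simp
  -- Cauchy-Schwarz
  have hx2 : ∀ n, x n ^ (2 : ℝ) = (n : ℝ) ^ (6 + 2 * η) * Real.exp (-(2 * c / d * n)) := by
    intro n
    rw [hx]
    dsimp only
    rw [Real.mul_rpow (by positivity) (Real.exp_pos _).le, ← Real.rpow_mul (Nat.cast_nonneg n),
      ← Real.exp_mul]
    congr 2 <;> ring
  have hy2 : ∀ n, y n ^ (2 : ℝ) = 1 / ((k n : ℤ) : ℝ) ^ 2 := by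
    intro n
    rw [hy]
    dsimp only
    rw [show (2 : ℝ) = ((2 : ℕ) : ℝ) by norm_num, Real.rpow_natCast, div_pow, one_pow, sq_abs]
  have h2cd : 0 < 2 * c / d := by positivity
  obtain ⟨hxs, hxt⟩ := hsum2 (2 * c / d) h2cd
  have hxs' : Summable (fun n => x n ^ (2 : ℝ)) := by
    simp only [hx2]
    exact hxs
  have hys' : Summable (fun n => y n ^ (2 : ℝ)) := by
    simp only [hy2]
    exact hSs.comp_injective hkinj
  obtain ⟨hxy, hCS⟩ := Real.summable_and_inner_le_Lp_mul_Lq_tsum_of_nonneg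
    Real.HolderConjugate.two_two hx0 hy0 hxs' hys'
  have hyt : ∑' n, y n ^ (2 : ℝ) ≤ S := by
    simp only [hy2]
    exact tsum_comp_le_tsum_of_inj hSs (fun k => by positivity) hkinj
  have hxt' : ∑' n, x n ^ (2 : ℝ) ≤ K2 * (2 * c) ^ (-(7 + 2 * η)) * (d : ℝ) ^ (7 + 2 * η) := by
    simp only [hx2]
    refine hxt.trans (le_of_eq ?_)
    rw [div_eq_mul_inv, Real.mul_rpow (by positivity) (by positivity), Real.inv_rpow hd0.le,
      ← Real.rpow_neg hd0.le, neg_neg]
    have e1 : (6 + 2 * η + 1 : ℝ) = 7 + 2 * η := by ring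
    rw [e1]
    ring
  have hxyt : ∑' n, x n * y n ≤ (K2 * (2 * c) ^ (-(7 + 2 * η))) ^ (1 / 2 : ℝ) *
      S ^ (1 / 2 : ℝ) * (d : ℝ) ^ (7 / 2 + η) := by
    refine hCS.trans ?_
    have h11 : (∑' n, x n ^ (2 : ℝ)) ^ (1 / 2 : ℝ) ≤
        (K2 * (2 * c) ^ (-(7 + 2 * η))) ^ (1 / 2 : ℝ) * (d : ℝ) ^ (7 / 2 + η) := by
      refine (Real.rpow_le_rpow (tsum_nonneg fun n => by positivity) hxt' (by norm_num)).trans
        (le_of_eq ?_)
      rw [Real.mul_rpow (by positivity) (by positivity), ← Real.rpow_mul hd0.le]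
      congr 2
      ring
    have h12 : (∑' n, y n ^ (2 : ℝ)) ^ (1 / 2 : ℝ) ≤ S ^ (1 / 2 : ℝ) :=
      Real.rpow_le_rpow (tsum_nonneg fun n => by positivity) hyt (by norm_num)
    refine (mul_le_mul h11 h12 (by positivity) (by positivity)).trans (le_of_eq ?_)
    ring
  -- the remainder
  set main : ℂ := (if N ∣ m * d then b (m * d / N) * ((m * d / N : ℕ) : ℂ) ^ 3 *
        ee (((m * d / N : ℕ) : ℂ) * θ) else 0) * Ld q δ with hmain
  set g : ℕ → ℂ := fun n => if k n = 0 then 0 else ∫ u in (-2 * δ)..(-δ), F n u with hg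
  have hgs : HasSum g ((∫ u in (-2 * δ)..(-δ), ff b (-1 / (q * pw δ u) / d + θ) *
      KK q ν δ u) - main) := by
    by_cases hNm : N ∣ m * d
    · have hn0 : (m * d / N) * N = m * d := Nat.div_mul_cancel hNm
      have hk0 : k (m * d / N) = 0 := by
        rw [hk]
        dsimp only
        have : ((m * d / N : ℕ) : ℤ) * N = m * d := by exact_mod_cast hn0
        rw [this, sub_self]
      have hn1 : (((m * d / N : ℕ) : ℝ) / d) = ν := by
        have : ((m * d / N : ℕ) : ℝ) * N = m * d := by exact_mod_cast hn0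
        rw [hν, div_eq_div_iff hd0.ne' hN0.ne']
        exact this
      have hmain' : main = ∫ u in (-2 * δ)..(-δ), F (m * d / N) u := by
        rw [hA, hn1, one_freq_eq q δ ν hq h0, hmain, if_pos hNm]
      have h13 := hI.sub (hasSum_ite_eq (m * d / N) (∫ u in (-2 * δ)..(-δ), F (m * d / N) u))
      rw [← hmain'] at h13
      have h14 : g = fun n => (∫ u in (-2 * δ)..(-δ), F n u) -
          (if n = m * d / N then main else 0) := by
        funext n
        rw [hg]
        dsimp only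
        by_cases hkn : k n = 0
        · have : n = m * d / N := hkinj (hkn.trans hk0.symm)
          rw [if_pos hkn, if_pos this, this, hmain', sub_self]
        · have : n ≠ m * d / N := fun h => hkn (by rw [h, hk0])
          rw [if_neg hkn, if_neg this, sub_zero]
      rw [h14]
      exact h13
    · have h14 : g = fun n => (∫ u in (-2 * δ)..(-δ), F n u) := by
        funext n
        rw [hg]
        dsimp only
        have hkn : k n ≠ 0 := by
          intro h
          apply hNm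
          rw [hk] at h
          dsimp only at h
          have h15 : (n : ℤ) * N = m * d := by linarith
          have h16 : n * N = m * d := by exact_mod_cast h15
          exact ⟨n, by rw [← h16, mul_comm]⟩
        rw [if_neg hkn]
      rw [h14, hmain, if_neg hNm, zero_mul, sub_zero]
      exact hI
  have hgn : ∀ n, ‖g n‖ ≤ D * d * (x n * y n) := by
    intro n
    rw [hg]
    dsimp only
    split_ifs with hkn
    · rw [norm_zero]
      exact mul_nonneg (by positivity) (mul_nonneg (hx0 n) (hy0 n))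
    · exact hgb n hkn
  have hfin := tsum_of_norm_bounded (hxy.mul_left (D * d)).hasSum hgn
  rw [hgs.tsum_eq, tsum_mul_left] at hfin
  refine hfin.trans ?_
  have hlast := mul_le_mul_of_nonneg_left hxyt (show 0 ≤ D * d by positivity)
  refine hlast.trans (le_of_eq ?_)
  have e2 : (d : ℝ) ^ (9 / 2 + η) = d * (d : ℝ) ^ (7 / 2 + η) := by
    have : (9 / 2 + η : ℝ) = 1 + (7 / 2 + η) := by ring
    rw [this, Real.rpow_add hd0, Real.rpow_one]
  rw [e2]
  ring

end Pool.Agent.H11.SC
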