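import Mathlib
import Pool.Agent.H11.SC5.Defs5
import Pool.Agent.H11.SC5.Kbd
import Pool.Agent.H11.SC5.PowExp
import Pool.Agent.H11.SC.UpB
import Pool.Agent.H11.SC.PInt

/-!
# MEAN: the mean value of `|f|` on long horizontal segments

`phi_parseval` (UpB.lean), `phi a z = (Im z)^(7/2) ‖ff a z‖`: for `y > 0`
`∫_0^1 ‖ff a (x+iy)‖² dx = ∑ ‖a n‖² n^6 e^(-4πny) ≤ C² ∑ n^(6+2η) e^(-4πyn) ≤ K y^(-(7+2η))`
(`‖a n‖ ≤ C n^η`, `pow_exp_sum` with `s = 6 + 2η`).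
`mean_sq`: `∫_0^1` in the form used below.
`mean_bound`: `u ↦ x = du` (`d * pw δ u = du + i dδ²`):
`∫_{-2δ}^{-δ} ‖ff a (du + i dδ²)‖² du = (1/d) ∫_{-2dδ}^{-dδ} ‖ff a (x + i dδ²)‖² dx`; the interval has
length `dδ`, it is contained in `⌈dδ⌉ ≤ dδ + 1 ≤ 3dδ` periods (`2dδ ≥ 1`), so this is
`≤ 3δ K (dδ²)^(-(7+2η))`.  (Periodicity: `ff_per`; `intervalIntegral` of a periodic function over `n`
periods is `n` times the integral over `[0,1]`; the integrand is nonnegative.)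
Cauchy–Schwarz: `∫ ‖·‖ ≤ (δ ∫ ‖·‖²)^(1/2) ≤ (3Kδ²)^(1/2) (dδ²)^(-(7/2+η))`.
-/

set_option autoImplicit false

namespace Pool.Agent.H11.SC

open Complex

private theorem mean_ha (a : ℕ → ℂ) (ham : ∀ ε : ℝ, 0 < ε → ∃ C : ℝ, ∀ n : ℕ, 1 ≤ n →
    ‖a n‖ ≤ C * (n : ℝ) ^ ε) : ∃ C : ℝ, ∀ n : ℕ, 1 ≤ n → ‖a n‖ ≤ C * (n : ℝ) ^ (1 : ℝ) :=
  ham 1 one_pos

private theorem mean_cont (a : ℕ → ℂ) (ham : ∀ ε : ℝ, 0 < ε → ∃ C : ℝ, ∀ n : ℕ, 1 ≤ n →
    ‖a n‖ ≤ C * (n : ℝ) ^ ε) (y : ℝ) (hy : 0 < y) :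
    Continuous (fun x : ℝ => ff a ((x : ℂ) + y * I)) := by
  have h := (gs_diff a (mean_ha a ham) 3 (by norm_num)).continuousOn
  unfold ff
  have h2 : Continuous (fun x : ℝ => -(I * ((x : ℂ) + y * I))) := by fun_prop
  refine h.comp_continuous h2 fun x => ?_
  simp [hy]

private theorem mean_cs (f : ℝ → ℝ) (hf : Continuous f) (δ : ℝ) (h0 : 0 < δ) :
    (∫ u in (-2 * δ)..(-δ), f u) ^ 2 ≤ δ * ∫ u in (-2 * δ)..(-δ), f u ^ 2 := by
  set S := ∫ u in (-2 * δ)..(-δ), f u with hS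
  have h1 : 0 ≤ ∫ u in (-2 * δ)..(-δ), (δ * f u - S) ^ 2 :=
    intervalIntegral.integral_nonneg (by linarith) fun u _ => sq_nonneg _
  have h2 : ∫ u in (-2 * δ)..(-δ), (δ * f u - S) ^ 2 =
      δ ^ 2 * (∫ u in (-2 * δ)..(-δ), f u ^ 2) - 2 * δ * S * S + S ^ 2 * δ := by
    have e : ∀ u, (δ * f u - S) ^ 2 = (δ ^ 2 * f u ^ 2 - 2 * δ * S * f u) + S ^ 2 := by
      intro u; ring
    simp only [e]
    have i1 : IntervalIntegrable (fun u => δ ^ 2 * f u ^ 2) MeasureTheory.volume (-2 * δ) (-δ) :=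
      (by fun_prop : Continuous fun u => δ ^ 2 * f u ^ 2).intervalIntegrable _ _
    have i2 : IntervalIntegrable (fun u => 2 * δ * S * f u) MeasureTheory.volume (-2 * δ) (-δ) :=
      (by fun_prop : Continuous fun u => 2 * δ * S * f u).intervalIntegrable _ _
    rw [intervalIntegral.integral_add (i1.sub i2) intervalIntegrable_const,
      intervalIntegral.integral_sub i1 i2, intervalIntegral.integral_const_mul,
      intervalIntegral.integral_const_mul, intervalIntegral.integral_const, ← hS]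
    simp only [smul_eq_mul]
    ring
  rw [h2] at h1
  have h3 : δ * S ^ 2 ≤ δ * (δ * ∫ u in (-2 * δ)..(-δ), f u ^ 2) := by nlinarith
  exact le_of_mul_le_mul_left h3 h0

theorem mean_sq (a : ℕ → ℂ) (ham : ∀ ε : ℝ, 0 < ε → ∃ C : ℝ, ∀ n : ℕ, 1 ≤ n →
    ‖a n‖ ≤ C * (n : ℝ) ^ ε) (η : ℝ) (hη : 0 < η) (hη1 : η ≤ 1) : ∃ K : ℝ, 0 ≤ K ∧
    ∀ y : ℝ, 0 < y → ∫ x in (0 : ℝ)..1, ‖ff a (x + y * I)‖ ^ 2 ≤ K * y ^ (-(7 + 2 * η)) := by
  obtain ⟨C, hC⟩ := ham η hη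
  obtain ⟨K, hK, hKs⟩ := pow_exp_sum (6 + 2 * η) (by linarith)
  have hC0 : 0 ≤ C := by
    have := hC 1 le_rfl
    simp only [Nat.cast_one, Real.one_rpow, mul_one] at this
    exact (norm_nonneg _).trans this
  refine ⟨C ^ 2 * K * (4 * Real.pi) ^ (-(7 + 2 * η)), by positivity, fun y hy => ?_⟩
  have hpar := phi_parseval a (mean_ha a ham) y hy
  have h1 : ∀ x : ℝ, phi a (x + y * I) ^ 2 = y ^ 7 * ‖ff a (x + y * I)‖ ^ 2 := by
    intro x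
    rw [phi_eq_ff, mul_pow]
    congr 1
    have him : ((x : ℂ) + y * I).im = y := by simp
    rw [him, ← Real.rpow_natCast, ← Real.rpow_mul hy.le]
    norm_num
  simp only [h1] at hpar
  rw [intervalIntegral.integral_const_mul] at hpar
  have h2 := mul_left_cancel₀ (pow_ne_zero 7 hy.ne') hpar
  rw [h2]
  obtain ⟨hs, hle⟩ := hKs (4 * Real.pi * y) (by positivity)
  have hterm : ∀ n : ℕ, ‖a n‖ ^ 2 * (n : ℝ) ^ 6 * Real.exp (-(4 * Real.pi * n * y)) ≤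
      C ^ 2 * ((n : ℝ) ^ (6 + 2 * η) * Real.exp (-(4 * Real.pi * y * n))) := by
    intro n
    rcases Nat.eq_zero_or_pos n with h0 | h0
    · subst h0
      have : (0 : ℝ) ^ (6 + 2 * η) = 0 := Real.zero_rpow (by linarith)
      simp [this]
    · have hn : (0 : ℝ) < n := by exact_mod_cast h0
      have e1 : (4 * Real.pi * n * y) = 4 * Real.pi * y * n := by ring
      have e2 : (n : ℝ) ^ (6 + 2 * η) = (n : ℝ) ^ 6 * ((n : ℝ) ^ η) ^ 2 := by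
        rw [Real.rpow_add hn, ← Real.rpow_natCast ((n : ℝ) ^ η), ← Real.rpow_mul hn.le]
        congr 1
        · exact_mod_cast Real.rpow_natCast (n : ℝ) 6
        · congr 1
          push_cast
          ring
      rw [e1, e2]
      have h3 : ‖a n‖ ^ 2 ≤ (C * (n : ℝ) ^ η) ^ 2 :=
        pow_le_pow_left₀ (norm_nonneg _) (hC n h0) 2
      calc ‖a n‖ ^ 2 * (n : ℝ) ^ 6 * Real.exp (-(4 * Real.pi * y * n))
          ≤ (C * (n : ℝ) ^ η) ^ 2 * (n : ℝ) ^ 6 * Real.exp (-(4 * Real.pi * y * n)) := by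
            gcongr
        _ = _ := by ring
  have hs' := hs.mul_left (C ^ 2)
  have hsum : Summable (fun n : ℕ =>
      ‖a n‖ ^ 2 * (n : ℝ) ^ 6 * Real.exp (-(4 * Real.pi * n * y))) :=
    Summable.of_nonneg_of_le (fun n => by positivity) hterm hs'
  calc ∑' n : ℕ, ‖a n‖ ^ 2 * (n : ℝ) ^ 6 * Real.exp (-(4 * Real.pi * n * y))
      ≤ ∑' n : ℕ, C ^ 2 * ((n : ℝ) ^ (6 + 2 * η) * Real.exp (-(4 * Real.pi * y * n))) :=
        hsum.tsum_le_tsum hterm hs'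
    _ = C ^ 2 * ∑' n : ℕ, ((n : ℝ) ^ (6 + 2 * η) * Real.exp (-(4 * Real.pi * y * n))) :=
        tsum_mul_left
    _ ≤ C ^ 2 * (K * (4 * Real.pi * y) ^ (-((6 + 2 * η) + 1))) := by gcongr
    _ = C ^ 2 * K * (4 * Real.pi) ^ (-(7 + 2 * η)) * y ^ (-(7 + 2 * η)) := by
        have e3 : -((6 + 2 * η) + 1) = -(7 + 2 * η) := by ring
        rw [e3, Real.mul_rpow (by positivity) hy.le]
        ring


theorem mean_bound (a : ℕ → ℂ) (ham : ∀ ε : ℝ, 0 < ε → ∃ C : ℝ, ∀ n : ℕ, 1 ≤ n →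
    ‖a n‖ ≤ C * (n : ℝ) ^ ε) (η : ℝ) (hη : 0 < η) (hη1 : η ≤ 1) : ∃ K : ℝ, 0 ≤ K ∧
    ∀ δ : ℝ, 0 < δ → δ ≤ 1 / 10 → ∀ d : ℕ, 1 ≤ 2 * δ * d →
    ∫ u in (-2 * δ)..(-δ), ‖ff a (d * pw δ u)‖ ≤ K * δ * (d * δ ^ 2) ^ (-(7 / 2 + η)) := by
  obtain ⟨K, hK, hKm⟩ := mean_sq a ham η hη hη1
  refine ⟨Real.sqrt (3 * K), Real.sqrt_nonneg _, fun δ h0 h1 d hd => ?_⟩
  have hd0 : 0 < d := by
    rcases Nat.eq_zero_or_pos d with h | h
    · subst h
      norm_num at hd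
    · exact h
  have hdr : (0 : ℝ) < d := by exact_mod_cast hd0
  set y : ℝ := d * δ ^ 2 with hy
  have hy0 : 0 < y := by positivity
  have hcont := mean_cont a ham y hy0
  have heq : ∀ u : ℝ, (d : ℂ) * pw δ u = (((d : ℝ) * u : ℝ) : ℂ) + (y : ℂ) * I := by
    intro u
    rw [hy]
    unfold pw
    push_cast
    ring
  set g : ℝ → ℝ := fun x => ‖ff a ((x : ℂ) + y * I)‖ with hg
  have hgc : Continuous g := hcont.norm
  have hfg : ∀ u : ℝ, ‖ff a (d * pw δ u)‖ = g (d * u) := by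
    intro u
    rw [heq u]
  simp only [hfg]
  have hcs := mean_cs (fun u => g (d * u)) (hgc.comp (by fun_prop)) δ h0
  have hsq : ∫ u in (-2 * δ)..(-δ), g (d * u) ^ 2 ≤ 3 * δ * K * y ^ (-(7 + 2 * η)) := by
    have e1 := intervalIntegral.integral_comp_mul_left (a := -2 * δ) (b := -δ)
      (fun x => g x ^ 2) hdr.ne'
    rw [e1]
    set N : ℤ := ⌈(d : ℝ) * δ⌉ with hN
    have hN1 : (d : ℝ) * δ ≤ N := Int.le_ceil _
    have hN2 : (N : ℝ) ≤ 3 * (d * δ) := by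
      have := (Int.ceil_lt_add_one ((d : ℝ) * δ)).le
      rw [← hN] at this
      linarith
    have hper : Function.Periodic (fun x => g x ^ 2) 1 := by
      intro x
      show ‖ff a (((x + 1 : ℝ) : ℂ) + y * I)‖ ^ 2 = ‖ff a ((x : ℂ) + y * I)‖ ^ 2
      rw [← ff_per a ((x : ℂ) + y * I)]
      congr 3
      push_cast
      ring
    have hg2 : Continuous (fun x => g x ^ 2) := hgc.pow 2
    have e2 : ∫ x in (d * (-2 * δ))..(d * -δ), g x ^ 2 ≤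
        ∫ x in (d * (-2 * δ))..(d * (-2 * δ) + N • (1 : ℝ)), g x ^ 2 := by
      refine intervalIntegral.integral_mono_interval le_rfl (by nlinarith) ?_ ?_
        (hg2.intervalIntegrable _ _)
      · simp only [zsmul_eq_mul, mul_one]
        linarith
      · exact Filter.Eventually.of_forall fun x => sq_nonneg _
    have e3 := hper.intervalIntegral_add_zsmul_eq N (d * (-2 * δ))
      (fun t1 t2 => hg2.intervalIntegrable _ _)
    have e4 : ∫ x in (d * (-2 * δ))..(d * (-2 * δ) + 1), g x ^ 2 = ∫ x in (0 : ℝ)..1, g x ^ 2 := by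
      have := hper.intervalIntegral_add_eq (d * (-2 * δ)) 0
      rw [this, zero_add]
    have e5 : ∫ x in (0 : ℝ)..1, g x ^ 2 ≤ K * y ^ (-(7 + 2 * η)) := hKm y hy0
    rw [e3, e4, zsmul_eq_mul] at e2
    have e6 : 0 ≤ K * y ^ (-(7 + 2 * η)) := by positivity
    have e7 : (N : ℝ) * ∫ x in (0 : ℝ)..1, g x ^ 2 ≤ 3 * (d * δ) * (K * y ^ (-(7 + 2 * η))) := by
      have hN0 : (0 : ℝ) ≤ N := le_trans (by positivity) hN1
      calc (N : ℝ) * ∫ x in (0 : ℝ)..1, g x ^ 2 ≤ N * (K * y ^ (-(7 + 2 * η))) := by gcongr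
        _ ≤ 3 * (d * δ) * (K * y ^ (-(7 + 2 * η))) := by gcongr
    rw [smul_eq_mul]
    calc (d : ℝ)⁻¹ * ∫ x in (d * (-2 * δ))..(d * -δ), g x ^ 2
        ≤ (d : ℝ)⁻¹ * (3 * (d * δ) * (K * y ^ (-(7 + 2 * η)))) := by
          gcongr
          exact e2.trans e7
      _ = 3 * δ * K * y ^ (-(7 + 2 * η)) := by
          field_simp
  have hS0 : 0 ≤ ∫ u in (-2 * δ)..(-δ), g (d * u) :=
    intervalIntegral.integral_nonneg (by linarith) fun u _ => norm_nonneg _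
  have hyy : (y ^ (-(7 / 2 + η))) ^ 2 = y ^ (-(7 + 2 * η)) := by
    rw [← Real.rpow_natCast, ← Real.rpow_mul hy0.le]
    congr 1
    push_cast
    ring
  have hfin : (∫ u in (-2 * δ)..(-δ), g (d * u)) ^ 2 ≤
      (Real.sqrt (3 * K) * δ * y ^ (-(7 / 2 + η))) ^ 2 := by
    rw [mul_pow, mul_pow, Real.sq_sqrt (by positivity), hyy]
    calc (∫ u in (-2 * δ)..(-δ), g (d * u)) ^ 2 ≤ δ * ∫ u in (-2 * δ)..(-δ), g (d * u) ^ 2 := hcs
      _ ≤ δ * (3 * δ * K * y ^ (-(7 + 2 * η))) := by gcongr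
      _ = 3 * K * δ ^ 2 * y ^ (-(7 + 2 * η)) := by ring
  exact (pow_le_pow_iff_left₀ hS0 (by positivity) two_ne_zero).1 hfin

end Pool.Agent.H11.SC
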