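import Mathlib
import Pool.Agent.H11.SC5.Defs5
import Pool.Agent.H11.SC5.Kbd
import Pool.Agent.H11.SC.PInt

/-!
# SMALL: the terms with `2δd ≤ 1`

`w = pw δ u`, `w' = -1/(qw)`.  `z = d w`: `Re z = du < 0`, `Im z = dδ² ≤ δ/2 ≤ 1`,
`‖z‖ ≤ 2.1 dδ ≤ 2` (`pw_norm`), `-1/(q z) = w'/d`, `JJ q (d w) = (d^7)⁻¹ JJ q w` (`JJ_scale`).  `h.bound`,
left part: `‖ff a (d w) - ωm (d^7)⁻¹ JJ q w ff (cj a) (w'/d)‖ ≤ C (dδ²)^(-13/4)`.  Multiply by
`(JJ q w)⁻¹ d³ KK`: (`JJ_inv`, `KK_bound`; `JJ_ne`)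
`‖(JJ q w)⁻¹ d³ ff a (d w) KK - ωm (d^4)⁻¹ ff (cj a) (w'/d) KK‖
 ≤ K1 δ^7 d³ (dδ²)^(-13/4) δ^(-2) = K1 d^(-1/4) δ^(-3/2)`.
Integrate over an interval of length `δ`.
Continuity (for the integrals): `ff` is continuous on the upper half plane; `integral_sub` needs
integrability of both parts.  `ff_cont` below is for general use.  It follows from uniform
convergence on `Im z ≥ y0` (`‖a n‖ n³ e^(-2πn y0)` summable; `continuousOn_tsum`).
-/

set_option autoImplicit false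

namespace Pool.Agent.H11.SC

open Complex

theorem ff_cont (a : ℕ → ℂ) (ha : ∃ C : ℝ, ∀ n : ℕ, 1 ≤ n → ‖a n‖ ≤ C * (n : ℝ) ^ (1 : ℝ)) :
    ContinuousOn (ff a) {z : ℂ | 0 < z.im} := by
  have h1 := (gs_diff a ha 3 (by norm_num)).continuousOn
  have h2 : ContinuousOn (fun z : ℂ => -(I * z)) {z : ℂ | 0 < z.im} := by fun_prop
  exact h1.comp h2 (fun z hz => by
    have h3 : 0 < z.im := hz
    simpa using h3)

theorem small_pw_cont (δ : ℝ) : Continuous (fun u : ℝ => pw δ u) := by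
  unfold pw
  fun_prop

theorem small_pw_ne (δ u : ℝ) (h0 : 0 < δ) : pw δ u ≠ 0 := by
  intro h
  have h1 := pw_im δ u
  rw [h, zero_im] at h1
  have h2 : 0 < δ ^ 2 := by positivity
  linarith

theorem small_term {q : ℝ} {a : ℕ → ℂ} {ωm ωp : ℂ} (hq : 0 < q) (h : CStep q a ωm ωp)
    (ha : ∃ C : ℝ, ∀ n : ℕ, 1 ≤ n → ‖a n‖ ≤ C * (n : ℝ) ^ (1 : ℝ)) (ν : ℝ) (hν : 0 ≤ ν) :
    ∃ K : ℝ, 0 ≤ K ∧ ∀ δ : ℝ, 0 < δ → δ ≤ 1 / 10 → ∀ d : ℕ, 1 ≤ d → 2 * δ * d ≤ 1 →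
    ‖(∫ u in (-2 * δ)..(-δ), (JJ q (pw δ u))⁻¹ * ((d : ℂ) ^ 3 * ff a (d * pw δ u)) *
        KK q ν δ u) -
      ωm * ((d : ℂ) ^ 4)⁻¹ *
        ∫ u in (-2 * δ)..(-δ), ff (cj a) (-1 / (q * pw δ u) / d) * KK q ν δ u‖ ≤
      K * (d : ℝ) ^ (-(1 / 4) : ℝ) * δ ^ (-(1 / 2) : ℝ) := by
  obtain ⟨C, hC⟩ := h.bound
  have hq' := Real.sqrt_nonneg q
  have hqc : (q : ℂ) ≠ 0 := by exact_mod_cast hq.ne'
  refine ⟨(Real.sqrt q * (21 / 10)) ^ 7 * (Real.exp (2 * Real.pi * ν / q) / q) * |C|,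
    by positivity, fun δ h0 h1 d hd hdδ => ?_⟩
  have hd0 : (0 : ℝ) < d := by exact_mod_cast hd
  have hdc : (d : ℂ) ≠ 0 := by exact_mod_cast hd0.ne'
  -- continuity
  have cpw := small_pw_cont δ
  have cJ : Continuous (fun u : ℝ => (JJ q (pw δ u))⁻¹) := by
    unfold JJ
    simp only [inv_inv]
    fun_prop
  have cK := KK_cont q ν δ hq h0
  have him : ∀ u : ℝ, 0 < (pw δ u).im := fun u => by rw [pw_im]; positivity
  have cF : Continuous (fun u : ℝ => ff a (d * pw δ u)) := by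
    rw [← continuousOn_univ]
    refine (ff_cont a ha).comp (f := fun u : ℝ => (d : ℂ) * pw δ u) (by fun_prop) (fun u _ => ?_)
    change 0 < ((d : ℂ) * pw δ u).im
    rw [← ofReal_natCast, im_ofReal_mul]
    exact mul_pos hd0 (him u)
  have cG : Continuous (fun u : ℝ => ff (cj a) (-1 / (q * pw δ u) / d)) := by
    rw [← continuousOn_univ]
    refine (ff_cont (cj a) (cj_ram a 1 ha)).comp (f := fun u : ℝ => -1 / ((q : ℂ) * pw δ u) / d)
      ?_ (fun u _ => ?_)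
    · rw [continuousOn_univ]
      refine Continuous.div_const ?_ _
      refine Continuous.div continuous_const (by fun_prop) (fun u => ?_)
      exact mul_ne_zero hqc (small_pw_ne δ u h0)
    · change 0 < (-1 / ((q : ℂ) * pw δ u) / d).im
      have e : -1 / ((q : ℂ) * pw δ u) / d = ((1 / (q * d) : ℝ) : ℂ) * (-1 / pw δ u) := by
        have := small_pw_ne δ u h0
        push_cast
        field_simp
      rw [e, im_ofReal_mul]
      refine mul_pos (by positivity) ?_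
      rw [Complex.div_im]
      have h3 : 0 < normSq (pw δ u) := Complex.normSq_pos.2 (small_pw_ne δ u h0)
      have h4 := him u
      simp only [neg_im, one_im, neg_zero, zero_mul, zero_div, neg_re, one_re, zero_sub]
      rw [neg_mul, one_mul, neg_div, neg_neg]
      exact div_pos h4 h3
  have i1 : Continuous (fun u : ℝ => (JJ q (pw δ u))⁻¹ * ((d : ℂ) ^ 3 * ff a (d * pw δ u)) *
      KK q ν δ u) := (cJ.mul (continuous_const.mul cF)).mul cK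
  have i2 : Continuous (fun u : ℝ => ωm * ((d : ℂ) ^ 4)⁻¹ *
      (ff (cj a) (-1 / (q * pw δ u) / d) * KK q ν δ u)) := continuous_const.mul (cG.mul cK)
  rw [← intervalIntegral.integral_const_mul, ← intervalIntegral.integral_sub
    (i1.intervalIntegrable _ _) (i2.intervalIntegrable _ _)]
  have key : ∀ u ∈ Set.uIoc (-2 * δ) (-δ),
      ‖(JJ q (pw δ u))⁻¹ * ((d : ℂ) ^ 3 * ff a (d * pw δ u)) * KK q ν δ u -
        ωm * ((d : ℂ) ^ 4)⁻¹ * (ff (cj a) (-1 / (q * pw δ u) / d) * KK q ν δ u)‖ ≤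
      ((Real.sqrt q * (21 / 10)) ^ 7 * (Real.exp (2 * Real.pi * ν / q) / q) * |C|) *
        (d : ℝ) ^ (-(1 / 4) : ℝ) * δ ^ (-(3 / 2) : ℝ) := by
    intro u hu
    rw [Set.uIoc_of_le (by linarith)] at hu
    have hu' : u ∈ Set.Icc (-2 * δ) (-δ) := ⟨hu.1.le, hu.2⟩
    have hn := pw_norm δ u h0 h1 hu'
    have hne := small_pw_ne δ u h0
    have hJne := JJ_ne q hq _ hne
    have b1 := JJ_inv q δ u h0 h1 hu'
    have b2 := KK_bound q ν δ u hq hν h0 h1 hu'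
    have zim : ((d : ℂ) * pw δ u).im = d * δ ^ 2 := by
      rw [← ofReal_natCast, im_ofReal_mul, pw_im]
    have zre : ((d : ℂ) * pw δ u).re = d * u := by
      rw [← ofReal_natCast, re_ofReal_mul, pw_re]
    have zn : ‖(d : ℂ) * pw δ u‖ ≤ 2 := by
      rw [norm_mul, Complex.norm_natCast]
      have : (d : ℝ) * ‖pw δ u‖ ≤ d * (21 / 10 * δ) := mul_le_mul_of_nonneg_left hn.2 hd0.le
      nlinarith
    have b3 := (hC ((d : ℂ) * pw δ u) (by rw [zim]; positivity) (by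
      rw [zim]
      nlinarith) zn (by
      have h5 : d * δ ≤ ‖(d : ℂ) * pw δ u‖ := by
        rw [norm_mul, Complex.norm_natCast]
        exact mul_le_mul_of_nonneg_left hn.1 hd0.le
      have h6 : (d * δ) ^ 2 ≤ ‖(d : ℂ) * pw δ u‖ ^ 2 :=
        pow_le_pow_left₀ (by positivity) h5 2
      have h7 : (1 : ℝ) ≤ d := by exact_mod_cast hd
      have h8 : (d : ℝ) * δ ^ 2 ≤ (d * δ) ^ 2 := by
        have : 0 ≤ δ ^ 2 := by positivity
        nlinarith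
      rw [zim]
      nlinarith [sq_nonneg ‖(d : ℂ) * pw δ u‖])).1 (by
      rw [zre]
      have : u ≤ 0 := by linarith [hu.2]
      exact mul_nonpos_of_nonneg_of_nonpos hd0.le this)
    have e1 : -1 / ((q : ℂ) * ((d : ℂ) * pw δ u)) = -1 / (q * pw δ u) / d := by
      field_simp
    rw [e1, JJ_scale, zim] at b3
    have e2 : (JJ q (pw δ u))⁻¹ * ((d : ℂ) ^ 3 * ff a (d * pw δ u)) * KK q ν δ u -
        ωm * ((d : ℂ) ^ 4)⁻¹ * (ff (cj a) (-1 / (q * pw δ u) / d) * KK q ν δ u) =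
        (JJ q (pw δ u))⁻¹ * (d : ℂ) ^ 3 * KK q ν δ u *
          (ff a (d * pw δ u) - ωm * (((d : ℂ) ^ 7)⁻¹ * JJ q (pw δ u)) *
            ff (cj a) (-1 / (q * pw δ u) / d)) := by
      field_simp
    rw [e2, norm_mul, norm_mul, norm_mul, norm_pow, Complex.norm_natCast]
    have b3' := b3.trans (mul_le_mul_of_nonneg_right (le_abs_self C)
      (Real.rpow_nonneg (by positivity : (0:ℝ) ≤ d * δ ^ 2) (-(13 / 4) : ℝ)))
    calc ‖(JJ q (pw δ u))⁻¹‖ * (d : ℝ) ^ 3 * ‖KK q ν δ u‖ *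
          ‖ff a (d * pw δ u) - ωm * (((d : ℂ) ^ 7)⁻¹ * JJ q (pw δ u)) *
            ff (cj a) (-1 / (q * pw δ u) / d)‖
        ≤ ((Real.sqrt q * (21 / 10)) ^ 7 * δ ^ 7) * (d : ℝ) ^ 3 *
            (Real.exp (2 * Real.pi * ν / q) / (q * δ ^ 2)) *
            (|C| * ((d : ℝ) * δ ^ 2) ^ (-(13 / 4) : ℝ)) := by
          gcongr
      _ = _ := by
          rw [Real.mul_rpow hd0.le (by positivity), ← Real.rpow_natCast δ 2, ← Real.rpow_mul h0.le,
            ← Real.rpow_natCast (d : ℝ) 3, ← Real.rpow_natCast δ 7]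
          have f1 : (d : ℝ) ^ ((3 : ℕ) : ℝ) * (d : ℝ) ^ (-(13 / 4) : ℝ) =
              (d : ℝ) ^ (-(1 / 4) : ℝ) := by
            rw [← Real.rpow_add hd0]; norm_num
          have f2 : δ ^ ((7 : ℕ) : ℝ) * δ ^ (((2 : ℕ) : ℝ) * (-(13 / 4) : ℝ)) =
              δ ^ (-(3 / 2) : ℝ) * δ ^ ((2 : ℕ) : ℝ) := by
            rw [← Real.rpow_add h0, ← Real.rpow_add h0]; norm_num
          have f3 : δ ^ ((2 : ℕ) : ℝ) ≠ 0 := (Real.rpow_pos_of_pos h0 _).ne'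
          have e3 : (Real.sqrt q * (21 / 10)) ^ 7 * δ ^ ((7 : ℕ) : ℝ) * (d : ℝ) ^ ((3 : ℕ) : ℝ) *
              (Real.exp (2 * Real.pi * ν / q) / (q * δ ^ ((2 : ℕ) : ℝ))) *
              (|C| * ((d : ℝ) ^ (-(13 / 4) : ℝ) * δ ^ (((2 : ℕ) : ℝ) * (-(13 / 4) : ℝ)))) =
              (Real.sqrt q * (21 / 10)) ^ 7 * (Real.exp (2 * Real.pi * ν / q) / q) * |C| *
              ((d : ℝ) ^ ((3 : ℕ) : ℝ) * (d : ℝ) ^ (-(13 / 4) : ℝ)) *
              ((δ ^ ((7 : ℕ) : ℝ) * δ ^ (((2 : ℕ) : ℝ) * (-(13 / 4) : ℝ))) /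
                δ ^ ((2 : ℕ) : ℝ)) := by
            field_simp
          rw [e3, f1, f2, mul_div_cancel_right₀ _ f3]
  refine (intervalIntegral.norm_integral_le_of_norm_le_const key).trans (le_of_eq ?_)
  have e4 : |-δ - -2 * δ| = δ := by
    rw [show -δ - -2 * δ = δ by ring, abs_of_pos h0]
  rw [e4, mul_assoc _ (δ ^ (-(3 / 2) : ℝ)) δ]
  congr 1
  nth_rewrite 2 [← Real.rpow_one δ]
  rw [← Real.rpow_add h0]
  norm_num

end Pool.Agent.H11.SC
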