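import Mathlib
import Pool.Agent.H11.SC5.Defs5
import Pool.Agent.H11.SC5.Kbd
import Pool.Agent.H11.SC5.Mean
import Pool.Agent.H11.SC5.Small

/-!
# LARGE: the terms with `2δd ≥ 1`

`JJ_inv`, `KK_bound` and `mean_bound`:
`∫ ‖(JJ q w)⁻¹ d³ ff a (d w) KK‖ du ≤ K1 δ^7 d³ δ^(-2) ∫ ‖ff a (d w)‖ du
 ≤ K2 d³ δ^5 δ (dδ²)^(-(7/2+η)) = K2 d^(-(1/2+η)) δ^(-(1+2η))`.
(Integrability: the functions are continuous on the compact interval, `ff_cont` in Small.lean or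
directly; for the monotonicity of the integral one needs it.)
-/

set_option autoImplicit false

namespace Pool.Agent.H11.SC

open Complex

theorem large_term (q : ℝ) (hq : 0 < q) (a : ℕ → ℂ) (ham : ∀ ε : ℝ, 0 < ε → ∃ C : ℝ, ∀ n : ℕ,
    1 ≤ n → ‖a n‖ ≤ C * (n : ℝ) ^ ε) (ν : ℝ) (hν : 0 ≤ ν) (η : ℝ) (hη : 0 < η) (hη1 : η ≤ 1) :
    ∃ K : ℝ, 0 ≤ K ∧ ∀ δ : ℝ, 0 < δ → δ ≤ 1 / 10 → ∀ d : ℕ, 1 ≤ 2 * δ * d →
    ∫ u in (-2 * δ)..(-δ), ‖(JJ q (pw δ u))⁻¹ * ((d : ℂ) ^ 3 * ff a (d * pw δ u)) *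
        KK q ν δ u‖ ≤
      K * (d : ℝ) ^ (-(1 / 2 + η)) * δ ^ (-(1 + 2 * η)) := by
  obtain ⟨Km, hKm0, hKm⟩ := mean_bound a ham η hη hη1
  set A : ℝ := (Real.sqrt q * (21 / 10)) ^ 7 with hA
  set B : ℝ := Real.exp (2 * Real.pi * ν / q) / q with hB
  have hA0 : 0 ≤ A := by positivity
  have hB0 : 0 ≤ B := by positivity
  refine ⟨A * B * Km, by positivity, ?_⟩
  intro δ h0 h1 d hd
  have hd0 : 0 < d := by
    rcases Nat.eq_zero_or_pos d with h | h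
    · exfalso
      rw [h] at hd
      simp at hd
      linarith
    · exact h
  have hdR : (0 : ℝ) < (d : ℝ) := by exact_mod_cast hd0
  have ha : ∃ C : ℝ, ∀ n : ℕ, 1 ≤ n → ‖a n‖ ≤ C * (n : ℝ) ^ (1 : ℝ) := ham 1 one_pos
  have hpwc : Continuous (fun u : ℝ => pw δ u) := by
    unfold pw
    fun_prop
  have hcont : Continuous (fun u : ℝ => ff a (d * pw δ u)) := by
    apply ContinuousOn.comp_continuous (ff_cont a ha)
    · exact continuous_const.mul hpwc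
    · intro u
      change 0 < ((d : ℂ) * pw δ u).im
      have : ((d : ℂ) * pw δ u).im = d * δ ^ 2 := by
        rw [← pw_im δ u]
        simp
      rw [this]
      positivity
  have hle : -2 * δ ≤ -δ := by linarith
  have hJc : Continuous (fun u : ℝ => (JJ q (pw δ u))⁻¹) := by
    have : (fun u : ℝ => (JJ q (pw δ u))⁻¹) =
        fun u : ℝ => (((Real.sqrt q : ℝ) : ℂ) * (-(I * pw δ u))) ^ 7 := by
      funext u
      unfold JJ
      rw [inv_inv]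
    rw [this]
    exact (continuous_const.mul ((continuous_const.mul hpwc).neg)).pow 7
  have hf1 : IntervalIntegrable (fun u : ℝ => ‖(JJ q (pw δ u))⁻¹ * ((d : ℂ) ^ 3 *
      ff a (d * pw δ u)) * KK q ν δ u‖) MeasureTheory.volume (-2 * δ) (-δ) := by
    apply Continuous.intervalIntegrable
    exact ((hJc.mul (continuous_const.mul hcont)).mul (KK_cont q ν δ hq h0)).norm
  have hf2 : IntervalIntegrable (fun u : ℝ => (A * δ ^ 7 * (d : ℝ) ^ 3 * (B / δ ^ 2)) *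
      ‖ff a (d * pw δ u)‖) MeasureTheory.volume (-2 * δ) (-δ) := by
    apply Continuous.intervalIntegrable
    exact continuous_const.mul hcont.norm
  have hstep : ∫ u in (-2 * δ)..(-δ), ‖(JJ q (pw δ u))⁻¹ * ((d : ℂ) ^ 3 * ff a (d * pw δ u)) *
        KK q ν δ u‖ ≤ ∫ u in (-2 * δ)..(-δ), (A * δ ^ 7 * (d : ℝ) ^ 3 * (B / δ ^ 2)) *
      ‖ff a (d * pw δ u)‖ := by
    apply intervalIntegral.integral_mono_on hle hf1 hf2
    intro u hu
    rw [norm_mul, norm_mul, norm_mul, norm_pow, Complex.norm_natCast]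
    have e1 := JJ_inv q δ u h0 h1 hu
    have e2 := KK_bound q ν δ u hq hν h0 h1 hu
    have e3 : Real.exp (2 * Real.pi * ν / q) / (q * δ ^ 2) = B / δ ^ 2 := by
      rw [hB, div_div]
    rw [e3] at e2
    calc ‖(JJ q (pw δ u))⁻¹‖ * ((d : ℝ) ^ 3 * ‖ff a (d * pw δ u)‖) * ‖KK q ν δ u‖
        ≤ (A * δ ^ 7) * ((d : ℝ) ^ 3 * ‖ff a (d * pw δ u)‖) * (B / δ ^ 2) := by
          apply mul_le_mul _ e2 (norm_nonneg _) (by positivity)
          exact mul_le_mul_of_nonneg_right e1 (by positivity)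
      _ = _ := by ring
  refine hstep.trans ?_
  rw [intervalIntegral.integral_const_mul]
  have hm := hKm δ h0 h1 d hd
  calc (A * δ ^ 7 * (d : ℝ) ^ 3 * (B / δ ^ 2)) * ∫ u in (-2 * δ)..(-δ), ‖ff a (d * pw δ u)‖
      ≤ (A * δ ^ 7 * (d : ℝ) ^ 3 * (B / δ ^ 2)) *
        (Km * δ * (d * δ ^ 2) ^ (-(7 / 2 + η))) :=
        mul_le_mul_of_nonneg_left hm (by positivity)
    _ = (A * B * Km) * ((d : ℝ) ^ (3 : ℝ) * (d : ℝ) ^ (-(7 / 2 + η))) *
        (δ ^ (6 : ℝ) * (δ ^ (2 : ℝ)) ^ (-(7 / 2 + η))) := by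
        have g1 : (d : ℝ) ^ (3 : ℝ) = (d : ℝ) ^ 3 := by norm_cast
        have g2 : δ ^ (6 : ℝ) = δ ^ 6 := by norm_cast
        have g3 : δ ^ (2 : ℝ) = δ ^ 2 := by norm_cast
        rw [g1, g2, g3, Real.mul_rpow hdR.le (by positivity)]
        field_simp
    _ = A * B * Km * (d : ℝ) ^ (-(1 / 2 + η)) * δ ^ (-(1 + 2 * η)) := by
        rw [← Real.rpow_add hdR, ← Real.rpow_mul h0.le, ← Real.rpow_add h0]
        congr 2
        · congr 1
          ring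
        · ring

end Pool.Agent.H11.SC
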