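import Mathlib
import Pool.Agent.H11.SC5.Defs5
import Pool.Agent.H11.SC5.Kbd
import Pool.Agent.H11.SC5.Four
import Pool.Agent.H11.SC5.Small
import Pool.Agent.H11.SC5.Large

/-!
# TERM: comparison of one term with its limit

`ν = m/N`, `Tt q a ν δ d = ∫ (JJ q w)⁻¹ d³ ff a (d w) KK du`,
`Sp a m N d = (1/d) conj(a (md/N))` if `N ∣ md`, else `0`.
`term_small` (`2δd ≤ 1`): `small_term` and `four` with `b = cj a`, `θ = 0`: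
`‖Tt - ωm (d^4)⁻¹ (coef · Ld)‖ ≤ K d^(-1/4) δ^(-1/2) + (d^4)⁻¹ K d^(9/2+η)`, and
`(d^4)⁻¹ coef = (d^4)⁻¹ conj(a(md/N)) (md/N)³ = ν³ Sp` (`(md/N : ℕ) = νd` if `N ∣ md`; `ee 0 = 1`).
`term_large` (`2δd ≥ 1`): `‖Tt‖ ≤ K d^(-(1/2+η)) δ^(-(1+2η))` from `large_term`
(`‖∫ f‖ ≤ ∫ ‖f‖`), `‖Sp‖ ≤ (1/d) C (νd)^η ≤ K d^(η-1)` and `Ld_bounds`.
-/

set_option autoImplicit false

namespace Pool.Agent.H11.SC

open Complex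

/-- the integral of one term -/
noncomputable def Tt (q : ℝ) (a : ℕ → ℂ) (ν δ : ℝ) (d : ℕ) : ℂ :=
  ∫ u in (-2 * δ)..(-δ), (JJ q (pw δ u))⁻¹ * ((d : ℂ) ^ 3 * ff a (d * pw δ u)) * KK q ν δ u

/-- the coefficient -/
noncomputable def Sp (a : ℕ → ℂ) (m N d : ℕ) : ℂ :=
  if N ∣ m * d then cj a (m * d / N) / d else 0

theorem Sp_bound (a : ℕ → ℂ) (ham : ∀ ε : ℝ, 0 < ε → ∃ C : ℝ, ∀ n : ℕ, 1 ≤ n →
    ‖a n‖ ≤ C * (n : ℝ) ^ ε) (m N : ℕ) (hm : 1 ≤ m) (hN : 1 ≤ N) (η : ℝ) (hη : 0 < η) :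
    ∃ K : ℝ, 0 ≤ K ∧ ∀ d : ℕ, 1 ≤ d → ‖Sp a m N d‖ ≤ K * (d : ℝ) ^ (-(1 - η)) := by
  obtain ⟨C, hC⟩ := cj_ram a η (ham η hη)
  have hC0 : 0 ≤ C := by
    have := hC 1 le_rfl
    simp only [Nat.cast_one, Real.one_rpow, mul_one] at this
    exact (norm_nonneg _).trans this
  refine ⟨C * (m : ℝ) ^ η, by positivity, fun d hd => ?_⟩
  have hd0 : (0 : ℝ) < d := by exact_mod_cast hd
  unfold Sp
  split_ifs with h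
  · obtain ⟨k, hk⟩ := h
    have hN0 : 0 < N := hN
    have hq : m * d / N = k := by rw [hk, Nat.mul_div_cancel_left _ hN0]
    have hk1 : 1 ≤ k := by
      rcases Nat.eq_zero_or_pos k with h0 | h0
      · exfalso
        rw [h0, mul_zero] at hk
        have : 0 < m * d := Nat.mul_pos hm hd
        omega
      · exact h0
    have hkle : k ≤ m * d := by
      rw [hk]
      exact Nat.le_mul_of_pos_left k hN0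
    rw [hq, norm_div, Complex.norm_natCast]
    have h1 := hC k hk1
    have h2 : (k : ℝ) ^ η ≤ (m : ℝ) ^ η * (d : ℝ) ^ η := by
      rw [← Real.mul_rpow (by positivity) (by positivity)]
      refine Real.rpow_le_rpow (by positivity) ?_ hη.le
      exact_mod_cast hkle
    have h3 : (d : ℝ) ^ (-(1 - η)) = (d : ℝ) ^ η / d := by
      rw [show -(1 - η) = η - 1 by ring, Real.rpow_sub hd0, Real.rpow_one]
    rw [h3, div_le_iff₀ hd0]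
    calc ‖cj a k‖ ≤ C * (k : ℝ) ^ η := h1
      _ ≤ C * ((m : ℝ) ^ η * (d : ℝ) ^ η) := mul_le_mul_of_nonneg_left h2 hC0
      _ = C * (m : ℝ) ^ η * ((d : ℝ) ^ η / d) * d := by
        field_simp
  · rw [norm_zero]
    positivity

theorem ee_zero : ee 0 = 1 := by
  unfold ee
  simp

theorem term_small {q : ℝ} {a : ℕ → ℂ} {ωm ωp : ℂ} (hq : 0 < q) (h : CStep q a ωm ωp)
    (ham : ∀ ε : ℝ, 0 < ε → ∃ C : ℝ, ∀ n : ℕ, 1 ≤ n → ‖a n‖ ≤ C * (n : ℝ) ^ ε)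
    (m N : ℕ) (hm : 1 ≤ m) (hN : 1 ≤ N) (η : ℝ) (hη : 0 < η) (hη1 : η ≤ 1) :
    ∃ K : ℝ, 0 ≤ K ∧ ∀ δ : ℝ, 0 < δ → δ ≤ 1 / 10 → ∀ d : ℕ, 1 ≤ d → 2 * δ * d ≤ 1 →
    ‖Tt q a ((m : ℝ) / N) δ d - ωm * ((m : ℂ) / N) ^ 3 * Sp a m N d * Ld q δ‖ ≤
      K * ((d : ℝ) ^ (-(1 / 4) : ℝ) * δ ^ (-(1 / 2) : ℝ) + (d : ℝ) ^ (1 / 2 + η)) := by
  obtain ⟨C0, hC0⟩ := cj_ram a η (ham η hη)
  obtain ⟨K1, hK1, h1⟩ := small_term hq h (ham 1 one_pos) ((m : ℝ) / N) (by positivity)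
  obtain ⟨K2, hK2, h2⟩ := four (cj a) η C0 hη hη1 hC0 q hq m N hm hN 0
  refine ⟨K1 + K2, by positivity, fun δ hδ hδ1 d hd hdδ => ?_⟩
  have hd0 : (0 : ℝ) < d := by exact_mod_cast hd
  have hdC : (d : ℂ) ≠ 0 := by exact_mod_cast (by omega : d ≠ 0)
  have hNC : (N : ℂ) ≠ 0 := by exact_mod_cast (by omega : N ≠ 0)
  have e1 := h1 δ hδ hδ1 d hd hdδ
  have e2 := h2 δ hδ hδ1 d hd
  simp only [Complex.ofReal_zero, add_zero, mul_zero, ee_zero, mul_one] at e2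
  set J : ℂ := ∫ u in (-2 * δ)..(-δ), ff (cj a) (-1 / (q * pw δ u) / d) *
    KK q ((m : ℝ) / N) δ u with hJ
  set cf : ℂ := if N ∣ m * d then cj a (m * d / N) * ((m * d / N : ℕ) : ℂ) ^ 3 else 0 with hcf
  have e3 : ωm * ((m : ℂ) / N) ^ 3 * Sp a m N d * Ld q δ =
      ωm * ((d : ℂ) ^ 4)⁻¹ * (cf * Ld q δ) := by
    have e4 : ((m : ℂ) / N) ^ 3 * Sp a m N d = ((d : ℂ) ^ 4)⁻¹ * cf := by
      rw [hcf]
      unfold Sp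
      split_ifs with hdiv
      · obtain ⟨k, hk⟩ := hdiv
        have hq' : m * d / N = k := by rw [hk, Nat.mul_div_cancel_left _ (by omega)]
        rw [hq']
        have hk' : (m : ℂ) * d = N * k := by exact_mod_cast hk
        have hk3 : (m : ℂ) / N = k / d := by
          rw [div_eq_div_iff hNC hdC, hk']
          ring
        rw [hk3]
        field_simp
      · simp
    linear_combination ωm * Ld q δ * e4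
  rw [e3]
  have e5 : Tt q a ((m : ℝ) / N) δ d - ωm * ((d : ℂ) ^ 4)⁻¹ * (cf * Ld q δ) =
      (Tt q a ((m : ℝ) / N) δ d - ωm * ((d : ℂ) ^ 4)⁻¹ * J) +
        ωm * ((d : ℂ) ^ 4)⁻¹ * (J - cf * Ld q δ) := by ring
  rw [e5]
  have e6 : ‖ωm * ((d : ℂ) ^ 4)⁻¹ * (J - cf * Ld q δ)‖ ≤ K2 * (d : ℝ) ^ (1 / 2 + η) := by
    rw [norm_mul, norm_mul, h.hm, one_mul, norm_inv, norm_pow, Complex.norm_natCast]
    calc ((d : ℝ) ^ 4)⁻¹ * ‖J - cf * Ld q δ‖ ≤ ((d : ℝ) ^ 4)⁻¹ * (K2 * (d : ℝ) ^ (9 / 2 + η)) :=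
        mul_le_mul_of_nonneg_left e2 (by positivity)
      _ = K2 * (d : ℝ) ^ (1 / 2 + η) := by
        have e7 : (d : ℝ) ^ (9 / 2 + η) = (d : ℝ) ^ 4 * (d : ℝ) ^ (1 / 2 + η) := by
          rw [show (9 / 2 + η : ℝ) = (4 : ℕ) + (1 / 2 + η) by push_cast; ring,
            Real.rpow_add hd0, Real.rpow_natCast]
        rw [e7]
        field_simp
  have p1 : 0 ≤ (d : ℝ) ^ (-(1 / 4) : ℝ) * δ ^ (-(1 / 2) : ℝ) := by positivity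
  have p2 : 0 ≤ (d : ℝ) ^ (1 / 2 + η) := by positivity
  calc ‖(Tt q a ((m : ℝ) / N) δ d - ωm * ((d : ℂ) ^ 4)⁻¹ * J) +
        ωm * ((d : ℂ) ^ 4)⁻¹ * (J - cf * Ld q δ)‖
      ≤ K1 * (d : ℝ) ^ (-(1 / 4) : ℝ) * δ ^ (-(1 / 2) : ℝ) + K2 * (d : ℝ) ^ (1 / 2 + η) :=
        (norm_add_le _ _).trans (add_le_add e1 e6)
    _ ≤ (K1 + K2) * ((d : ℝ) ^ (-(1 / 4) : ℝ) * δ ^ (-(1 / 2) : ℝ) + (d : ℝ) ^ (1 / 2 + η)) := by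
        nlinarith [mul_nonneg hK1 p2, mul_nonneg hK2 p1]

theorem term_large {q : ℝ} {a : ℕ → ℂ} (hq : 0 < q)
    (ham : ∀ ε : ℝ, 0 < ε → ∃ C : ℝ, ∀ n : ℕ, 1 ≤ n → ‖a n‖ ≤ C * (n : ℝ) ^ ε)
    (ωm : ℂ) (hωm : ‖ωm‖ = 1)
    (m N : ℕ) (hm : 1 ≤ m) (hN : 1 ≤ N) (η : ℝ) (hη : 0 < η) (hη1 : η ≤ 1) :
    ∃ K : ℝ, 0 ≤ K ∧ ∀ δ : ℝ, 0 < δ → δ ≤ 1 / 10 → ∀ d : ℕ, 1 ≤ 2 * δ * d →
    ‖Tt q a ((m : ℝ) / N) δ d - ωm * ((m : ℂ) / N) ^ 3 * Sp a m N d * Ld q δ‖ ≤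
      K * ((d : ℝ) ^ (-(1 / 2 + η)) * δ ^ (-(1 + 2 * η)) + (d : ℝ) ^ (-(1 - η)) * δ⁻¹) := by
  obtain ⟨K1, hK1, h1⟩ := large_term q hq a ham ((m : ℝ) / N) (by positivity) η hη hη1
  obtain ⟨K2, hK2, h2⟩ := Sp_bound a ham m N hm hN η hη
  refine ⟨K1 + ((m : ℝ) / N) ^ 3 * K2 / q, by positivity, fun δ hδ hδ1 d hdδ => ?_⟩
  have hd : 1 ≤ d := by
    rcases Nat.eq_zero_or_pos d with h0 | h0
    · exfalso
      rw [h0] at hdδ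
      norm_num at hdδ
    · exact h0
  have hd0 : (0 : ℝ) < d := by exact_mod_cast hd
  have e1 : ‖Tt q a ((m : ℝ) / N) δ d‖ ≤ K1 * (d : ℝ) ^ (-(1 / 2 + η)) * δ ^ (-(1 + 2 * η)) := by
    unfold Tt
    refine (intervalIntegral.norm_integral_le_integral_norm (by linarith)).trans ?_
    exact h1 δ hδ hδ1 d hdδ
  have e2 : ‖ωm * ((m : ℂ) / N) ^ 3 * Sp a m N d * Ld q δ‖ ≤
      ((m : ℝ) / N) ^ 3 * K2 / q * ((d : ℝ) ^ (-(1 - η)) * δ⁻¹) := by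
    rw [norm_mul, norm_mul, norm_mul, hωm, one_mul, norm_pow, norm_div, Complex.norm_natCast,
      Complex.norm_natCast]
    have e3 := h2 d hd
    have e4 := (Ld_bounds q δ hq hδ hδ1).2
    calc ((m : ℝ) / N) ^ 3 * ‖Sp a m N d‖ * ‖Ld q δ‖
        ≤ ((m : ℝ) / N) ^ 3 * (K2 * (d : ℝ) ^ (-(1 - η))) * (1 / (q * δ)) := by
          gcongr
      _ = ((m : ℝ) / N) ^ 3 * K2 / q * ((d : ℝ) ^ (-(1 - η)) * δ⁻¹) := by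
          field_simp
  have p1 : 0 ≤ (d : ℝ) ^ (-(1 / 2 + η)) * δ ^ (-(1 + 2 * η)) := by positivity
  have p2 : 0 ≤ (d : ℝ) ^ (-(1 - η)) * δ⁻¹ := by positivity
  have p3 : 0 ≤ ((m : ℝ) / N) ^ 3 * K2 / q := by positivity
  calc ‖Tt q a ((m : ℝ) / N) δ d - ωm * ((m : ℂ) / N) ^ 3 * Sp a m N d * Ld q δ‖
      ≤ K1 * (d : ℝ) ^ (-(1 / 2 + η)) * δ ^ (-(1 + 2 * η)) +
        ((m : ℝ) / N) ^ 3 * K2 / q * ((d : ℝ) ^ (-(1 - η)) * δ⁻¹) :=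
        (norm_sub_le _ _).trans (add_le_add e1 e2)
    _ ≤ (K1 + ((m : ℝ) / N) ^ 3 * K2 / q) *
        ((d : ℝ) ^ (-(1 / 2 + η)) * δ ^ (-(1 + 2 * η)) + (d : ℝ) ^ (-(1 - η)) * δ⁻¹) := by
        nlinarith [mul_nonneg hK1 p2, mul_nonneg p3 p1]

end Pool.Agent.H11.SC
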