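import Mathlib
import Pool.Agent.H11.SC5.Defs5
import Pool.Agent.H11.SC5.LLsum
import Pool.Agent.H11.SC5.SixC
import Pool.Agent.H11.SC5.Term

/-!
# TSUM: the sum of the differences is `O(δ^(κ-1))`

`σ` from `LL_sum`, `S = ∑ ‖LL p‖ (dd p)^(-σ)`, `η = (1/2 - σ)/2 ∈ (0, 1/4)`, `K` the maximum of the
constants of `term_small` and `term_large`, `X = 1/(2δ) ≥ 1`, `d = dd p ≥ 1`,
`e p = ‖Tt q a ν δ d - ωm ν³ Sp Ld‖`.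
If `2δd ≤ 1` (`d ≤ X`): `δ e p ≤ K (d^(-1/4) δ^(1/2) + d^(1/2+η) δ)`;
 `d^(-1/4) = d^(-σ) d^(σ-1/4) ≤ d^(-σ) X^(1/4)` (`σ - 1/4 ≤ 1/4`, `1 ≤ d ≤ X`), and
 `X^(1/4) δ^(1/2) ≤ δ^(1/4)`; `d^(1/2+η) = d^(-σ) d^(1/2+η+σ) ≤ d^(-σ) X^(1/2+η+σ)`, and
 `X^(1/2+η+σ) δ ≤ δ^(1/2-η-σ) = δ^η`.
If `2δd ≥ 1` (`d ≥ X`): `δ e p ≤ K (d^(-(1/2+η)) δ^(-2η) + d^(-(1-η)))`;
 `d^(-(1/2+η)) = d^(-σ) d^(-(1/2+η-σ)) ≤ d^(-σ) X^(-(1/2+η-σ))` and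
 `X^(-(1/2+η-σ)) δ^(-2η) = 2^(...) δ^(1/2+η-σ-2η) ≤ 2 δ^(1/2-σ-η) = 2 δ^η`;
 `d^(-(1-η)) ≤ d^(-σ) X^(-(1-η-σ)) ≤ 2 d^(-σ) δ^(1-η-σ) ≤ 2 d^(-σ) δ^η`.
In all cases `δ e p ≤ 4 K d^(-σ) δ^η` (`δ^(1/4) ≤ δ^η`), so `δ ∑ ‖LL p‖ e p ≤ 4 K S δ^η`.
Conclusion with `κ = η`.  The family `‖LL p‖ e p` is summable by the same bound (comparison).
-/

set_option autoImplicit false

namespace Pool.Agent.H11.SC

open Complex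

/-- real lemma, small `d` -/
private theorem tsum_real_small {σ η δ d : ℝ} (hσ : 0 < σ) (hσ2 : σ < 1 / 2)
    (hη : η = (1 / 2 - σ) / 2) (hδ : 0 < δ) (hd : 1 ≤ d) (h : δ * d ≤ 1) :
    δ * (d ^ (-(1 / 4) : ℝ) * δ ^ (-(1 / 2) : ℝ) + d ^ (1 / 2 + η)) ≤
      4 * (d ^ (-σ) * δ ^ η) := by
  have hd0 : 0 < d := by linarith
  obtain ⟨L, rfl⟩ : ∃ L, δ = Real.exp L := ⟨Real.log δ, (Real.exp_log hδ).symm⟩
  obtain ⟨D, rfl⟩ : ∃ D, d = Real.exp D := ⟨Real.log d, (Real.exp_log hd0).symm⟩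
  have hD : 0 ≤ D := by rwa [Real.one_le_exp_iff] at hd
  have hLD : L + D ≤ 0 := by rwa [← Real.exp_add, Real.exp_le_one_iff] at h
  simp only [← Real.exp_mul]
  rw [mul_add, ← Real.exp_add, ← Real.exp_add, ← Real.exp_add, ← Real.exp_add]
  have e1 : Real.exp (L + (D * -(1 / 4) + L * -(1 / 2))) ≤ Real.exp (D * -σ + L * η) := by
    apply Real.exp_le_exp.2
    subst hη
    nlinarith
  have e2 : Real.exp (L + D * (1 / 2 + η)) ≤ Real.exp (D * -σ + L * η) := by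
    apply Real.exp_le_exp.2
    subst hη
    nlinarith
  have := Real.exp_pos (D * -σ + L * η)
  linarith

/-- real lemma, large `d` -/
private theorem tsum_real_large {σ η δ d : ℝ} (hσ : 0 < σ) (hσ2 : σ < 1 / 2)
    (hη : η = (1 / 2 - σ) / 2) (hδ : 0 < δ) (hδ1 : δ ≤ 1) (hd0 : 0 < d) (h : 1 ≤ 2 * δ * d) :
    δ * (d ^ (-(1 / 2 + η)) * δ ^ (-(1 + 2 * η)) + d ^ (-(1 - η)) * δ⁻¹) ≤
      4 * (d ^ (-σ) * δ ^ η) := by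
  obtain ⟨L, rfl⟩ : ∃ L, δ = Real.exp L := ⟨Real.log δ, (Real.exp_log hδ).symm⟩
  obtain ⟨D, rfl⟩ : ∃ D, d = Real.exp D := ⟨Real.log d, (Real.exp_log hd0).symm⟩
  obtain ⟨M, hM⟩ : ∃ M, (2 : ℝ) = Real.exp M := ⟨Real.log 2, (Real.exp_log two_pos).symm⟩
  have hM0 : 0 ≤ M := by
    have : (1 : ℝ) ≤ Real.exp M := by rw [← hM]; norm_num
    rwa [Real.one_le_exp_iff] at this
  have hL : L ≤ 0 := by rwa [Real.exp_le_one_iff] at hδ1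
  have hLD : 0 ≤ M + L + D := by
    rw [hM, ← Real.exp_add, ← Real.exp_add, Real.one_le_exp_iff] at h
    exact h
  simp only [← Real.exp_mul]
  rw [mul_add, ← Real.exp_neg, ← Real.exp_add, ← Real.exp_add, ← Real.exp_add, ← Real.exp_add,
    ← Real.exp_add]
  have e1 : Real.exp (L + (D * -(1 / 2 + η) + L * -(1 + 2 * η))) ≤
      2 * Real.exp (D * -σ + L * η) := by
    have e0 : 2 * Real.exp (D * -σ + L * η) = Real.exp (M + (D * -σ + L * η)) := by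
      rw [Real.exp_add M, ← hM]
    rw [e0]
    apply Real.exp_le_exp.2
    subst hη
    nlinarith [mul_nonneg hσ.le hM0, mul_nonneg (sub_nonneg.2 hσ2.le) hLD]
  have e2 : Real.exp (L + (D * -(1 - η) + -L)) ≤ 2 * Real.exp (D * -σ + L * η) := by
    have e0 : 2 * Real.exp (D * -σ + L * η) = Real.exp (M + (D * -σ + L * η)) := by
      rw [Real.exp_add M, ← hM]
    rw [e0]
    apply Real.exp_le_exp.2
    subst hη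
    nlinarith [mul_nonneg hσ.le hM0, mul_nonneg (sub_nonneg.2 hσ2.le) hLD]
  linarith

theorem tsum_diff {q : ℝ} {a c2 c3 : ℕ → ℂ} {ωm ωp : ℂ} (hq : 0 < q) (hl : Loc6 a c2 c3)
    (h : CStep q a ωm ωp)
    (ham : ∀ ε : ℝ, 0 < ε → ∃ C : ℝ, ∀ n : ℕ, 1 ≤ n → ‖a n‖ ≤ C * (n : ℝ) ^ ε)
    (m N : ℕ) (hm : 1 ≤ m) (hN : 1 ≤ N) :
    ∃ K κ : ℝ, 0 ≤ K ∧ 0 < κ ∧ ∀ δ : ℝ, 0 < δ → δ ≤ 1 / 10 →
    Summable (fun p : ℕ × ℕ => ‖LL c2 c3 p‖ *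
      ‖Tt q a ((m : ℝ) / N) δ (dd p) - ωm * ((m : ℂ) / N) ^ 3 * Sp a m N (dd p) * Ld q δ‖) ∧
    δ * ∑' p : ℕ × ℕ, ‖LL c2 c3 p‖ *
      ‖Tt q a ((m : ℝ) / N) δ (dd p) - ωm * ((m : ℂ) / N) ^ 3 * Sp a m N (dd p) * Ld q δ‖ ≤
      K * δ ^ κ := by
  obtain ⟨σ, hσ, hσ2, hS⟩ := LL_sum a c2 c3 hl
  obtain ⟨η, hη⟩ : ∃ η : ℝ, η = (1 / 2 - σ) / 2 := ⟨_, rfl⟩
  have hη0 : 0 < η := by rw [hη]; linarith
  have hη1 : η ≤ 1 := by rw [hη]; linarith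
  obtain ⟨K1, hK1, h1⟩ := term_small hq h ham m N hm hN η hη0 hη1
  obtain ⟨K2, hK2, h2⟩ := term_large hq ham ωm h.hm m N hm hN η hη0 hη1
  have key : ∀ δ : ℝ, 0 < δ → δ ≤ 1 / 10 → ∀ p : ℕ × ℕ, δ * (‖LL c2 c3 p‖ *
      ‖Tt q a ((m : ℝ) / N) δ (dd p) - ωm * ((m : ℂ) / N) ^ 3 * Sp a m N (dd p) * Ld q δ‖) ≤
      4 * (K1 + K2) * δ ^ η * (‖LL c2 c3 p‖ * (dd p : ℝ) ^ (-σ)) := by
    intro δ hδ hδ1 p
    have hdn : 1 ≤ dd p := dd_pos p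
    have hd1 : (1 : ℝ) ≤ (dd p : ℝ) := by exact_mod_cast hdn
    have hd0 : (0 : ℝ) < (dd p : ℝ) := by linarith
    have hpos : 0 ≤ (dd p : ℝ) ^ (-σ) * δ ^ η := by positivity
    have hkey : δ *
        ‖Tt q a ((m : ℝ) / N) δ (dd p) - ωm * ((m : ℂ) / N) ^ 3 * Sp a m N (dd p) * Ld q δ‖ ≤
        4 * (K1 + K2) * ((dd p : ℝ) ^ (-σ) * δ ^ η) := by
      rcases le_total (2 * δ * (dd p : ℝ)) 1 with hc | hc
      · have e := h1 δ hδ hδ1 (dd p) hdn hc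
        have e' := tsum_real_small hσ hσ2 hη hδ hd1 (by nlinarith)
        calc _ ≤ δ * (K1 * ((dd p : ℝ) ^ (-(1 / 4) : ℝ) * δ ^ (-(1 / 2) : ℝ) +
              (dd p : ℝ) ^ (1 / 2 + η))) := mul_le_mul_of_nonneg_left e hδ.le
          _ = K1 * (δ * ((dd p : ℝ) ^ (-(1 / 4) : ℝ) * δ ^ (-(1 / 2) : ℝ) +
              (dd p : ℝ) ^ (1 / 2 + η))) := by ring
          _ ≤ K1 * (4 * ((dd p : ℝ) ^ (-σ) * δ ^ η)) := mul_le_mul_of_nonneg_left e' hK1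
          _ ≤ _ := by nlinarith [mul_nonneg hK2 hpos]
      · have e := h2 δ hδ hδ1 (dd p) hc
        have e' := tsum_real_large hσ hσ2 hη hδ (by linarith) hd0 hc
        calc _ ≤ δ * (K2 * ((dd p : ℝ) ^ (-(1 / 2 + η)) * δ ^ (-(1 + 2 * η)) +
              (dd p : ℝ) ^ (-(1 - η)) * δ⁻¹)) := mul_le_mul_of_nonneg_left e hδ.le
          _ = K2 * (δ * ((dd p : ℝ) ^ (-(1 / 2 + η)) * δ ^ (-(1 + 2 * η)) +
              (dd p : ℝ) ^ (-(1 - η)) * δ⁻¹)) := by ring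
          _ ≤ K2 * (4 * ((dd p : ℝ) ^ (-σ) * δ ^ η)) := mul_le_mul_of_nonneg_left e' hK2
          _ ≤ _ := by nlinarith [mul_nonneg hK1 hpos]
    calc _ = ‖LL c2 c3 p‖ * (δ *
        ‖Tt q a ((m : ℝ) / N) δ (dd p) - ωm * ((m : ℂ) / N) ^ 3 * Sp a m N (dd p) * Ld q δ‖) := by
          ring
      _ ≤ ‖LL c2 c3 p‖ * (4 * (K1 + K2) * ((dd p : ℝ) ^ (-σ) * δ ^ η)) :=
          mul_le_mul_of_nonneg_left hkey (norm_nonneg _)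
      _ = _ := by ring
  refine ⟨4 * (K1 + K2) * ∑' p : ℕ × ℕ, ‖LL c2 c3 p‖ * (dd p : ℝ) ^ (-σ), η,
    mul_nonneg (by positivity) (tsum_nonneg fun p => by positivity), hη0, fun δ hδ hδ1 => ?_⟩
  have hsum : Summable (fun p : ℕ × ℕ => δ * (‖LL c2 c3 p‖ *
      ‖Tt q a ((m : ℝ) / N) δ (dd p) - ωm * ((m : ℂ) / N) ^ 3 * Sp a m N (dd p) * Ld q δ‖)) :=
    Summable.of_nonneg_of_le (fun p => by positivity) (key δ hδ hδ1)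
      (hS.mul_left (4 * (K1 + K2) * δ ^ η))
  refine ⟨?_, ?_⟩
  · have := hsum.mul_left δ⁻¹
    refine this.congr fun p => ?_
    field_simp
  · rw [← tsum_mul_left]
    calc _ ≤ ∑' p : ℕ × ℕ, 4 * (K1 + K2) * δ ^ η * (‖LL c2 c3 p‖ * (dd p : ℝ) ^ (-σ)) :=
          hsum.tsum_le_tsum (key δ hδ hδ1) (hS.mul_left _)
      _ = _ := by rw [tsum_mul_left]; ring

/-- the limit series converges absolutely -/
theorem Sp_summable {a c2 c3 : ℕ → ℂ} (hl : Loc6 a c2 c3)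
    (ham : ∀ ε : ℝ, 0 < ε → ∃ C : ℝ, ∀ n : ℕ, 1 ≤ n → ‖a n‖ ≤ C * (n : ℝ) ^ ε)
    (m N : ℕ) (hm : 1 ≤ m) (hN : 1 ≤ N) :
    Summable (fun p : ℕ × ℕ => LL c2 c3 p * Sp a m N (dd p)) := by
  obtain ⟨σ, hσ, hσ2, hS⟩ := LL_sum a c2 c3 hl
  obtain ⟨K, hK, h1⟩ := Sp_bound a ham m N hm hN (1 / 2) (by norm_num)
  refine Summable.of_norm_bounded (hS.mul_left K) fun p => ?_
  have hdn : 1 ≤ dd p := dd_pos p
  have hd1 : (1 : ℝ) ≤ (dd p : ℝ) := by exact_mod_cast hdn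
  have e : (dd p : ℝ) ^ (-(1 - 1 / 2) : ℝ) ≤ (dd p : ℝ) ^ (-σ) :=
    Real.rpow_le_rpow_of_exponent_le hd1 (by linarith)
  rw [norm_mul]
  calc _ ≤ ‖LL c2 c3 p‖ * (K * (dd p : ℝ) ^ (-σ)) :=
        mul_le_mul_of_nonneg_left ((h1 _ hdn).trans (mul_le_mul_of_nonneg_left e hK))
          (norm_nonneg _)
    _ = _ := by ring

end Pool.Agent.H11.SC
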