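import Mathlib
import Pool.Agent.H11.SC5.Defs5
import Pool.Agent.H11.SC5.Six
import Pool.Agent.H11.SC5.TSum

/-!
# LIM: the identity between the coefficients

Fix `δ ∈ (0, 1/3000]`, `w = pw δ u`, `ν = m/N`, integrals over `u ∈ [-2δ, -δ]`.
(1) INTERCHANGE.  `(JJ q w)⁻¹ (ff a (w+1/6) + ff a (w-1/6)) KK = ∑_p LL p (JJ q w)⁻¹ d³ ff a (d w) KK`
(`six`, `d = dd p`), and `∑_p ∫ ‖LL p (JJ q w)⁻¹ d³ ff a (d w) KK‖ < ∞`: finitely many `p` with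
`2δd ≤ 1` (continuous integrands), the others by `large_term` (`∑ ‖LL p‖ d^(-(1/2+η)) < ∞`).
So (`MeasureTheory.hasSum_integral_of_summable_integral_norm`)
`∫ (JJ q w)⁻¹ (ff a (w+1/6) + ff a (w-1/6)) KK = ∑_p LL p Tt q a ν δ d`.
(2) LEFT SIDE.  By `hA` (`‖w‖ ≤ 2.1δ ≤ 1/1000`, `100‖w‖² ≤ 441 δ² ≤ δ ≤ -u`), `JJ_inv`, `KK_bound`
the left side differs by at most `δ · C (δ²)^(-13/4) K δ^7 δ^(-2) = K' δ^(-1/2)` from
`ωm ∫ (β1 ff b (w'/D0 - 1/6) + β2 ff b (w'/D0 + 1/6)) KK`, and by `four` (`d = D0`, `θ = ∓ 1/6`) this is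
`ωm R Ld + O(1)`, `R = (β1 ee(-n/6) + β2 ee(n/6)) b n n³` if `N ∣ m D0`, `n = m D0/N`, else `R = 0`.
(`ee (n (-1/6)) = ee (-(n/6))`.)
(3) RIGHT SIDE.  `tsum_diff`, `Sp_summable`: `∑ LL p Tt = ωm ν³ (∑ LL p Sp) Ld + O(δ^(κ-1))`.
(4) Multiply by `δ`: `‖δ Ld‖ ‖ν³ ∑ LL p Sp - R‖ ≤ K (δ^(1/2) + δ + δ^κ)` (`‖ωm‖ = 1`), and
`‖δ Ld‖ ≥ 1/(3q)`.  Let `δ → 0`: `ν³ ∑ LL p Sp = R`.  If `N ∣ m D0`, `n = ν D0`, `R/ν³ = D0³ b n (...)`.
-/

set_option autoImplicit false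

namespace Pool.Agent.H11.SC

open Complex

theorem lim_pw_cont (δ : ℝ) : Continuous (fun u : ℝ => pw δ u) := by
  unfold pw
  fun_prop

theorem lim_JJ_cont (q δ : ℝ) : Continuous (fun u : ℝ => (JJ q (pw δ u))⁻¹) := by
  have h1 := lim_pw_cont δ
  unfold JJ
  simp only [inv_inv]
  fun_prop

theorem lim_cont {q : ℝ} {a : ℕ → ℂ} (hq : 0 < q)
    (ha : ∃ C : ℝ, ∀ n : ℕ, 1 ≤ n → ‖a n‖ ≤ C * (n : ℝ) ^ (1 : ℝ)) (ν δ : ℝ) (h0 : 0 < δ)
    (d : ℕ) (hd : 1 ≤ d) :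
    Continuous (fun u : ℝ => (JJ q (pw δ u))⁻¹ * ((d : ℂ) ^ 3 * ff a (d * pw δ u)) *
      KK q ν δ u) := by
  have h1 := lim_pw_cont δ
  have h2 : Continuous (fun u : ℝ => ff a (d * pw δ u)) := by
    refine (ff_cont a ha).comp_continuous (by fun_prop) (fun u => ?_)
    simp only [Set.mem_ofPred_eq]
    have h3 : ((d : ℂ) * pw δ u).im = d * δ ^ 2 := by
      rw [Complex.mul_im, pw_im, pw_re]
      simp
    rw [h3]
    have : (0 : ℝ) < d := by exact_mod_cast hd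
    positivity
  exact ((lim_JJ_cont q δ).mul (continuous_const.mul h2)).mul (KK_cont q ν δ hq h0)

theorem lim_dd_finite (δ : ℝ) (h0 : 0 < δ) : {p : ℕ × ℕ | ¬ 1 ≤ 2 * δ * (dd p : ℝ)}.Finite := by
  obtain ⟨M, hM⟩ := exists_nat_gt (1 / (2 * δ))
  refine (Finset.finite_toSet (Finset.range M ×ˢ Finset.range M)).subset ?_
  rintro ⟨k, j⟩ hp
  simp only [Set.mem_ofPred_eq, not_le] at hp
  have h1 : ((dd (k, j) : ℕ) : ℝ) < M := by
    refine lt_trans ?_ hM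
    rw [lt_div_iff₀ (by positivity)]
    linarith
  have h2 : dd (k, j) < M := by exact_mod_cast h1
  have hk : k < dd (k, j) := by
    unfold dd
    have e1 : k < 2 ^ k := Nat.lt_two_pow_self
    have e2 : 1 ≤ 3 ^ j := Nat.one_le_pow _ _ (by norm_num)
    simp only
    nlinarith
  have hj : j < dd (k, j) := by
    unfold dd
    have e1 : j < 3 ^ j := Nat.lt_pow_self (by norm_num)
    have e2 : 1 ≤ 2 ^ k := Nat.one_le_pow _ _ (by norm_num)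
    simp only
    nlinarith
  simp only [Finset.coe_product, Finset.coe_range, Set.mem_prod, Set.mem_Iio]
  omega

/-- step (1) -/
theorem lim_interchange {q : ℝ} {a c2 c3 : ℕ → ℂ} (hq : 0 < q) (hl : Loc6 a c2 c3)
    (ham : ∀ ε : ℝ, 0 < ε → ∃ C : ℝ, ∀ n : ℕ, 1 ≤ n → ‖a n‖ ≤ C * (n : ℝ) ^ ε)
    (ν : ℝ) (hν : 0 ≤ ν) (δ : ℝ) (h0 : 0 < δ) (h1 : δ ≤ 1 / 10) :
    HasSum (fun p : ℕ × ℕ => LL c2 c3 p * Tt q a ν δ (dd p))
      (∫ u in (-2 * δ)..(-δ), (JJ q (pw δ u))⁻¹ *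
        (ff a (pw δ u + 1 / 6) + ff a (pw δ u - 1 / 6)) * KK q ν δ u) := by
  have ha := ham 1 one_pos
  have hle : -2 * δ ≤ -δ := by linarith
  obtain ⟨σ, hσ0, hσ1, hsum⟩ := LL_sum a c2 c3 hl
  obtain ⟨K, hK, hlarge⟩ := large_term q hq a ham ν hν 1 one_pos le_rfl
  set G : ℕ × ℕ → ℝ → ℂ := fun p u =>
    (JJ q (pw δ u))⁻¹ * ((dd p : ℂ) ^ 3 * ff a (dd p * pw δ u)) * KK q ν δ u with hG
  have hGc : ∀ p, Continuous (G p) := fun p => lim_cont hq ha ν δ h0 (dd p) (dd_pos p)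
  have hint : ∀ p, MeasureTheory.Integrable (fun u => LL c2 c3 p * G p u)
      (MeasureTheory.volume.restrict (Set.Ioc (-2 * δ) (-δ))) := by
    intro p
    have h2 : Continuous (fun u => LL c2 c3 p * G p u) := continuous_const.mul (hGc p)
    exact (h2.integrableOn_Icc).mono_set Set.Ioc_subset_Icc_self
  have hsum2 : Summable (fun p : ℕ × ℕ => ∫ u, ‖LL c2 c3 p * G p u‖
      ∂(MeasureTheory.volume.restrict (Set.Ioc (-2 * δ) (-δ)))) := by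
    refine Summable.of_norm_bounded_eventually
      (hsum.mul_left (K * δ ^ (-(1 + 2 * 1) : ℝ))) ?_
    rw [Filter.eventually_cofinite]
    refine (lim_dd_finite δ h0).subset ?_
    intro p hp
    simp only [Set.mem_ofPred_eq] at hp ⊢
    intro hcon
    apply hp
    have h3 : ∫ u, ‖LL c2 c3 p * G p u‖
        ∂(MeasureTheory.volume.restrict (Set.Ioc (-2 * δ) (-δ))) =
        ‖LL c2 c3 p‖ * ∫ u in (-2 * δ)..(-δ), ‖G p u‖ := by
      rw [intervalIntegral.integral_of_le hle, ← MeasureTheory.integral_const_mul]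
      refine MeasureTheory.integral_congr_ae (Filter.Eventually.of_forall fun u => ?_)
      simp only [norm_mul]
    rw [h3]
    have h4 := hlarge δ h0 h1 (dd p) hcon
    have h5 : 0 ≤ ∫ u in (-2 * δ)..(-δ), ‖G p u‖ :=
      intervalIntegral.integral_nonneg hle (fun u _ => norm_nonneg _)
    rw [Real.norm_of_nonneg (mul_nonneg (norm_nonneg _) h5)]
    have hd1 : (1 : ℝ) ≤ (dd p : ℝ) := by exact_mod_cast dd_pos p
    have h6 : (dd p : ℝ) ^ (-(1 / 2 + 1) : ℝ) ≤ (dd p : ℝ) ^ (-σ) :=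
      Real.rpow_le_rpow_of_exponent_le hd1 (by linarith)
    have h7 : (0 : ℝ) ≤ δ ^ (-(1 + 2 * 1) : ℝ) := Real.rpow_nonneg h0.le _
    calc ‖LL c2 c3 p‖ * ∫ u in (-2 * δ)..(-δ), ‖G p u‖
        ≤ ‖LL c2 c3 p‖ * (K * (dd p : ℝ) ^ (-(1 / 2 + 1) : ℝ) * δ ^ (-(1 + 2 * 1) : ℝ)) :=
          mul_le_mul_of_nonneg_left h4 (norm_nonneg _)
      _ ≤ ‖LL c2 c3 p‖ * (K * (dd p : ℝ) ^ (-σ) * δ ^ (-(1 + 2 * 1) : ℝ)) := by
          gcongr
      _ = K * δ ^ (-(1 + 2 * 1) : ℝ) * (‖LL c2 c3 p‖ * (dd p : ℝ) ^ (-σ)) := by ring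
  have hHS := MeasureTheory.hasSum_integral_of_summable_integral_norm hint hsum2
  have e1 : (fun p : ℕ × ℕ => ∫ u, LL c2 c3 p * G p u
      ∂(MeasureTheory.volume.restrict (Set.Ioc (-2 * δ) (-δ)))) =
      fun p : ℕ × ℕ => LL c2 c3 p * Tt q a ν δ (dd p) := by
    funext p
    unfold Tt
    rw [intervalIntegral.integral_of_le hle, ← MeasureTheory.integral_const_mul]
  have e2 : (∫ u, ∑' p : ℕ × ℕ, LL c2 c3 p * G p u
      ∂(MeasureTheory.volume.restrict (Set.Ioc (-2 * δ) (-δ)))) =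
      ∫ u in (-2 * δ)..(-δ), (JJ q (pw δ u))⁻¹ *
        (ff a (pw δ u + 1 / 6) + ff a (pw δ u - 1 / 6)) * KK q ν δ u := by
    rw [intervalIntegral.integral_of_le hle]
    refine MeasureTheory.integral_congr_ae (Filter.Eventually.of_forall fun u => ?_)
    simp only
    have hs := six a c2 c3 hl ha (pw δ u) (by rw [pw_im]; positivity)
    have hs2 := (hs.mul_left ((JJ q (pw δ u))⁻¹)).mul_right (KK q ν δ u)
    rw [← hs2.tsum_eq]
    refine tsum_congr fun p => ?_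
    simp only [hG]
    ring
  rw [e1, e2] at hHS
  exact hHS

theorem lim_wp_im (q δ u : ℝ) (hq : 0 < q) (h0 : 0 < δ) : 0 < (-1 / (q * pw δ u) : ℂ).im := by
  have hpw : pw δ u ≠ 0 := by
    intro h
    have h1 : (pw δ u).im = 0 := by rw [h]; rfl
    rw [pw_im] at h1
    have : 0 < δ ^ 2 := by positivity
    linarith
  have h2 : (-1 / (q * pw δ u) : ℂ) = ((-(1 / q) : ℝ) : ℂ) * (pw δ u)⁻¹ := by
    push_cast
    field_simp
  rw [h2, Complex.im_ofReal_mul, Complex.inv_im, pw_im]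
  have h3 : 0 < Complex.normSq (pw δ u) := Complex.normSq_pos.mpr hpw
  have h4 : -(1 / q) * (-δ ^ 2 / Complex.normSq (pw δ u)) =
      δ ^ 2 / (q * Complex.normSq (pw δ u)) := by
    field_simp
  rw [h4]
  positivity

theorem lim_wp_cont (q δ : ℝ) (hq : 0 < q) (h0 : 0 < δ) :
    Continuous (fun u : ℝ => (-1 / (q * pw δ u) : ℂ)) := by
  have h1 := lim_pw_cont δ
  refine continuous_const.div (continuous_const.mul h1) (fun u => ?_)
  have hpw : pw δ u ≠ 0 := by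
    intro h
    have h1 : (pw δ u).im = 0 := by rw [h]; rfl
    rw [pw_im] at h1
    have : 0 < δ ^ 2 := by positivity
    linarith
  have hq' : (q : ℂ) ≠ 0 := by exact_mod_cast hq.ne'
  exact mul_ne_zero hq' hpw

theorem lim_ffw_cont {q : ℝ} {b : ℕ → ℂ} (hq : 0 < q)
    (hb : ∃ C : ℝ, ∀ n : ℕ, 1 ≤ n → ‖b n‖ ≤ C * (n : ℝ) ^ (1 : ℝ)) (δ : ℝ) (h0 : 0 < δ)
    (d : ℕ) (hd : 1 ≤ d) (θ : ℝ) :
    Continuous (fun u : ℝ => ff b (-1 / (q * pw δ u) / d + θ)) := by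
  have h1 := lim_wp_cont q δ hq h0
  refine (ff_cont b hb).comp_continuous (by fun_prop) (fun u => ?_)
  simp only [Set.mem_ofPred_eq]
  have h3 : (-1 / (q * pw δ u) / d + θ : ℂ).im = (-1 / (q * pw δ u) : ℂ).im / d := by
    rw [Complex.add_im, Complex.ofReal_im, add_zero, Complex.div_natCast_im]
  rw [h3]
  have : (0 : ℝ) < d := by exact_mod_cast hd
  exact div_pos (lim_wp_im q δ u hq h0) this

/-- step (2) -/
theorem lim_left {q : ℝ} {a b : ℕ → ℂ} {ωm β1 β2 : ℂ} {D0 : ℕ} (hq : 0 < q)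
    (ham : ∀ ε : ℝ, 0 < ε → ∃ C : ℝ, ∀ n : ℕ, 1 ≤ n → ‖a n‖ ≤ C * (n : ℝ) ^ ε)
    (hbm : ∀ ε : ℝ, 0 < ε → ∃ C : ℝ, ∀ n : ℕ, 1 ≤ n → ‖b n‖ ≤ C * (n : ℝ) ^ ε)
    (hωm : ‖ωm‖ = 1) (hD0 : 1 ≤ D0) (hA : Asym q a b ωm D0 β1 β2) (m N : ℕ) (hm : 1 ≤ m)
    (hN : 1 ≤ N) : ∃ K : ℝ, 0 ≤ K ∧ ∀ δ : ℝ, 0 < δ → δ ≤ 1 / 3000 →
    ‖(∫ u in (-2 * δ)..(-δ), (JJ q (pw δ u))⁻¹ *
        (ff a (pw δ u + 1 / 6) + ff a (pw δ u - 1 / 6)) * KK q ((m : ℝ) / N) δ u) -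
      ωm * (if N ∣ m * D0 then b (m * D0 / N) * ((m * D0 / N : ℕ) : ℂ) ^ 3 *
        (β1 * ee (-(((m * D0 / N : ℕ) : ℂ) / 6)) + β2 * ee (((m * D0 / N : ℕ) : ℂ) / 6)) else 0) *
        Ld q δ‖ ≤ K * δ ^ (-(1 / 2) : ℝ) := by
  have hb1 := hbm 1 one_pos
  have ha1 := ham 1 one_pos
  obtain ⟨C0, hC0⟩ := hb1
  set ν : ℝ := (m : ℝ) / N with hν
  have hν0 : 0 ≤ ν := by positivity
  obtain ⟨K1, hK1, hf1⟩ := four b 1 C0 one_pos le_rfl hC0 q hq m N hm hN (-(1 / 6))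
  obtain ⟨K2, hK2, hf2⟩ := four b 1 C0 one_pos le_rfl hC0 q hq m N hm hN (1 / 6)
  obtain ⟨C, hC⟩ := hA.bound
  set KJ : ℝ := (Real.sqrt q * (21 / 10)) ^ 7 with hKJ
  have hKJ0 : 0 ≤ KJ := by positivity
  set KE : ℝ := Real.exp (2 * Real.pi * ν / q) / q with hKE
  have hKE0 : 0 ≤ KE := by positivity
  set KD : ℝ := (‖β1‖ * K1 + ‖β2‖ * K2) * (D0 : ℝ) ^ (9 / 2 + 1 : ℝ) with hKD
  have hKD0 : 0 ≤ KD := by positivity
  refine ⟨KJ * |C| * KE + KD, by positivity, fun δ h0 h1 => ?_⟩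
  have h10 : δ ≤ 1 / 10 := by linarith
  have hle : -2 * δ ≤ -δ := by linarith
  set I1 : ℂ := ∫ u in (-2 * δ)..(-δ), (JJ q (pw δ u))⁻¹ *
        (ff a (pw δ u + 1 / 6) + ff a (pw δ u - 1 / 6)) * KK q ν δ u with hI1
  set J1 : ℂ := ∫ u in (-2 * δ)..(-δ), ff b (-1 / (q * pw δ u) / D0 + ((-(1 / 6) : ℝ) : ℂ)) *
    KK q ν δ u with hJ1
  set J2 : ℂ := ∫ u in (-2 * δ)..(-δ), ff b (-1 / (q * pw δ u) / D0 + ((1 / 6 : ℝ) : ℂ)) *
    KK q ν δ u with hJ2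
  -- continuity
  have hKKc := KK_cont q ν δ hq h0
  have hb1c := lim_ffw_cont hq ⟨C0, hC0⟩ δ h0 D0 hD0 (-(1 / 6))
  have hb2c := lim_ffw_cont hq ⟨C0, hC0⟩ δ h0 D0 hD0 (1 / 6)
  have hpwc := lim_pw_cont δ
  have hac : ∀ t : ℝ, Continuous (fun u : ℝ => ff a (pw δ u + (t : ℂ))) := by
    intro t
    refine (ff_cont a ha1).comp_continuous (by fun_prop) (fun u => ?_)
    simp only [Set.mem_ofPred_eq, Complex.add_im, Complex.ofReal_im, add_zero, pw_im]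
    positivity
  have hac1 : Continuous (fun u : ℝ => ff a (pw δ u + 1 / 6)) := by
    have := hac (1 / 6)
    convert this using 3
    push_cast
    ring
  have hac2 : Continuous (fun u : ℝ => ff a (pw δ u - 1 / 6)) := by
    have := hac (-(1 / 6))
    convert this using 3
    push_cast
    ring
  have hc1 : Continuous (fun u : ℝ => (JJ q (pw δ u))⁻¹ *
      (ff a (pw δ u + 1 / 6) + ff a (pw δ u - 1 / 6)) * KK q ν δ u) :=
    ((lim_JJ_cont q δ).mul (hac1.add hac2)).mul hKKc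
  have hc2 : Continuous (fun u : ℝ => ff b (-1 / (q * pw δ u) / D0 + ((-(1 / 6) : ℝ) : ℂ)) *
      KK q ν δ u) := hb1c.mul hKKc
  have hc3 : Continuous (fun u : ℝ => ff b (-1 / (q * pw δ u) / D0 + ((1 / 6 : ℝ) : ℂ)) *
      KK q ν δ u) := hb2c.mul hKKc
  have hdiff : I1 - ωm * (β1 * J1 + β2 * J2) =
      ∫ u in (-2 * δ)..(-δ), ((JJ q (pw δ u))⁻¹ *
        (ff a (pw δ u + 1 / 6) + ff a (pw δ u - 1 / 6)) * KK q ν δ u -
        ωm * (β1 * (ff b (-1 / (q * pw δ u) / D0 + ((-(1 / 6) : ℝ) : ℂ)) * KK q ν δ u) +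
          β2 * (ff b (-1 / (q * pw δ u) / D0 + ((1 / 6 : ℝ) : ℂ)) * KK q ν δ u))) := by
    have hc4 : Continuous (fun u : ℝ => β1 * (ff b (-1 / (q * pw δ u) / D0 +
        ((-(1 / 6) : ℝ) : ℂ)) * KK q ν δ u)) := continuous_const.mul hc2
    have hc5 : Continuous (fun u : ℝ => β2 * (ff b (-1 / (q * pw δ u) / D0 +
        ((1 / 6 : ℝ) : ℂ)) * KK q ν δ u)) := continuous_const.mul hc3
    have hc6 : Continuous (fun u : ℝ => ωm * (β1 * (ff b (-1 / (q * pw δ u) / D0 +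
        ((-(1 / 6) : ℝ) : ℂ)) * KK q ν δ u) + β2 * (ff b (-1 / (q * pw δ u) / D0 +
        ((1 / 6 : ℝ) : ℂ)) * KK q ν δ u))) := continuous_const.mul (hc4.add hc5)
    rw [intervalIntegral.integral_sub (hc1.intervalIntegrable _ _) (hc6.intervalIntegrable _ _),
      intervalIntegral.integral_const_mul, intervalIntegral.integral_add
      (hc4.intervalIntegrable _ _) (hc5.intervalIntegrable _ _),
      intervalIntegral.integral_const_mul, intervalIntegral.integral_const_mul]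
  have hδp : (0 : ℝ) < δ ^ (-(1 / 2) : ℝ) := Real.rpow_pos_of_pos h0 _
  have hnd : ‖I1 - ωm * (β1 * J1 + β2 * J2)‖ ≤ KJ * |C| * KE * δ ^ (-(1 / 2) : ℝ) := by
    rw [hdiff]
    have hb := intervalIntegral.norm_integral_le_of_norm_le_const
      (f := fun u : ℝ => ((JJ q (pw δ u))⁻¹ *
        (ff a (pw δ u + 1 / 6) + ff a (pw δ u - 1 / 6)) * KK q ν δ u -
        ωm * (β1 * (ff b (-1 / (q * pw δ u) / D0 + ((-(1 / 6) : ℝ) : ℂ)) * KK q ν δ u) +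
          β2 * (ff b (-1 / (q * pw δ u) / D0 + ((1 / 6 : ℝ) : ℂ)) * KK q ν δ u))))
      (a := -2 * δ) (b := -δ) (C := KJ * |C| * KE * δ ^ (-(3 / 2) : ℝ)) ?_
    · refine hb.trans (le_of_eq ?_)
      have e1 : |(-δ) - (-2 * δ)| = δ := by
        rw [show (-δ) - (-2 * δ) = δ by ring, abs_of_pos h0]
      rw [e1, mul_assoc]
      congr 1
      nth_rewrite 2 [← Real.rpow_one δ]
      rw [← Real.rpow_add h0]
      norm_num
    · intro u hu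
      rw [Set.uIoc_of_le hle] at hu
      have hu' : u ∈ Set.Icc (-2 * δ) (-δ) := ⟨hu.1.le, hu.2⟩
      obtain ⟨hn1, hn2⟩ := pw_norm δ u h0 h10 hu'
      have hpw0 : pw δ u ≠ 0 := by
        intro h
        rw [h, norm_zero] at hn1
        linarith
      have hJne : JJ q (pw δ u) ≠ 0 := JJ_ne q hq _ hpw0
      have hAb := hC (pw δ u) (by rw [pw_im]; positivity) (by linarith) (by
        rw [pw_re]
        have h5 : ‖pw δ u‖ ^ 2 ≤ (21 / 10 * δ) ^ 2 := pow_le_pow_left₀ (norm_nonneg _) hn2 2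
        have h6 := hu.2
        nlinarith) (by
        rw [pw_im]
        exact pow_le_pow_left₀ h0.le hn1 2)
      have heq : (JJ q (pw δ u))⁻¹ *
        (ff a (pw δ u + 1 / 6) + ff a (pw δ u - 1 / 6)) * KK q ν δ u -
        ωm * (β1 * (ff b (-1 / (q * pw δ u) / D0 + ((-(1 / 6) : ℝ) : ℂ)) * KK q ν δ u) +
          β2 * (ff b (-1 / (q * pw δ u) / D0 + ((1 / 6 : ℝ) : ℂ)) * KK q ν δ u)) =
        (JJ q (pw δ u))⁻¹ * (ff a (pw δ u + 1 / 6) + ff a (pw δ u - 1 / 6) -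
          ωm * JJ q (pw δ u) * (β1 * ff b (-1 / (q * pw δ u) / D0 - 1 / 6) +
            β2 * ff b (-1 / (q * pw δ u) / D0 + 1 / 6))) * KK q ν δ u := by
        have e1 : (-1 / (q * pw δ u) / D0 + ((-(1 / 6) : ℝ) : ℂ)) =
            -1 / (q * pw δ u) / D0 - 1 / 6 := by push_cast; ring
        have e2 : (-1 / (q * pw δ u) / D0 + ((1 / 6 : ℝ) : ℂ)) =
            -1 / (q * pw δ u) / D0 + 1 / 6 := by push_cast; ring
        rw [e1, e2, mul_sub]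
        have e3 : (JJ q (pw δ u))⁻¹ * (ωm * JJ q (pw δ u) *
            (β1 * ff b (-1 / (q * pw δ u) / D0 - 1 / 6) +
            β2 * ff b (-1 / (q * pw δ u) / D0 + 1 / 6))) =
            ωm * (β1 * ff b (-1 / (q * pw δ u) / D0 - 1 / 6) +
            β2 * ff b (-1 / (q * pw δ u) / D0 + 1 / 6)) := by
          calc _ = ((JJ q (pw δ u))⁻¹ * JJ q (pw δ u)) *
              (ωm * (β1 * ff b (-1 / (q * pw δ u) / D0 - 1 / 6) +
              β2 * ff b (-1 / (q * pw δ u) / D0 + 1 / 6))) := by ring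
            _ = _ := by rw [inv_mul_cancel₀ hJne, one_mul]
        rw [e3]
        ring
      rw [heq, norm_mul, norm_mul]
      have hJb := JJ_inv q δ u h0 h10 hu'
      have hKb := KK_bound q ν δ u hq hν0 h0 h10 hu'
      have hAb2 : ‖ff a (pw δ u + 1 / 6) + ff a (pw δ u - 1 / 6) -
          ωm * JJ q (pw δ u) * (β1 * ff b (-1 / (q * pw δ u) / D0 - 1 / 6) +
            β2 * ff b (-1 / (q * pw δ u) / D0 + 1 / 6))‖ ≤ |C| * δ ^ (-(13 / 2) : ℝ) := by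
        refine hAb.trans ?_
        rw [pw_im, ← Real.rpow_natCast δ 2, ← Real.rpow_mul h0.le]
        have e4 : (((2 : ℕ) : ℝ) * (-(13 / 4))) = (-(13 / 2) : ℝ) := by push_cast; ring
        rw [e4]
        exact mul_le_mul_of_nonneg_right (le_abs_self C) (Real.rpow_nonneg h0.le _)
      have h7 : (0 : ℝ) ≤ δ ^ (-(13 / 2) : ℝ) := Real.rpow_nonneg h0.le _
      calc ‖(JJ q (pw δ u))⁻¹‖ * ‖ff a (pw δ u + 1 / 6) + ff a (pw δ u - 1 / 6) -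
          ωm * JJ q (pw δ u) * (β1 * ff b (-1 / (q * pw δ u) / D0 - 1 / 6) +
            β2 * ff b (-1 / (q * pw δ u) / D0 + 1 / 6))‖ * ‖KK q ν δ u‖
          ≤ (KJ * δ ^ 7) * (|C| * δ ^ (-(13 / 2) : ℝ)) *
            (Real.exp (2 * Real.pi * ν / q) / (q * δ ^ 2)) := by
            gcongr
        _ = KJ * |C| * KE * (δ ^ 7 * δ ^ (-(13 / 2) : ℝ) / δ ^ 2) := by
            rw [hKE]
            field_simp
        _ = KJ * |C| * KE * δ ^ (-(3 / 2) : ℝ) := by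
            congr 1
            rw [← Real.rpow_natCast δ 7, ← Real.rpow_natCast δ 2, ← Real.rpow_add h0,
              ← Real.rpow_sub h0]
            norm_num
  -- the main terms
  have h4a := hf1 δ h0 h10 D0 hD0
  have h4b := hf2 δ h0 h10 D0 hD0
  rw [← hν, ← hJ1] at h4a
  rw [← hν, ← hJ2] at h4b
  set n : ℕ := m * D0 / N with hn
  have hfin : ‖ωm * (β1 * J1 + β2 * J2) - ωm * (if N ∣ m * D0 then b n * (n : ℂ) ^ 3 *
        (β1 * ee (-((n : ℂ) / 6)) + β2 * ee ((n : ℂ) / 6)) else 0) * Ld q δ‖ ≤ KD := by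
    have e5 : ωm * (β1 * J1 + β2 * J2) - ωm * (if N ∣ m * D0 then b n * (n : ℂ) ^ 3 *
        (β1 * ee (-((n : ℂ) / 6)) + β2 * ee ((n : ℂ) / 6)) else 0) * Ld q δ =
        ωm * (β1 * (J1 - (if N ∣ m * D0 then b n * (n : ℂ) ^ 3 *
          ee ((n : ℂ) * ((-(1 / 6) : ℝ) : ℂ)) else 0) * Ld q δ) +
          β2 * (J2 - (if N ∣ m * D0 then b n * (n : ℂ) ^ 3 *
          ee ((n : ℂ) * ((1 / 6 : ℝ) : ℂ)) else 0) * Ld q δ)) := by
      have e6 : ((n : ℂ) * ((-(1 / 6) : ℝ) : ℂ)) = -((n : ℂ) / 6) := by push_cast; ring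
      have e7 : ((n : ℂ) * ((1 / 6 : ℝ) : ℂ)) = (n : ℂ) / 6 := by push_cast; ring
      rw [e6, e7]
      split_ifs
      · ring
      · ring
    rw [e5, norm_mul, hωm, one_mul]
    refine (norm_add_le _ _).trans ?_
    have e8 : KD = ‖β1‖ * (K1 * (D0 : ℝ) ^ (9 / 2 + 1 : ℝ)) +
        ‖β2‖ * (K2 * (D0 : ℝ) ^ (9 / 2 + 1 : ℝ)) := by rw [hKD]; ring
    rw [norm_mul, norm_mul, e8]
    exact add_le_add (mul_le_mul_of_nonneg_left h4a (norm_nonneg _))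
      (mul_le_mul_of_nonneg_left h4b (norm_nonneg _))
  have h1δ : (1 : ℝ) ≤ δ ^ (-(1 / 2) : ℝ) :=
    Real.one_le_rpow_of_pos_of_le_one_of_nonpos h0 (by linarith) (by norm_num)
  calc ‖I1 - ωm * (if N ∣ m * D0 then b n * (n : ℂ) ^ 3 *
        (β1 * ee (-((n : ℂ) / 6)) + β2 * ee ((n : ℂ) / 6)) else 0) * Ld q δ‖
      = ‖(I1 - ωm * (β1 * J1 + β2 * J2)) + (ωm * (β1 * J1 + β2 * J2) -
        ωm * (if N ∣ m * D0 then b n * (n : ℂ) ^ 3 *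
        (β1 * ee (-((n : ℂ) / 6)) + β2 * ee ((n : ℂ) / 6)) else 0) * Ld q δ)‖ := by
        congr 1; ring
    _ ≤ KJ * |C| * KE * δ ^ (-(1 / 2) : ℝ) + KD := (norm_add_le _ _).trans (add_le_add hnd hfin)
    _ ≤ KJ * |C| * KE * δ ^ (-(1 / 2) : ℝ) + KD * δ ^ (-(1 / 2) : ℝ) := by
        have := mul_le_mul_of_nonneg_left h1δ hKD0
        linarith
    _ = (KJ * |C| * KE + KD) * δ ^ (-(1 / 2) : ℝ) := by ring

theorem limit_id {q : ℝ} {a b c2 c3 : ℕ → ℂ} {ωm ωp β1 β2 : ℂ} {D0 : ℕ} (hq : 0 < q)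
    (hl : Loc6 a c2 c3) (h : CStep q a ωm ωp)
    (ham : ∀ ε : ℝ, 0 < ε → ∃ C : ℝ, ∀ n : ℕ, 1 ≤ n → ‖a n‖ ≤ C * (n : ℝ) ^ ε)
    (hbm : ∀ ε : ℝ, 0 < ε → ∃ C : ℝ, ∀ n : ℕ, 1 ≤ n → ‖b n‖ ≤ C * (n : ℝ) ^ ε)
    (hD0 : 1 ≤ D0) (hA : Asym q a b ωm D0 β1 β2) (m N : ℕ) (hm : 1 ≤ m) (hN : 1 ≤ N) :
    ∑' p : ℕ × ℕ, LL c2 c3 p * Sp a m N (dd p) =
      if N ∣ m * D0 then (D0 : ℂ) ^ 3 * b (m * D0 / N) *
        (β1 * ee (-(((m * D0 / N : ℕ) : ℂ) / 6)) + β2 * ee (((m * D0 / N : ℕ) : ℂ) / 6)) else 0 := by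
  have hqC : (q : ℂ) ≠ 0 := by exact_mod_cast hq.ne'
  obtain ⟨K, κ, hK, hκ, hT⟩ := tsum_diff hq hl h ham m N hm hN
  have hSs := Sp_summable hl ham m N hm hN
  obtain ⟨K2, hK2, hL⟩ := lim_left hq ham hbm h.hm hD0 hA m N hm hN
  set ν : ℝ := (m : ℝ) / N with hν
  have hm0 : (0 : ℝ) < m := by exact_mod_cast hm
  have hN0 : (0 : ℝ) < N := by exact_mod_cast hN
  have hν0 : 0 < ν := by positivity
  have hmC : (m : ℂ) ≠ 0 := by exact_mod_cast hm0.ne'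
  have hNC : (N : ℂ) ≠ 0 := by exact_mod_cast hN0.ne'
  set S : ℂ := ∑' p : ℕ × ℕ, LL c2 c3 p * Sp a m N (dd p) with hS
  set R : ℂ := (if N ∣ m * D0 then b (m * D0 / N) * ((m * D0 / N : ℕ) : ℂ) ^ 3 *
        (β1 * ee (-(((m * D0 / N : ℕ) : ℂ) / 6)) + β2 * ee (((m * D0 / N : ℕ) : ℂ) / 6)) else 0)
    with hR
  have hmain : ∀ δ : ℝ, 0 < δ → δ ≤ 1 / 3000 →
      ‖((m : ℂ) / N) ^ 3 * S - R‖ ≤ 3 * q * (K2 * δ ^ (1 / 2 : ℝ) + K * δ ^ κ) := by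
    intro δ h0 h1
    have h10 : δ ≤ 1 / 10 := by linarith
    obtain ⟨hsum, hbd⟩ := hT δ h0 h10
    have hI := lim_interchange hq hl ham ν hν0.le δ h0 h10
    have hLe := hL δ h0 h1
    set I1 : ℂ := ∫ u in (-2 * δ)..(-δ), (JJ q (pw δ u))⁻¹ *
        (ff a (pw δ u + 1 / 6) + ff a (pw δ u - 1 / 6)) * KK q ν δ u with hI1
    have hDs : Summable (fun p : ℕ × ℕ => ‖LL c2 c3 p * (Tt q a ν δ (dd p) -
        ωm * ((m : ℂ) / N) ^ 3 * Sp a m N (dd p) * Ld q δ)‖) := by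
      refine hsum.congr fun p => ?_
      rw [norm_mul]
    have hD : I1 - ωm * ((m : ℂ) / N) ^ 3 * S * Ld q δ = ∑' p : ℕ × ℕ, LL c2 c3 p *
        (Tt q a ν δ (dd p) - ωm * ((m : ℂ) / N) ^ 3 * Sp a m N (dd p) * Ld q δ) := by
      have h2 := (hSs.hasSum.mul_left (ωm * ((m : ℂ) / N) ^ 3 * Ld q δ))
      have h3 := hI.sub h2
      have h4 := h3.tsum_eq
      rw [← hS] at h4
      have h5 : I1 - ωm * ((m : ℂ) / N) ^ 3 * S * Ld q δ =
          I1 - ωm * ((m : ℂ) / N) ^ 3 * Ld q δ * S := by ring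
      rw [h5, ← h4]
      refine tsum_congr fun p => ?_
      ring
    have hDn : ‖I1 - ωm * ((m : ℂ) / N) ^ 3 * S * Ld q δ‖ ≤ ∑' p : ℕ × ℕ, ‖LL c2 c3 p‖ *
        ‖Tt q a ν δ (dd p) - ωm * ((m : ℂ) / N) ^ 3 * Sp a m N (dd p) * Ld q δ‖ := by
      rw [hD]
      refine (norm_tsum_le_tsum_norm hDs).trans (le_of_eq ?_)
      refine tsum_congr fun p => ?_
      rw [norm_mul]
    obtain ⟨hLd1, hLd2⟩ := Ld_bounds q δ hq h0 h10
    have e1 : ωm * (((m : ℂ) / N) ^ 3 * S - R) * Ld q δ =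
        (I1 - ωm * R * Ld q δ) - (I1 - ωm * ((m : ℂ) / N) ^ 3 * S * Ld q δ) := by ring
    have e2 : ‖((m : ℂ) / N) ^ 3 * S - R‖ * ‖Ld q δ‖ ≤ K2 * δ ^ (-(1 / 2) : ℝ) +
        ∑' p : ℕ × ℕ, ‖LL c2 c3 p‖ *
        ‖Tt q a ν δ (dd p) - ωm * ((m : ℂ) / N) ^ 3 * Sp a m N (dd p) * Ld q δ‖ := by
      calc ‖((m : ℂ) / N) ^ 3 * S - R‖ * ‖Ld q δ‖ =
          ‖ωm * (((m : ℂ) / N) ^ 3 * S - R) * Ld q δ‖ := by
            rw [norm_mul, norm_mul, h.hm, one_mul]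
        _ ≤ _ := by
            rw [e1]
            exact (norm_sub_le _ _).trans (add_le_add hLe hDn)
    have e3 : ‖((m : ℂ) / N) ^ 3 * S - R‖ * (1 / (3 * q)) ≤
        K2 * δ ^ (1 / 2 : ℝ) + K * δ ^ κ := by
      have e4 : ‖((m : ℂ) / N) ^ 3 * S - R‖ * (1 / (3 * q)) ≤
          δ * (‖((m : ℂ) / N) ^ 3 * S - R‖ * ‖Ld q δ‖) := by
        have e5 : 1 / (3 * q) ≤ δ * ‖Ld q δ‖ := by
          have := mul_le_mul_of_nonneg_left hLd1 h0.le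
          refine le_trans (le_of_eq ?_) this
          field_simp
        calc ‖((m : ℂ) / N) ^ 3 * S - R‖ * (1 / (3 * q)) ≤
            ‖((m : ℂ) / N) ^ 3 * S - R‖ * (δ * ‖Ld q δ‖) :=
              mul_le_mul_of_nonneg_left e5 (norm_nonneg _)
          _ = _ := by ring
      refine e4.trans ((mul_le_mul_of_nonneg_left e2 h0.le).trans ?_)
      rw [mul_add]
      refine add_le_add (le_of_eq ?_) hbd
      have e6 : δ * δ ^ (-(1 / 2) : ℝ) = δ ^ (1 / 2 : ℝ) := by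
        nth_rewrite 1 [← Real.rpow_one δ]
        rw [← Real.rpow_add h0]
        norm_num
      rw [← e6]
      ring
    have h3q : 0 < 3 * q := by positivity
    have e7 : ‖((m : ℂ) / N) ^ 3 * S - R‖ =
        3 * q * (‖((m : ℂ) / N) ^ 3 * S - R‖ * (1 / (3 * q))) := by
      field_simp
    rw [e7]
    exact mul_le_mul_of_nonneg_left e3 h3q.le
  have hzero : ‖((m : ℂ) / N) ^ 3 * S - R‖ ≤ 0 := by
    have htend : Filter.Tendsto (fun δ : ℝ => 3 * q * (K2 * δ ^ (1 / 2 : ℝ) + K * δ ^ κ))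
        (nhdsWithin 0 (Set.Ioi 0)) (nhds (3 * q * (K2 * 0 + K * 0))) := by
      have t1 : Filter.Tendsto (fun δ : ℝ => δ ^ (1 / 2 : ℝ)) (nhdsWithin 0 (Set.Ioi 0))
          (nhds 0) := by
        have := (Real.continuousAt_rpow_const 0 (1 / 2) (Or.inr (by norm_num))).tendsto
        rw [Real.zero_rpow (by norm_num)] at this
        exact this.mono_left nhdsWithin_le_nhds
      have t2 : Filter.Tendsto (fun δ : ℝ => δ ^ κ) (nhdsWithin 0 (Set.Ioi 0))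
          (nhds 0) := by
        have := (Real.continuousAt_rpow_const 0 κ (Or.inr hκ.le)).tendsto
        rw [Real.zero_rpow hκ.ne'] at this
        exact this.mono_left nhdsWithin_le_nhds
      exact ((t1.const_mul K2).add (t2.const_mul K)).const_mul (3 * q)
    have hval : 3 * q * (K2 * 0 + K * 0) = 0 := by ring
    rw [hval] at htend
    refine ge_of_tendsto htend ?_
    have : Set.Ioc (0 : ℝ) (1 / 3000) ∈ nhdsWithin (0 : ℝ) (Set.Ioi 0) :=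
      Ioc_mem_nhdsGT (by norm_num)
    filter_upwards [this] with δ hδ
    exact hmain δ hδ.1 hδ.2
  have heq : ((m : ℂ) / N) ^ 3 * S = R :=
    sub_eq_zero.mp (norm_le_zero_iff.mp hzero)
  have hν3 : ((m : ℂ) / N) ^ 3 ≠ 0 := pow_ne_zero _ (div_ne_zero hmC hNC)
  apply mul_left_cancel₀ hν3
  rw [heq, hR]
  split_ifs with hdvd
  · obtain ⟨c, hc⟩ := hdvd
    have h6 : m * D0 / N = c := by
      rw [hc, Nat.mul_div_cancel_left c hN]
    rw [h6]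
    have h7 : (c : ℂ) = (m : ℂ) / N * D0 := by
      have h8 : (m : ℂ) * D0 = N * c := by exact_mod_cast hc
      field_simp
      rw [h8, mul_comm]
    have h9 : (c : ℂ) ^ 3 = ((m : ℂ) / N) ^ 3 * (D0 : ℂ) ^ 3 := by rw [h7]; ring
    rw [h9]
    ring
  · ring

end Pool.Agent.H11.SC
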