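import Mathlib
import Pool.Agent.H11.SC5.Defs5

/-!
# ALG57: the algebra for `q = 5, 7`

`mm i j = τ ee(-n/6) + conj τ ee(n/6)`, `n = 2^i 3^j`: it is real and depends only on `n mod 6`.  With
`conj τ = e^(ix)`, `mm = 2 cos (x + π n/3)`.  Put `m0 = mm 0 0 = 2cos(x+π/3)`, `m1 = mm 1 0 = 2cos(x+2π/3)`,
`mm 2 0 = mm 4 0 = -m0`, `mm 3 0 = mm 5 0 = m1`, `mm 0 1 = -2cos x`, `mm 2 1 = 2 cos x = -mm 0 1`,
`m0 + m1 = -2√3 sin x`.  `t = ‖χ‖²`.
CASE `ψ = 0`.  `Θ 0 = 0`, `Θ 1 = β`, `B k = β^k`, `Θ 2 = -1 + β conj β`.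
 (0,0): `m0 = 0`.  (1,0): `conj α m1 = 0`; `m0 = m1 = 0` is impossible, so `α = 0`, `A 2 = -χ`,
 `Λ 2 = -1 + t/2`.
 If `β ≠ 0`: (0,1): `-(χ/2) β = (1/6) conj β mm01`; (2,1): `(-1 + t/2) β = (1/6) (-conj χ) conj β mm21
 = (1/6) conj χ conj β mm01 = conj χ (-(χ/2) β) = -(t/2) β`, so `t = 1`; but (0,1) gives
 `‖χ‖/2 = |mm01|/6 ≤ 1/3`, contradiction.
 If `β = 0`: `B 2 = 0`, `Θ 2 = -1`; (0,2): `χ = 0`, then `Λ 2 = -1`; (2,2): `Λ 2 Θ 2 = 0`, contradiction.
CASE `ψ ≠ 0` (`Θ 0 ≠ 0`).  (0,0): `-(χ/2) Θ0 = m0/6`.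
 (2,0): `Λ2 Θ0 = -conj(A2) m0/6 = conj(A2) (χ/2) Θ0`, so `Λ2 = χ conj(A2)/2`, that is
 (E) `α conj α - 1 = χ conj(A2) = χ (conj α)² - t` (`A 2 = α² - χ`).
 `Λ (k+4) = conj α Λ (k+3) - conj χ Λ (k+2)`.
 (2,0), (3,0), (4,0) and `Λ4 = conj α Λ3 - conj χ Λ2` give `conj α conj(A3) (m0 + m1) = 0`;
 (3,0), (4,0), (5,0) and `Λ5 = conj α Λ4 - conj χ Λ3` give `conj α conj(A4) (m0 + m1) = 0`.
 * `m0 + m1 = 0`: `sin x = 0`, `m0 = cos x = ± 1`, so `‖χ‖ ‖ψ‖ = 1` by (0,0), so `‖χ‖ = 1` (both are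
   `≤ 1`); (E) gives `α conj α = χ (conj α)²`, so `α = χ conj α`.
 * `m0 + m1 ≠ 0`, `α ≠ 0`: `A3 = A4 = 0`.  `A4 = α A3 - χ A2`: `χ A2 = 0`; `A3 = α A2 - χ α = 0`.  If `χ = 0`
   then `A2 = α² ≠ 0` and `α A2 = 0`, contradiction.  If `χ ≠ 0`, `A2 = 0`, `χ α = 0`, contradiction.
 * `α = 0`: (E) gives `t = 1`.
-/

set_option autoImplicit false

namespace Pool.Agent.H11.SC

open Complex

/-- the phases -/
noncomputable def mm (τ : ℂ) (i j : ℕ) : ℂ :=
  τ * ee (-(((2 ^ i * 3 ^ j : ℕ) : ℂ) / 6)) + (starRingEnd ℂ) τ * ee (((2 ^ i * 3 ^ j : ℕ) : ℂ) / 6)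

private theorem ee_pow (n : ℕ) : ee ((n : ℂ) / 6) = ee (1 / 6) ^ n := by
  unfold ee
  rw [← Complex.exp_nat_mul]
  congr 1
  ring

private theorem ee_pow' (n : ℕ) : ee (-((n : ℂ) / 6)) = ee (-(1 / 6)) ^ n := by
  unfold ee
  rw [← Complex.exp_nat_mul]
  congr 1
  ring

private theorem om_val : ee (1 / 6) = 1 / 2 + (Real.sqrt 3 / 2 : ℝ) * I := by
  unfold ee
  have h : 2 * (Real.pi : ℂ) * I * (1 / 6) = ((Real.pi / 3 : ℝ) : ℂ) * I := by
    push_cast
    ring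
  rw [h, Complex.exp_mul_I, ← Complex.ofReal_cos, ← Complex.ofReal_sin, Real.cos_pi_div_three,
    Real.sin_pi_div_three]
  push_cast
  ring

private theorem om_val' : ee (-(1 / 6)) = 1 / 2 - (Real.sqrt 3 / 2 : ℝ) * I := by
  unfold ee
  have h : 2 * (Real.pi : ℂ) * I * (-(1 / 6)) = ((-(Real.pi / 3) : ℝ) : ℂ) * I := by
    push_cast
    ring
  rw [h, Complex.exp_mul_I, ← Complex.ofReal_cos, ← Complex.ofReal_sin, Real.cos_neg, Real.sin_neg,
    Real.cos_pi_div_three, Real.sin_pi_div_three]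
  push_cast
  ring

private theorem om_sq : ee (1 / 6) ^ 2 = ee (1 / 6) - 1 := by
  rw [om_val]
  have h3 : ((Real.sqrt 3 : ℝ) : ℂ) ^ 2 = 3 := by
    rw [← Complex.ofReal_pow, Real.sq_sqrt (by norm_num)]
    norm_num
  push_cast
  linear_combination (1 / 4 : ℂ) * ((Real.sqrt 3 : ℝ) : ℂ) ^ 2 * Complex.I_sq - (1 / 4 : ℂ) * h3

private theorem om_conj : ee (-(1 / 6)) = 1 - ee (1 / 6) := by
  rw [om_val, om_val']
  ring

/-- the phases in terms of `ω`, `ω² = ω - 1` -/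
private theorem mm_eq (τ : ℂ) (i j : ℕ) : mm τ i j =
    τ * (1 - ee (1 / 6)) ^ (2 ^ i * 3 ^ j) + (starRingEnd ℂ) τ * ee (1 / 6) ^ (2 ^ i * 3 ^ j) := by
  unfold mm
  rw [ee_pow, ee_pow', om_conj]

theorem alg57 (α χ β ψ τ : ℂ) (hτ : ‖τ‖ = 1) (hχ : ‖χ‖ ≤ 1) (hψ : ‖ψ‖ ≤ 1)
    (A B Λ Θ : ℕ → ℂ) (hA0 : A 0 = 1) (hA1 : A 1 = α) (hA : ∀ k, A (k + 2) = α * A (k + 1) - χ * A k)
    (hB0 : B 0 = 1) (hB1 : B 1 = β) (hB : ∀ k, B (k + 2) = β * B (k + 1) - ψ * B k)
    (hΛ0 : Λ 0 = -χ / 2) (hΛ1 : Λ 1 = α - χ * (starRingEnd ℂ) α / 2)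
    (hΛ : ∀ k, Λ (k + 2) = -(starRingEnd ℂ) (A k) + α * (starRingEnd ℂ) (A (k + 1)) -
      χ * (starRingEnd ℂ) (A (k + 2)) / 2)
    (hΘ0 : Θ 0 = -ψ / 3) (hΘ1 : Θ 1 = β - ψ * (starRingEnd ℂ) β / 3)
    (hΘ : ∀ k, Θ (k + 2) = -(starRingEnd ℂ) (B k) + β * (starRingEnd ℂ) (B (k + 1)) -
      ψ * (starRingEnd ℂ) (B (k + 2)) / 3)
    (hid : ∀ i j : ℕ, Λ i * Θ j =
      1 / 6 * ((starRingEnd ℂ) (A i) * (starRingEnd ℂ) (B j)) * mm τ i j) :
    ‖χ‖ = 1 ∧ α = χ * (starRingEnd ℂ) α := by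
  obtain ⟨w, hw⟩ : ∃ w, w = ee (1 / 6) := ⟨_, rfl⟩
  have hw2 : w ^ 2 = w - 1 := by rw [hw]; exact om_sq
  have hw3 : w ^ 3 = -1 := by linear_combination (w + 1) * hw2
  have hv3 : (1 - w) ^ 3 = -1 := by linear_combination (2 - w) * hw2
  have hmm : ∀ i j, mm τ i j = τ * (1 - w) ^ (2 ^ i * 3 ^ j) +
      (starRingEnd ℂ) τ * w ^ (2 ^ i * 3 ^ j) := by
    intro i j
    rw [mm_eq, hw]
  set τ' := (starRingEnd ℂ) τ with hτ'
  have hpow : ∀ (z : ℂ), z ^ 3 = -1 → ∀ n, z ^ (n + 3) = -z ^ n := by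
    intro z hz n
    rw [pow_add, hz]
    ring
  have hpow6 : ∀ (z : ℂ), z ^ 3 = -1 → ∀ n, z ^ (n + 6) = z ^ n := by
    intro z hz n
    rw [show n + 6 = (n + 3) + 3 from rfl, hpow z hz, hpow z hz, neg_neg]
  obtain ⟨m0, hm0⟩ : ∃ m0, m0 = τ * (1 - w) + τ' * w := ⟨_, rfl⟩
  obtain ⟨m1, hm1⟩ : ∃ m1, m1 = τ * (1 - w) ^ 2 + τ' * w ^ 2 := ⟨_, rfl⟩
  have e00 : mm τ 0 0 = m0 := by
    rw [hmm, hm0]
    norm_num
  have e10 : mm τ 1 0 = m1 := by
    rw [hmm, hm1]
    norm_num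
  have e20 : mm τ 2 0 = -m0 := by
    rw [hmm, hm0]
    have h1 := hpow w hw3 1
    have h2 := hpow (1 - w) hv3 1
    norm_num at h1 h2 ⊢
    rw [h1, h2]
    ring
  have e30 : mm τ 3 0 = m1 := by
    rw [hmm, hm1]
    have h1 := hpow6 w hw3 2
    have h2 := hpow6 (1 - w) hv3 2
    norm_num at h1 h2 ⊢
    rw [h1, h2]
  have e40 : mm τ 4 0 = -m0 := by
    rw [hmm, hm0]
    have h1 : w ^ 16 = -w := by
      have a1 := hpow6 w hw3 10
      have a2 := hpow6 w hw3 4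
      have a3 := hpow w hw3 1
      norm_num at a1 a2 a3
      rw [a1, a2, a3]
    have h2 : (1 - w) ^ 16 = -(1 - w) := by
      have a1 := hpow6 (1 - w) hv3 10
      have a2 := hpow6 (1 - w) hv3 4
      have a3 := hpow (1 - w) hv3 1
      norm_num at a1 a2 a3
      rw [a1, a2, a3]
      ring
    norm_num
    rw [h1, h2]
    ring
  have e50 : mm τ 5 0 = m1 := by
    rw [hmm, hm1]
    have key : ∀ z : ℂ, z ^ 3 = -1 → z ^ 32 = z ^ 2 := by
      intro z hz
      have a1 := hpow6 z hz 26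
      have a2 := hpow6 z hz 20
      have a3 := hpow6 z hz 14
      have a4 := hpow6 z hz 8
      have a5 := hpow6 z hz 2
      norm_num at a1 a2 a3 a4 a5
      rw [a1, a2, a3, a4, a5]
    norm_num
    rw [key w hw3, key (1 - w) hv3]
  have e01 : mm τ 0 1 = -(τ + τ') := by
    rw [hmm]
    norm_num
    rw [hw3, hv3]
    ring
  have e21 : mm τ 2 1 = τ + τ' := by
    rw [hmm]
    have key : ∀ z : ℂ, z ^ 3 = -1 → z ^ 12 = 1 := by
      intro z hz
      have a1 := hpow6 z hz 6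
      have a2 := hpow6 z hz 0
      norm_num at a1 a2
      rw [a1, a2]
    norm_num
    rw [key w hw3, key (1 - w) hv3]
    ring
  have hτ0 : τ ≠ 0 := by
    intro h
    rw [h, norm_zero] at hτ
    exact zero_ne_one hτ
  have hτ'n : ‖τ'‖ = 1 := by rw [hτ', RCLike.norm_conj, hτ]
  -- not both zero
  have hm01 : ¬ (m0 = 0 ∧ m1 = 0) := by
    rintro ⟨h0, h1⟩
    rw [hm0] at h0
    rw [hm1] at h1
    have h2 : τ * (w + 1) = 0 := by linear_combination w * h0 - h1 + 2 * τ * hw2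
    rcases mul_eq_zero.1 h2 with h3 | h3
    · exact hτ0 h3
    · have h4 : (3 : ℂ) = 0 := by linear_combination hw2 - (w - 2) * h3
      norm_num at h4
  have hχχ : χ * (starRingEnd ℂ) χ = ((‖χ‖ ^ 2 : ℝ) : ℂ) := by
    rw [Complex.mul_conj']
    push_cast
    rfl
  have hA2 : A 2 = α ^ 2 - χ := by
    rw [hA 0, hA1, hA0]
    ring
  have hΛ2 : Λ 2 = -1 + α * (starRingEnd ℂ) α - χ * (starRingEnd ℂ) (A 2) / 2 := by
    rw [hΛ 0, hA1, hA0, map_one]
  have h00 := hid 0 0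
  rw [hΛ0, hΘ0, hA0, hB0, map_one, e00] at h00
  have h10 := hid 1 0
  rw [hΘ0, hA1, hB0, map_one, e10] at h10
  have h20 := hid 2 0
  rw [hΘ0, hB0, map_one, e20] at h20
  by_cases hψ0 : ψ = 0
  · -- the case `ψ = 0`
    exfalso
    have hm00 : m0 = 0 := by
      rw [hψ0] at h00
      linear_combination (-6 : ℂ) * h00
    have hα : α = 0 := by
      rw [hψ0] at h10
      have h1 : (starRingEnd ℂ) α * m1 = 0 := by linear_combination (-6 : ℂ) * h10
      rcases mul_eq_zero.1 h1 with h2 | h2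
      · exact (map_eq_zero _).1 h2
      · exact absurd ⟨hm00, h2⟩ hm01
    have hA2' : A 2 = -χ := by rw [hA2, hα]; ring
    have hΛ2' : Λ 2 = -1 + χ * (starRingEnd ℂ) χ / 2 := by
      rw [hΛ2, hA2', hα, map_neg]
      ring
    have hB2 : B 2 = β ^ 2 := by
      rw [hB 0, hB1, hB0, hψ0]
      ring
    have hΘ1' : Θ 1 = β := by
      rw [hΘ1, hψ0]
      ring
    have h01 := hid 0 1
    rw [hΛ0, hΘ1', hA0, hB1, map_one, e01] at h01
    have h21 := hid 2 1
    rw [hΛ2', hΘ1', hA2', hB1, map_neg, e21] at h21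
    by_cases hβ : β = 0
    · have hΘ2 : Θ 2 = -1 := by
        rw [hΘ 0, hB1, hB0, hβ, hψ0, map_one]
        ring
      have hB2' : B 2 = 0 := by rw [hB2, hβ]; ring
      have h02 := hid 0 2
      rw [hΛ0, hΘ2, hA0, hB2', map_one, map_zero] at h02
      have hχ0 : χ = 0 := by linear_combination 2 * h02
      have h22 := hid 2 2
      rw [hΛ2', hΘ2, hB2', map_zero, hχ0] at h22
      have h4 : (1 : ℂ) = 0 := by linear_combination h22
      exact one_ne_zero h4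
    · have h1 : β * (χ * (starRingEnd ℂ) χ - 1) = 0 := by
        linear_combination h21 - (starRingEnd ℂ) χ * h01
      have h2 : χ * (starRingEnd ℂ) χ = 1 := by
        rcases mul_eq_zero.1 h1 with h3 | h3
        · exact absurd h3 hβ
        · linear_combination h3
      have h3 : ‖χ‖ = 1 := by
        rw [hχχ] at h2
        have h4 : ‖χ‖ ^ 2 = 1 := by exact_mod_cast h2
        nlinarith [norm_nonneg χ]
      have h4 : ‖(-χ / 2 * β : ℂ)‖ = ‖(1 / 6 * (1 * (starRingEnd ℂ) β) * -(τ + τ') : ℂ)‖ := by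
        rw [h01]
      rw [norm_mul, norm_mul, norm_mul, norm_mul, norm_div, norm_neg, norm_neg, h3,
        RCLike.norm_conj, norm_one] at h4
      have h5 : ‖τ + τ'‖ ≤ 2 := by
        have := norm_add_le τ τ'
        rw [hτ, hτ'n] at this
        linarith
      have h6 : 0 < ‖β‖ := norm_pos_iff.2 hβ
      norm_num at h4
      nlinarith
  · -- the case `ψ ≠ 0`
    have hE : α * (starRingEnd ℂ) α - 1 = χ * (starRingEnd ℂ) (A 2) := by
      have h1 : ψ * (Λ 2 - χ * (starRingEnd ℂ) (A 2) / 2) = 0 := by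
        linear_combination (-3 : ℂ) * h20 - 3 * (starRingEnd ℂ) (A 2) * h00
      rcases mul_eq_zero.1 h1 with h2 | h2
      · exact absurd h2 hψ0
      · linear_combination h2 - hΛ2
    have hcA2 : (starRingEnd ℂ) (A 2) = (starRingEnd ℂ) α ^ 2 - (starRingEnd ℂ) χ := by
      rw [hA2, map_sub, map_pow]
    -- t = 1 suffices
    have hfin : χ * (starRingEnd ℂ) χ = 1 →
        ‖χ‖ = 1 ∧ α = χ * (starRingEnd ℂ) α := by
      intro h2
      have h3 : ‖χ‖ = 1 := by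
        rw [hχχ] at h2
        have h4 : ‖χ‖ ^ 2 = 1 := by exact_mod_cast h2
        nlinarith [norm_nonneg χ]
      refine ⟨h3, ?_⟩
      have h4 : (starRingEnd ℂ) α * (α - χ * (starRingEnd ℂ) α) = 0 := by
        rw [hcA2] at hE
        linear_combination hE - h2
      rcases mul_eq_zero.1 h4 with h5 | h5
      · have h6 : α = 0 := (map_eq_zero _).1 h5
        rw [h6, map_zero, mul_zero]
      · linear_combination h5
    by_cases hα : α = 0
    · apply hfin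
      rw [hcA2, hα, map_zero] at hE
      linear_combination hE
    by_cases hmm1 : m0 + m1 = 0
    · -- `τ` is real
      apply hfin
      have h1 : (2 * w - 1) * (τ' - τ) = 0 := by
        rw [hm0, hm1] at hmm1
        linear_combination hmm1 - (τ + τ') * hw2
      have h2 : τ' = τ := by
        rcases mul_eq_zero.1 h1 with h3 | h3
        · exfalso
          have h4 : (3 : ℂ) = 0 := by linear_combination 4 * hw2 - (2 * w - 1) * h3
          norm_num at h4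
        · linear_combination h3
      have h3 : m0 = τ := by
        rw [hm0, h2]
        ring
      rw [h3] at h00
      have h4 : ‖(χ * ψ : ℂ)‖ = 1 := by
        have h5 : χ * ψ = τ := by linear_combination 6 * h00
        rw [h5, hτ]
      rw [norm_mul] at h4
      have h5 : ‖χ‖ = 1 := by
        nlinarith [norm_nonneg χ, norm_nonneg ψ]
      rw [hχχ, h5]
      norm_num
    · exfalso
      have hcα : (starRingEnd ℂ) α ≠ 0 := fun h => hα ((map_eq_zero _).1 h)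
      have cA : ∀ k, (starRingEnd ℂ) (A (k + 2)) =
          (starRingEnd ℂ) α * (starRingEnd ℂ) (A (k + 1)) -
            (starRingEnd ℂ) χ * (starRingEnd ℂ) (A k) := by
        intro k
        rw [hA k, map_sub, map_mul, map_mul]
      have hΛrec : ∀ k, Λ (k + 4) = (starRingEnd ℂ) α * Λ (k + 3) -
          (starRingEnd ℂ) χ * Λ (k + 2) := by
        intro k
        have a1 := hΛ (k + 2)
        have a2 := hΛ (k + 1)
        have a3 := hΛ k
        have c1 := cA (k + 2)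
        have c2 := cA (k + 1)
        have c3 := cA k
        simp only [show k + 2 + 2 = k + 4 from rfl, show k + 2 + 1 = k + 3 from rfl,
          show k + 1 + 1 = k + 2 from rfl] at a1 a2 a3 c1 c2 c3
        rw [a1, a2, a3]
        linear_combination (-1 : ℂ) * c3 + α * c2 - χ / 2 * c1
      have h30 := hid 3 0
      rw [hΘ0, hB0, map_one, e30] at h30
      have h40 := hid 4 0
      rw [hΘ0, hB0, map_one, e40] at h40
      have h50 := hid 5 0
      rw [hΘ0, hB0, map_one, e50] at h50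
      have r4 := hΛrec 0
      have r5 := hΛrec 1
      have c4 := cA 2
      have c5 := cA 3
      norm_num at r4 r5 c4 c5
      have k3 : (starRingEnd ℂ) α * (starRingEnd ℂ) (A 3) * (m0 + m1) = 0 := by
        linear_combination 6 * (h40 - (starRingEnd ℂ) α * h30 + (starRingEnd ℂ) χ * h20) +
          2 * ψ * r4 - m0 * c4
      have k4 : (starRingEnd ℂ) α * (starRingEnd ℂ) (A 4) * (m0 + m1) = 0 := by
        linear_combination (-6 : ℂ) * (h50 - (starRingEnd ℂ) α * h40 + (starRingEnd ℂ) χ * h30) -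
          2 * ψ * r5 - m1 * c5
      have hA3 : A 3 = 0 := by
        rcases mul_eq_zero.1 k3 with h1 | h1
        · rcases mul_eq_zero.1 h1 with h2 | h2
          · exact absurd h2 hcα
          · exact (map_eq_zero _).1 h2
        · exact absurd h1 hmm1
      have hA4 : A 4 = 0 := by
        rcases mul_eq_zero.1 k4 with h1 | h1
        · rcases mul_eq_zero.1 h1 with h2 | h2
          · exact absurd h2 hcα
          · exact (map_eq_zero _).1 h2
        · exact absurd h1 hmm1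
      have g3 := hA 1
      have g4 := hA 2
      norm_num at g3 g4
      rw [hA3, hA1] at g3
      rw [hA4, hA3] at g4
      have h5 : A 2 = χ := by
        have h6 : α * (A 2 - χ) = 0 := by linear_combination -g3
        rcases mul_eq_zero.1 h6 with h7 | h7
        · exact absurd h7 hα
        · linear_combination h7
      have h6 : χ = 0 := by
        rw [h5] at g4
        have h7 : χ * χ = 0 := by linear_combination g4
        exact mul_self_eq_zero.1 h7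
      have h7 : α ^ 2 = 0 := by
        rw [h5, h6] at hA2
        linear_combination -hA2
      exact hα (pow_eq_zero_iff (two_ne_zero)|>.1 h7)

end Pool.Agent.H11.SC
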