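import Mathlib
import Pool.Agent.H11.SC5.Defs5

/-!
# ALG6: the algebra for `q = 6`

`n2 i j = conj ωm ee(-n/6) - conj ωp ee(n/6)`, `n = 2^i 3^j`.  `ee(-4/6) = -ee(-1/6)`, `ee(4/6) = -ee(1/6)`
(`ee(1/2) = -1`), so `n2 2 0 = -n2 0 0`.
 (0,0): `α β = κ n00`.  (1,0): `(|α|² - 1) β = κ α n10`.  (2,0): `conj α (|α|² - 1) β = κ α² n20
 = -κ α² n00 = -α³ β`.  (1,1): `(|α|² - 1)(|β|² - 1) = κ α β n11`.
* `α ≠ 0`, `β ≠ 0`: `conj α (|α|² - 1) = -α³`, norms: `| |α|² - 1 | = |α|²`, so `|α|² = 1/2`.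
* `α = 0`: (1,0): `β = 0`; (1,1): `1 = 0`.
* `α ≠ 0`, `β = 0`: (0,0): `n00 = 0` (`κ ≠ 0`); (1,0): `n10 = 0`.  `n00 = 0` gives
  `conj ωm = conj ωp ee(1/3)`, so `n10 = conj ωp (1 - ee(1/3)) ≠ 0`, contradiction.
-/

set_option autoImplicit false

namespace Pool.Agent.H11.SC

open Complex

/-- the phases -/
noncomputable def nn (ωm ωp : ℂ) (i j : ℕ) : ℂ :=
  (starRingEnd ℂ) ωm * ee (-(((2 ^ i * 3 ^ j : ℕ) : ℂ) / 6)) -
    (starRingEnd ℂ) ωp * ee (((2 ^ i * 3 ^ j : ℕ) : ℂ) / 6)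

private theorem ee6_pow (n : ℕ) : ee ((n : ℂ) / 6) = ee (1 / 6) ^ n := by
  unfold ee
  rw [← Complex.exp_nat_mul]
  congr 1
  ring

private theorem ee6_pow' (n : ℕ) : ee (-((n : ℂ) / 6)) = ee (-(1 / 6)) ^ n := by
  unfold ee
  rw [← Complex.exp_nat_mul]
  congr 1
  ring

private theorem om6_val : ee (1 / 6) = 1 / 2 + (Real.sqrt 3 / 2 : ℝ) * I := by
  unfold ee
  have h : 2 * (Real.pi : ℂ) * I * (1 / 6) = ((Real.pi / 3 : ℝ) : ℂ) * I := by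
    push_cast
    ring
  rw [h, Complex.exp_mul_I, ← Complex.ofReal_cos, ← Complex.ofReal_sin, Real.cos_pi_div_three,
    Real.sin_pi_div_three]
  push_cast
  ring

private theorem om6_val' : ee (-(1 / 6)) = 1 / 2 - (Real.sqrt 3 / 2 : ℝ) * I := by
  unfold ee
  have h : 2 * (Real.pi : ℂ) * I * (-(1 / 6)) = ((-(Real.pi / 3) : ℝ) : ℂ) * I := by
    push_cast
    ring
  rw [h, Complex.exp_mul_I, ← Complex.ofReal_cos, ← Complex.ofReal_sin, Real.cos_neg, Real.sin_neg,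
    Real.cos_pi_div_three, Real.sin_pi_div_three]
  push_cast
  ring

private theorem om6_sq : ee (1 / 6) ^ 2 = ee (1 / 6) - 1 := by
  rw [om6_val]
  have h3 : ((Real.sqrt 3 : ℝ) : ℂ) ^ 2 = 3 := by
    rw [← Complex.ofReal_pow, Real.sq_sqrt (by norm_num)]
    norm_num
  push_cast
  linear_combination (1 / 4 : ℂ) * ((Real.sqrt 3 : ℝ) : ℂ) ^ 2 * Complex.I_sq - (1 / 4 : ℂ) * h3

private theorem om6_conj : ee (-(1 / 6)) = 1 - ee (1 / 6) := by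
  rw [om6_val, om6_val']
  ring

/-- the phases in terms of `ω`, `ω² = ω - 1` -/
private theorem nn_eq (ωm ωp : ℂ) (i j : ℕ) : nn ωm ωp i j =
    (starRingEnd ℂ) ωm * (1 - ee (1 / 6)) ^ (2 ^ i * 3 ^ j) -
      (starRingEnd ℂ) ωp * ee (1 / 6) ^ (2 ^ i * 3 ^ j) := by
  unfold nn
  rw [ee6_pow, ee6_pow', om6_conj]

theorem alg6 (α β ωm ωp κ : ℂ) (hωm : ‖ωm‖ = 1) (hωp : ‖ωp‖ = 1) (hκ : κ ≠ 0)
    (Λ Θ : ℕ → ℂ) (hΛ0 : Λ 0 = α)
    (hΛ : ∀ k, Λ (k + 1) = ((starRingEnd ℂ) α) ^ k * (α * (starRingEnd ℂ) α - 1))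
    (hΘ0 : Θ 0 = β)
    (hΘ : ∀ k, Θ (k + 1) = ((starRingEnd ℂ) β) ^ k * (β * (starRingEnd ℂ) β - 1))
    (hid : ∀ i j : ℕ, Λ i * Θ j = κ * (α ^ i * β ^ j) * nn ωm ωp i j) :
    ‖α‖ ^ 2 = 1 / 2 := by
  obtain ⟨w, hw⟩ : ∃ w, w = ee (1 / 6) := ⟨_, rfl⟩
  have hw2 : w ^ 2 = w - 1 := by rw [hw]; exact om6_sq
  have hw4 : w ^ 4 = -w := by linear_combination (w ^ 2 + w) * hw2
  have hv4 : (1 - w) ^ 4 = -(1 - w) := by
    linear_combination (w ^ 2 - 3 * w + 2) * hw2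
  obtain ⟨a, ha⟩ : ∃ a, a = (starRingEnd ℂ) ωm := ⟨_, rfl⟩
  obtain ⟨b, hb⟩ : ∃ b, b = (starRingEnd ℂ) ωp := ⟨_, rfl⟩
  have ha0 : a ≠ 0 := by
    intro h
    have h1 : ‖a‖ = 1 := by rw [ha, RCLike.norm_conj, hωm]
    rw [h, norm_zero] at h1
    exact zero_ne_one h1
  have hnn : ∀ i j, nn ωm ωp i j = a * (1 - w) ^ (2 ^ i * 3 ^ j) - b * w ^ (2 ^ i * 3 ^ j) := by
    intro i j
    rw [nn_eq, hw, ha, hb]
  obtain ⟨n0, hn0⟩ : ∃ n0, n0 = a * (1 - w) - b * w := ⟨_, rfl⟩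
  obtain ⟨n1, hn1⟩ : ∃ n1, n1 = a * (1 - w) ^ 2 - b * w ^ 2 := ⟨_, rfl⟩
  have e00 : nn ωm ωp 0 0 = n0 := by
    rw [hnn, hn0]
    norm_num
  have e10 : nn ωm ωp 1 0 = n1 := by
    rw [hnn, hn1]
    norm_num
  have e20 : nn ωm ωp 2 0 = -n0 := by
    rw [hnn, hn0]
    norm_num
    rw [hw4, hv4]
    ring
  have h00 := hid 0 0
  rw [hΛ0, hΘ0, e00, pow_zero, pow_zero] at h00
  have h10 := hid 1 0
  rw [hΛ 0, hΘ0, e10, pow_zero, pow_zero, pow_one] at h10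
  have h20 := hid 2 0
  rw [hΛ 1, hΘ0, e20, pow_one, pow_zero] at h20
  have h11 := hid 1 1
  rw [hΛ 0, hΘ 0, pow_zero, pow_zero, pow_one, pow_one] at h11
  by_cases hα : α = 0
  · exfalso
    rw [hα] at h10 h11
    have hβ : β = 0 := by linear_combination -h10
    rw [hβ] at h11
    have h1 : (1 : ℂ) = 0 := by linear_combination h11
    exact one_ne_zero h1
  by_cases hβ : β = 0
  · exfalso
    rw [hβ] at h00 h10
    have h1 : n0 = 0 := by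
      have h2 : κ * n0 = 0 := by linear_combination -h00
      exact (mul_eq_zero.1 h2).resolve_left hκ
    have h2 : n1 = 0 := by
      have h3 : κ * α * n1 = 0 := by linear_combination -h10
      exact (mul_eq_zero.1 h3).resolve_left (mul_ne_zero hκ hα)
    rw [hn0] at h1
    rw [hn1] at h2
    have h3 : a * (w + 1) = 0 := by linear_combination w * h1 - h2 + 2 * a * hw2
    rcases mul_eq_zero.1 h3 with h4 | h4
    · exact ha0 h4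
    · have h5 : (3 : ℂ) = 0 := by linear_combination hw2 - (w - 2) * h4
      norm_num at h5
  have h1 : β * ((starRingEnd ℂ) α * (α * (starRingEnd ℂ) α - 1) + α ^ 3) = 0 := by
    linear_combination h20 + α ^ 2 * h00
  have h2 : (starRingEnd ℂ) α * (α * (starRingEnd ℂ) α - 1) = -α ^ 3 := by
    have h3 := (mul_eq_zero.1 h1).resolve_left hβ
    linear_combination h3
  have h3 : α * (starRingEnd ℂ) α = ((‖α‖ ^ 2 : ℝ) : ℂ) := by
    rw [Complex.mul_conj']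
    push_cast
    rfl
  have h4 : ‖(starRingEnd ℂ) α * (α * (starRingEnd ℂ) α - 1)‖ = ‖-α ^ 3‖ := by rw [h2]
  rw [norm_mul, RCLike.norm_conj, norm_neg, norm_pow, h3, ← Complex.ofReal_one,
    ← Complex.ofReal_sub, Complex.norm_real, Real.norm_eq_abs] at h4
  have h5 : 0 < ‖α‖ := norm_pos_iff.2 hα
  have h6 : |‖α‖ ^ 2 - 1| = ‖α‖ ^ 2 := by
    have h7 : ‖α‖ * (|‖α‖ ^ 2 - 1| - ‖α‖ ^ 2) = 0 := by linear_combination h4
    have h8 := (mul_eq_zero.1 h7).resolve_left h5.ne'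
    linarith
  rcases abs_cases (‖α‖ ^ 2 - 1) with ⟨h7, _⟩ | ⟨h7, _⟩
  · rw [h7] at h6
    linarith
  · rw [h7] at h6
    linarith

end Pool.Agent.H11.SC
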