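import Mathlib
import Pool.Agent.H11.SC5.Defs5
import Pool.Agent.H11.SC5.TSum

/-!
# PROD: the limit series is a product

`Sp a (2^i 3^j) (2^r 3^s) (2^k 3^l)`: `2^r 3^s ∣ 2^(i+k) 3^(j+l)` iff `r ≤ i+k` and `s ≤ j+l`, the quotient
is `2^(i+k-r) 3^(j+l-s)`, and `a` of it is `a(2^(i+k-r)) a(3^(j+l-s))` (`hl.mul`).  So the term is the
product of the `k`-th term of the first `XX` and the `l`-th term of the second.
`tsum_mul_tsum_of_summable_norm` (or `Summable.tsum_mul_tsum`): the `k`-series converges absolutely: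
`‖l2 c2 k‖ ≤ D R^k`, `R² < 2`, `‖a (2^(i+k-r))‖ ≤ C (2^(i+k))^ε`, `R 2^ε < 2` for small `ε` (`R < √2`); the
same for `3`.
-/

set_option autoImplicit false

namespace Pool.Agent.H11.SC

open Complex

/-- the local sums -/
noncomputable def XX (l α : ℕ → ℂ) (p i r : ℕ) : ℂ :=
  ∑' k : ℕ, if r ≤ i + k then l k * (starRingEnd ℂ) (α (i + k - r)) * ((p : ℂ) ^ k)⁻¹ else 0

/-- geometric domination of the local series -/
theorem XX_summable {a : ℕ → ℂ} (p : ℕ) (hp : 2 ≤ p) (l : ℕ → ℂ) (D R : ℝ) (hD : 0 ≤ D)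
    (hR1 : 1 ≤ R) (hR2 : R ^ 2 < p) (hl : ∀ k, ‖l k‖ ≤ D * R ^ k)
    (ham : ∃ C : ℝ, ∀ n : ℕ, 1 ≤ n → ‖a n‖ ≤ C * (n : ℝ) ^ (1 / 2 : ℝ)) (i r : ℕ) :
    Summable (fun k : ℕ => ‖if r ≤ i + k then
      l k * (starRingEnd ℂ) (a (p ^ (i + k - r))) * ((p : ℂ) ^ k)⁻¹ else 0‖) := by
  obtain ⟨C, hC⟩ := ham
  have hp0 : (0 : ℝ) < (p : ℝ) := by exact_mod_cast (by omega : 0 < p)
  have hp1 : (1 : ℝ) ≤ (p : ℝ) := by exact_mod_cast (by omega : 1 ≤ p)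
  have hs0 : 0 < Real.sqrt p := Real.sqrt_pos.mpr hp0
  have hs2 : Real.sqrt p * Real.sqrt p = p := Real.mul_self_sqrt hp0.le
  have hR0 : 0 ≤ R := by linarith
  have hRs : R < Real.sqrt p := Real.lt_sqrt_of_sq_lt hR2
  have hρ1 : R / Real.sqrt p < 1 := (div_lt_one hs0).mpr hRs
  have hρ0 : 0 ≤ R / Real.sqrt p := by positivity
  refine Summable.of_nonneg_of_le (fun _ => norm_nonneg _) (fun k => ?_)
    ((summable_geometric_of_lt_one hρ0 hρ1).mul_left (D * |C| * Real.sqrt p ^ i))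
  split_ifs with h
  · rw [norm_mul, norm_mul, RCLike.norm_conj, norm_inv, norm_pow, Complex.norm_natCast]
    have h1 : ‖a (p ^ (i + k - r))‖ ≤ |C| * Real.sqrt p ^ (i + k) := by
      refine (hC _ (Nat.one_le_pow _ _ (by omega))).trans ?_
      have h2 : ((p ^ (i + k - r) : ℕ) : ℝ) ^ (1 / 2 : ℝ) ≤ Real.sqrt p ^ (i + k) := by
        rw [← Real.sqrt_eq_rpow]
        have h3 : Real.sqrt p ^ (i + k) = Real.sqrt ((p : ℝ) ^ (i + k)) := by
          rw [Real.sqrt_eq_rpow, Real.sqrt_eq_rpow, ← Real.rpow_natCast, ← Real.rpow_natCast,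
            ← Real.rpow_mul hp0.le, ← Real.rpow_mul hp0.le, mul_comm]
        rw [h3]
        apply Real.sqrt_le_sqrt
        push_cast
        exact pow_le_pow_right₀ hp1 (by omega)
      have h4 : 0 ≤ ((p ^ (i + k - r) : ℕ) : ℝ) ^ (1 / 2 : ℝ) :=
        Real.rpow_nonneg (Nat.cast_nonneg _) _
      calc C * ((p ^ (i + k - r) : ℕ) : ℝ) ^ (1 / 2 : ℝ)
          ≤ |C| * ((p ^ (i + k - r) : ℕ) : ℝ) ^ (1 / 2 : ℝ) :=
            mul_le_mul_of_nonneg_right (le_abs_self C) h4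
        _ ≤ |C| * Real.sqrt p ^ (i + k) := mul_le_mul_of_nonneg_left h2 (abs_nonneg C)
    have h5 : ‖l k‖ * ‖a (p ^ (i + k - r))‖ ≤ (D * R ^ k) * (|C| * Real.sqrt p ^ (i + k)) :=
      mul_le_mul (hl k) h1 (norm_nonneg _) (by positivity)
    calc ‖l k‖ * ‖a (p ^ (i + k - r))‖ * ((p : ℝ) ^ k)⁻¹
        ≤ ((D * R ^ k) * (|C| * Real.sqrt p ^ (i + k))) * ((p : ℝ) ^ k)⁻¹ :=
          mul_le_mul_of_nonneg_right h5 (by positivity)
      _ = D * |C| * Real.sqrt p ^ i * (R / Real.sqrt p) ^ k := by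
          rw [div_pow, pow_add]
          have h6 : (p : ℝ) ^ k = Real.sqrt p ^ k * Real.sqrt p ^ k := by
            rw [← mul_pow, hs2]
          rw [h6]
          field_simp
  · rw [norm_zero]
    positivity

theorem dvd_23 (r s A B : ℕ) : 2 ^ r * 3 ^ s ∣ 2 ^ A * 3 ^ B ↔ r ≤ A ∧ s ≤ B := by
  have c1 : ∀ x y : ℕ, Nat.Coprime (2 ^ x) (3 ^ y) := fun x y =>
    Nat.Coprime.pow x y (by norm_num)
  constructor
  · intro h
    constructor
    · have h1 : 2 ^ r ∣ 2 ^ A * 3 ^ B := (Dvd.intro _ rfl).trans h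
      have h2 : 2 ^ r ∣ 2 ^ A := (c1 r B).dvd_of_dvd_mul_right h1
      exact (Nat.pow_dvd_pow_iff_le_right (by norm_num)).mp h2
    · have h1 : 3 ^ s ∣ 2 ^ A * 3 ^ B := (Dvd.intro_left _ rfl).trans h
      have h2 : 3 ^ s ∣ 3 ^ B := ((c1 A s).symm).dvd_of_dvd_mul_left h1
      exact (Nat.pow_dvd_pow_iff_le_right (by norm_num)).mp h2
  · rintro ⟨h1, h2⟩
    exact Nat.mul_dvd_mul (pow_dvd_pow 2 h1) (pow_dvd_pow 3 h2)

theorem div_23 (r s A B : ℕ) (h1 : r ≤ A) (h2 : s ≤ B) :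
    2 ^ A * 3 ^ B / (2 ^ r * 3 ^ s) = 2 ^ (A - r) * 3 ^ (B - s) := by
  apply Nat.div_eq_of_eq_mul_right (by positivity)
  obtain ⟨u, rfl⟩ := Nat.exists_eq_add_of_le h1
  obtain ⟨v, rfl⟩ := Nat.exists_eq_add_of_le h2
  simp only [Nat.add_sub_cancel_left, pow_add]
  ring

theorem prod_id {a c2 c3 : ℕ → ℂ} (hl : Loc6 a c2 c3)
    (ham : ∀ ε : ℝ, 0 < ε → ∃ C : ℝ, ∀ n : ℕ, 1 ≤ n → ‖a n‖ ≤ C * (n : ℝ) ^ ε)
    (i j r s : ℕ) :
    ∑' p : ℕ × ℕ, LL c2 c3 p * Sp a (2 ^ i * 3 ^ j) (2 ^ r * 3 ^ s) (dd p) =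
      XX (l2 c2) (fun k => a (2 ^ k)) 2 i r * XX (l3 c3) (fun k => a (3 ^ k)) 3 j s := by
  have hs2 : Summable (fun k : ℕ => ‖if r ≤ i + k then
      l2 c2 k * (starRingEnd ℂ) (a (2 ^ (i + k - r))) * (((2 : ℕ) : ℂ) ^ k)⁻¹ else 0‖) := by
    obtain ⟨D, R, hR1, hR2, hb⟩ := hl.bd2
    refine XX_summable 2 le_rfl (l2 c2) (1 + 2 * |D|) R (by positivity) hR1
      (by exact_mod_cast hR2) (fun k => ?_) (ham _ (by norm_num)) i r
    have hRk : 1 ≤ R ^ k := one_le_pow₀ hR1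
    have h1 : ‖c2 k‖ ≤ |D| * R ^ k :=
      (hb k).trans (mul_le_mul_of_nonneg_right (le_abs_self D) (by linarith))
    have h2 : ‖(if k = 0 then (1 : ℂ) else 0)‖ ≤ 1 := by split_ifs <;> simp
    unfold l2
    calc ‖(if k = 0 then (1 : ℂ) else 0) - 2 * c2 k‖
        ≤ ‖(if k = 0 then (1 : ℂ) else 0)‖ + ‖2 * c2 k‖ := norm_sub_le _ _
      _ ≤ 1 + 2 * (|D| * R ^ k) := by
          rw [norm_mul, Complex.norm_two]
          linarith
      _ ≤ (1 + 2 * |D|) * R ^ k := by nlinarith [abs_nonneg D]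
  have hs3 : Summable (fun k : ℕ => ‖if s ≤ j + k then
      l3 c3 k * (starRingEnd ℂ) (a (3 ^ (j + k - s))) * (((3 : ℕ) : ℂ) ^ k)⁻¹ else 0‖) := by
    obtain ⟨D, R, hR1, hR2, hb⟩ := hl.bd3
    refine XX_summable 3 (by norm_num) (l3 c3) (2 + 3 * |D|) R (by positivity) hR1
      (by exact_mod_cast hR2) (fun k => ?_) (ham _ (by norm_num)) j s
    have hRk : 1 ≤ R ^ k := one_le_pow₀ hR1
    have h1 : ‖c3 k‖ ≤ |D| * R ^ k :=
      (hb k).trans (mul_le_mul_of_nonneg_right (le_abs_self D) (by linarith))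
    have h2 : ‖(if k = 0 then (2 : ℂ) else 0)‖ ≤ 2 := by split_ifs <;> simp
    unfold l3
    calc ‖(if k = 0 then (2 : ℂ) else 0) - 3 * c3 k‖
        ≤ ‖(if k = 0 then (2 : ℂ) else 0)‖ + ‖3 * c3 k‖ := norm_sub_le _ _
      _ ≤ 2 + 3 * (|D| * R ^ k) := by
          rw [norm_mul]
          have : ‖(3 : ℂ)‖ = 3 := by simp
          rw [this]
          linarith
      _ ≤ (2 + 3 * |D|) * R ^ k := by nlinarith [abs_nonneg D]
  unfold XX
  rw [tsum_mul_tsum_of_summable_norm hs2 hs3]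
  apply tsum_congr
  rintro ⟨k, l⟩
  have e1 : 2 ^ i * 3 ^ j * dd (k, l) = 2 ^ (i + k) * 3 ^ (j + l) := by
    unfold dd
    rw [pow_add, pow_add]
    ring
  unfold LL Sp
  rw [e1]
  by_cases h : r ≤ i + k ∧ s ≤ j + l
  · rw [if_pos ((dvd_23 _ _ _ _).mpr h), if_pos h.1, if_pos h.2, div_23 _ _ _ _ h.1 h.2]
    unfold cj dd
    rw [hl.mul _ _ (by positivity) (Nat.Coprime.pow _ _ (by norm_num)), map_mul]
    push_cast
    field_simp
  · rw [if_neg (fun h' => h ((dvd_23 _ _ _ _).mp h')), mul_zero]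
    rcases not_and_or.mp h with h' | h'
    · rw [if_neg h', zero_mul]
    · simp only [if_neg h', mul_zero]

end Pool.Agent.H11.SC
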