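import Mathlib
import Pool.Agent.H11.SC5.Prod

/-!
# VAN: vanishing of the coefficients of an Euler factor

Fix `r ≥ K0`.  `XX l α p 0 (r+s) = ∑_{k ≥ r+s} l k conj(α (k-r-s)) p^(-k) = 0` for all `s ≥ 0`.  Multiply by
`conj (c s)` and sum over `s`:
`0 = ∑_s ∑_{k ≥ r+s} conj(c s) l k conj(α(k-r-s)) p^(-k)
   = ∑_{k ≥ r} l k p^(-k) conj(∑_{s ≤ k-r} c s α(k-r-s)) = l r p^(-r)` by `hinv`.
Absolute convergence: `‖c s‖ ≤ D R^s ≤ |D| R^k`, `‖l k‖ ≤ D' R^k`, `‖α j‖ ≤ C ρ^j ≤ C ρ^k` with `ρ > 1`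
such that `R² ρ < p`; for each `k` there are at most `k + 1` values of `s`; and
`∑_k (k+1) (R² ρ/p)^k < ∞`.
-/

set_option autoImplicit false

namespace Pool.Agent.H11.SC

open Complex

theorem van (p : ℕ) (hp : 2 ≤ p) (α c l : ℕ → ℂ)
    (hinv : ∀ k : ℕ, ∑ j ∈ Finset.range (k + 1), c j * α (k - j) = if k = 0 then 1 else 0)
    (D D' R : ℝ) (hR1 : 1 ≤ R) (hR : R ^ 2 < p) (hc : ∀ k, ‖c k‖ ≤ D * R ^ k)
    (hl : ∀ k, ‖l k‖ ≤ D' * R ^ k)
    (hα : ∀ ρ : ℝ, 1 < ρ → ∃ C : ℝ, ∀ k : ℕ, ‖α k‖ ≤ C * ρ ^ k) (K0 : ℕ)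
    (h : ∀ r : ℕ, K0 ≤ r → XX l α p 0 r = 0) : ∀ k : ℕ, K0 ≤ k → l k = 0 := by
  intro r hr
  have hp0 : (0 : ℝ) < p := by
    have : 0 < p := by omega
    exact_mod_cast this
  have hpc : (p : ℂ) ≠ 0 := by
    have : p ≠ 0 := by omega
    exact_mod_cast this
  have hR0 : 0 < R := by linarith
  have hD : 0 ≤ D := by
    have := (norm_nonneg _).trans (hc 0)
    simpa using this
  have hD' : 0 ≤ D' := by
    have := (norm_nonneg _).trans (hl 0)
    simpa using this
  obtain ⟨ρ, hρ1, hρ⟩ : ∃ ρ : ℝ, 1 < ρ ∧ R ^ 2 * ρ < p := by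
    refine ⟨(1 + p / R ^ 2) / 2, ?_, ?_⟩
    · have : 1 < p / R ^ 2 := by rwa [lt_div_iff₀ (by positivity), one_mul]
      linarith
    · have e : R ^ 2 * ((1 + p / R ^ 2) / 2) = (R ^ 2 + p) / 2 := by
        field_simp
      rw [e]
      linarith
  have hρ0 : 0 < ρ := by linarith
  obtain ⟨C, hC⟩ := hα ρ hρ1
  have hC0 : 0 ≤ C := by
    have := (norm_nonneg _).trans (hC 0)
    simpa using this
  set θ : ℝ := R ^ 2 * ρ / p with hθ
  have hθ0 : 0 ≤ θ := by positivity
  have hθ1 : θ < 1 := by rwa [hθ, div_lt_one hp0]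
  set η : ℝ := Real.sqrt θ with hη
  have hη0 : 0 ≤ η := Real.sqrt_nonneg _
  have hη1 : η < 1 := by
    rw [hη, Real.sqrt_lt' one_pos]
    simpa using hθ1
  have hηθ : η ^ 2 = θ := Real.sq_sqrt hθ0
  set T : ℕ → ℕ → ℂ := fun s k =>
    if r + s ≤ k then (starRingEnd ℂ) (c s) * (l k * (starRingEnd ℂ) (α (k - (r + s))) *
      ((p : ℂ) ^ k)⁻¹) else 0 with hT
  have hTb : ∀ s k, ‖T s k‖ ≤ (D * D' * C) * (η ^ s * η ^ k) := by
    intro s k
    rw [hT]
    simp only
    split_ifs with hsk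
    · rw [norm_mul, norm_mul, norm_mul, RCLike.norm_conj, RCLike.norm_conj, norm_inv, norm_pow,
        Complex.norm_natCast]
      have h1 : ‖c s‖ ≤ D * R ^ k :=
        (hc s).trans (mul_le_mul_of_nonneg_left (pow_le_pow_right₀ hR1 (by omega)) hD)
      have h2 : ‖α (k - (r + s))‖ ≤ C * ρ ^ k :=
        (hC _).trans (mul_le_mul_of_nonneg_left (pow_le_pow_right₀ hρ1.le (by omega)) hC0)
      have h3 : ‖l k‖ ≤ D' * R ^ k := hl k
      calc ‖c s‖ * (‖l k‖ * ‖α (k - (r + s))‖ * ((p : ℝ) ^ k)⁻¹)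
          ≤ (D * R ^ k) * ((D' * R ^ k) * (C * ρ ^ k) * ((p : ℝ) ^ k)⁻¹) := by
            gcongr
        _ = (D * D' * C) * θ ^ k := by
            rw [hθ, div_pow, mul_pow, ← pow_mul, Nat.mul_comm 2 k, pow_mul]
            field_simp
        _ ≤ (D * D' * C) * (η ^ s * η ^ k) := by
            apply mul_le_mul_of_nonneg_left _ (by positivity)
            rw [← hηθ, ← pow_mul, ← pow_add]
            exact pow_le_pow_of_le_one hη0 hη1.le (by omega)
    · rw [norm_zero]
      positivity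
  have hsum : Summable (Function.uncurry T) := by
    have hg : Summable (fun x : ℕ × ℕ => (D * D' * C) * (η ^ x.1 * η ^ x.2)) := by
      apply Summable.mul_left
      exact Summable.mul_of_nonneg (summable_geometric_of_lt_one hη0 hη1)
        (summable_geometric_of_lt_one hη0 hη1) (fun _ => by positivity) (fun _ => by positivity)
    exact Summable.of_norm_bounded hg (fun x => hTb x.1 x.2)
  have hcomm := hsum.tsum_comm
  -- rows vanish
  have hrow : ∀ s, ∑' k, T s k = 0 := by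
    intro s
    have h1 := h (r + s) (by omega)
    unfold XX at h1
    have e : ∀ k, T s k = (starRingEnd ℂ) (c s) *
        (if r + s ≤ 0 + k then l k * (starRingEnd ℂ) (α (0 + k - (r + s))) * ((p : ℂ) ^ k)⁻¹
          else 0) := by
      intro k
      rw [hT]
      simp only [zero_add]
      split_ifs
      · rfl
      · rw [mul_zero]
    rw [tsum_congr e, tsum_mul_left, h1, mul_zero]
  -- columns
  have hcol : ∀ k, ∑' s, T s k = if k = r then l r * ((p : ℂ) ^ r)⁻¹ else 0 := by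
    intro k
    by_cases hk : r ≤ k
    · have hz : ∀ s ∉ Finset.range (k - r + 1), T s k = 0 := by
        intro s hs
        rw [Finset.mem_range] at hs
        rw [hT]
        simp only
        rw [if_neg (by omega)]
      rw [tsum_eq_sum hz]
      have e : ∀ s ∈ Finset.range (k - r + 1), T s k =
          l k * ((p : ℂ) ^ k)⁻¹ * (starRingEnd ℂ) (c s * α (k - r - s)) := by
        intro s hs
        rw [Finset.mem_range] at hs
        rw [hT]
        simp only
        rw [if_pos (by omega), map_mul, Nat.sub_sub]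
        ring
      rw [Finset.sum_congr rfl e, ← Finset.mul_sum, ← map_sum, hinv (k - r)]
      by_cases hkr : k = r
      · rw [if_pos (by omega), if_pos hkr, hkr, map_one, mul_one]
      · rw [if_neg (by omega), if_neg hkr, map_zero, mul_zero]
    · rw [if_neg (by omega)]
      have : ∀ s, T s k = 0 := by
        intro s
        rw [hT]
        simp only
        rw [if_neg (by omega)]
      rw [tsum_congr this, tsum_zero]
  rw [tsum_congr hcol, tsum_congr hrow, tsum_zero, tsum_ite_eq] at hcomm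
  have h2 : l r * ((p : ℂ) ^ r)⁻¹ = 0 := hcomm
  rcases mul_eq_zero.mp h2 with h3 | h3
  · exact h3
  · exact absurd h3 (inv_ne_zero (pow_ne_zero _ hpc))

end Pool.Agent.H11.SC
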