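import Mathlib
import Pool.Agent.H11.SC5.Van

/-!
# LOCA: both Euler factors are inverse polynomials

`‖l2 c2 k‖ ≤ 1 + 2‖c2 k‖ ≤ (1 + 2D) R^k` etc. (`R ≥ 1`), `c2 0 = 1`, `c3 0 = 1` (`inv2 0`, `inv3 0`,
`a 1 = 1`), `‖a (p^k)‖ ≤ C (p^k)^ε = C (p^ε)^k`, and `p^ε ≤ ρ` for small `ε`.
`locA2`: if `XX (l3 ..) 3 0 s = 0` for all `s ≥ 0`, then `van` (`K0 = 0`) gives `l3 c3 0 = 0`, but
`l3 c3 0 = 2 - 3 = -1`.  So there is `s` with `XX (l3 ..) 3 0 s ≠ 0`, hence `XX (l2 ..) 2 0 r = 0` for all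
`r ≥ K0`, and `van` gives `l2 c2 k = 0`, that is `c2 k = 0`, for `k ≥ K0` (`K0 ≥ 1`).
`locA3`: the same with the roles exchanged (`l2 c2 0 = 1 - 2 = -1`).
-/

set_option autoImplicit false

namespace Pool.Agent.H11.SC

open Complex

private theorem locA_growth (p : ℕ) (hp : 2 ≤ p) (a : ℕ → ℂ)
    (ham : ∀ ε : ℝ, 0 < ε → ∃ C : ℝ, ∀ n : ℕ, 1 ≤ n → ‖a n‖ ≤ C * (n : ℝ) ^ ε) :
    ∀ ρ : ℝ, 1 < ρ → ∃ C : ℝ, ∀ k : ℕ, ‖(fun k => a (p ^ k)) k‖ ≤ C * ρ ^ k := by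
  intro ρ hρ
  have hp1 : (1 : ℝ) < p := by
    have : 1 < p := by omega
    exact_mod_cast this
  have hp0 : (0 : ℝ) < p := by linarith
  have hlp : 0 < Real.log p := Real.log_pos hp1
  obtain ⟨C, hC⟩ := ham (Real.log ρ / Real.log p) (div_pos (Real.log_pos hρ) hlp)
  refine ⟨C, fun k => ?_⟩
  have h1 := hC (p ^ k) (Nat.one_le_pow _ _ (by omega))
  have e : ((p ^ k : ℕ) : ℝ) ^ (Real.log ρ / Real.log p) = ρ ^ k := by
    push_cast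
    rw [← Real.rpow_natCast (p : ℝ) k, ← Real.rpow_mul hp0.le, mul_comm, Real.rpow_mul hp0.le,
      Real.rpow_natCast]
    congr 1
    rw [Real.rpow_def_of_pos hp0, mul_div_cancel₀ _ hlp.ne', Real.exp_log (by linarith)]
  rw [e] at h1
  exact h1

private theorem locA_c0 {c α : ℕ → ℂ} (hα : α 0 = 1)
    (hinv : ∀ k : ℕ, ∑ j ∈ Finset.range (k + 1), c j * α (k - j) = if k = 0 then 1 else 0) :
    c 0 = 1 := by
  have := hinv 0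
  simpa [hα] using this

private theorem locA_l2 {c : ℕ → ℂ} {D R : ℝ} (hR : 1 ≤ R) (hc : ∀ k, ‖c k‖ ≤ D * R ^ k) (k : ℕ) :
    ‖l2 c k‖ ≤ (1 + 2 * D) * R ^ k := by
  unfold l2
  have h1 : ‖(if k = 0 then (1 : ℂ) else 0)‖ ≤ R ^ k := by
    split_ifs
    · rw [norm_one]
      exact one_le_pow₀ hR
    · rw [norm_zero]
      positivity
  have h2 : ‖(2 : ℂ) * c k‖ ≤ 2 * (D * R ^ k) := by
    rw [norm_mul]
    simp only [Complex.norm_ofNat]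
    exact mul_le_mul_of_nonneg_left (hc k) (by norm_num)
  calc ‖(if k = 0 then (1 : ℂ) else 0) - 2 * c k‖
      ≤ ‖(if k = 0 then (1 : ℂ) else 0)‖ + ‖2 * c k‖ := norm_sub_le _ _
    _ ≤ R ^ k + 2 * (D * R ^ k) := add_le_add h1 h2
    _ = (1 + 2 * D) * R ^ k := by ring

private theorem locA_l3 {c : ℕ → ℂ} {D R : ℝ} (hR : 1 ≤ R) (hc : ∀ k, ‖c k‖ ≤ D * R ^ k) (k : ℕ) :
    ‖l3 c k‖ ≤ (2 + 3 * D) * R ^ k := by
  unfold l3
  have h1 : ‖(if k = 0 then (2 : ℂ) else 0)‖ ≤ 2 * R ^ k := by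
    have : 1 ≤ R ^ k := one_le_pow₀ hR
    split_ifs
    · simp only [Complex.norm_ofNat]
      linarith
    · rw [norm_zero]
      positivity
  have h2 : ‖(3 : ℂ) * c k‖ ≤ 3 * (D * R ^ k) := by
    rw [norm_mul]
    simp only [Complex.norm_ofNat]
    exact mul_le_mul_of_nonneg_left (hc k) (by norm_num)
  calc ‖(if k = 0 then (2 : ℂ) else 0) - 3 * c k‖
      ≤ ‖(if k = 0 then (2 : ℂ) else 0)‖ + ‖3 * c k‖ := norm_sub_le _ _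
    _ ≤ 2 * R ^ k + 3 * (D * R ^ k) := add_le_add h1 h2
    _ = (2 + 3 * D) * R ^ k := by ring

theorem locA2 {a c2 c3 : ℕ → ℂ} (hl : Loc6 a c2 c3)
    (ham : ∀ ε : ℝ, 0 < ε → ∃ C : ℝ, ∀ n : ℕ, 1 ≤ n → ‖a n‖ ≤ C * (n : ℝ) ^ ε) (K0 : ℕ)
    (hK0 : 1 ≤ K0)
    (h : ∀ r s : ℕ, K0 ≤ r →
      XX (l2 c2) (fun k => a (2 ^ k)) 2 0 r * XX (l3 c3) (fun k => a (3 ^ k)) 3 0 s = 0) :
    ∀ k : ℕ, K0 ≤ k → c2 k = 0 := by
  have hα2 := locA_growth 2 le_rfl a ham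
  have hα3 := locA_growth 3 (by norm_num) a ham
  have h20 : c2 0 = 1 := locA_c0 (α := fun k => a (2 ^ k)) (by simpa using hl.one) hl.inv2
  have h30 : c3 0 = 1 := locA_c0 (α := fun k => a (3 ^ k)) (by simpa using hl.one) hl.inv3
  obtain ⟨D2, R2, hR2, hR2', hD2⟩ := hl.bd2
  obtain ⟨D3, R3, hR3, hR3', hD3⟩ := hl.bd3
  obtain ⟨s, hs⟩ : ∃ s : ℕ, XX (l3 c3) (fun k => a (3 ^ k)) 3 0 s ≠ 0 := by
    by_contra hcon
    push Not at hcon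
    have h0 := van 3 (by norm_num) (fun k => a (3 ^ k)) c3 (l3 c3) hl.inv3 D3 (2 + 3 * D3) R3 hR3
      (by exact_mod_cast hR3') hD3 (locA_l3 hR3 hD3) hα3 0 (fun r _ => hcon r) 0 le_rfl
    unfold l3 at h0
    rw [h30] at h0
    norm_num at h0
  have hX : ∀ r : ℕ, K0 ≤ r → XX (l2 c2) (fun k => a (2 ^ k)) 2 0 r = 0 := by
    intro r hr
    rcases mul_eq_zero.mp (h r s hr) with h1 | h1
    · exact h1
    · exact absurd h1 hs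
  intro k hk
  have h0 := van 2 le_rfl (fun k => a (2 ^ k)) c2 (l2 c2) hl.inv2 D2 (1 + 2 * D2) R2 hR2
    (by exact_mod_cast hR2') hD2 (locA_l2 hR2 hD2) hα2 K0 hX k hk
  unfold l2 at h0
  rw [if_neg (by omega)] at h0
  have h1 : (2 : ℂ) * c2 k = 0 := by linear_combination -h0
  rcases mul_eq_zero.mp h1 with h2 | h2
  · norm_num at h2
  · exact h2

theorem locA3 {a c2 c3 : ℕ → ℂ} (hl : Loc6 a c2 c3)
    (ham : ∀ ε : ℝ, 0 < ε → ∃ C : ℝ, ∀ n : ℕ, 1 ≤ n → ‖a n‖ ≤ C * (n : ℝ) ^ ε) (K0 : ℕ)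
    (hK0 : 1 ≤ K0)
    (h : ∀ r s : ℕ, K0 ≤ s →
      XX (l2 c2) (fun k => a (2 ^ k)) 2 0 r * XX (l3 c3) (fun k => a (3 ^ k)) 3 0 s = 0) :
    ∀ k : ℕ, K0 ≤ k → c3 k = 0 := by
  have hα2 := locA_growth 2 le_rfl a ham
  have hα3 := locA_growth 3 (by norm_num) a ham
  have h20 : c2 0 = 1 := locA_c0 (α := fun k => a (2 ^ k)) (by simpa using hl.one) hl.inv2
  have h30 : c3 0 = 1 := locA_c0 (α := fun k => a (3 ^ k)) (by simpa using hl.one) hl.inv3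
  obtain ⟨D2, R2, hR2, hR2', hD2⟩ := hl.bd2
  obtain ⟨D3, R3, hR3, hR3', hD3⟩ := hl.bd3
  obtain ⟨s, hs⟩ : ∃ s : ℕ, XX (l2 c2) (fun k => a (2 ^ k)) 2 0 s ≠ 0 := by
    by_contra hcon
    push Not at hcon
    have h0 := van 2 le_rfl (fun k => a (2 ^ k)) c2 (l2 c2) hl.inv2 D2 (1 + 2 * D2) R2 hR2
      (by exact_mod_cast hR2') hD2 (locA_l2 hR2 hD2) hα2 0 (fun r _ => hcon r) 0 le_rfl
    unfold l2 at h0
    rw [h20] at h0
    norm_num at h0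
  have hX : ∀ r : ℕ, K0 ≤ r → XX (l3 c3) (fun k => a (3 ^ k)) 3 0 r = 0 := by
    intro r hr
    rcases mul_eq_zero.mp (h s r hr) with h1 | h1
    · exact absurd h1 hs
    · exact h1
  intro k hk
  have h0 := van 3 (by norm_num) (fun k => a (3 ^ k)) c3 (l3 c3) hl.inv3 D3 (2 + 3 * D3) R3 hR3
    (by exact_mod_cast hR3') hD3 (locA_l3 hR3 hD3) hα3 K0 hX k hk
  unfold l3 at h0
  rw [if_neg (by omega)] at h0
  have h1 : (3 : ℂ) * c3 k = 0 := by linear_combination -h0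
  rcases mul_eq_zero.mp h1 with h2 | h2
  · norm_num at h2
  · exact h2

end Pool.Agent.H11.SC
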