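import Mathlib
import Pool.Agent.H11.SC5.LocA
import Pool.Agent.H11.SC5.Alg57
import Pool.Agent.H11.SC5.Alg6

/-!
# LOCB: the Euler factor at `2` for `q = 5, 7` and `q = 6`

`char_le_one`: `α_k = a(p^k)`.  From `hinv` and `c k = 0` for `k ≥ 3`: `α_1 = -c1`,
`α_(k+2) = -c1 α_(k+1) - c2 α_k`.  `D_k = α_(k+1)² - α_k α_(k+2)` satisfies `D_(k+1) = c2 D_k`, `D_0 = c2`, so
`D_k = c2^(k+1)` and `‖c2‖^(k+1) ≤ 2 (C ρ^(k+2))²` for every `ρ > 1`; `k`-th roots: `‖c2‖ ≤ ρ²`; `ρ → 1`.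
`loc57`: `hid` with `i = j = 0`, `r ≥ 3` (then the right side is `0`) and `locA2`, `locA3` give `c2 k = 0`,
`c3 k = 0` for `k ≥ 3`.  Put `α = a 2 = -c2 1`, `χ = c2 2`, `β = a 3 = -c3 1`, `ψ = c3 2`,
`A k = a(2^k)`, `B k = a(3^k)`, `Λ i = XX (l2 c2) A 2 i 2`, `Θ j = XX (l3 c3) B 3 j 2`.
`l2 c2 0 = -1`, `l2 c2 1 = 2α`, `l2 c2 2 = -2χ`, `l2 c2 k = 0` (`k ≥ 3`); `l3 c3 0 = -1`, `l3 c3 1 = 3β`,
`l3 c3 2 = -3ψ`.  The series `XX` has only the terms `k = 0, 1, 2` (`tsum_eq_sum`); e.g.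
`Λ 0 = l2 2/4 = -χ/2`, `Λ 1 = l2 1/2 + l2 2 conj α/4`, `Λ (i+2) = -conj(A i) + α conj(A (i+1)) - χ conj(A (i+2))/2`.
`hid` with `r = s = 2` is the hypothesis of `alg57` (`cj a (2^i 3^j) = conj(A i) conj(B j)` by `hl.mul`).
`loc6q`: `hid` with `i = j = 0`, `r ≥ 2` gives `c2 k = 0`, `c3 k = 0` for `k ≥ 2`, so `A k = α^k`,
`B k = β^k`; `Λ i = XX (l2 c2) A 2 i 1`: `Λ 0 = l2 1/2 = α`, `Λ (i+1) = -conj α^i + α conj α^(i+1)`.
-/

set_option autoImplicit false

namespace Pool.Agent.H11.SC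

open Complex

private theorem c_zero {p : ℕ} {a c : ℕ → ℂ} (h1 : a 1 = 1)
    (hinv : ∀ k : ℕ, ∑ j ∈ Finset.range (k + 1), c j * a (p ^ (k - j)) = if k = 0 then 1 else 0) :
    c 0 = 1 := by
  have := hinv 0
  simpa [h1] using this

private theorem rec_one {p : ℕ} {a c : ℕ → ℂ} (h1 : a 1 = 1)
    (hinv : ∀ k : ℕ, ∑ j ∈ Finset.range (k + 1), c j * a (p ^ (k - j)) = if k = 0 then 1 else 0) :
    a (p ^ 1) = -c 1 := by
  have h0 := c_zero h1 hinv
  have := hinv 1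
  rw [Finset.sum_range_succ, Finset.sum_range_one] at this
  simp only [Nat.sub_zero, Nat.sub_self, pow_zero, h1, h0, one_mul, mul_one, one_ne_zero,
    if_false] at this
  linear_combination this

private theorem rec_two {p : ℕ} {a c : ℕ → ℂ} (h1 : a 1 = 1)
    (hinv : ∀ k : ℕ, ∑ j ∈ Finset.range (k + 1), c j * a (p ^ (k - j)) = if k = 0 then 1 else 0)
    (h3 : ∀ k : ℕ, 3 ≤ k → c k = 0) (k : ℕ) :
    a (p ^ (k + 2)) = -c 1 * a (p ^ (k + 1)) - c 2 * a (p ^ k) := by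
  have h0 := c_zero h1 hinv
  have h := hinv (k + 2)
  have e : ∑ j ∈ Finset.range (k + 2 + 1), c j * a (p ^ (k + 2 - j)) =
      ∑ j ∈ Finset.range 3, c j * a (p ^ (k + 2 - j)) := by
    symm
    apply Finset.sum_subset (Finset.range_subset_range.2 (by omega))
    intro j _ hj
    rw [Finset.mem_range, not_lt] at hj
    rw [h3 j hj, zero_mul]
  rw [e, Finset.sum_range_succ, Finset.sum_range_succ, Finset.sum_range_one, h0] at h
  have e1 : k + 2 - 1 = k + 1 := by omega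
  have e2 : k + 2 - 2 = k := by omega
  rw [Nat.sub_zero, e1, e2, if_neg (by omega)] at h
  linear_combination h

private theorem rec_geo {p : ℕ} {a c : ℕ → ℂ} (h1 : a 1 = 1)
    (hinv : ∀ k : ℕ, ∑ j ∈ Finset.range (k + 1), c j * a (p ^ (k - j)) = if k = 0 then 1 else 0)
    (h2 : ∀ k : ℕ, 2 ≤ k → c k = 0) (k : ℕ) : a (p ^ k) = (-c 1) ^ k := by
  induction k with
  | zero => simpa using h1
  | succ k ih =>
    rcases Nat.eq_zero_or_pos k with hk | hk
    · subst hk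
      rw [zero_add, rec_one h1 hinv, pow_one]
    · obtain ⟨m, rfl⟩ : ∃ m, k = m + 1 := ⟨k - 1, by omega⟩
      rw [rec_two h1 hinv (fun k hk => h2 k (by omega)) m, ih, h2 2 le_rfl]
      ring

theorem char_le_one (p : ℕ) (hp : 2 ≤ p) (a c : ℕ → ℂ) (h1 : a 1 = 1)
    (ham : ∀ ε : ℝ, 0 < ε → ∃ C : ℝ, ∀ n : ℕ, 1 ≤ n → ‖a n‖ ≤ C * (n : ℝ) ^ ε)
    (hinv : ∀ k : ℕ, ∑ j ∈ Finset.range (k + 1), c j * a (p ^ (k - j)) = if k = 0 then 1 else 0)
    (h3 : ∀ k : ℕ, 3 ≤ k → c k = 0) : ‖c 2‖ ≤ 1 := by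
  by_contra hcon
  rw [not_le] at hcon
  have hD : ∀ k : ℕ, a (p ^ (k + 1)) ^ 2 - a (p ^ k) * a (p ^ (k + 2)) = c 2 ^ (k + 1) := by
    intro k
    induction k with
    | zero =>
      rw [rec_two h1 hinv h3 0, zero_add, rec_one h1 hinv, pow_zero, h1]
      ring
    | succ k ih =>
      have e1 := rec_two h1 hinv h3 (k + 1)
      have e2 := rec_two h1 hinv h3 k
      have e3 : k + 1 + 1 = k + 2 := by ring
      rw [e3] at e1 ⊢
      rw [e1]
      linear_combination (a (p ^ (k + 2))) * e2 + c 2 * ih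
  set x : ℝ := Real.sqrt ‖c 2‖ with hx
  have hx2 : x ^ 2 = ‖c 2‖ := Real.sq_sqrt (norm_nonneg _)
  have hx1 : 1 < x := by
    rw [hx]
    exact Real.lt_sqrt_of_sq_lt (by simpa using hcon)
  have hx0 : 0 < x := by linarith
  have hp0 : (1 : ℝ) < p := by exact_mod_cast (by omega : 1 < p)
  have hlp : 0 < Real.log p := Real.log_pos hp0
  have hlx : 0 < Real.log x := Real.log_pos hx1
  obtain ⟨C, hC⟩ := ham (Real.log x / (2 * Real.log p)) (by positivity)
  set ε : ℝ := Real.log x / (2 * Real.log p) with hε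
  have hε0 : 0 < ε := by rw [hε]; positivity
  have hC1 : 1 ≤ C := by
    have := hC 1 le_rfl
    simpa [h1] using this
  have hpe : ∀ j : ℕ, (((p ^ j : ℕ) : ℝ) ^ ε) ^ 2 = x ^ j := by
    intro j
    have hpp : (0 : ℝ) < ((p ^ j : ℕ) : ℝ) := by
      have : 0 < p ^ j := Nat.pow_pos (by omega)
      exact_mod_cast this
    rw [Real.rpow_def_of_pos hpp, ← Real.exp_nat_mul]
    rw [← Real.exp_log (pow_pos hx0 j)]
    congr 1
    rw [Real.log_pow]
    push_cast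
    rw [Real.log_pow, hε]
    field_simp
  have hbd : ∀ k j : ℕ, j ≤ k + 2 → ‖a (p ^ j)‖ ≤ C * ((p ^ (k + 2) : ℕ) : ℝ) ^ ε := by
    intro k j hj
    refine (hC _ (Nat.one_le_pow _ _ (by omega))).trans ?_
    refine mul_le_mul_of_nonneg_left ?_ (by linarith)
    refine Real.rpow_le_rpow (by positivity) ?_ hε0.le
    exact_mod_cast Nat.pow_le_pow_right (by omega) hj
  have hkey : ∀ k : ℕ, x ^ k ≤ 2 * C ^ 2 := by
    intro k
    set y : ℝ := C * ((p ^ (k + 2) : ℕ) : ℝ) ^ ε with hy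
    have hy2 : y ^ 2 = C ^ 2 * x ^ (k + 2) := by rw [hy, mul_pow, hpe]
    have h4 : ‖c 2‖ ^ (k + 1) ≤ 2 * y ^ 2 := by
      rw [← norm_pow, ← hD k]
      refine (norm_sub_le _ _).trans ?_
      rw [norm_pow, norm_mul]
      have b0 := hbd k k (by omega)
      have b1 := hbd k (k + 1) (by omega)
      have b2 := hbd k (k + 2) le_rfl
      have t1 : ‖a (p ^ (k + 1))‖ ^ 2 ≤ y ^ 2 := pow_le_pow_left₀ (norm_nonneg _) b1 2
      have t2 : ‖a (p ^ k)‖ * ‖a (p ^ (k + 2))‖ ≤ y * y :=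
        mul_le_mul b0 b2 (norm_nonneg _) ((norm_nonneg _).trans b0)
      nlinarith
    rw [hy2, ← hx2, ← pow_mul] at h4
    have h5 : x ^ (2 * (k + 1)) = x ^ k * x ^ (k + 2) := by
      rw [← pow_add]; congr 1; ring
    rw [h5] at h4
    have h6 : 0 < x ^ (k + 2) := pow_pos hx0 _
    nlinarith
  obtain ⟨n, hn⟩ := pow_unbounded_of_one_lt (2 * C ^ 2) hx1
  exact absurd (hkey n) (not_le.2 hn)

private theorem XX_three (l A : ℕ → ℂ) (p i r : ℕ) (h : ∀ k, 3 ≤ k → l k = 0) :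
    XX l A p i r = ∑ k ∈ Finset.range 3,
      if r ≤ i + k then l k * (starRingEnd ℂ) (A (i + k - r)) * ((p : ℂ) ^ k)⁻¹ else 0 := by
  unfold XX
  refine tsum_eq_sum fun k hk => ?_
  rw [Finset.mem_range, not_lt] at hk
  rw [h k hk]
  simp

private theorem XX_two (l A : ℕ → ℂ) (p i r : ℕ) (h : ∀ k, 2 ≤ k → l k = 0) :
    XX l A p i r = ∑ k ∈ Finset.range 2,
      if r ≤ i + k then l k * (starRingEnd ℂ) (A (i + k - r)) * ((p : ℂ) ^ k)⁻¹ else 0 := by
  unfold XX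
  refine tsum_eq_sum fun k hk => ?_
  rw [Finset.mem_range, not_lt] at hk
  rw [h k hk]
  simp

private theorem mul23 {a c2 c3 : ℕ → ℂ} (hl : Loc6 a c2 c3) (i j : ℕ) :
    a (2 ^ i * 3 ^ j) = a (2 ^ i) * a (3 ^ j) :=
  hl.mul _ _ (by positivity) (Nat.Coprime.pow _ _ (by norm_num))

theorem loc57 {a c2 c3 : ℕ → ℂ} (hl : Loc6 a c2 c3)
    (ham : ∀ ε : ℝ, 0 < ε → ∃ C : ℝ, ∀ n : ℕ, 1 ≤ n → ‖a n‖ ≤ C * (n : ℝ) ^ ε)
    (τ : ℂ) (hτ : ‖τ‖ = 1)
    (hid : ∀ i j r s : ℕ,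
      XX (l2 c2) (fun k => a (2 ^ k)) 2 i r * XX (l3 c3) (fun k => a (3 ^ k)) 3 j s =
        if r ≤ i + 2 ∧ s ≤ j + 2 then
          1 / 6 * cj a (2 ^ (i + 2 - r) * 3 ^ (j + 2 - s)) * mm τ (i + 2 - r) (j + 2 - s)
        else 0) :
    (∀ k : ℕ, 3 ≤ k → c2 k = 0) ∧ ‖c2 2‖ = 1 ∧ c2 1 = c2 2 * (starRingEnd ℂ) (c2 1) := by
  have hc2 : ∀ k : ℕ, 3 ≤ k → c2 k = 0 := by
    refine locA2 hl ham 3 (by norm_num) fun r s hr => ?_
    rw [hid, if_neg]
    omega
  have hc3 : ∀ k : ℕ, 3 ≤ k → c3 k = 0 := by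
    refine locA3 hl ham 3 (by norm_num) fun r s hr => ?_
    rw [hid, if_neg]
    omega
  have z2 := c_zero hl.one hl.inv2
  have z3 := c_zero hl.one hl.inv3
  have hl2 : ∀ k, 3 ≤ k → l2 c2 k = 0 := fun k hk => by
    unfold l2; rw [hc2 k hk, if_neg (by omega)]; ring
  have hl3 : ∀ k, 3 ≤ k → l3 c3 k = 0 := fun k hk => by
    unfold l3; rw [hc3 k hk, if_neg (by omega)]; ring
  have l20 : l2 c2 0 = -1 := by unfold l2; rw [z2, if_pos rfl]; ring
  have l21 : l2 c2 1 = -2 * c2 1 := by unfold l2; rw [if_neg (by norm_num)]; ring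
  have l22 : l2 c2 2 = -2 * c2 2 := by unfold l2; rw [if_neg (by norm_num)]; ring
  have l30 : l3 c3 0 = -1 := by unfold l3; rw [z3, if_pos rfl]; ring
  have l31 : l3 c3 1 = -3 * c3 1 := by unfold l3; rw [if_neg (by norm_num)]; ring
  have l32 : l3 c3 2 = -3 * c3 2 := by unfold l3; rw [if_neg (by norm_num)]; ring
  have a1 : a (2 ^ 0) = 1 := by simpa using hl.one
  have b1 : a (3 ^ 0) = 1 := by simpa using hl.one
  have hA1 := rec_one hl.one hl.inv2
  have hB1 := rec_one hl.one hl.inv3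
  have hmain := alg57 (-c2 1) (c2 2) (-c3 1) (c3 2) τ hτ
    (char_le_one 2 le_rfl a c2 hl.one ham hl.inv2 hc2)
    (char_le_one 3 (by norm_num) a c3 hl.one ham hl.inv3 hc3)
    (fun k => a (2 ^ k)) (fun k => a (3 ^ k))
    (fun i => XX (l2 c2) (fun k => a (2 ^ k)) 2 i 2)
    (fun j => XX (l3 c3) (fun k => a (3 ^ k)) 3 j 2)
    a1 hA1 (fun k => rec_two hl.one hl.inv2 hc2 k)
    b1 hB1 (fun k => rec_two hl.one hl.inv3 hc3 k)
    (by
      simp only [XX_three _ _ _ _ _ hl2, Finset.sum_range_succ, Finset.sum_range_zero, l22]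
      rw [if_neg (by norm_num), if_neg (by norm_num), if_pos (by norm_num)]
      rw [show 0 + 2 - 2 = 0 from rfl, a1]
      simp only [map_one]
      norm_num
      ring)
    (by
      simp only [XX_three _ _ _ _ _ hl2, Finset.sum_range_succ, Finset.sum_range_zero, l21, l22]
      rw [if_neg (by norm_num), if_pos (by norm_num), if_pos (by norm_num)]
      rw [show 1 + 1 - 2 = 0 from rfl, show 1 + 2 - 2 = 1 from rfl, a1, hA1]
      simp only [map_one, map_neg]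
      norm_num
      ring)
    (fun k => by
      simp only [XX_three _ _ _ _ _ hl2, Finset.sum_range_succ, Finset.sum_range_zero, l20, l21, l22]
      rw [if_pos (by omega), if_pos (by omega), if_pos (by omega)]
      rw [show k + 2 + 0 - 2 = k from by omega, show k + 2 + 1 - 2 = k + 1 from by omega,
        show k + 2 + 2 - 2 = k + 2 from by omega]
      norm_num
      ring)
    (by
      simp only [XX_three _ _ _ _ _ hl3, Finset.sum_range_succ, Finset.sum_range_zero, l32]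
      rw [if_neg (by norm_num), if_neg (by norm_num), if_pos (by norm_num)]
      rw [show 0 + 2 - 2 = 0 from rfl, b1]
      simp only [map_one]
      norm_num
      ring)
    (by
      simp only [XX_three _ _ _ _ _ hl3, Finset.sum_range_succ, Finset.sum_range_zero, l31, l32]
      rw [if_neg (by norm_num), if_pos (by norm_num), if_pos (by norm_num)]
      rw [show 1 + 1 - 2 = 0 from rfl, show 1 + 2 - 2 = 1 from rfl, b1, hB1]
      simp only [map_one, map_neg]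
      norm_num
      ring)
    (fun k => by
      simp only [XX_three _ _ _ _ _ hl3, Finset.sum_range_succ, Finset.sum_range_zero, l30, l31, l32]
      rw [if_pos (by omega), if_pos (by omega), if_pos (by omega)]
      rw [show k + 2 + 0 - 2 = k from by omega, show k + 2 + 1 - 2 = k + 1 from by omega,
        show k + 2 + 2 - 2 = k + 2 from by omega]
      norm_num
      ring)
    (fun i j => by
      rw [hid, if_pos ⟨by omega, by omega⟩, Nat.add_sub_cancel, Nat.add_sub_cancel]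
      unfold cj
      rw [mul23 hl, map_mul])
  refine ⟨hc2, hmain.1, ?_⟩
  have := hmain.2
  rw [map_neg] at this
  linear_combination -this

theorem loc6q {a c2 c3 : ℕ → ℂ} (hl : Loc6 a c2 c3)
    (ham : ∀ ε : ℝ, 0 < ε → ∃ C : ℝ, ∀ n : ℕ, 1 ≤ n → ‖a n‖ ≤ C * (n : ℝ) ^ ε)
    (ωm ωp κ : ℂ) (hωm : ‖ωm‖ = 1) (hωp : ‖ωp‖ = 1) (hκ : κ ≠ 0)
    (hid : ∀ i j r s : ℕ,
      XX (l2 c2) (fun k => a (2 ^ k)) 2 i r * XX (l3 c3) (fun k => a (3 ^ k)) 3 j s =
        if r ≤ i + 1 ∧ s ≤ j + 1 then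
          κ * a (2 ^ (i + 1 - r) * 3 ^ (j + 1 - s)) * nn ωm ωp (i + 1 - r) (j + 1 - s)
        else 0) :
    (∀ k : ℕ, 2 ≤ k → c2 k = 0) ∧ ‖c2 1‖ ^ 2 = 1 / 2 := by
  have hc2 : ∀ k : ℕ, 2 ≤ k → c2 k = 0 := by
    refine locA2 hl ham 2 (by norm_num) fun r s hr => ?_
    rw [hid, if_neg]
    omega
  have hc3 : ∀ k : ℕ, 2 ≤ k → c3 k = 0 := by
    refine locA3 hl ham 2 (by norm_num) fun r s hr => ?_
    rw [hid, if_neg]
    omega
  have z2 := c_zero hl.one hl.inv2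
  have z3 := c_zero hl.one hl.inv3
  have hl2 : ∀ k, 2 ≤ k → l2 c2 k = 0 := fun k hk => by
    unfold l2; rw [hc2 k hk, if_neg (by omega)]; ring
  have hl3 : ∀ k, 2 ≤ k → l3 c3 k = 0 := fun k hk => by
    unfold l3; rw [hc3 k hk, if_neg (by omega)]; ring
  have l20 : l2 c2 0 = -1 := by unfold l2; rw [z2, if_pos rfl]; ring
  have l21 : l2 c2 1 = -2 * c2 1 := by unfold l2; rw [if_neg (by norm_num)]; ring
  have l30 : l3 c3 0 = -1 := by unfold l3; rw [z3, if_pos rfl]; ring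
  have l31 : l3 c3 1 = -3 * c3 1 := by unfold l3; rw [if_neg (by norm_num)]; ring
  have hA := rec_geo hl.one hl.inv2 hc2
  have hB := rec_geo hl.one hl.inv3 hc3
  have hmain := alg6 (-c2 1) (-c3 1) ωm ωp κ hωm hωp hκ
    (fun i => XX (l2 c2) (fun k => a (2 ^ k)) 2 i 1)
    (fun j => XX (l3 c3) (fun k => a (3 ^ k)) 3 j 1)
    (by
      simp only [XX_two _ _ _ _ _ hl2, Finset.sum_range_succ, Finset.sum_range_zero, l21, hA]
      rw [if_neg (by norm_num), if_pos (by norm_num)]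
      rw [show 0 + 1 - 1 = 0 from rfl]
      simp only [pow_zero, map_one]
      norm_num
      ring)
    (fun k => by
      simp only [XX_two _ _ _ _ _ hl2, Finset.sum_range_succ, Finset.sum_range_zero, l20, l21, hA]
      rw [if_pos (by omega), if_pos (by omega)]
      rw [show k + 1 + 0 - 1 = k from by omega, show k + 1 + 1 - 1 = k + 1 from by omega]
      simp only [map_pow, map_neg]
      norm_num
      ring)
    (by
      simp only [XX_two _ _ _ _ _ hl3, Finset.sum_range_succ, Finset.sum_range_zero, l31, hB]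
      rw [if_neg (by norm_num), if_pos (by norm_num)]
      rw [show 0 + 1 - 1 = 0 from rfl]
      simp only [pow_zero, map_one]
      norm_num
      ring)
    (fun k => by
      simp only [XX_two _ _ _ _ _ hl3, Finset.sum_range_succ, Finset.sum_range_zero, l30, l31, hB]
      rw [if_pos (by omega), if_pos (by omega)]
      rw [show k + 1 + 0 - 1 = k from by omega, show k + 1 + 1 - 1 = k + 1 from by omega]
      simp only [map_pow, map_neg]
      norm_num
      ring)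
    (fun i j => by
      rw [hid, if_pos ⟨by omega, by omega⟩, Nat.add_sub_cancel, Nat.add_sub_cancel, mul23 hl,
        hA, hB])
  refine ⟨hc2, ?_⟩
  rwa [norm_neg] at hmain

end Pool.Agent.H11.SC
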