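import Mathlib
import Pool.Agent.H11.SC5.Lim
import Pool.Agent.H11.SC5.Prod
import Pool.Agent.H11.SC5.LocB
import Pool.Agent.H11.SC5.Asym5
import Pool.Agent.H11.SC5.Asym7
import Pool.Agent.H11.SC5.Asym6

/-!
# HID: the identities between the coefficients, and the Euler factor at `2` (assembly)
-/

set_option autoImplicit false

namespace Pool.Agent.H11.SC

open Complex

theorem hid_dvd (i j r s c : ℕ) :
    (2 ^ r * 3 ^ s ∣ 2 ^ i * 3 ^ j * (2 ^ c * 3 ^ c)) ↔ (r ≤ i + c ∧ s ≤ j + c) := by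
  have e : 2 ^ i * 3 ^ j * (2 ^ c * 3 ^ c) = 2 ^ (i + c) * 3 ^ (j + c) := by
    rw [pow_add, pow_add]; ring
  rw [e]
  constructor
  · intro h
    constructor
    · have h1 : 2 ^ r ∣ 2 ^ (i + c) * 3 ^ (j + c) := (Dvd.intro _ rfl).trans h
      have hco : Nat.Coprime (2 ^ r) (3 ^ (j + c)) :=
        Nat.Coprime.pow _ _ (by norm_num)
      exact (Nat.pow_dvd_pow_iff_le_right (by norm_num)).1 (hco.dvd_of_dvd_mul_right h1)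
    · have h1 : 3 ^ s ∣ 2 ^ (i + c) * 3 ^ (j + c) := (Dvd.intro_left _ rfl).trans h
      have hco : Nat.Coprime (3 ^ s) (2 ^ (i + c)) :=
        Nat.Coprime.pow _ _ (by norm_num)
      exact (Nat.pow_dvd_pow_iff_le_right (by norm_num)).1 (hco.dvd_of_dvd_mul_left h1)
  · rintro ⟨h1, h2⟩
    exact Nat.mul_dvd_mul (pow_dvd_pow 2 h1) (pow_dvd_pow 3 h2)

theorem hid_div (i j r s c : ℕ) (h : r ≤ i + c ∧ s ≤ j + c) :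
    2 ^ i * 3 ^ j * (2 ^ c * 3 ^ c) / (2 ^ r * 3 ^ s) = 2 ^ (i + c - r) * 3 ^ (j + c - s) := by
  apply Nat.div_eq_of_eq_mul_left (by positivity)
  have e1 : 2 ^ (i + c - r) * 2 ^ r = 2 ^ (i + c) := by
    rw [← pow_add, Nat.sub_add_cancel h.1]
  have e2 : 3 ^ (j + c - s) * 3 ^ s = 3 ^ (j + c) := by
    rw [← pow_add, Nat.sub_add_cancel h.2]
  calc 2 ^ i * 3 ^ j * (2 ^ c * 3 ^ c) = 2 ^ (i + c) * 3 ^ (j + c) := by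
        rw [pow_add, pow_add]; ring
    _ = (2 ^ (i + c - r) * 2 ^ r) * (3 ^ (j + c - s) * 3 ^ s) := by rw [e1, e2]
    _ = _ := by ring

/-- the identity, `D0 = 6^c` -/
theorem hid_gen {q : ℝ} {a b c2 c3 : ℕ → ℂ} {ωm ωp β1 β2 : ℂ} {c : ℕ} (hq : 0 < q)
    (hl : Loc6 a c2 c3) (h : CStep q a ωm ωp)
    (ham : ∀ ε : ℝ, 0 < ε → ∃ C : ℝ, ∀ n : ℕ, 1 ≤ n → ‖a n‖ ≤ C * (n : ℝ) ^ ε)
    (hbm : ∀ ε : ℝ, 0 < ε → ∃ C : ℝ, ∀ n : ℕ, 1 ≤ n → ‖b n‖ ≤ C * (n : ℝ) ^ ε)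
    (hA : Asym q a b ωm (2 ^ c * 3 ^ c) β1 β2) (i j r s : ℕ) :
    XX (l2 c2) (fun k => a (2 ^ k)) 2 i r * XX (l3 c3) (fun k => a (3 ^ k)) 3 j s =
      if r ≤ i + c ∧ s ≤ j + c then
        ((2 ^ c * 3 ^ c : ℕ) : ℂ) ^ 3 * b (2 ^ (i + c - r) * 3 ^ (j + c - s)) *
          (β1 * ee (-(((2 ^ (i + c - r) * 3 ^ (j + c - s) : ℕ) : ℂ) / 6)) +
           β2 * ee (((2 ^ (i + c - r) * 3 ^ (j + c - s) : ℕ) : ℂ) / 6))
      else 0 := by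
  rw [← prod_id hl ham i j r s, limit_id hq hl h ham hbm (Nat.one_le_iff_ne_zero.2 (by positivity))
    hA (2 ^ i * 3 ^ j) (2 ^ r * 3 ^ s) (Nat.one_le_iff_ne_zero.2 (by positivity))
    (Nat.one_le_iff_ne_zero.2 (by positivity))]
  by_cases hd : r ≤ i + c ∧ s ≤ j + c
  · rw [if_pos ((hid_dvd i j r s c).2 hd), if_pos hd, hid_div i j r s c hd]
  · rw [if_neg (fun h' => hd ((hid_dvd i j r s c).1 h')), if_neg hd]

theorem euler57 {q : ℝ} (hq : q = 5 ∨ q = 7) {a c2 c3 : ℕ → ℂ} {ωm ωp : ℂ}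
    (hl : Loc6 a c2 c3) (h : CStep q a ωm ωp)
    (ham : ∀ ε : ℝ, 0 < ε → ∃ C : ℝ, ∀ n : ℕ, 1 ≤ n → ‖a n‖ ≤ C * (n : ℝ) ^ ε) :
    (∀ k : ℕ, 3 ≤ k → c2 k = 0) ∧ ‖c2 2‖ = 1 ∧ c2 1 = c2 2 * (starRingEnd ℂ) (c2 1) := by
  have h36 : (2 ^ 2 * 3 ^ 2 : ℕ) = 36 := by norm_num
  have key : ∀ (τ : ℂ), ‖τ‖ = 1 →
      Asym q a (cj a) ωm (2 ^ 2 * 3 ^ 2) (((6 : ℂ) ^ 7)⁻¹ * τ)
        (((6 : ℂ) ^ 7)⁻¹ * (starRingEnd ℂ) τ) →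
      (∀ k : ℕ, 3 ≤ k → c2 k = 0) ∧ ‖c2 2‖ = 1 ∧ c2 1 = c2 2 * (starRingEnd ℂ) (c2 1) := by
    intro τ hτ hA
    refine loc57 hl ham τ hτ (fun i j r s => ?_)
    rw [hid_gen (c := 2) (by rcases hq with rfl | rfl <;> norm_num) hl h ham (fun ε hε => cj_ram a ε (ham ε hε)) hA i j r s]
    by_cases hd : r ≤ i + 2 ∧ s ≤ j + 2
    · rw [if_pos hd, if_pos hd]
      unfold mm
      push_cast
      ring
    · rw [if_neg hd, if_neg hd]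
  rcases hq with rfl | rfl
  · refine key 1 (by norm_num) ?_
    rw [h36]
    simpa using asym5 h
  · refine key (-ωp * (starRingEnd ℂ) ωm) ?_ ?_
    · rw [norm_mul, norm_neg, h.hp, RCLike.norm_conj, h.hm, mul_one]
    · rw [h36]
      have := asym7 h
      simpa using this

theorem euler6 {a c2 c3 : ℕ → ℂ} {ωm ωp : ℂ}
    (hl : Loc6 a c2 c3) (h : CStep 6 a ωm ωp)
    (ham : ∀ ε : ℝ, 0 < ε → ∃ C : ℝ, ∀ n : ℕ, 1 ≤ n → ‖a n‖ ≤ C * (n : ℝ) ^ ε) :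
    (∀ k : ℕ, 2 ≤ k → c2 k = 0) ∧ ‖c2 1‖ ^ 2 = 1 / 2 := by
  have h6 : (2 ^ 1 * 3 ^ 1 : ℕ) = 6 := by norm_num
  have hs : ((Real.sqrt 6 : ℝ) : ℂ) ≠ 0 := by
    have : (0 : ℝ) < Real.sqrt 6 := Real.sqrt_pos.2 (by norm_num)
    exact_mod_cast this.ne'
  refine loc6q hl ham ωm ωp (-I / (Real.sqrt 6 : ℝ)) h.hm h.hp
    (div_ne_zero (neg_ne_zero.2 I_ne_zero) hs) (fun i j r s => ?_)
  have hA := asym6 h
  rw [← h6] at hA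
  rw [hid_gen (c := 1) (by norm_num) hl h ham ham hA i j r s]
  by_cases hd : r ≤ i + 1 ∧ s ≤ j + 1
  · rw [if_pos hd, if_pos hd]
    unfold nn
    push_cast
    field_simp
    ring
  · rw [if_neg hd, if_neg hd]

end Pool.Agent.H11.SC
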