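import Mathlib
import Pool.Agent.H11.SC5.Defs5
import Pool.Agent.H11.SC.Step
import Pool.Agent.H11.SC.Conj

/-!
# STEPC: one step in complex form

LEFT HALF.  This is the proof of `one_step` (Pool/Agent/H11/SC/Step.lean), stopped before the
norms are taken: with `ξ = -iz`, `z' = -1/(qz)`, `(2πB)^2 = q`, `√q = 2πB` (`B > 0`),
`gs a 3 ξ = ω (B^7)⁻¹ ((2πξ)^7)⁻¹ gs (cj a) 3 (-i z') + (term 2) + (VI)`, and
`(B^7)⁻¹ ((2πξ)^7)⁻¹ = ((√q (-iz))^7)⁻¹ = JJ q z`; `y^(7/2) (|term 2| + |VI|) ≤ C y^(1/4)` is shown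
there.  So `‖ff a z - ω JJ q z ff (cj a) z'‖ ≤ C y^(1/4 - 7/2) = C y^(-13/4)` for `Re z ≤ 0`.
Best: copy the proof of `one_step` and change the last lines.
RIGHT HALF.  Apply the left half to `h.conj` (`cj_cj`): constant `ω'` with
`‖ff (cj a) z - ω' JJ q z ff a z'‖ ≤ C y^(-13/4)` for `Re z ≤ 0`.  Put `ωm = ω`, `ωp = conj ω'`
(`conj ωp = ω'`).  For `Re z ≥ 0` apply these at `-conj z` (real part `≤ 0`, same imaginary part and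
norm): `ff a z = conj (ff (cj a) (-conj z))` (`gs_conj`, `-i(-conj z) = conj(-iz)`),
`JJ q (-conj z) = conj (JJ q z)`, `-1/(q(-conj z)) = -conj(z')`.  So
`ff a z = conj (ω' JJ q (-conj z) ff a (-conj z')) + O = ωp JJ q z ff (cj a) z' + O`, and in the same way
`ff (cj a) z = conj ω JJ q z ff a z' + O`.  `C` = maximum of the two constants.
-/

set_option autoImplicit false

namespace Pool.Agent.H11.SC

open Complex Pool.Agent.H11.Selberg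

variable {a : ℕ → ℂ} {F : ℂ → ℂ} {Q : ℝ} {k : ℕ} {lam : Fin k → ℝ} {mu : Fin k → ℂ} {ε : ℂ}

theorem cstep_left (h : FEq a F Q lam mu ε) : ∃ ω : ℂ, ‖ω‖ = 1 ∧ ∃ C : ℝ, ∀ z : ℂ, 0 < z.im →
    z.im ≤ 1 → ‖z‖ ≤ 2 → z.re ≤ 0 →
    ‖ff a z - ω * JJ ((2 * Real.pi * Bp Q lam) ^ 2) z *
      ff (cj a) (-1 / (((2 * Real.pi * Bp Q lam) ^ 2 : ℝ) * z))‖ ≤ C * z.im ^ (-(13 / 4) : ℝ) := by
  have hB : 0 < Bp Q lam := Bp_pos' h.Qpos h.lampos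
  set B : ℝ := Bp Q lam with hBdef
  have hπ : (0:ℝ) < Real.pi := Real.pi_pos
  set q : ℝ := (2 * Real.pi * B) ^ 2 with hqdef
  have hq : 0 < q := by positivity
  obtain ⟨ω, κ, C0, hω, h1, h2⟩ := rho_bound h 3 (by norm_num) (1/8) (by norm_num) (by norm_num)
  obtain ⟨Cg, hCg⟩ := gamma_bound (23/8) (23/8) (by norm_num)
  have hcja : ∃ C : ℝ, ∀ n : ℕ, 1 ≤ n → ‖cj a n‖ ≤ C * (n : ℝ) ^ (1/8 : ℝ) := by
    obtain ⟨C, hC⟩ := h.ram (1/8) (by norm_num)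
    refine ⟨C, fun n hn => ?_⟩
    unfold cj
    rw [Complex.norm_conj]
    exact hC n hn
  obtain ⟨Cb, hCb⟩ := gs_bound (cj a) 2 (by norm_num) (1/8) (by norm_num) hcja
  obtain ⟨D, hD⟩ := VI_bound (|C0| * |Cg|) (23/8) (13/8) (29/8) (by norm_num)
  -- the final constant
  refine ⟨ω, hω, ‖κ‖ * (B ^ 5)⁻¹ * ((2 * Real.pi) ^ 6)⁻¹ * |Cb| * q ^ (25/8 : ℝ) * 2 + |D|, ?_⟩
  intro z hy0 hy1 hz2 hx
  set y : ℝ := z.im with hy
  set ξ : ℂ := -(I * z) with hξdef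
  have hξre : ξ.re = y := by simp [hξdef, hy]
  have hξim : ξ.im = -z.re := by simp [hξdef]
  have hξn : ‖ξ‖ = ‖z‖ := by rw [hξdef, norm_neg, norm_mul, Complex.norm_I, one_mul]
  have hzn : y ≤ ‖z‖ := (le_abs_self _).trans (Complex.abs_im_le_norm z)
  have hzn0 : 0 < ‖z‖ := lt_of_lt_of_le hy0 hzn
  have hz0 : z ≠ 0 := norm_pos_iff.mp hzn0
  have hid := id_complex h 3 (by norm_num) (1/8) (by norm_num) (by norm_num) ω κ C0 h1 h2 ξ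
    (by rw [hξre]; exact hy0)
  have hξ0 : ξ ≠ 0 := by
    rw [← norm_pos_iff, hξn]; exact hzn0
  set z' : ℂ := -1 / (((2 * Real.pi * B) ^ 2 : ℝ) * z) with hz'
  have hz'q : z' = -1 / ((q : ℂ) * z) := by rw [hz', hqdef]
  have hz'im : z'.im = y / (q * ‖z‖ ^ 2) := by rw [hz'q, step_im]
  have hz'pos : 0 < z'.im := by rw [hz'im]; positivity
  have hqC : (q : ℂ) ≠ 0 := by exact_mod_cast hq.ne'
  have harg : 1 / (4 * (Real.pi : ℂ) ^ 2 * (B : ℂ) ^ 2 * ξ) = -(I * z') := by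
    have e1 : (4 * (Real.pi : ℂ) ^ 2 * (B : ℂ) ^ 2 * ξ) = -(I * ((q:ℂ) * z)) := by
      rw [hξdef, hqdef]; push_cast; ring
    rw [e1, hz'q]
    have hw : (q:ℂ) * z ≠ 0 := mul_ne_zero hqC hz0
    have hI : (I:ℂ) ≠ 0 := Complex.I_ne_zero
    field_simp
    rw [Complex.I_sq]
  rw [harg] at hid
  have e1 : ((3:ℕ):ℝ) - 1/8 = 23/8 := by norm_num
  rw [e1] at hid
  set G : ℝ → ℂ := fun t => rho F B (1/8) 3 ω κ t * Gamma (((3:ℕ):ℂ) - ((1/8:ℝ):ℂ) + t * I)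
    with hG
  have hGam : ∀ t : ℝ, (((3:ℕ):ℂ) - ((1/8:ℝ):ℂ) + t * I) = (((23/8:ℝ):ℂ) + t*I) := by
    intro t; push_cast; ring
  have hgn : ∀ t : ℝ, ‖Gamma (((3:ℕ):ℂ) - ((1/8:ℝ):ℂ) + t * I)‖ ≤
      |Cg| * (1 + |t|) ^ (19/8 : ℝ) * Real.exp (-(Real.pi / 2 * |t|)) := by
    intro t
    rw [hGam t]
    have := hCg (23/8) t le_rfl le_rfl
    have e2 : (23/8 : ℝ) - 1/2 = 19/8 := by norm_num
    rw [e2] at this
    refine this.trans ?_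
    apply mul_le_mul_of_nonneg_right _ (Real.exp_nonneg _)
    apply mul_le_mul_of_nonneg_right (le_abs_self _)
    positivity
  have hV := hD G ?_ ?_ ξ (by rw [hξre]; exact hy0) (by rw [hξim]; linarith)
  rotate_left
  · intro t ht
    have b1 := h1 t ht
    have b2 := hgn t
    rw [abs_of_nonneg ht] at b2
    have e3 : (2 * (1/8) - 1 : ℝ) = -(3/4) := by norm_num
    rw [e3] at b1
    have b1' : ‖rho F B (1/8) 3 ω κ t‖ ≤ |C0| * (1 + t) ^ (-(3/4) : ℝ) := by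
      refine b1.trans ?_
      apply mul_le_mul_of_nonneg_right (le_abs_self _)
      positivity
    rw [hG]
    show ‖rho F B (1/8) 3 ω κ t * Gamma (((3:ℕ):ℂ) - ((1/8:ℝ):ℂ) + t * I)‖ ≤ _
    rw [norm_mul]
    have h1t : (0:ℝ) < 1 + t := by linarith
    calc ‖rho F B (1/8) 3 ω κ t‖ * ‖Gamma (((3:ℕ):ℂ) - ((1/8:ℝ):ℂ) + t * I)‖ ≤
        (|C0| * (1 + t) ^ (-(3/4) : ℝ)) *
          (|Cg| * (1 + t) ^ (19/8 : ℝ) * Real.exp (-(Real.pi / 2 * t))) :=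
          mul_le_mul b1' b2 (norm_nonneg _) (by positivity)
      _ = |C0| * |Cg| * ((1 + t) ^ (-(3/4) : ℝ) * (1 + t) ^ (19/8 : ℝ)) *
          Real.exp (-(Real.pi / 2 * t)) := by ring
      _ = |C0| * |Cg| * (1 + t) ^ (13/8 : ℝ) * Real.exp (-(Real.pi / 2 * t)) := by
          rw [← Real.rpow_add h1t]; norm_num
  · intro t ht
    have b1 := h2 t ht
    have b2 := hgn t
    have e3 : (1 + 2 * (1/8) : ℝ) = 5/4 := by norm_num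
    rw [e3] at b1
    have b1' : ‖rho F B (1/8) 3 ω κ t‖ ≤ |C0| * (1 + |t|) ^ (5/4 : ℝ) := by
      refine b1.trans ?_
      apply mul_le_mul_of_nonneg_right (le_abs_self _)
      positivity
    rw [hG]
    show ‖rho F B (1/8) 3 ω κ t * Gamma (((3:ℕ):ℂ) - ((1/8:ℝ):ℂ) + t * I)‖ ≤ _
    rw [norm_mul]
    have h1t : (0:ℝ) < 1 + |t| := by positivity
    calc ‖rho F B (1/8) 3 ω κ t‖ * ‖Gamma (((3:ℕ):ℂ) - ((1/8:ℝ):ℂ) + t * I)‖ ≤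
        (|C0| * (1 + |t|) ^ (5/4 : ℝ)) *
          (|Cg| * (1 + |t|) ^ (19/8 : ℝ) * Real.exp (-(Real.pi / 2 * |t|))) :=
          mul_le_mul b1' b2 (norm_nonneg _) (by positivity)
      _ = |C0| * |Cg| * ((1 + |t|) ^ (5/4 : ℝ) * (1 + |t|) ^ (19/8 : ℝ)) *
          Real.exp (-(Real.pi / 2 * |t|)) := by ring
      _ = |C0| * |Cg| * (1 + |t|) ^ (29/8 : ℝ) * Real.exp (-(Real.pi / 2 * |t|)) := by
          rw [← Real.rpow_add h1t]; norm_num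
  rw [hξre, hξn] at hV
  -- names for the three terms
  set g3 : ℂ := gs (cj a) 3 (-(I * z')) with hg3
  have hb := hCb (-(I * z')) (by simpa using hz'pos)
  have hre' : (-(I * z')).re = z'.im := by simp
  rw [hre'] at hb
  set g2 : ℂ := gs (cj a) (3 - 1) (-(I * z')) with hg2
  have hb2 : ‖g2‖ ≤ Cb * z'.im ^ (-(((2:ℕ):ℝ) + 1 + 1/8)) := hb
  set T1 : ℂ := ω * (((B ^ (1 + 2 * 3) : ℝ) : ℂ)⁻¹ * ((2 * (Real.pi : ℂ) * ξ) ^ (1 + 3 + 3))⁻¹ * g3)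
    with hT1
  set T2 : ℂ := ω * κ * (((B ^ (1 + 2 * (3 - 1)) : ℝ) : ℂ)⁻¹ *
    ((2 * (Real.pi : ℂ) * ξ) ^ (1 + (3 - 1) + 3))⁻¹ * g2) with hT2
  set T3 : ℂ := VI G (23/8) ξ with hT3
  have hid' : gs a 3 ξ = T1 + T2 + T3 := hid
  have hn2 : ‖(2 * (Real.pi : ℂ) * ξ)‖ = 2 * Real.pi * ‖z‖ := by
    rw [norm_mul, norm_mul, hξn]
    simp [abs_of_pos hπ]
  have hT1n : ‖T1‖ = (B ^ 7)⁻¹ * ((2 * Real.pi * ‖z‖) ^ 7)⁻¹ * ‖g3‖ := by
    rw [hT1, norm_mul, norm_mul, norm_mul, hω, one_mul, norm_inv, norm_inv, norm_pow, hn2,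
      Complex.norm_real, Real.norm_of_nonneg (by positivity)]
  have hT2n : ‖T2‖ = ‖κ‖ * ((B ^ 5)⁻¹ * ((2 * Real.pi * ‖z‖) ^ 6)⁻¹ * ‖g2‖) := by
    rw [hT2, norm_mul, norm_mul, norm_mul, norm_mul, hω, one_mul, norm_inv, norm_inv, norm_pow,
      hn2, Complex.norm_real, Real.norm_of_nonneg (by positivity)]
  have hyq : ∀ s : ℝ, 1/4 ≤ s → y ^ s ≤ y ^ (1/4 : ℝ) := fun s hs =>
    Real.rpow_le_rpow_of_exponent_ge hy0 hy1 hs
  have hy14 : 0 < y ^ (1/4 : ℝ) := Real.rpow_pos_of_pos hy0 _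
  -- second term
  have hA : y ^ (7/2 : ℝ) * ‖T2‖ ≤
      (‖κ‖ * (B ^ 5)⁻¹ * ((2 * Real.pi) ^ 6)⁻¹ * |Cb| * q ^ (25/8 : ℝ) * 2) * y ^ (1/4 : ℝ) := by
    have hb3 : ‖g2‖ ≤ |Cb| * (q ^ (25/8 : ℝ) * ‖z‖ ^ (25/4 : ℝ) * y ^ (-(25/8) : ℝ)) := by
      refine hb2.trans ?_
      have e6 : (-(((2:ℕ):ℝ) + 1 + 1/8)) = -(25/8) := by norm_num
      rw [e6]
      have e7 : z'.im ^ (-(25/8) : ℝ) = q ^ (25/8 : ℝ) * ‖z‖ ^ (25/4 : ℝ) * y ^ (-(25/8) : ℝ) := by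
        rw [hz'im, Real.div_rpow hy0.le (by positivity), Real.mul_rpow hq.le (by positivity),
          Real.rpow_neg hq.le, Real.rpow_neg (by positivity : (0:ℝ) ≤ ‖z‖ ^ 2), ← Real.rpow_two,
          ← Real.rpow_mul hzn0.le]
        have e8 : (2 * (25/8) : ℝ) = 25/4 := by norm_num
        rw [e8]
        have p1 : 0 < q ^ (25/8 : ℝ) := Real.rpow_pos_of_pos hq _
        have p2 : 0 < ‖z‖ ^ (25/4 : ℝ) := Real.rpow_pos_of_pos hzn0 _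
        field_simp
      rw [e7]
      apply mul_le_mul_of_nonneg_right (le_abs_self _)
      positivity
    rw [hT2n]
    have hz6 : ((2 * Real.pi * ‖z‖) ^ 6)⁻¹ = ((2 * Real.pi) ^ 6)⁻¹ * ‖z‖ ^ (-6 : ℝ) := by
      rw [mul_pow, mul_inv]
      congr 1
      rw [Real.rpow_neg hzn0.le]
      congr 1
      have : (6:ℝ) = ((6:ℕ):ℝ) := by norm_num
      rw [this, Real.rpow_natCast]
    rw [hz6]
    calc y ^ (7/2 : ℝ) * (‖κ‖ * ((B ^ 5)⁻¹ * (((2 * Real.pi) ^ 6)⁻¹ * ‖z‖ ^ (-6 : ℝ)) * ‖g2‖))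
        ≤ y ^ (7/2 : ℝ) * (‖κ‖ * ((B ^ 5)⁻¹ * (((2 * Real.pi) ^ 6)⁻¹ * ‖z‖ ^ (-6 : ℝ)) *
            (|Cb| * (q ^ (25/8 : ℝ) * ‖z‖ ^ (25/4 : ℝ) * y ^ (-(25/8) : ℝ))))) := by
          gcongr
      _ = (‖κ‖ * (B ^ 5)⁻¹ * ((2 * Real.pi) ^ 6)⁻¹ * |Cb| * q ^ (25/8 : ℝ)) *
            ((y ^ (7/2 : ℝ) * y ^ (-(25/8) : ℝ)) * (‖z‖ ^ (-6 : ℝ) * ‖z‖ ^ (25/4 : ℝ))) := by ring
      _ = (‖κ‖ * (B ^ 5)⁻¹ * ((2 * Real.pi) ^ 6)⁻¹ * |Cb| * q ^ (25/8 : ℝ)) *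
            (y ^ (3/8 : ℝ) * ‖z‖ ^ (1/4 : ℝ)) := by
          rw [← Real.rpow_add hy0, ← Real.rpow_add hzn0]; norm_num
      _ ≤ (‖κ‖ * (B ^ 5)⁻¹ * ((2 * Real.pi) ^ 6)⁻¹ * |Cb| * q ^ (25/8 : ℝ)) *
            (y ^ (1/4 : ℝ) * 2) := by
          apply mul_le_mul_of_nonneg_left _ (by positivity)
          apply mul_le_mul (hyq _ (by norm_num)) _ (by positivity) (by positivity)
          calc ‖z‖ ^ (1/4 : ℝ) ≤ 2 ^ (1/4 : ℝ) := Real.rpow_le_rpow hzn0.le hz2 (by norm_num)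
            _ ≤ 2 ^ (1 : ℝ) := Real.rpow_le_rpow_of_exponent_le (by norm_num) (by norm_num)
            _ = 2 := by norm_num
      _ = _ := by ring
  -- third term
  have hBt : y ^ (7/2 : ℝ) * ‖T3‖ ≤ |D| * y ^ (1/4 : ℝ) := by
    have e9 : (13/8 + 1 : ℝ) = 21/8 := by norm_num
    rw [e9, Real.div_rpow hzn0.le hy0.le] at hV
    calc y ^ (7/2 : ℝ) * ‖T3‖ ≤ y ^ (7/2 : ℝ) *
          (|D| * ‖z‖ ^ (-(23/8) : ℝ) * (‖z‖ ^ (21/8 : ℝ) / y ^ (21/8 : ℝ))) := by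
          apply mul_le_mul_of_nonneg_left _ (by positivity)
          refine hV.trans ?_
          apply mul_le_mul_of_nonneg_right _ (by positivity)
          apply mul_le_mul_of_nonneg_right (le_abs_self _) (by positivity)
      _ = |D| * ((y ^ (7/2 : ℝ) * y ^ (-(21/8) : ℝ)) * (‖z‖ ^ (-(23/8) : ℝ) * ‖z‖ ^ (21/8 : ℝ))) := by
          rw [Real.rpow_neg hy0.le (21/8)]; ring
      _ = |D| * (y ^ (7/8 : ℝ) * ‖z‖ ^ (-(1/4) : ℝ)) := by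
          rw [← Real.rpow_add hy0, ← Real.rpow_add hzn0]; norm_num
      _ ≤ |D| * (y ^ (7/8 : ℝ) * y ^ (-(1/4) : ℝ)) := by
          apply mul_le_mul_of_nonneg_left _ (abs_nonneg _)
          apply mul_le_mul_of_nonneg_left _ (by positivity)
          exact Real.rpow_le_rpow_of_nonpos hy0 hzn (by norm_num)
      _ = |D| * y ^ (5/8 : ℝ) := by rw [← Real.rpow_add hy0]; norm_num
      _ ≤ _ := mul_le_mul_of_nonneg_left (hyq _ (by norm_num)) (abs_nonneg _)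
  have hT1J : T1 = ω * JJ ((2 * Real.pi * B) ^ 2) z * ff (cj a) z' := by
    have e10 : ff (cj a) z' = g3 := rfl
    have e11 : Real.sqrt ((2 * Real.pi * B) ^ 2) = 2 * Real.pi * B :=
      Real.sqrt_sq (by positivity)
    rw [e10, hT1, JJ, e11, ← hξdef]
    push_cast
    rw [mul_pow, mul_pow, mul_pow, mul_pow, mul_pow]
    have hBC : (B : ℂ) ≠ 0 := by exact_mod_cast hB.ne'
    have hπC : (Real.pi : ℂ) ≠ 0 := by exact_mod_cast hπ.ne'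
    field_simp
  have hsub : ff a z - ω * JJ ((2 * Real.pi * B) ^ 2) z * ff (cj a) z' = T2 + T3 := by
    rw [← hT1J]
    have e12 : ff a z = T1 + T2 + T3 := hid'
    rw [e12]
    ring
  rw [hsub]
  have hfin : y ^ (7/2 : ℝ) * ‖T2 + T3‖ ≤
      (‖κ‖ * (B ^ 5)⁻¹ * ((2 * Real.pi) ^ 6)⁻¹ * |Cb| * q ^ (25/8 : ℝ) * 2 + |D|) *
        y ^ (1/4 : ℝ) := by
    calc y ^ (7/2 : ℝ) * ‖T2 + T3‖ ≤ y ^ (7/2 : ℝ) * (‖T2‖ + ‖T3‖) :=
          mul_le_mul_of_nonneg_left (norm_add_le _ _) (by positivity)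
      _ = y ^ (7/2 : ℝ) * ‖T2‖ + y ^ (7/2 : ℝ) * ‖T3‖ := by ring
      _ ≤ _ := add_le_add hA hBt
      _ = _ := by ring
  have h72 : 0 < y ^ (7/2 : ℝ) := Real.rpow_pos_of_pos hy0 _
  have h13 : y ^ (1/4 : ℝ) = y ^ (7/2 : ℝ) * y ^ (-(13 / 4) : ℝ) := by
    rw [← Real.rpow_add hy0]; norm_num
  rw [h13] at hfin
  have hfin2 : y ^ (7/2 : ℝ) * ‖T2 + T3‖ ≤ y ^ (7/2 : ℝ) *
      ((‖κ‖ * (B ^ 5)⁻¹ * ((2 * Real.pi) ^ 6)⁻¹ * |Cb| * q ^ (25/8 : ℝ) * 2 + |D|) *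
        y ^ (-(13 / 4) : ℝ)) := by
    calc y ^ (7/2 : ℝ) * ‖T2 + T3‖ ≤ _ := hfin
      _ = _ := by ring
  exact le_of_mul_le_mul_left hfin2 h72

theorem Bp_conj (Q : ℝ) (lam : Fin k → ℝ) : Bp Q lam = Bp Q lam := rfl

theorem ff_conj (a : ℕ → ℂ) (z : ℂ) :
    ff a z = (starRingEnd ℂ) (ff (cj a) (-(starRingEnd ℂ) z)) := by
  unfold ff
  rw [gs_conj, cj_cj]
  congr 1
  rw [map_neg, map_mul, map_neg, Complex.conj_conj, Complex.conj_I]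
  ring

theorem JJ_conj (q : ℝ) (z : ℂ) :
    JJ q (-(starRingEnd ℂ) z) = (starRingEnd ℂ) (JJ q z) := by
  unfold JJ
  rw [map_inv₀, map_pow, map_mul, Complex.conj_ofReal, map_neg, map_mul, Complex.conj_I]
  congr 3
  ring

theorem inv_conj (q : ℝ) (z : ℂ) :
    -1 / ((q : ℂ) * -(starRingEnd ℂ) z) = -(starRingEnd ℂ) (-1 / ((q : ℂ) * z)) := by
  rw [map_div₀, map_mul, map_neg, map_one, Complex.conj_ofReal]
  rw [mul_neg, div_neg]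

theorem cstep (h : FEq a F Q lam mu ε) :
    ∃ ωm ωp : ℂ, CStep ((2 * Real.pi * Bp Q lam) ^ 2) a ωm ωp := by
  obtain ⟨ω, hω, C1, h1⟩ := cstep_left h
  obtain ⟨ω', hω', C2, h2⟩ := cstep_left h.conj
  set q : ℝ := (2 * Real.pi * Bp Q lam) ^ 2 with hq
  refine ⟨ω, (starRingEnd ℂ) ω', hω, by rw [RCLike.norm_conj]; exact hω', max C1 C2, ?_⟩
  intro z hy0 hy1 hz2 _
  have hpow : 0 ≤ z.im ^ (-(13 / 4) : ℝ) := (Real.rpow_pos_of_pos hy0 _).le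
  have m1 : C1 * z.im ^ (-(13 / 4) : ℝ) ≤ max C1 C2 * z.im ^ (-(13 / 4) : ℝ) :=
    mul_le_mul_of_nonneg_right (le_max_left _ _) hpow
  have m2 : C2 * z.im ^ (-(13 / 4) : ℝ) ≤ max C1 C2 * z.im ^ (-(13 / 4) : ℝ) :=
    mul_le_mul_of_nonneg_right (le_max_right _ _) hpow
  have him : (-(starRingEnd ℂ) z).im = z.im := by simp
  have hre : (-(starRingEnd ℂ) z).re = -z.re := by simp
  have hno : ‖-(starRingEnd ℂ) z‖ = ‖z‖ := by rw [norm_neg, RCLike.norm_conj]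
  refine ⟨fun hx => (h1 z hy0 hy1 hz2 hx).trans m1, fun hx => ?_, fun hx => ?_, fun hx => ?_⟩
  · have e1 := h2 (-(starRingEnd ℂ) z) (by rw [him]; exact hy0) (by rw [him]; exact hy1)
      (by rw [hno]; exact hz2) (by rw [hre]; linarith)
    rw [him, cj_cj, inv_conj, JJ_conj] at e1
    rw [← RCLike.norm_conj, map_sub, map_mul, map_mul, ← ff_conj, Complex.conj_conj] at e1
    have e2 : (starRingEnd ℂ) (ff a (-(starRingEnd ℂ) (-1 / ((q : ℂ) * z)))) =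
        ff (cj a) (-1 / ((q : ℂ) * z)) := by
      rw [ff_conj (cj a), cj_cj]
    rw [e2] at e1
    exact e1.trans m2
  · have e1 := h2 z hy0 hy1 hz2 hx
    rw [cj_cj] at e1
    rw [Complex.conj_conj]
    exact e1.trans m2
  · have e1 := h1 (-(starRingEnd ℂ) z) (by rw [him]; exact hy0) (by rw [him]; exact hy1)
      (by rw [hno]; exact hz2) (by rw [hre]; linarith)
    rw [him, inv_conj, JJ_conj] at e1
    rw [← RCLike.norm_conj, map_sub, map_mul, map_mul, Complex.conj_conj, ← ff_conj a] at e1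
    have e2 : (starRingEnd ℂ) (ff a (-(starRingEnd ℂ) z)) = ff (cj a) z := by
      rw [ff_conj (cj a), cj_cj]
    rw [e2] at e1
    exact e1.trans m1

end Pool.Agent.H11.SC
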