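import Mathlib
import Pool.Agent.H11.SC.Final
import Pool.Agent.H11.SC4.Norm2
import Pool.Agent.H11.SC5.StepC
import Pool.Agent.H11.SC5.Eul
import Pool.Agent.H11.SC5.Hid
import Pool.Agent.H80.Sel.MainX

/-!
# FINAL5: assembly for the conductors 5, 6, 7 (helper11)
-/

set_option autoImplicit false

namespace Pool.Agent.H11.SC

open Complex Pool.Agent.H11.Selberg

theorem rec_of_inv {a c2 c3 : ℕ → ℂ} (hl : Loc6 a c2 c3) (h3 : ∀ k : ℕ, 3 ≤ k → c2 k = 0) :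
    a 2 = -c2 1 ∧ ∀ k : ℕ, a (2 ^ (k + 2)) = a 2 * a (2 ^ (k + 1)) - c2 2 * a (2 ^ k) := by
  have h0 : c2 0 = 1 := by
    have := hl.inv2 0
    simpa [hl.one] using this
  have h1 : a 2 = -c2 1 := by
    have := hl.inv2 1
    simp [Finset.sum_range_succ, hl.one, h0] at this
    linear_combination this
  refine ⟨h1, fun k => ?_⟩
  have h2 := hl.inv2 (k + 2)
  rw [if_neg (by omega)] at h2
  have hs : ∑ j ∈ Finset.range (k + 2 + 1), c2 j * a (2 ^ (k + 2 - j)) =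
      ∑ j ∈ Finset.range 3, c2 j * a (2 ^ (k + 2 - j)) := by
    symm
    apply Finset.sum_subset
    · intro x hx
      rw [Finset.mem_range] at hx ⊢
      omega
    · intro x _ hx
      rw [Finset.mem_range] at hx
      rw [h3 x (by omega), zero_mul]
  rw [hs] at h2
  have e1 : k + 2 - 1 = k + 1 := by omega
  have e2 : k + 2 - 2 = k := by omega
  simp only [Finset.sum_range_succ, Finset.sum_range_zero, zero_add, Nat.sub_zero, e1, e2, h0,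
    one_mul] at h2
  rw [h1]
  linear_combination h2

/-- the Euler factor at `2` for conductors 5 and 7, and for conductor 6 -/
theorem euler_factor_567 (a : ℕ → ℂ) (F : ℂ → ℂ) (hS : IsSelberg a F) (G : ℂ → ℂ)
    (hG : Differentiable ℂ G) (hGF : ∀ s, s ≠ 1 → G s = F s)
    (Q : ℝ) (r : ℕ) (lam : Fin r → ℝ) (mu : Fin r → ℂ) (ε : ℂ)
    (hQ : 0 < Q) (hlam : ∀ j, 0 < lam j) (hmu : ∀ j, 0 ≤ (mu j).re) (hε : ‖ε‖ = 1)
    (hfe : ∀ s : ℂ, 0 < s.re → s.re < 1 →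
      completed Q lam mu F s =
        ε * (starRingEnd ℂ) (completed Q lam mu F (1 - (starRingEnd ℂ) s)))
    (hdeg : ∑ j, lam j = 1) :
    (((2 * Real.pi) ^ 2 * Q ^ 2 * ∏ j, (lam j) ^ (2 * lam j) = 5 ∨
      (2 * Real.pi) ^ 2 * Q ^ 2 * ∏ j, (lam j) ^ (2 * lam j) = 7) →
      ∃ ω : ℂ, ‖ω‖ = 1 ∧ a 2 = ω * (starRingEnd ℂ) (a 2) ∧
        ∀ k : ℕ, a (2 ^ (k + 2)) = a 2 * a (2 ^ (k + 1)) - ω * a (2 ^ k)) ∧
    ((2 * Real.pi) ^ 2 * Q ^ 2 * ∏ j, (lam j) ^ (2 * lam j) = 6 →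
      ‖a 2‖ ^ 2 = 1 / 2 ∧ ∀ k : ℕ, a (2 ^ (k + 1)) = a 2 * a (2 ^ k)) := by
  obtain ⟨δ, F', mu', ε', h, -⟩ := normalise2 a F hS G hG hGF Q r lam mu ε hQ hlam hmu hε hfe
    hdeg
  obtain ⟨c2, c3, hl⟩ := loc6_exists a F hS
  obtain ⟨c2', c3', hl'⟩ := hl.twist δ
  obtain ⟨ωm, ωp, hst⟩ := cstep h
  have hram := h.ram
  rw [cond_eq Q r lam hlam]
  set ζ : ℂ := (2 : ℂ) ^ (-(δ * I) : ℂ) with hζ
  have hζ1 : ‖ζ‖ = 1 := by
    have := Complex.norm_natCast_cpow_of_pos (n := 2) (by norm_num) (-(δ * I) : ℂ)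
    have h2 : (-(δ * I) : ℂ).re = 0 := by simp
    rw [h2, Real.rpow_zero] at this
    exact_mod_cast this
  have hζc : ζ * (starRingEnd ℂ) ζ = 1 := by
    rw [Complex.mul_conj, Complex.normSq_eq_norm_sq, hζ1]
    norm_num
  have hζ0 : ζ ≠ 0 := by
    intro h0
    rw [h0, norm_zero] at hζ1
    norm_num at hζ1
  have htw : ∀ k : ℕ, a (2 ^ k) * ((2 ^ k : ℕ) : ℂ) ^ (-(δ * I) : ℂ) = a (2 ^ k) * ζ ^ k := by
    intro k
    congr 1
    induction k with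
    | zero => simp
    | succ n ih =>
      rw [pow_succ, Nat.cast_mul, Complex.natCast_mul_natCast_cpow, ih, pow_succ, hζ]
      norm_num
  have ht1 : a 2 * ((2 : ℕ) : ℂ) ^ (-(δ * I) : ℂ) = a 2 * ζ := by
    have := htw 1
    simpa using this
  constructor
  · intro hq
    have hst' : ∃ q : ℝ, (q = 5 ∨ q = 7) ∧ CStep q (fun n => a n * (n : ℂ) ^ (-(δ * I) : ℂ)) ωm ωp := by
      rcases hq with hq | hq <;> rw [hq] at hst
      · exact ⟨5, Or.inl rfl, hst⟩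
      · exact ⟨7, Or.inr rfl, hst⟩
    obtain ⟨q, hq57, hst'⟩ := hst'
    obtain ⟨h3, hn, hc⟩ := euler57 hq57 hl' hst' hram
    obtain ⟨ha2, hrec⟩ := rec_of_inv hl' h3
    rw [ht1] at ha2
    have hrec' : ∀ k : ℕ, a (2 ^ (k + 2)) * ((2 ^ (k + 2) : ℕ) : ℂ) ^ (-(δ * I) : ℂ) =
        a 2 * ζ * (a (2 ^ (k + 1)) * ((2 ^ (k + 1) : ℕ) : ℂ) ^ (-(δ * I) : ℂ)) -
          c2' 2 * (a (2 ^ k) * ((2 ^ k : ℕ) : ℂ) ^ (-(δ * I) : ℂ)) := by
      intro k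
      rw [← ht1]
      exact hrec k
    refine ⟨c2' 2 * (starRingEnd ℂ) ζ ^ 2, ?_, ?_, ?_⟩
    · rw [norm_mul, norm_pow, RCLike.norm_conj, hζ1, hn]
      norm_num
    · have e1 : a 2 * ζ = c2' 2 * (starRingEnd ℂ) (a 2 * ζ) := by
        rw [ha2, map_neg]
        linear_combination -hc
      rw [map_mul] at e1
      have e2 : a 2 = a 2 * ζ * (starRingEnd ℂ) ζ := by
        rw [mul_assoc, hζc, mul_one]
      calc a 2 = a 2 * ζ * (starRingEnd ℂ) ζ := e2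
        _ = c2' 2 * ((starRingEnd ℂ) (a 2) * (starRingEnd ℂ) ζ) * (starRingEnd ℂ) ζ := by rw [e1]
        _ = _ := by ring
    · intro k
      have e1 := hrec' k
      rw [htw, htw, htw] at e1
      apply mul_right_cancel₀ (pow_ne_zero (k + 2) hζ0)
      linear_combination e1 + c2' 2 * a (2 ^ k) * ζ ^ k * (ζ * (starRingEnd ℂ) ζ + 1) * hζc
  · intro hq
    rw [hq] at hst
    obtain ⟨h2, hn⟩ := euler6 hl' hst hram
    obtain ⟨ha2, hrec⟩ := rec_of_inv hl' (fun k hk => h2 k (by omega))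
    rw [ht1] at ha2
    have hrec' : ∀ k : ℕ, a (2 ^ (k + 2)) * ((2 ^ (k + 2) : ℕ) : ℂ) ^ (-(δ * I) : ℂ) =
        a 2 * ζ * (a (2 ^ (k + 1)) * ((2 ^ (k + 1) : ℕ) : ℂ) ^ (-(δ * I) : ℂ)) -
          c2' 2 * (a (2 ^ k) * ((2 ^ k : ℕ) : ℂ) ^ (-(δ * I) : ℂ)) := by
      intro k
      rw [← ht1]
      exact hrec k
    refine ⟨?_, ?_⟩
    · have : ‖a 2‖ = ‖c2' 1‖ := by
        have e := congrArg norm ha2
        rwa [norm_mul, hζ1, mul_one, norm_neg] at e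
      rw [this, hn]
    · intro k
      rcases k with _ | k
      · have h1 : a 1 = 1 := hl.one
        simp [h1]
      · have e1 := hrec' k
        rw [htw, htw, htw, h2 2 le_rfl] at e1
        apply mul_right_cancel₀ (pow_ne_zero (k + 2) hζ0)
        linear_combination e1

theorem conductor_567 (a : ℕ → ℂ) (F : ℂ → ℂ) (hS : IsSelberg a F) (G : ℂ → ℂ)
    (hG : Differentiable ℂ G) (hGF : ∀ s, s ≠ 1 → G s = F s)
    (Q : ℝ) (r : ℕ) (lam : Fin r → ℝ) (mu : Fin r → ℂ) (ε : ℂ)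
    (hQ : 0 < Q) (hlam : ∀ j, 0 < lam j) (hmu : ∀ j, 0 ≤ (mu j).re) (hε : ‖ε‖ = 1)
    (hfe : ∀ s : ℂ, 0 < s.re → s.re < 1 →
      completed Q lam mu F s =
        ε * (starRingEnd ℂ) (completed Q lam mu F (1 - (starRingEnd ℂ) s)))
    (hdeg : 2 * ∑ j, lam j = 2)
    (hcond : (2 * Real.pi) ^ 2 * Q ^ 2 * ∏ j, (lam j) ^ (2 * lam j) = 5 ∨
      (2 * Real.pi) ^ 2 * Q ^ 2 * ∏ j, (lam j) ^ (2 * lam j) = 6 ∨
      (2 * Real.pi) ^ 2 * Q ^ 2 * ∏ j, (lam j) ^ (2 * lam j) = 7) :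
    ∃ C : ℝ, ∀ x : ℝ, 2 ≤ x → |S a x - Real.log (Real.log x)| ≤ C := by
  have hdeg' : ∑ j, lam j = 1 := by linarith
  obtain ⟨h57, h6⟩ := euler_factor_567 a F hS G hG hGF Q r lam mu ε hQ hlam hmu hε hfe hdeg'
  refine Pool.Agent.H80.Sel.mainX a F G Q lam mu ε hS hG hGF hQ hlam hmu hε hfe hdeg' 1 le_rfl
    (fun n hn => absurd (by omega) hn) ?_
  unfold Pool.Agent.H80.Sel.Cases Pool.Agent.H14.Sel.cond
  have h22 : (1 : ℝ) < Real.sqrt 2 := by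
    rw [show (1 : ℝ) = Real.sqrt 1 by simp]
    exact Real.sqrt_lt_sqrt (by norm_num) (by norm_num)
  rcases hcond with hc | hc | hc
  · obtain ⟨ω, h1, h2, h3⟩ := h57 (Or.inl hc)
    exact Or.inr (Or.inl ⟨odd_one, by rw [hc]; norm_num, ω, h1, h2, h3⟩)
  · obtain ⟨h1, h2⟩ := h6 hc
    exact Or.inr (Or.inr ⟨odd_one, by rw [hc]; push_cast; linarith, h1, h2⟩)
  · obtain ⟨ω, h1, h2, h3⟩ := h57 (Or.inr hc)
    exact Or.inr (Or.inl ⟨odd_one, by rw [hc]; norm_num, ω, h1, h2, h3⟩)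

end Pool.Agent.H11.SC
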